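import Pool.Agent.Lib.Pc0b458P.Dom

/-!
# Module Andr: the averages of the Vandermonde products (about 1.8h)

`dd u univ = |det M|^2` for the matrix `M i j = (u i).1^(m-1-j) * (u i).2^j`
(`Matrix.det_projVandermonde`; each unordered pair occurs twice in `offDiag`).
Expand `|det M|^2 = ∑ σ, ∑ τ, sign σ * sign τ * ∏ i, M i (σ i) * conj (M i (τ i))` and integrate term by term
(`integral_finsetSum`, `integral_fintype_prod_eq_prod` for `gamN (Fin m) = Measure.pi ..`; everything is integrable by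
`Integrable.fintype_prod` and `integrable_mono`). By `mom` the factor `i` vanishes unless `σ i = τ i`; so only `σ = τ`
remains and gives `∏ i, π^2 Γ(m - σ i) Γ(σ i + 1 + r/2) = ∏ j, π^2 Γ(m - j) Γ(j + 1 + r/2)`.

The integrability statement follows from `integrable_of_le`, or from the expansion.
-/

open MeasureTheory Finset ComplexConjugate

namespace Pc0b458P

namespace AndrAux

variable {m : ℕ}

/-- the projective Vandermonde matrix -/
noncomputable def MM (u : Fin m → ℂ × ℂ) : Matrix (Fin m) (Fin m) ℂ :=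
  Matrix.projVandermonde (fun i => (u i).2) (fun i => (u i).1)

theorem offDiag_prod (f : Fin m → Fin m → ℝ) (hf : ∀ i j, f i j = f j i) :
    ∏ p ∈ (univ : Finset (Fin m)).offDiag, f p.1 p.2 = (∏ i, ∏ j ∈ Ioi i, f i j) ^ 2 := by
  classical
  have h1 : ∏ p ∈ (univ : Finset (Fin m)).offDiag with p.1 < p.2, f p.1 p.2 =
      ∏ i, ∏ j ∈ Ioi i, f i j := by
    rw [Finset.prod_sigma']
    refine Finset.prod_nbij' (fun p => ⟨p.1, p.2⟩) (fun p => (p.1, p.2)) ?_ ?_ ?_ ?_ ?_
    · intro p hp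
      simp only [mem_filter] at hp
      simp [hp.2]
    · intro p hp
      simp only [mem_sigma, mem_univ, mem_Ioi, true_and] at hp
      simp [hp, hp.ne]
    · intro p _; rfl
    · intro p _; rfl
    · intro p _; rfl
  have h2 : ∏ p ∈ (univ : Finset (Fin m)).offDiag with ¬ p.1 < p.2, f p.1 p.2 =
      ∏ p ∈ (univ : Finset (Fin m)).offDiag with p.1 < p.2, f p.1 p.2 := by
    refine Finset.prod_nbij' (fun p => (p.2, p.1)) (fun p => (p.2, p.1)) ?_ ?_ ?_ ?_ ?_
    · intro p hp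
      simp only [mem_filter, mem_offDiag, mem_univ, true_and] at hp ⊢
      exact ⟨fun h => hp.1 h.symm, lt_of_le_of_ne (not_lt.1 hp.2) (fun h => hp.1 h.symm)⟩
    · intro p hp
      simp only [mem_filter, mem_offDiag, mem_univ, true_and] at hp ⊢
      exact ⟨fun h => hp.1 h.symm, not_lt.2 hp.2.le⟩
    · intro p _; rfl
    · intro p _; rfl
    · intro p _; exact hf _ _
  rw [← Finset.prod_filter_mul_prod_filter_not _ (fun p : Fin m × Fin m => p.1 < p.2), h2, h1, sq]

theorem br_symm (p q : ℂ × ℂ) : ‖br p q‖ = ‖br q p‖ := by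
  have : br p q = -br q p := by unfold br; ring
  rw [this, norm_neg]

theorem dd_eq (u : Fin m → ℂ × ℂ) :
    ((dd u univ : ℝ) : ℂ) = (MM u).det * conj (MM u).det := by
  rw [Complex.mul_conj, Complex.normSq_eq_norm_sq, MM, Matrix.det_projVandermonde]
  congr 1
  unfold dd
  rw [offDiag_prod (fun i j => ‖br (u i) (u j)‖) (fun i j => br_symm _ _), norm_prod]
  congr 1
  refine Finset.prod_congr rfl fun i _ => ?_
  rw [norm_prod]
  refine Finset.prod_congr rfl fun j _ => ?_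
  congr 1
  unfold br
  ring

/-- a factor of the expansion -/
noncomputable def fac (r m a b : ℕ) (x : ℂ × ℂ) : ℂ :=
  (x.1 ^ (m - 1 - a) * conj x.1 ^ (m - 1 - b) * (x.2 ^ a * conj x.2 ^ b)) *
      ((‖x.2‖ ^ r : ℝ) : ℂ)

theorem expand (r : ℕ) (u : Fin m → ℂ × ℂ) :
    ((dd u univ * ∏ i, ‖(u i).2‖ ^ r : ℝ) : ℂ) =
      ∑ σ : Equiv.Perm (Fin m), ∑ τ : Equiv.Perm (Fin m),
        (((Equiv.Perm.sign σ : ℤ) : ℂ) * ((Equiv.Perm.sign τ : ℤ) : ℂ)) *
          ∏ i, fac r m (σ i) (τ i) (u i) := by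
  rw [Complex.ofReal_mul, dd_eq, ← Matrix.det_transpose, Matrix.det_apply', map_sum,
    Finset.sum_mul_sum, Finset.sum_mul]
  refine Finset.sum_congr rfl fun σ _ => ?_
  rw [Finset.sum_mul]
  refine Finset.sum_congr rfl fun τ _ => ?_
  rw [map_mul, map_prod, Complex.ofReal_prod]
  have hs : (starRingEnd ℂ) (((Equiv.Perm.sign τ : ℤ) : ℂ)) = ((Equiv.Perm.sign τ : ℤ) : ℂ) :=
    map_intCast _ _
  rw [hs]
  have h1 : ∏ i, fac r m (σ i) (τ i) (u i) = (∏ i, (MM u).transpose (σ i) i) *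
      (∏ i, conj ((MM u).transpose (τ i) i)) * ∏ i, ((‖(u i).2‖ ^ r : ℝ) : ℂ) := by
    rw [← Finset.prod_mul_distrib, ← Finset.prod_mul_distrib]
    refine Finset.prod_congr rfl fun i _ => ?_
    rw [Matrix.transpose_apply, Matrix.transpose_apply, MM, Matrix.projVandermonde_apply,
      Matrix.projVandermonde_apply, Fin.val_rev, Fin.val_rev, map_mul, map_pow, map_pow]
    unfold fac
    have e1 : m - ((σ i : ℕ) + 1) = m - 1 - σ i := by omega
    have e2 : m - ((τ i : ℕ) + 1) = m - 1 - τ i := by omega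
    rw [e1, e2]
    ring
  rw [h1]
  ring

theorem fac_integrable (r m a b : ℕ) : Integrable (fac r m a b) gam := by
  refine (integrable_mono (m - 1 - a + (m - 1 - b)) (a + b + r)).mono' ?_ ?_
  · apply Measurable.aestronglyMeasurable
    unfold fac
    fun_prop
  · refine Filter.Eventually.of_forall fun x => le_of_eq ?_
    unfold fac
    rw [norm_mul, norm_mul, norm_mul, norm_mul, norm_pow, norm_pow, norm_pow, norm_pow,
      RCLike.norm_conj, RCLike.norm_conj, Complex.norm_real, norm_pow, norm_norm, pow_add,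
      pow_add, pow_add]
    ring

theorem term_integrable (r : ℕ) (σ τ : Equiv.Perm (Fin m)) :
    Integrable (fun u : Fin m → ℂ × ℂ =>
      (((Equiv.Perm.sign σ : ℤ) : ℂ) * ((Equiv.Perm.sign τ : ℤ) : ℂ)) *
          ∏ i, fac r m (σ i) (τ i) (u i)) (gamN (Fin m)) := by
  apply Integrable.const_mul
  exact Integrable.fintype_prod (f := fun i => fac r m (σ i) (τ i)) fun i => fac_integrable _ _ _ _

theorem cplx_integrable (r m : ℕ) :
    Integrable (fun u : Fin m → ℂ × ℂ => ((dd u univ * ∏ i, ‖(u i).2‖ ^ r : ℝ) : ℂ))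
      (gamN (Fin m)) := by
  have e : (fun u : Fin m → ℂ × ℂ => ((dd u univ * ∏ i, ‖(u i).2‖ ^ r : ℝ) : ℂ)) =
      fun u => ∑ σ : Equiv.Perm (Fin m), ∑ τ : Equiv.Perm (Fin m),
        (((Equiv.Perm.sign σ : ℤ) : ℂ) * ((Equiv.Perm.sign τ : ℤ) : ℂ)) *
          ∏ i, fac r m (σ i) (τ i) (u i) := funext fun u => expand r u
  rw [e]
  exact integrable_finsetSum _ fun σ _ => integrable_finsetSum _ fun τ _ =>
    term_integrable r σ τ

theorem fac_integral (r : ℕ) (a b : Fin m) : ∫ x, fac r m a b x ∂gam =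
    if a = b then
      ((Real.pi ^ 2 * Real.Gamma ((m : ℝ) - (a : ℕ)) * Real.Gamma ((a : ℕ) + 1 + r / 2) : ℝ) : ℂ)
    else 0 := by
  unfold fac
  rw [mom]
  by_cases h : a = b
  · subst h
    rw [if_pos ⟨rfl, rfl⟩, if_pos rfl]
    have e : ((m - 1 - (a : ℕ) : ℕ) : ℝ) + 1 = (m : ℝ) - (a : ℕ) := by
      have h1 : (m - 1 - (a : ℕ)) + 1 + (a : ℕ) = m := by have := a.2; omega
      have h2 : ((m - 1 - (a : ℕ) : ℕ) : ℝ) + 1 + ((a : ℕ) : ℝ) = m := by exact_mod_cast h1
      linarith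
    rw [e]
  · rw [if_neg h, if_neg (fun h' => h (Fin.ext h'.2))]

end AndrAux

open AndrAux

theorem integrable_II (r m : ℕ) :
    Integrable (fun u : Fin m → ℂ × ℂ => dd u univ * ∏ i, ‖(u i).2‖ ^ r) (gamN (Fin m)) := by
  exact (cplx_integrable r m).re

theorem II_eq (r m : ℕ) :
    II r m = (m.factorial : ℝ) * ∏ j ∈ range m,
      (Real.pi ^ 2 * Real.Gamma ((m : ℝ) - j) * Real.Gamma ((j : ℝ) + 1 + r / 2)) := by
  classical
  set c : Fin m → ℝ := fun j => Real.pi ^ 2 * Real.Gamma ((m : ℝ) - (j : ℕ)) *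
    Real.Gamma ((j : ℕ) + 1 + r / 2) with hc
  have h1 : ((II r m : ℝ) : ℂ) = ∑ σ : Equiv.Perm (Fin m), ∏ i, ((c (σ i) : ℝ) : ℂ) := by
    unfold II
    rw [← integral_complex_ofReal]
    have e : ∀ u : Fin m → ℂ × ℂ, ((dd u univ * ∏ i, ‖(u i).2‖ ^ r : ℝ) : ℂ) = _ :=
      fun u => expand r u
    simp_rw [e]
    rw [integral_finsetSum _ fun σ _ => integrable_finsetSum _ fun τ _ => term_integrable r σ τ]
    refine Finset.sum_congr rfl fun σ _ => ?_
    rw [integral_finsetSum _ fun τ _ => term_integrable r σ τ]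
    have h2 : ∀ τ : Equiv.Perm (Fin m), ∫ u : Fin m → ℂ × ℂ,
        (((Equiv.Perm.sign σ : ℤ) : ℂ) * ((Equiv.Perm.sign τ : ℤ) : ℂ)) *
          ∏ i, fac r m (σ i) (τ i) (u i) ∂(gamN (Fin m)) =
        if τ = σ then ∏ i, ((c (σ i) : ℝ) : ℂ) else 0 := by
      intro τ
      rw [integral_const_mul]
      have h3 : ∫ u : Fin m → ℂ × ℂ, ∏ i, fac r m (σ i) (τ i) (u i) ∂(gamN (Fin m)) =
          ∏ i, ∫ x, fac r m (σ i) (τ i) x ∂gam :=
        integral_fintype_prod_eq_prod (fun i => fac r m (σ i) (τ i))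
      rw [h3]
      by_cases hτ : τ = σ
      · subst hτ
        rw [if_pos rfl]
        have h4 : ((Equiv.Perm.sign τ : ℤ) : ℂ) * ((Equiv.Perm.sign τ : ℤ) : ℂ) = 1 := by
          rw [← Int.cast_mul, ← Units.val_mul, Int.units_mul_self]
          simp
        rw [h4, one_mul]
        refine Finset.prod_congr rfl fun i _ => ?_
        rw [fac_integral, if_pos rfl]
      · rw [if_neg hτ]
        have h5 : ∃ i, τ i ≠ σ i := by
          by_contra h
          push Not at h
          exact hτ (Equiv.ext h)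
        obtain ⟨i, hi⟩ := h5
        rw [Finset.prod_eq_zero (Finset.mem_univ i), mul_zero]
        rw [fac_integral, if_neg (fun h => hi h.symm)]
    rw [Finset.sum_congr rfl fun τ _ => h2 τ, Finset.sum_ite_eq' univ σ, if_pos (mem_univ _)]
  have h6 : ∀ σ : Equiv.Perm (Fin m), ∏ i, ((c (σ i) : ℝ) : ℂ) = ((∏ j, c j : ℝ) : ℂ) := by
    intro σ
    rw [Complex.ofReal_prod]
    exact Equiv.prod_comp σ (fun j => ((c j : ℝ) : ℂ))
  rw [Finset.sum_congr rfl fun σ _ => h6 σ, Finset.sum_const, nsmul_eq_mul, Finset.card_univ,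
    Fintype.card_perm, Fintype.card_fin] at h1
  have h7 : II r m = (m.factorial : ℝ) * ∏ j, c j := by
    have h8 : ((II r m : ℝ) : ℂ) = (((m.factorial : ℝ) * ∏ j, c j : ℝ) : ℂ) := by
      rw [h1]; push_cast; rfl
    exact Complex.ofReal_injective h8
  rw [h7, Finset.prod_range]

theorem II_pos (r m : ℕ) : 0 < II r m := by
  rw [II_eq]
  refine mul_pos (by exact_mod_cast m.factorial_pos) (Finset.prod_pos fun j hj => ?_)
  have hj' : (j : ℝ) < m := by exact_mod_cast Finset.mem_range.1 hj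
  have h1 : 0 < Real.Gamma ((m : ℝ) - j) := Real.Gamma_pos_of_pos (by linarith)
  have h2 : 0 < Real.Gamma ((j : ℝ) + 1 + r / 2) := Real.Gamma_pos_of_pos (by positivity)
  have := Real.pi_pos
  positivity

end Pc0b458P
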