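import Mathlib

/-!
# Test configurations

Points `ξ l` of `ℂ²`, weights `ω l`, and the two sums `N0`, `N1` over colourings with three
colours. The analytic part (`Points`) finds points with `C * N0 < N1` for every `C`; the algebraic
part (`Test`) shows that `N0 + Y * N1` is the degree of a product of test classes.
-/

open Finset

namespace Pc0b458P

/-- the bracket of two vectors in the plane -/
def br (p q : ℂ × ℂ) : ℂ := p.1 * q.2 - p.2 * q.1

/-- the square of the absolute value of the Vandermonde product of the points in `S` -/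
noncomputable def dd {X : Type} [DecidableEq X] (ξ : X → ℂ × ℂ) (S : Finset X) : ℝ :=
  ∏ p ∈ S.offDiag, ‖br (ξ p.1) (ξ p.2)‖

section Sums

variable {X : Type} [Fintype X] [DecidableEq X]

/-- the sites other than `x` of colour `s`; the site `x` is added for the two colours which
are not the colour of `x` -/
def H0 (κ : X → Fin 3) (x : X) (s : Fin 3) : Finset X :=
  if s = κ x then univ.filter fun l => l ≠ x ∧ κ l = s
  else insert x (univ.filter fun l => l ≠ x ∧ κ l = s)

/-- the sites other than `x` and `y` of colour `s` -/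
def H1 (κ : X → Fin 3) (x y : X) (s : Fin 3) : Finset X :=
  univ.filter fun l => l ≠ x ∧ l ≠ y ∧ κ l = s

/-- the diagonal sum -/
noncomputable def N0 (m : ℕ) (ξ : X → ℂ × ℂ) (ω : X → ℝ) : ℝ :=
  ∑ κ : X → Fin 3, ∑ x : X,
    if ∀ s, (H0 κ x s).card = m + 1 then ω x ^ 2 * ∏ s, dd ξ (H0 κ x s) else 0

/-- the term of the off-diagonal sum -/
noncomputable def t1 (ξ : X → ℂ × ℂ) (ω : X → ℝ) (κ : X → Fin 3) (x y : X) : ℝ :=
  ω x * ω y * (∏ l ∈ univ.filter fun l => l ≠ x ∧ l ≠ y, ‖br (ξ l) (ξ x)‖ * ‖br (ξ l) (ξ y)‖) *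
    ∏ s, dd ξ (H1 κ x y s)

/-- the off-diagonal sum -/
noncomputable def N1 (m : ℕ) (ξ : X → ℂ × ℂ) (ω : X → ℝ) : ℝ :=
  ∑ κ : X → Fin 3, ∑ x : X, ∑ y : X,
    if x ≠ y ∧ κ x = 0 ∧ κ y = 0 ∧ ∀ s, (H1 κ x y s).card = m then t1 ξ ω κ x y else 0

end Sums

end Pc0b458P
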