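import Pool.Agent.Lib.Pc0b458P.Vec

/-!
# The cohomology of powers of an abelian variety with complex multiplication

`HV Φ X` is the first cohomology of `A^X`, with complex coefficients, for an abelian variety `A` with
complex multiplication by a CM algebra `E`, where `Φ` is a set of representatives of the
embeddings of `E` in `ℂ` modulo complex conjugation: the unit vector with index `(s, true, x)` spans
the part of the factor `x` on which `E` acts through `s`, and `(s, false, x)` the one where `E` acts
through the complex conjugate of `s`. The cohomology ring is the exterior algebra.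
-/

open Finset ComplexConjugate

namespace Pc0b458P

/-- the first cohomology -/
abbrev HV (Φ X : Type) := Φ × Bool × X → ℂ

/-- the cohomology ring -/
abbrev HH (Φ X : Type) := ExteriorAlgebra ℂ (HV Φ X)

/-- the centre of the cohomology ring; it contains the classes of even degree -/
abbrev HC (Φ X : Type) := Subalgebra.center ℂ (HH Φ X)

section

variable {Φ X : Type} [DecidableEq Φ] [DecidableEq X]

/-- unit vectors -/
noncomputable def ee (s : Φ) (b : Bool) (x : X) : HV Φ X := Pi.single (s, b, x) 1

/-- the inclusion of the part for `s` and `b` -/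
noncomputable def inj (s : Φ) (b : Bool) : (X → ℂ) →ₗ[ℂ] HV Φ X where
  toFun v i := if i.1 = s ∧ i.2.1 = b then v i.2.2 else 0
  map_add' u v := by
    funext i
    simp only [Pi.add_apply]
    split_ifs <;> simp
  map_smul' c v := by
    funext i
    simp only [Pi.smul_apply, RingHom.id_apply]
    split_ifs <;> simp

omit [DecidableEq Φ] [DecidableEq X] in
theorem ev_mem (u v : HV Φ X) :
    ExteriorAlgebra.ι ℂ u * ExteriorAlgebra.ι ℂ v ∈ Subalgebra.center ℂ (HH Φ X) := by
  have key : ∀ a b : HV Φ X, ExteriorAlgebra.ι ℂ a * ExteriorAlgebra.ι ℂ b =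
      -(ExteriorAlgebra.ι ℂ b * ExteriorAlgebra.ι ℂ a) := by
    intro a b
    have h := ExteriorAlgebra.ι_add_mul_swap (R := ℂ) a b
    exact eq_neg_of_add_eq_zero_left h
  rw [Subalgebra.mem_center_iff]
  intro z
  induction z using ExteriorAlgebra.induction with
  | algebraMap r => exact Algebra.commutes r _
  | ι x =>
    calc ExteriorAlgebra.ι ℂ x * (ExteriorAlgebra.ι ℂ u * ExteriorAlgebra.ι ℂ v)
        = (ExteriorAlgebra.ι ℂ x * ExteriorAlgebra.ι ℂ u) * ExteriorAlgebra.ι ℂ v := by
          rw [mul_assoc]
      _ = -(ExteriorAlgebra.ι ℂ u * (ExteriorAlgebra.ι ℂ x * ExteriorAlgebra.ι ℂ v)) := by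
          rw [key x u, neg_mul, mul_assoc]
      _ = ExteriorAlgebra.ι ℂ u * (ExteriorAlgebra.ι ℂ v * ExteriorAlgebra.ι ℂ x) := by
          rw [key x v, mul_neg, neg_neg]
      _ = _ := by rw [mul_assoc]
  | mul a b ha hb => rw [mul_assoc, hb, ← mul_assoc, ha, mul_assoc]
  | add a b ha hb => rw [add_mul, ha, hb, mul_add]

/-- the product of two vectors -/
noncomputable def ev (u v : HV Φ X) : HC Φ X :=
  ⟨ExteriorAlgebra.ι ℂ u * ExteriorAlgebra.ι ℂ v, ev_mem u v⟩

/-- the class `∑ s, v_s ∧ conj v_s`: the pull-back of the polarisation under a homomorphism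
`A^X → A` given by the vectors `v s` -/
noncomputable def Dv [Fintype Φ] (v : Φ → X → ℂ) : HC Φ X :=
  ∑ s, ev (inj s true (v s)) (inj s false (cj (v s)))

/-- the unit vector at `x` for every `s` -/
noncomputable def dls (x : X) : Φ → X → ℂ := fun _ => dl x

/-- the product of the four vectors of `J` at `x` -/
noncomputable def e4 (J : Fin 4 → Φ) (b : Bool) (x : X) : HC Φ X :=
  ev (ee (J 0) b x) (ee (J 1) b x) * ev (ee (J 2) b x) (ee (J 3) b x)

/-- the product of the four vectors with indices `(J i, b i)` at `x` -/
noncomputable def m4 (J : Fin 4 → Φ) (b : Fin 4 → Bool) (x : X) : HC Φ X :=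
  ev (ee (J 0) (b 0) x) (ee (J 1) (b 1) x) * ev (ee (J 2) (b 2) x) (ee (J 3) (b 3) x)

/-- the sign of a sign vector -/
def sgb (b : Fin 4 → Bool) : ℂ := ∏ i, if b i then 1 else -1

/-- the top class -/
noncomputable def topF [Fintype Φ] [Fintype X] : HC Φ X :=
  ∏ s : Φ, ∏ x : X, ev (ee s true x) (ee s false x)

/-- pull-back on the first cohomology under the homomorphism `A^X → A` given by `v` -/
noncomputable def pb (v : Φ → X → ℂ) : HV Φ Unit →ₗ[ℂ] HV Φ X where
  toFun f i := (if i.2.1 then v i.1 i.2.2 else conj (v i.1 i.2.2)) * f (i.1, i.2.1, ())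
  map_add' f g := by
    funext i
    simp only [Pi.add_apply, mul_add]
  map_smul' c f := by
    funext i
    simp only [Pi.smul_apply, RingHom.id_apply, smul_eq_mul]
    ring

end

end Pc0b458P
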