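import Pool.Agent.Lib.Pc0b458P.Theory

/-!
# Module Cone: the square of the polarisation is interior to the effective cone (about 0.8h)

Write `z = ∑ k, a k • cl (x k)` with real `a k` and `x k ∈ cod A 2` (elements of a span). By `pol_int` for `x k` and for
`- x k` there are rational `r k > 0` with `r k • L^2 ± x k` effective (take for `r k` different numbers for the two signs). Put
`t₀ = 1 / (1 + ∑ |a k| r k)`. For `|t| ≤ t₀`:
`L^2 + t z = ∑_k |t a k| • cl (r k • L^2 + sign(t a k) x k) + (1 - ∑_k |t a k| r k) • cl (L^2)`, and `L^2` is effective by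
`pol_eff` and `eff_mul` (`cl` is a ring homomorphism and commutes with rational scalars).
-/

universe u

open Pc0b458 Finset ComplexConjugate

namespace Pc0b458P

variable {T : NumTheory.{u}} {W : EffData T} {A : T.AV} {L : T.Z A} (d : CMData T W A L)

namespace ConeAux

/-- the cycle class map, additive -/
noncomputable def clh : T.Z A →+ HH d.Φ Unit where
  toFun x := (d.cl x : HH d.Φ Unit)
  map_zero' := by simp
  map_add' x y := by simp

section
variable {Φ : Type}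
theorem rsm (a : ℝ) (x : HH Φ Unit) : a • x = (a : ℂ) • x := rfl
theorem r_smul_add (a : ℝ) (x y : HH Φ Unit) : a • (x + y) = a • x + a • y := smul_add a x y
theorem r_add_smul (a b : ℝ) (x : HH Φ Unit) : (a + b) • x = a • x + b • x := add_smul a b x
theorem r_sub_smul (a b : ℝ) (x : HH Φ Unit) : (a - b) • x = a • x - b • x := sub_smul a b x
theorem r_smul_smul (a b : ℝ) (x : HH Φ Unit) : a • b • x = (a * b) • x := smul_smul a b x
theorem r_one_smul (x : HH Φ Unit) : (1 : ℝ) • x = x := one_smul ℝ x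
theorem r_zero_smul (x : HH Φ Unit) : (0 : ℝ) • x = 0 := zero_smul ℝ x
theorem r_neg_smul (a : ℝ) (x : HH Φ Unit) : (-a) • x = -(a • x) := neg_smul a x
theorem r_smul_neg (a : ℝ) (x : HH Φ Unit) : a • -x = -(a • x) := smul_neg a x
theorem r_smul_sum {n : ℕ} (a : ℝ) (x : Fin n → HH Φ Unit) : a • ∑ k, x k = ∑ k, a • x k :=
  Finset.smul_sum
end

theorem clh_smul (r : ℚ) (x : T.Z A) :
    (d.cl (r • x) : HH d.Φ Unit) = (r : ℝ) • (d.cl x : HH d.Φ Unit) := by
  have h := map_ratCast_smul (clh d) ℚ ℝ r x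
  rw [Rat.cast_id] at h
  exact h

theorem pc_zero (i : ℕ) : (0 : HH d.Φ Unit) ∈ d.pc i :=
  ⟨0, Fin.elim0, Fin.elim0, fun k => k.elim0, fun k => k.elim0, by simp⟩

theorem pc_add {i : ℕ} {z w : HH d.Φ Unit} (hz : z ∈ d.pc i) (hw : w ∈ d.pc i) : z + w ∈ d.pc i := by
  obtain ⟨n, r, x, hr, hx, rfl⟩ := hz
  obtain ⟨m, s, y, hs, hy, rfl⟩ := hw
  refine ⟨n + m, Fin.append r s, Fin.append x y, fun k => ?_, fun k => ?_, ?_⟩
  · refine Fin.addCases (fun k => ?_) (fun k => ?_) k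
    · rw [Fin.append_left]; exact hr k
    · rw [Fin.append_right]; exact hs k
  · refine Fin.addCases (fun k => ?_) (fun k => ?_) k
    · rw [Fin.append_left]; exact hx k
    · rw [Fin.append_right]; exact hy k
  · rw [Fin.sum_univ_add]
    simp only [Fin.append_left, Fin.append_right]

theorem pc_smul {i : ℕ} {z : HH d.Φ Unit} (hz : z ∈ d.pc i) {c : ℝ} (hc : 0 ≤ c) : c • z ∈ d.pc i := by
  obtain ⟨n, r, x, hr, hx, rfl⟩ := hz
  refine ⟨n, fun k => c * r k, x, fun k => mul_nonneg hc (hr k), hx, ?_⟩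
  rw [r_smul_sum]
  refine Finset.sum_congr rfl fun k _ => ?_
  rw [r_smul_smul]

theorem pc_of_eff {i : ℕ} {x : T.Z A} (hx : x ∈ W.eff A i) : (d.cl x : HH d.Φ Unit) ∈ d.pc i :=
  ⟨1, fun _ => 1, fun _ => x, fun _ => zero_le_one, fun _ => hx, by
    rw [Fin.sum_univ_one, r_one_smul]⟩

theorem L2_eff (hL : L ∈ T.Pol A) : (d.cl L : HH d.Φ Unit) ^ 2 ∈ d.pc 2 := by
  have h := W.eff_mul A 1 1 L L (W.pol_eff A L hL) (W.pol_eff A L hL)
  have h2 := pc_of_eff d h
  have e : (d.cl (L * L) : HH d.Φ Unit) = (d.cl L : HH d.Φ Unit) ^ 2 := by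
    rw [map_mul, pow_two]
    rfl
  rwa [e] at h2

theorem shift {i : ℕ} {z w : HH d.Φ Unit} (hz : z ∈ d.pc i) {c c' : ℝ} (h : c • z + w ∈ d.pc i) (hc : c ≤ c') :
    c' • z + w ∈ d.pc i := by
  have h1 := pc_add d h (pc_smul d hz (sub_nonneg.2 hc))
  have e : c • z + w + (c' - c) • z = c' • z + w := by
    rw [r_sub_smul]; abel
  rwa [e] at h1

theorem cone_span (hL : L ∈ T.Pol A) {z : HH d.Φ Unit} (hz : z ∈ d.rs 2) :
    ∃ C : ℝ, 0 ≤ C ∧ C • (d.cl L : HH d.Φ Unit) ^ 2 + z ∈ d.pc 2 ∧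
      C • (d.cl L : HH d.Φ Unit) ^ 2 + -z ∈ d.pc 2 := by
  have hL2 := L2_eff d hL
  have hz' : z ∈ Submodule.span ℝ ((fun x => (d.cl x : HH d.Φ Unit)) '' (T.cod A 2 : Set (T.Z A))) := hz
  induction hz' using Submodule.span_induction with
  | mem w hw =>
    obtain ⟨x, hx, rfl⟩ := hw
    have key : ∀ y ∈ T.cod A 2, ∃ C : ℝ, 0 ≤ C ∧
        C • (d.cl L : HH d.Φ Unit) ^ 2 + (d.cl y : HH d.Φ Unit) ∈ d.pc 2 := by
      intro y hy
      obtain ⟨r, hr, he⟩ := W.pol_int A L hL 2 y hy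
      refine ⟨(r : ℝ), by exact_mod_cast hr.le, ?_⟩
      have h2 := pc_of_eff d he
      have e : (d.cl (r • L ^ 2 + y) : HH d.Φ Unit) =
          (r : ℝ) • (d.cl L : HH d.Φ Unit) ^ 2 + (d.cl y : HH d.Φ Unit) := by
        rw [map_add]
        have := clh_smul d r (L ^ 2)
        rw [map_pow] at this
        push_cast
        rw [this]
        simp
      rwa [e] at h2
    obtain ⟨C1, h1, h1'⟩ := key x hx
    obtain ⟨C2, h2, h2'⟩ := key (-x) (Submodule.neg_mem _ hx)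
    have e : (d.cl (-x) : HH d.Φ Unit) = -(d.cl x : HH d.Φ Unit) := by
      rw [map_neg]; rfl
    rw [e] at h2'
    exact ⟨max C1 C2, h1.trans (le_max_left _ _), shift d hL2 h1' (le_max_left _ _),
      shift d hL2 h2' (le_max_right _ _)⟩
  | zero => exact ⟨0, le_rfl, by
      rw [r_zero_smul, add_zero]; exact pc_zero d 2, by
      rw [r_zero_smul, neg_zero, add_zero]; exact pc_zero d 2⟩
  | add x y hx hy ihx ihy =>
    obtain ⟨C1, h1, h1', h1''⟩ := ihx hx
    obtain ⟨C2, h2, h2', h2''⟩ := ihy hy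
    refine ⟨C1 + C2, by positivity, ?_, ?_⟩
    · have := pc_add d h1' h2'
      have e : C1 • (d.cl L : HH d.Φ Unit) ^ 2 + x + (C2 • (d.cl L : HH d.Φ Unit) ^ 2 + y) =
        (C1 + C2) • (d.cl L : HH d.Φ Unit) ^ 2 + (x + y) := by rw [r_add_smul]; abel
      rwa [e] at this
    · have := pc_add d h1'' h2''
      have e : C1 • (d.cl L : HH d.Φ Unit) ^ 2 + -x + (C2 • (d.cl L : HH d.Φ Unit) ^ 2 + -y) =
        (C1 + C2) • (d.cl L : HH d.Φ Unit) ^ 2 + -(x + y) := by rw [r_add_smul]; abel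
      rwa [e] at this
  | smul a x hx ihx =>
    obtain ⟨C1, h1, h1', h1''⟩ := ihx hx
    refine ⟨|a| * C1, by positivity, ?_⟩
    change (|a| * C1) • (d.cl L : HH d.Φ Unit) ^ 2 + (a • x : HH d.Φ Unit) ∈ d.pc 2 ∧
      (|a| * C1) • (d.cl L : HH d.Φ Unit) ^ 2 + -(a • x : HH d.Φ Unit) ∈ d.pc 2
    have h2 := pc_smul d h1' (abs_nonneg a)
    have h3 := pc_smul d h1'' (abs_nonneg a)
    rw [r_smul_add, r_smul_smul] at h2 h3
    rcases abs_cases a with ⟨ha, _⟩ | ⟨ha, _⟩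
    · have e1 : |a| • x = a • x := by rw [ha]
      have e2 : |a| • -x = -(a • x) := by rw [ha, r_smul_neg]
      rw [e1] at h2
      rw [e2] at h3
      exact ⟨h2, h3⟩
    · have e1 : |a| • x = -(a • x) := by rw [ha, r_neg_smul]
      have e2 : |a| • -x = a • x := by rw [ha, r_smul_neg, r_neg_smul, neg_neg]
      rw [e1] at h2
      rw [e2] at h3
      exact ⟨h3, h2⟩

end ConeAux

open ConeAux

theorem interior (hL : L ∈ T.Pol A) {z : HH d.Φ Unit} (hz : z ∈ d.rs 2) :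
    ∃ t₀ : ℝ, 0 < t₀ ∧ ∀ t : ℝ, |t| ≤ t₀ →
      (d.cl L : HH d.Φ Unit) ^ 2 + t • z ∈ d.pc 2 := by
  have hL2 := L2_eff d hL
  obtain ⟨C, hC, h1, h2⟩ := cone_span d hL hz
  refine ⟨1 / (1 + C), by positivity, fun t ht => ?_⟩
  have hle : |t| * C ≤ 1 := by
    have h3 : |t| * (1 + C) ≤ 1 := by
      rwa [le_div_iff₀ (by positivity)] at ht
    have := abs_nonneg t
    linarith
  have h4 : (|t| * C) • (d.cl L : HH d.Φ Unit) ^ 2 + t • z ∈ d.pc 2 := by
    have h5 := pc_smul d h1 (abs_nonneg t)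
    have h6 := pc_smul d h2 (abs_nonneg t)
    rw [r_smul_add, r_smul_smul] at h5 h6
    rcases abs_cases t with ⟨ha, _⟩ | ⟨ha, _⟩
    · have e1 : |t| • z = t • z := by rw [ha]
      rwa [e1] at h5
    · have e2 : |t| • -z = t • z := by rw [ha, r_smul_neg, r_neg_smul, neg_neg]
      rwa [e2] at h6
  have h7 := shift d hL2 h4 hle
  rwa [r_one_smul] at h7

end Pc0b458P
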