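import Pool.Agent.Lib.Pc0b458P.Main

/-!
# From the data of `Data` to the data used in the proof
-/

universe u

namespace Pc0b458Q

open Pc0b458 Finset

theorem dls_val {Φ : Type} [Fintype Φ] [DecidableEq Φ] :
    ((Pc0b458P.Dv (Pc0b458P.dls ()) : Pc0b458P.HC Φ Unit) : Pc0b458P.HH Φ Unit) = polClass Φ := by
  rw [Pc0b458P.Dv_dls_unit, AddSubmonoidClass.coe_finset_sum]
  rfl

/-- the data used in the proof -/
noncomputable def CMData.toP {T : NumTheory.{u}} {W : Pc0b458P.EffData T} {A : T.AV} {L : T.Z A}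
    (d : CMData T W A L) : Pc0b458P.CMData T W A L where
  Φ := d.Φ
  card_Φ := d.card_Φ
  E := d.E
  emb := d.emb
  dense := d.dense
  act := d.act
  act_mem := d.act_mem
  pow := d.pow
  dim_pow := d.dim_pow
  pull := d.pull
  pull_eff := d.pull_eff
  deg_pull := d.deg_pull
  cl := d.c.cl
  cl_mem := d.c.cl_mem
  cl_L := Subtype.ext (d.cl_L.trans dls_val.symm)
  cl_act := d.cl_act
  clp := fun M => (d.cp M).cl
  clp_pull := d.cl_pull
  tr := d.c.tr
  tr_cl := d.c.tr_cl
  trp := fun M => (d.cp M).tr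
  trp_cl := fun M => (d.cp M).tr_cl

/-- the data used in the proof -/
noncomputable def FpTheory.toP (T : FpTheory.{u}) : Pc0b458P.FpTheory.{u} where
  toNumTheory := T.toNumTheory
  eff := T.eff
  cod_zero := T.cod_zero
  cm := fun A => by
    obtain ⟨L, hL, ⟨d⟩⟩ := T.cm A
    exact ⟨L, hL, ⟨d.toP⟩⟩

end Pc0b458Q
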