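import Pool.Agent.Lib.Pc0b458P.Basic

/-!
# Module Count: the numbers of terms (about 1h, pure combinatorics)

Let `A` be the set of pairs `(κ, x)` occurring in `N0` and `B` the set of triples `(κ, x, y)` occurring in `N1`.
The condition in `A` says: the colour class of `s₀ = κ x` without `x` has `m+1` elements, and the other two
classes have `m` elements. Count the triples `(κ, x, y)` with `(κ, x) ∈ A`, `y ≠ x`, `κ y = κ x`: there are
`(m+1) * card A` of them. Mapping such a triple to (`κ x`, (`κ` changed to `0` at `x` and `y`, `x`, `y`)) is a bijection with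
`Fin 3 × B`: the classes outside `{x, y}` all have `m` elements. Hence `(m+1) card A = 3 card B`.
`card A > 0` for `X = Fin (3*m+2)`: colour `m+2` sites with `0`, `m` with `1`, `m` with `2`.
-/

open Finset

namespace Pc0b458P

/-- the number of terms of `N0` -/
def cA (m : ℕ) (X : Type) [Fintype X] [DecidableEq X] : ℕ :=
  ((univ : Finset ((X → Fin 3) × X)).filter fun p => ∀ s, (H0 p.1 p.2 s).card = m + 1).card

/-- the number of terms of `N1` -/
def cB (m : ℕ) (X : Type) [Fintype X] [DecidableEq X] : ℕ :=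
  ((univ : Finset ((X → Fin 3) × X × X)).filter fun p => p.2.1 ≠ p.2.2 ∧ p.1 p.2.1 = 0 ∧
    p.1 p.2.2 = 0 ∧ ∀ s, (H1 p.1 p.2.1 p.2.2 s).card = m).card

set_option linter.unusedSectionVars false

section

variable {X : Type} [Fintype X] [DecidableEq X]

theorem card_H0_H1 (κ : X → Fin 3) {x y : X} (hxy : x ≠ y) (hκ : κ y = κ x) (s : Fin 3) :
    (H0 κ x s).card = (H1 κ x y s).card + 1 := by
  unfold H0 H1
  by_cases hs : s = κ x
  · rw [if_pos hs]
    have h : (univ.filter fun l => l ≠ x ∧ κ l = s) =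
        insert y (univ.filter fun l => l ≠ x ∧ l ≠ y ∧ κ l = s) := by
      ext l
      simp only [mem_filter, mem_univ, true_and, mem_insert]
      constructor
      · rintro ⟨h1, h2⟩
        by_cases hl : l = y
        · exact Or.inl hl
        · exact Or.inr ⟨h1, hl, h2⟩
      · rintro (h1 | ⟨h1, _, h3⟩)
        · rw [h1]
          exact ⟨hxy.symm, hκ.trans hs.symm⟩
        · exact ⟨h1, h3⟩
    rw [h, card_insert_of_notMem]
    simp
  · rw [if_neg hs]
    have h : (univ.filter fun l => l ≠ x ∧ κ l = s) =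
        (univ.filter fun l => l ≠ x ∧ l ≠ y ∧ κ l = s) := by
      ext l
      simp only [mem_filter, mem_univ, true_and]
      constructor
      · rintro ⟨h1, h2⟩
        refine ⟨h1, fun hl => hs ?_, h2⟩
        rw [← h2, hl, hκ]
      · rintro ⟨h1, _, h3⟩
        exact ⟨h1, h3⟩
    rw [h, card_insert_of_notMem]
    simp

/-- change the colour of `x` and `y` to `a` -/
def recol (κ : X → Fin 3) (x y : X) (a : Fin 3) : X → Fin 3 :=
  Function.update (Function.update κ x a) y a

theorem recol_left (κ : X → Fin 3) (x y : X) (a : Fin 3) : recol κ x y a x = a := by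
  unfold recol
  by_cases h : x = y
  · rw [h, Function.update_self]
  · rw [Function.update_of_ne h, Function.update_self]

theorem recol_right (κ : X → Fin 3) (x y : X) (a : Fin 3) : recol κ x y a y = a := by
  unfold recol
  rw [Function.update_self]

theorem recol_of (κ : X → Fin 3) {x y l : X} (hx : l ≠ x) (hy : l ≠ y) (a : Fin 3) :
    recol κ x y a l = κ l := by
  unfold recol
  rw [Function.update_of_ne hy, Function.update_of_ne hx]

theorem recol_recol (κ : X → Fin 3) {x y : X} (a b : Fin 3) (hx : κ x = b) (hy : κ y = b) :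
    recol (recol κ x y a) x y b = κ := by
  funext l
  by_cases h1 : l = x
  · rw [h1, recol_left, hx]
  · by_cases h2 : l = y
    · rw [h2, recol_right, hy]
    · rw [recol_of _ h1 h2, recol_of _ h1 h2]

theorem H1_recol (κ : X → Fin 3) (x y : X) (a s : Fin 3) :
    H1 (recol κ x y a) x y s = H1 κ x y s := by
  unfold H1
  ext l
  simp only [mem_filter, mem_univ, true_and]
  constructor
  · rintro ⟨h1, h2, h3⟩
    rw [recol_of _ h1 h2] at h3
    exact ⟨h1, h2, h3⟩
  · rintro ⟨h1, h2, h3⟩
    refine ⟨h1, h2, ?_⟩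
    rw [recol_of _ h1 h2]
    exact h3

/-- the triples that are counted twice -/
def DD (m : ℕ) (X : Type) [Fintype X] [DecidableEq X] : Finset ((X → Fin 3) × X × X) :=
  univ.filter fun p => p.2.1 ≠ p.2.2 ∧ p.1 p.2.2 = p.1 p.2.1 ∧
    ∀ s, (H1 p.1 p.2.1 p.2.2 s).card = m

theorem mem_DD {m : ℕ} {p : (X → Fin 3) × X × X} : p ∈ DD m X ↔
    p.2.1 ≠ p.2.2 ∧ p.1 p.2.2 = p.1 p.2.1 ∧ ∀ s, (H1 p.1 p.2.1 p.2.2 s).card = m := by
  unfold DD
  rw [mem_filter]
  simp

theorem card_DD_A (m : ℕ) : (DD m X).card = (m + 1) * cA m X := by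
  unfold cA
  rw [card_eq_sum_card_fiberwise (f := fun p : (X → Fin 3) × X × X => (p.1, p.2.1))
    (t := (univ : Finset ((X → Fin 3) × X)).filter fun p => ∀ s, (H0 p.1 p.2 s).card = m + 1)]
  · rw [sum_const_nat (m := m + 1), mul_comm]
    rintro ⟨κ, x⟩ hp
    rw [mem_filter] at hp
    have hp2 : ∀ s, (H0 κ x s).card = m + 1 := hp.2
    rw [← hp2 (κ x)]
    have hH : H0 κ x (κ x) = univ.filter fun l => l ≠ x ∧ κ l = κ x := by
      unfold H0
      rw [if_pos rfl]
    rw [hH]
    refine card_bij' (fun p _ => p.2.2) (fun y _ => (κ, x, y)) ?_ ?_ ?_ ?_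
    · rintro ⟨κ', x', y'⟩ h
      rw [mem_filter, mem_DD] at h
      obtain ⟨⟨h1, h2, _⟩, h4⟩ := h
      simp only [Prod.mk.injEq] at h1 h2 h4
      obtain ⟨rfl, rfl⟩ := h4
      simp only [mem_filter, mem_univ, true_and]
      exact ⟨fun h => h1 h.symm, h2⟩
    · intro y hy
      simp only [mem_filter, mem_univ, true_and] at hy
      rw [mem_filter, mem_DD]
      refine ⟨⟨fun h => hy.1 h.symm, hy.2, fun s => ?_⟩, rfl⟩
      have := card_H0_H1 κ (x := x) (y := y) (fun h => hy.1 h.symm) hy.2 s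
      rw [hp2 s] at this
      change (H1 κ x y s).card = m
      omega
    · rintro ⟨κ', x', y'⟩ h
      rw [mem_filter] at h
      have h4 := h.2
      simp only [Prod.mk.injEq] at h4
      obtain ⟨rfl, rfl⟩ := h4
      rfl
    · intro y _
      rfl
  · rintro ⟨κ, x, y⟩ h
    rw [mem_coe, mem_DD] at h
    rw [mem_coe, mem_filter]
    refine ⟨mem_univ _, fun s => ?_⟩
    change (H0 κ x s).card = m + 1
    rw [card_H0_H1 κ h.1 h.2.1 s]
    have := h.2.2 s
    simp only at this
    rw [this]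

theorem card_DD_B (m : ℕ) : (DD m X).card = 3 * cB m X := by
  rw [card_eq_sum_card_fiberwise (f := fun p : (X → Fin 3) × X × X => p.1 p.2.1)
    (t := (univ : Finset (Fin 3)))]
  · rw [sum_const_nat (m := cB m X), card_univ, Fintype.card_fin]
    intro s _
    unfold cB
    refine card_bij' (fun p _ => (recol p.1 p.2.1 p.2.2 0, p.2.1, p.2.2))
      (fun p _ => (recol p.1 p.2.1 p.2.2 s, p.2.1, p.2.2)) ?_ ?_ ?_ ?_
    · rintro ⟨κ, x, y⟩ h
      rw [mem_filter, mem_DD] at h
      rw [mem_filter]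
      refine ⟨mem_univ _, h.1.1, recol_left _ _ _ _, recol_right _ _ _ _, fun s' => ?_⟩
      rw [H1_recol]
      exact h.1.2.2 s'
    · rintro ⟨κ, x, y⟩ h
      rw [mem_filter] at h
      rw [mem_filter, mem_DD]
      refine ⟨⟨h.2.1, ?_, fun s' => ?_⟩, recol_left _ _ _ _⟩
      · exact (recol_right _ _ _ _).trans (recol_left _ _ _ _).symm
      · rw [H1_recol]
        exact h.2.2.2.2 s'
    · rintro ⟨κ, x, y⟩ h
      rw [mem_filter, mem_DD] at h
      simp only [Prod.mk.injEq, and_true]
      exact recol_recol κ 0 s h.2 (h.1.2.1.trans h.2)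
    · rintro ⟨κ, x, y⟩ h
      rw [mem_filter] at h
      simp only [Prod.mk.injEq, and_true]
      exact recol_recol κ s 0 h.2.2.1 h.2.2.2.1
  · intro p _
    rw [mem_coe]
    exact mem_univ _

end

theorem cA_cB (m : ℕ) (X : Type) [Fintype X] [DecidableEq X] :
    (m + 1) * cA m X = 3 * cB m X := by
  rw [← card_DD_A, card_DD_B]

theorem card_interval (n a b : ℕ) (hb : b ≤ n) :
    ((univ : Finset (Fin n)).filter fun l => a ≤ l.val ∧ l.val < b).card = b - a := by
  rw [← card_map Fin.valEmbedding, ← Nat.card_Ico]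
  congr 1
  ext l
  simp only [mem_map, mem_filter, mem_univ, true_and, Fin.valEmbedding_apply, mem_Ico]
  constructor
  · rintro ⟨l', h, rfl⟩
    exact h
  · intro h
    exact ⟨⟨l, by omega⟩, h, rfl⟩

/-- a colouring with classes of sizes `m+2`, `m`, `m` -/
def col0 (m : ℕ) (l : Fin (3 * m + 2)) : Fin 3 :=
  if l.val < m + 2 then 0 else if l.val < 2 * m + 2 then 1 else 2

theorem col0_eq0 (m : ℕ) (l : Fin (3 * m + 2)) : col0 m l = 0 ↔ l.val < m + 2 := by
  unfold col0
  split_ifs <;> simp_all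

theorem col0_eq1 (m : ℕ) (l : Fin (3 * m + 2)) :
    col0 m l = 1 ↔ m + 2 ≤ l.val ∧ l.val < 2 * m + 2 := by
  unfold col0
  split_ifs <;> simp_all

theorem col0_eq2 (m : ℕ) (l : Fin (3 * m + 2)) :
    col0 m l = 2 ↔ 2 * m + 2 ≤ l.val ∧ l.val < 3 * m + 2 := by
  have := l.isLt
  unfold col0
  split_ifs <;> simp_all <;> omega

theorem ne_zero_iff' (m : ℕ) (l : Fin (3 * m + 2)) :
    (l ≠ (⟨0, by omega⟩ : Fin (3 * m + 2))) ↔ 1 ≤ l.val := by
  rw [Ne, Fin.ext_iff]
  simp only
  omega

theorem cA_pos (m : ℕ) : 0 < cA m (Fin (3 * m + 2)) := by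
  unfold cA
  rw [card_pos]
  refine ⟨(col0 m, ⟨0, by omega⟩), ?_⟩
  rw [mem_filter]
  refine ⟨mem_univ _, fun s => ?_⟩
  change (H0 (col0 m) (⟨0, by omega⟩ : Fin (3 * m + 2)) s).card = m + 1
  have h0 : col0 m (⟨0, by omega⟩ : Fin (3 * m + 2)) = 0 := by
    rw [col0_eq0]
    simp
  unfold H0
  rw [h0]
  by_cases hs0 : s = 0
  · rw [if_pos hs0, hs0]
    have e : (univ.filter fun l : Fin (3 * m + 2) => l ≠ ⟨0, by omega⟩ ∧ col0 m l = 0) =
        univ.filter fun l : Fin (3 * m + 2) => 1 ≤ l.val ∧ l.val < m + 2 := by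
      ext l
      simp only [mem_filter, mem_univ, true_and, ne_zero_iff', col0_eq0]
    rw [e, card_interval _ _ _ (by omega)]
    omega
  · rw [if_neg hs0, card_insert_of_notMem (by simp)]
    by_cases hs1 : s = 1
    · rw [hs1]
      have e : (univ.filter fun l : Fin (3 * m + 2) => l ≠ ⟨0, by omega⟩ ∧ col0 m l = 1) =
          univ.filter fun l : Fin (3 * m + 2) => m + 2 ≤ l.val ∧ l.val < 2 * m + 2 := by
        ext l
        simp only [mem_filter, mem_univ, true_and, ne_zero_iff', col0_eq1]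
        omega
      rw [e, card_interval _ _ _ (by omega)]
      omega
    · have hs2 : s = 2 := by omega
      rw [hs2]
      have e : (univ.filter fun l : Fin (3 * m + 2) => l ≠ ⟨0, by omega⟩ ∧ col0 m l = 2) =
          univ.filter fun l : Fin (3 * m + 2) => 2 * m + 2 ≤ l.val ∧ l.val < 3 * m + 2 := by
        ext l
        simp only [mem_filter, mem_univ, true_and, ne_zero_iff', col0_eq2]
        omega
      rw [e, card_interval _ _ _ (by omega)]
      omega

end Pc0b458P
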