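import Pool.Agent.Lib.Pc0b458.Theory

/-!
# Effective cycles, complex multiplication and cohomology

`Pc0b458.NumTheory` lists known properties of numerical cycle classes on the abelian varieties over
a fixed field. Here we add known properties of effective cycles (`Pc0b458P.EffData`), and, over an
algebraic closure of a finite field, of complex multiplication (`CMPow`) and of the cycle class map
to the cohomology of the powers of an abelian variety (`CMData`).

The cohomology ring of `A^X`, with complex coefficients, for an abelian variety `A` with complex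
multiplication by a CM algebra `E`, is the exterior algebra `Coh Φ X` of the first cohomology. Here
`Φ` is a set of representatives of the embeddings of `E` in `ℂ` modulo complex conjugation; the
generator `gen s true x` spans the part of the first cohomology of the factor `x` on which `E` acts
through `s`, and `gen s false x` the one where `E` acts through the complex conjugate of `s`.
-/

universe u

namespace Pc0b458P

open Pc0b458

/-- The classes of the effective cycles, with nonnegative rational coefficients, on the abelian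
varieties over an algebraically closed field. -/
structure EffData (T : NumTheory.{u}) where
  /-- the classes of the effective cycles of codimension `i` -/
  eff : ∀ A, ℕ → Set (T.Z A)
  eff_cod : ∀ A i x, x ∈ eff A i → x ∈ T.cod A i
  /-- two cycles on an abelian variety meet properly after a translation -/
  eff_mul : ∀ A i j x y, x ∈ eff A i → y ∈ eff A j → x * y ∈ eff A (i + j)
  eff_deg : ∀ A x, x ∈ eff A (T.dim A) → 0 ≤ T.deg A x
  pol_eff : ∀ A L, L ∈ T.Pol A → L ∈ eff A 1
  /-- a subvariety of codimension `i` is a component of an intersection of `i` divisors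
  whose class is a multiple of `L` -/
  pol_int : ∀ A L, L ∈ T.Pol A → ∀ i x, x ∈ T.cod A i →
    ∃ r : ℚ, 0 < r ∧ r • L ^ i + x ∈ eff A i

/-- the statement of Q1 for `A` -/
def Q1 (T : NumTheory.{u}) (A : T.AV) : Prop :=
  ∀ L ∈ T.Pol A, ∀ n, 2 * n ≤ T.dim A → HSC T.toCycleRings A L n

/-- Specialisation of the abelian varieties over a field `k` to an algebraic closure of a finite
field, at the places of an algebraic closure of `k` where there is good reduction. -/
structure Specialisation (T T₀ : NumTheory.{u}) where
  /-- the reductions of `A` -/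
  sp : T.AV → Set T₀.AV
  sp_exists : ∀ A, ∃ A₀, A₀ ∈ sp A
  dim_eq : ∀ A, ∀ A₀ ∈ sp A, T₀.dim A₀ = T.dim A
  /-- Polarisations specialise to polarisations. A primitive class is the class of an algebraic
  cycle which is primitive for homological equivalence, and the specialisation of this cycle is
  primitive and has the same self intersection. -/
  prim : ∀ A, ∀ A₀ ∈ sp A, ∀ L ∈ T.Pol A, ∃ L₀ ∈ T₀.Pol A₀, ∀ n, 2 * n ≤ T.dim A →
    ∀ x ∈ T.cod A n, L ^ (T.dim A - 2 * n + 1) * x = 0 →
      ∃ x₀ ∈ T₀.cod A₀ n, L₀ ^ (T.dim A - 2 * n + 1) * x₀ = 0 ∧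
        T₀.deg A₀ (x₀ * x₀ * L₀ ^ (T.dim A - 2 * n)) = T.deg A (x * x * L ^ (T.dim A - 2 * n))

end Pc0b458P

namespace Pc0b458Q

open Pc0b458 Finset ComplexConjugate

/-- the cohomology ring of `A^X` -/
def Coh (Φ X : Type) : Type := ExteriorAlgebra ℂ (Φ × Bool × X → ℂ)

noncomputable instance instRing (Φ X : Type) : Ring (Coh Φ X) :=
  inferInstanceAs (Ring (ExteriorAlgebra ℂ (Φ × Bool × X → ℂ)))

noncomputable instance instAlgebra (Φ X : Type) : Algebra ℂ (Coh Φ X) :=
  inferInstanceAs (Algebra ℂ (ExteriorAlgebra ℂ (Φ × Bool × X → ℂ)))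

/-- the centre of the cohomology ring; it contains the classes of even degree -/
def ECoh (Φ X : Type) : Type := Subalgebra.center ℂ (Coh Φ X)

noncomputable instance instCommRing (Φ X : Type) : CommRing (ECoh Φ X) :=
  inferInstanceAs (CommRing (Subalgebra.center ℂ (Coh Φ X)))

/-- the inclusion of the centre -/
def inc {Φ X : Type} (x : ECoh Φ X) : Coh Φ X := Subtype.val x

/-- the first cohomology in the cohomology ring -/
noncomputable def iota (Φ X : Type) : (Φ × Bool × X → ℂ) →ₗ[ℂ] Coh Φ X := ExteriorAlgebra.ι ℂ

/-- the cohomology of degree `k` -/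
noncomputable def gr (Φ X : Type) (k : ℕ) : Submodule ℂ (Coh Φ X) :=
  ⋀[ℂ]^k (Φ × Bool × X → ℂ)

section

variable {Φ X : Type}

/-- the basis of the first cohomology -/
def vec [DecidableEq Φ] [DecidableEq X] (s : Φ) (b : Bool) (x : X) : Φ × Bool × X → ℂ :=
  Pi.single (s, b, x) 1

/-- the generators -/
noncomputable def gen [DecidableEq Φ] [DecidableEq X] (s : Φ) (b : Bool) (x : X) : Coh Φ X :=
  iota Φ X (vec s b x)

/-- pull-back on the first cohomology under the homomorphism `A^X → A` with coefficients `v · x` -/
noncomputable def pbOne (v : Φ → X → ℂ) : (Φ × Bool × Unit → ℂ) →ₗ[ℂ] (Φ × Bool × X → ℂ) where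
  toFun f i := (if i.2.1 then v i.1 i.2.2 else conj (v i.1 i.2.2)) * f (i.1, i.2.1, ())
  map_add' f g := by
    funext i
    simp only [Pi.add_apply, mul_add]
  map_smul' c f := by
    funext i
    simp only [Pi.smul_apply, RingHom.id_apply, smul_eq_mul]
    ring

/-- pull-back under the homomorphism `A^X → A` with coefficients `v · x`: it maps
`gen s true ()` to the sum over `x` of `v s x • gen s true x`, and `gen s false ()` to the sum of
`conj (v s x) • gen s false x` -/
noncomputable def pb (v : Φ → X → ℂ) : Coh Φ Unit →ₐ[ℂ] Coh Φ X :=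
  ExteriorAlgebra.map (pbOne v)

end

/-- Complex multiplication of `A` by a CM algebra `E` of degree `2 dim A`. -/
structure CMAlg (T : NumTheory.{u}) (A : T.AV) where
  /-- representatives of the embeddings of `E` in `ℂ` modulo complex conjugation -/
  Φ : Type
  [finΦ : Fintype Φ]
  [decΦ : DecidableEq Φ]
  card_Φ : Fintype.card Φ = T.dim A
  E : Type
  [ringE : CommRing E]
  emb : Φ → E →+* ℂ
  /-- `E` is dense in the product of the fields `ℂ` over `Φ` -/
  dense : ∀ (v : Φ → ℂ) (ε : ℝ), 0 < ε → ∃ a : E, ∀ s, ‖emb s a - v s‖ < ε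
  /-- pull-back of cycle classes under the elements of `E` in `End(A) ⊗ ℚ` -/
  act : E → (T.Z A →ₐ[ℚ] T.Z A)
  act_mem : ∀ a i x, x ∈ T.cod A i → act a x ∈ T.cod A i

attribute [instance] CMAlg.finΦ CMAlg.decΦ CMAlg.ringE

/-- The powers of `A`. -/
structure CMPow (T : NumTheory.{u}) (W : Pc0b458P.EffData T) (A : T.AV) extends CMAlg T A where
  pow : ℕ → T.AV
  dim_pow : ∀ M, T.dim (pow M) = M * T.dim A
  /-- pull-back under `(a_1, ..., a_M) : A^M → A` -/
  pull : ∀ M, (Fin M → E) → (T.Z A →ₐ[ℚ] T.Z (pow M))
  pull_eff : ∀ M a i x, x ∈ W.eff A i → pull M a x ∈ W.eff (pow M) i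
  /-- the degree of an exterior product -/
  deg_pull : ∀ M (x : Fin M → T.Z A), (∀ l, x l ∈ T.cod A (T.dim A)) →
    T.deg (pow M) (∏ l, pull M (Pi.single l 1) (x l)) = ∏ l, T.deg A (x l)

/-- The cycle class map of `B` to the cohomology with complex coefficients, and the trace map. -/
structure CycleMap (T : NumTheory.{u}) (B : T.AV) (Φ X : Type) where
  cl : T.Z B →+* ECoh Φ X
  cl_mem : ∀ i x, x ∈ T.cod B i → inc (cl x) ∈ gr Φ X (2 * i)
  tr : Coh Φ X →ₗ[ℂ] ℂ
  tr_cl : ∀ x, x ∈ T.cod B (T.dim B) → tr (inc (cl x)) = (T.deg B x : ℂ)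

/-- `f` is a pull-back of cycle classes under the homomorphism with coefficients `v` -/
def Compat {T : NumTheory.{u}} {B B' : T.AV} {Φ X : Type} (c : CycleMap T B Φ Unit)
    (c' : CycleMap T B' Φ X) (f : T.Z B → T.Z B') (v : Φ → X → ℂ) : Prop :=
  ∀ x, inc (c'.cl (f x)) = pb v (inc (c.cl x))

/-- the class of a polarisation for which the basis vectors are suitably chosen -/
noncomputable def polClass (Φ : Type) [Fintype Φ] [DecidableEq Φ] : Coh Φ Unit :=
  ∑ s, gen s true () * gen s false ()

/-- The cycle class maps of `A` and of its powers (for a prime number for which numerical and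
homological equivalence agree on all powers of `A`). The Rosati involution of `L` is the complex
conjugation on `E`. -/
structure CMData (T : NumTheory.{u}) (W : Pc0b458P.EffData T) (A : T.AV) (L : T.Z A)
    extends CMPow T W A where
  c : CycleMap T A Φ Unit
  cp : ∀ M, CycleMap T (pow M) Φ (Fin M)
  cl_L : inc (c.cl L) = polClass Φ
  cl_act : ∀ a, Compat c c (act a) fun s _ => emb s a
  cl_pull : ∀ M a, Compat c (cp M) (pull M a) fun s l => emb s (a l)

/-- Numerical cycle classes on the abelian varieties over an algebraic closure of a finite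
field. -/
structure FpTheory extends NumTheory.{u} where
  eff : Pc0b458P.EffData toNumTheory
  cod_zero : ∀ A x, x ∈ cod A 0 → ∃ r : ℚ, x = algebraMap ℚ (Z A) r
  /-- complex multiplication (Tate), for a suitable polarisation -/
  cm : ∀ A, ∃ L ∈ Pol A, Nonempty (CMData toNumTheory eff A L)

end Pc0b458Q
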