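import Pool.Agent.Lib.Pc0b458P.Basic

/-!
# Gaussian averages: definitions
-/

open MeasureTheory Finset

namespace Pc0b458P

/-- the square of the norm on the plane -/
noncomputable def qq (u : ℂ × ℂ) : ℝ := ‖u.1‖ ^ 2 + ‖u.2‖ ^ 2

/-- the Gaussian measure on the plane, of total mass `π ^ 2` -/
noncomputable def gam : Measure (ℂ × ℂ) :=
  volume.withDensity fun u => ENNReal.ofReal (Real.exp (-(‖u.1‖ ^ 2 + ‖u.2‖ ^ 2)))

/-- the product of Gaussian measures -/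
noncomputable def gamN (X : Type) [Fintype X] : Measure (X → ℂ × ℂ) := Measure.pi fun _ => gam

/-- the averages of the Vandermonde products -/
noncomputable def II (r m : ℕ) : ℝ :=
  ∫ u : Fin m → ℂ × ℂ, dd u univ * ∏ i, ‖(u i).2‖ ^ r ∂(gamN (Fin m))

/-- the moments of the norm -/
noncomputable def kap (m : ℕ) : ℝ := ∫ x, qq x ^ m ∂gam

/-- the weights -/
noncomputable def om (m : ℕ) (x : ℂ × ℂ) : ℝ := (Real.sqrt (qq x) ^ m)⁻¹

/-- the two point function -/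
noncomputable def JJ (m : ℕ) (x y : ℂ × ℂ) : ℝ :=
  ∫ u : Fin m → ℂ × ℂ, dd u univ * ∏ i, (‖br (u i) x‖ * ‖br (u i) y‖) ∂(gamN (Fin m))

/-- the average of a term of `N0` -/
noncomputable def V0 (m : ℕ) : ℝ := kap m ^ 2 * II 2 m ^ 3

/-- the average of a term of `N1` -/
noncomputable def V1 (m : ℕ) : ℝ :=
  ∫ p : (ℂ × ℂ) × (ℂ × ℂ), om m p.1 * om m p.2 * JJ m p.1 p.2 ^ 3 ∂(gam.prod gam)

end Pc0b458P
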