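import Pool.Agent.Lib.Pc0b458P.Wt

/-!
# Module Deg: degree computations in the cohomology ring (about 1.8h)

`Dc s = ev (ee s true ()) (ee s false ())` has square zero; `topF = ∏ s, Dc s` (the product over `Unit` is trivial); `cl L = ∑ s, Dc s`
(`cl_L`, `Dv`, `inj s b (dl ()) = ee s b ()`).
* `prod_pow`: induction on the complement of `S`, or: `(∑ s, Dc s)^k = k! • ∑_{|R| = k} ∏_{s ∈ R} Dc s` for square zero elements.
* `kap_one`: `tr (cl L ^ g) = deg (L^g) > 0` (`pol_pos`), and `cl L ^ g = g! • topF`.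
* `kap_pow`: apply `deg_pull` to `x l = L ^ g`; `clp M (pull M (Pi.single l 1) L) = Dv (dls l)` (`clp_pull`, `map_pb_L`), so the
  product of the classes is `∏ l, (g! • ∏ s, ev (ee s true l) (ee s false l)) = (g!)^M • topF`.
* `four_four`: `m4 J b * m4 J (not b) = sgb b • ∏ i, Dc (J i)` (reordering eight vectors: sign `+`; a pair with `b i = false` has the
  opposite order, sign `-1`), `m4 J b * m4 J b = 0`, and `prod_pow` for `S = image of J`.
* `tor_Ds`: `tor (pt u) (Ds s) = Ds s` since `|pt u s| = 1`.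
-/

universe u

open Pc0b458 Finset ComplexConjugate

namespace Pc0b458P

namespace DegAux

variable {Φ X : Type}

theorem iota_sq (a : HV Φ X) : ExteriorAlgebra.ι ℂ a * ExteriorAlgebra.ι ℂ a = 0 :=
  ExteriorAlgebra.ι_sq_zero a

theorem iota_swap (a b : HV Φ X) : ExteriorAlgebra.ι ℂ a * ExteriorAlgebra.ι ℂ b =
    -(ExteriorAlgebra.ι ℂ b * ExteriorAlgebra.ι ℂ a) :=
  eq_neg_of_add_eq_zero_left (ExteriorAlgebra.ι_add_mul_swap (R := ℂ) a b)

theorem ev_left (a b c : HV Φ X) : (ev a b * ev a c : HC Φ X) = 0 := by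
  apply Subtype.ext
  show ExteriorAlgebra.ι ℂ a * ExteriorAlgebra.ι ℂ b *
    (ExteriorAlgebra.ι ℂ a * ExteriorAlgebra.ι ℂ c) = 0
  rw [iota_swap a b, neg_mul, mul_assoc, ← mul_assoc (ExteriorAlgebra.ι ℂ a), iota_sq, zero_mul,
    mul_zero, neg_zero]

theorem ev_sq (a b : HV Φ X) : (ev a b * ev a b : HC Φ X) = 0 := ev_left a b b

theorem ev_swap (a b : HV Φ X) : (ev a b : HC Φ X) = -ev b a := by
  apply Subtype.ext
  show ExteriorAlgebra.ι ℂ a * ExteriorAlgebra.ι ℂ b = -(ExteriorAlgebra.ι ℂ b * ExteriorAlgebra.ι ℂ a)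
  exact iota_swap a b

theorem ev_cross (a b c d : HV Φ X) : (ev a b * ev c d : HC Φ X) = -(ev a c * ev b d) := by
  apply Subtype.ext
  show ExteriorAlgebra.ι ℂ a * ExteriorAlgebra.ι ℂ b *
    (ExteriorAlgebra.ι ℂ c * ExteriorAlgebra.ι ℂ d) =
    -(ExteriorAlgebra.ι ℂ a * ExteriorAlgebra.ι ℂ c *
      (ExteriorAlgebra.ι ℂ b * ExteriorAlgebra.ι ℂ d))
  rw [mul_assoc, ← mul_assoc (ExteriorAlgebra.ι ℂ b), iota_swap b c, neg_mul, mul_neg, mul_assoc,
    mul_assoc]

/-- powers of a sum of elements of square zero -/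
theorem sum_pow_gen {R ι : Type*} [CommRing R] [Fintype ι] [DecidableEq ι] (x : ι → R)
    (hx : ∀ s, x s * x s = 0) (n : ℕ) :
    ∀ S : Finset ι, S.card + n = Fintype.card ι →
      (∏ s ∈ S, x s) * (∑ s, x s) ^ n = (n.factorial : R) * ∏ s, x s := by
  induction n with
  | zero =>
    intro S hS
    have : S = univ := Finset.card_eq_iff_eq_univ S |>.1 (by simpa using hS)
    subst this
    simp
  | succ n ih =>
    intro S hS
    rw [pow_succ', ← mul_assoc, Finset.mul_sum, Finset.sum_mul]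
    have h1 : ∀ s, (∏ t ∈ S, x t) * x s * (∑ s, x s) ^ n =
        if s ∈ Sᶜ then (n.factorial : R) * ∏ s, x s else 0 := by
      intro s
      by_cases hs : s ∈ S
      · rw [if_neg (by simpa using hs), ← Finset.mul_prod_erase S x hs]
        linear_combination ((∏ t ∈ S.erase s, x t) * (∑ s, x s) ^ n) * hx s
      · rw [if_pos (by simpa using hs), ← ih (insert s S) (by rw [Finset.card_insert_of_notMem hs]; omega),
          Finset.prod_insert hs, mul_comm (x s)]
    simp only [h1]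
    rw [Finset.sum_ite_mem, Finset.univ_inter, Finset.sum_const, Finset.card_compl, nsmul_eq_mul,
      Nat.factorial_succ]
    have h2 : Fintype.card ι - S.card = n + 1 := by omega
    rw [h2]
    push_cast
    ring

theorem inj_dl [DecidableEq Φ] [DecidableEq X] (s : Φ) (b : Bool) (x : X) :
    inj s b (dl x) = ee s b x := by
  funext i
  obtain ⟨t, b', y⟩ := i
  simp only [inj, LinearMap.coe_mk, AddHom.coe_mk, ee, dl, Pi.single_apply, Prod.mk.injEq]
  split_ifs with h1 h2 h3 h3 h3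
  · rfl
  · exact absurd ⟨h1.1, h1.2, h2⟩ h3
  · exact absurd h3.2.2 h2
  · rfl
  · exact absurd ⟨h3.1, h3.2.1⟩ h1
  · rfl

theorem cj_dl [DecidableEq X] (x : X) : cj (dl x) = dl x := by
  funext y
  simp only [cj, dl, Pi.single_apply]
  split_ifs <;> simp

theorem Dv_dls [Fintype Φ] [DecidableEq Φ] [DecidableEq X] (x : X) :
    (Dv (dls x) : HC Φ X) = ∑ s, ev (ee s true x) (ee s false x) := by
  unfold Dv dls
  simp only [cj_dl, inj_dl]

theorem Dv_pow [Fintype Φ] [DecidableEq Φ] [DecidableEq X] (x : X) :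
    (Dv (dls x) : HC Φ X) ^ Fintype.card Φ =
      ((Fintype.card Φ).factorial : HC Φ X) * ∏ s, ev (ee s true x) (ee s false x) := by
  have h := sum_pow_gen (fun s : Φ => (ev (ee s true x) (ee s false x) : HC Φ X))
    (fun s => ev_sq _ _) (Fintype.card Φ) ∅ (by simp)
  rw [Finset.prod_empty, one_mul] at h
  rw [Dv_dls, h]

end DegAux

section

variable {Φ : Type} [Fintype Φ] [DecidableEq Φ]

/-- the class `e_s ∧ e_{cs}` in the centre -/
noncomputable def Dc (s : Φ) : HC Φ Unit := ev (ee s true ()) (ee s false ())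

theorem Dc_sq (s : Φ) : Dc s * Dc s = 0 := DegAux.ev_sq _ _

theorem Dv_dls_unit : (Dv (dls ()) : HC Φ Unit) = ∑ s, Dc s := DegAux.Dv_dls ()

theorem DegAux.topF_unit : (topF : HC Φ Unit) = ∏ s, Dc s := by
  unfold topF Dc
  simp

theorem prod_pow (S : Finset Φ) :
    (∏ s ∈ S, Dc s) * (∑ s, Dc s) ^ (Fintype.card Φ - S.card) =
      ((Fintype.card Φ - S.card).factorial : ℂ) • (topF : HC Φ Unit) := by
  rw [DegAux.sum_pow_gen (fun s : Φ => Dc s) Dc_sq _ S (by have := S.card_le_univ; omega),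
    DegAux.topF_unit, Algebra.smul_def, map_natCast]

omit [Fintype Φ] in
theorem DegAux.ev_bool (s : Φ) (b : Bool) :
    (ev (ee s b ()) (ee s (!b) ()) : HC Φ Unit) = (if b then (1 : ℂ) else -1) • Dc s := by
  cases b
  · simp only [Bool.not_false, Bool.false_eq_true, if_false, neg_smul, one_smul]
    exact DegAux.ev_swap _ _
  · simp only [Bool.not_true, if_true, one_smul]
    rfl

theorem m4_m4 (J : Fin 4 → Φ) (b : Fin 4 → Bool) :
    (m4 J b () : HC Φ Unit) * m4 J (fun i => !(b i)) () = sgb b • ∏ i, Dc (J i) := by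
  unfold m4 sgb
  have hneg : ∀ a b : HC Φ Unit, -a * -b = a * b := fun a b => neg_mul_neg a b
  rw [mul_mul_mul_comm, DegAux.ev_cross, DegAux.ev_cross (ee (J 2) (b 2) ()), hneg,
    DegAux.ev_bool, DegAux.ev_bool, DegAux.ev_bool, DegAux.ev_bool]
  simp only [Fin.prod_univ_four]
  simp only [smul_mul_assoc, mul_smul_comm, smul_smul]
  rw [← mul_assoc (Dc (J 0) * Dc (J 1))]
  congr 1
  ring

theorem m4_self (J : Fin 4 → Φ) (b : Fin 4 → Bool) :
    (m4 J b () : HC Φ Unit) * m4 J b () = 0 := by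
  unfold m4
  rw [mul_mul_mul_comm, DegAux.ev_sq, zero_mul]

theorem four_four (J : Fin 4 → Φ) (hJ : Function.Injective J) (b : Fin 4 → Bool) :
    (m4 J b () : HC Φ Unit) * m4 J (fun i => !(b i)) () *
      (∑ s, Dc s) ^ (Fintype.card Φ - 4) =
      (sgb b * ((Fintype.card Φ - 4).factorial : ℂ)) • (topF : HC Φ Unit) := by
  rw [m4_m4]
  have h1 : ∏ i, Dc (J i) = ∏ s ∈ univ.image J, Dc s :=
    (Finset.prod_image fun a _ b _ h => hJ h).symm
  have h2 : (univ.image J).card = 4 := by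
    rw [Finset.card_image_of_injective _ hJ, Finset.card_univ, Fintype.card_fin]
  have h3 := prod_pow (univ.image J)
  rw [h2] at h3
  rw [smul_mul_assoc, h1, h3, smul_smul]

theorem tor_Ds (u : Φ → ZMod 3) (s : Φ) : tor (pt u) (Ds s) = Ds s := by
  have hpb : ∀ b, pb (fun t (_ : Unit) => pt u t) (ee s b ()) =
      (if b then pt u s else conj (pt u s)) • ee s b () := by
    intro b
    funext i
    obtain ⟨t, b', y⟩ := i
    simp only [pb, LinearMap.coe_mk, AddHom.coe_mk, ee, Pi.single_apply, Prod.mk.injEq,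
      Pi.smul_apply, smul_eq_mul]
    by_cases h : t = s ∧ b' = b
    · obtain ⟨rfl, rfl⟩ := h
      simp
    · have h2 : ¬ (t = s ∧ b' = b ∧ True) := fun h' => h ⟨h'.1, h'.2.1⟩
      simp only [if_neg h2, mul_zero]
  have hnorm : pt u s * conj (pt u s) = 1 := by
    have h1 : ‖pt u s‖ = 1 := by
      unfold pt z3
      rw [norm_pow]
      have h2 : (2 * Real.pi * Complex.I / 3 : ℂ) = ((2 * Real.pi / 3 : ℝ) : ℂ) * Complex.I := by
        push_cast
        ring
      rw [h2, Complex.norm_exp_ofReal_mul_I, one_pow]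
    rw [Complex.mul_conj, Complex.normSq_eq_norm_sq, h1]
    simp
  unfold tor Ds
  show ExteriorAlgebra.map _ (ExteriorAlgebra.ι ℂ (ee s true ()) * ExteriorAlgebra.ι ℂ (ee s false ())) =
    ExteriorAlgebra.ι ℂ (ee s true ()) * ExteriorAlgebra.ι ℂ (ee s false ())
  rw [map_mul, ExteriorAlgebra.map_apply_ι, ExteriorAlgebra.map_apply_ι, hpb, hpb]
  simp only [if_true, Bool.false_eq_true, if_false, map_smul]
  rw [smul_mul_smul_comm, hnorm, one_smul]

end

variable {T : NumTheory.{u}} {W : EffData T} {A : T.AV} {L : T.Z A} (d : CMData T W A L)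

namespace DegAux

theorem pow_mem (T : NumTheory.{u}) (A : T.AV) {x : T.Z A} {i : ℕ} (hx : x ∈ T.cod A i) (n : ℕ) :
    x ^ n ∈ T.cod A (n * i) := by
  induction n with
  | zero => rw [pow_zero, zero_mul]; exact T.one_mem A
  | succ n ih => rw [pow_succ, add_mul, one_mul]; exact T.mul_mem A _ _ _ _ ih hx

theorem prod_mem (T : NumTheory.{u}) (A : T.AV) {ι : Type*} (S : Finset ι) (x : ι → T.Z A) {i : ℕ}
    (hx : ∀ l ∈ S, x l ∈ T.cod A i) : ∏ l ∈ S, x l ∈ T.cod A (S.card * i) := by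
  classical
  induction S using Finset.induction_on with
  | empty => rw [Finset.prod_empty, Finset.card_empty, zero_mul]; exact T.one_mem A
  | insert l S hl ih =>
    rw [Finset.prod_insert hl, Finset.card_insert_of_notMem hl, add_mul, one_mul, add_comm]
    exact T.mul_mem A _ _ _ _ (hx l (mem_insert_self _ _)) (ih fun t ht => hx t (mem_insert_of_mem ht))

theorem clp_L (M : ℕ) (l : Fin M) :
    d.clp M (d.pull M (Pi.single l 1) L) = Dv (dls l) := by
  apply Subtype.ext
  rw [d.clp_pull, d.cl_L, map_pb_L]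
  congr 2
  funext s l'
  simp only [dls, dl, Pi.single_apply]
  split_ifs <;> simp

end DegAux

theorem kap_one (hL : L ∈ T.Pol A) :
    ∃ κ : ℝ, 0 < κ ∧ d.tr ((topF : HC d.Φ Unit) : HH d.Φ Unit) = (κ : ℂ) := by
  have hmem : L ^ T.dim A ∈ T.cod A (T.dim A) := by
    have := DegAux.pow_mem T A (T.pol_mem A L hL) (T.dim A)
    rwa [mul_one] at this
  have h1 := d.tr_cl _ hmem
  have hfac : (0 : ℝ) < ((T.dim A).factorial : ℝ) := by exact_mod_cast Nat.factorial_pos _
  have h2 : d.cl (L ^ T.dim A) = ((T.dim A).factorial : ℂ) • (topF : HC d.Φ Unit) := by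
    rw [map_pow, d.cl_L, Dv_dls_unit]
    have h := prod_pow (∅ : Finset d.Φ)
    rw [Finset.prod_empty, one_mul, Finset.card_empty, Nat.sub_zero, d.card_Φ] at h
    exact h
  rw [h2] at h1
  have h3 : ((((T.dim A).factorial : ℂ) • (topF : HC d.Φ Unit) : HC d.Φ Unit) : HH d.Φ Unit) =
      ((T.dim A).factorial : ℂ) • ((topF : HC d.Φ Unit) : HH d.Φ Unit) := rfl
  rw [h3, map_smul, smul_eq_mul] at h1
  refine ⟨(T.deg A (L ^ T.dim A) : ℝ) / (T.dim A).factorial, div_pos ?_ hfac, ?_⟩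
  · exact_mod_cast T.pol_pos A L hL
  · push_cast
    rw [eq_div_iff (by exact_mod_cast hfac.ne'), mul_comm, h1]

theorem kap_pow (hL : L ∈ T.Pol A) (M : ℕ) :
    ∃ κ : ℝ, 0 < κ ∧ d.trp M ((topF : HC d.Φ (Fin M)) : HH d.Φ (Fin M)) = (κ : ℂ) := by
  have hg : L ^ T.dim A ∈ T.cod A (T.dim A) := by
    have := DegAux.pow_mem T A (T.pol_mem A L hL) (T.dim A)
    rwa [mul_one] at this
  have hp : ∀ l : Fin M, d.pull M (Pi.single l 1) (L ^ T.dim A) ∈ T.cod (d.pow M) (T.dim A) := by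
    intro l
    rw [map_pow]
    have h := W.eff_cod _ _ _ (d.pull_eff M (Pi.single l 1) 1 L (W.pol_eff A L hL))
    have := DegAux.pow_mem T _ h (T.dim A)
    rwa [mul_one] at this
  have hmem : ∏ l : Fin M, d.pull M (Pi.single l 1) (L ^ T.dim A) ∈
      T.cod (d.pow M) (T.dim (d.pow M)) := by
    have h := DegAux.prod_mem T (d.pow M) univ
      (fun l : Fin M => d.pull M (Pi.single l 1) (L ^ T.dim A)) fun l _ => hp l
    rwa [Finset.card_univ, Fintype.card_fin, ← d.dim_pow M] at h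
  have h1 := d.trp_cl M _ hmem
  rw [d.deg_pull M (fun _ => L ^ T.dim A) fun _ => hg, Finset.prod_const, Finset.card_univ,
    Fintype.card_fin] at h1
  have hfac : (0 : ℝ) < ((T.dim A).factorial : ℝ) ^ M :=
    pow_pos (by exact_mod_cast Nat.factorial_pos _) _
  have h2 : d.clp M (∏ l : Fin M, d.pull M (Pi.single l 1) (L ^ T.dim A)) =
      (((T.dim A).factorial : ℂ) ^ M) • (topF : HC d.Φ (Fin M)) := by
    rw [map_prod]
    have h4 : ∀ l : Fin M, d.clp M (d.pull M (Pi.single l 1) (L ^ T.dim A)) =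
        ((T.dim A).factorial : HC d.Φ (Fin M)) * ∏ s, ev (ee s true l) (ee s false l) := by
      intro l
      rw [map_pow, map_pow, DegAux.clp_L, ← d.card_Φ, DegAux.Dv_pow]
    rw [Finset.prod_congr rfl fun l _ => h4 l, Finset.prod_mul_distrib, Finset.prod_const,
      Finset.card_univ, Fintype.card_fin, Finset.prod_comm, Algebra.smul_def, map_pow, map_natCast]
    rfl
  rw [h2] at h1
  have h3 : (((((T.dim A).factorial : ℂ) ^ M) • (topF : HC d.Φ (Fin M)) : HC d.Φ (Fin M)) :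
      HH d.Φ (Fin M)) = (((T.dim A).factorial : ℂ) ^ M) • ((topF : HC d.Φ (Fin M)) :
      HH d.Φ (Fin M)) := rfl
  rw [h3, map_smul, smul_eq_mul] at h1
  refine ⟨(T.deg A (L ^ T.dim A) : ℝ) ^ M / ((T.dim A).factorial : ℝ) ^ M, div_pos ?_ hfac, ?_⟩
  · exact pow_pos (by exact_mod_cast T.pol_pos A L hL) _
  · push_cast
    rw [eq_div_iff (by exact_mod_cast hfac.ne'), mul_comm, h1]
    push_cast
    rfl

end Pc0b458P
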