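import Pool.Agent.Lib.Pc0b458P.Gauss

/-!
# Module Dom: integrability by domination, and splitting of product measures
-/

open MeasureTheory Finset

namespace Pc0b458P

theorem integrable_of_le {X : Type} [Fintype X] {F : (X → ℂ × ℂ) → ℝ} (hF : Measurable F)
    (C : ℝ) (k : ℕ) (h : ∀ ξ, |F ξ| ≤ C * ∏ l, (1 + qq (ξ l)) ^ k) :
    Integrable F (gamN X) := by
  have h1 : Integrable (fun ξ : X → ℂ × ℂ => ∏ l, (1 + qq (ξ l)) ^ k) (gamN X) := by
    unfold gamN
    exact Integrable.fintype_prod_dep (fun _ => integrable_qq k)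
  refine (h1.const_mul C).mono' hF.aestronglyMeasurable (Filter.Eventually.of_forall ?_)
  intro ξ
  rw [Real.norm_eq_abs]
  exact h ξ

/-- the sum decomposition preserves the measures -/
theorem mp_sum (P A : Type) [Fintype P] [Fintype A] :
    MeasurePreserving (MeasurableEquiv.sumPiEquivProdPi (fun _ : P ⊕ A => ℂ × ℂ)).symm
      ((gamN P).prod (gamN A)) (gamN (P ⊕ A)) :=
  measurePreserving_sumPiEquivProdPi_symm (fun _ : P ⊕ A => gam)

theorem sum_symm_apply {P A : Type} (z : (P → ℂ × ℂ) × (A → ℂ × ℂ)) :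
    (MeasurableEquiv.sumPiEquivProdPi (fun _ : P ⊕ A => ℂ × ℂ)).symm z
      = Sum.elim z.1 z.2 := by
  funext l
  cases l <;> rfl

theorem integral_sum_prod {P A : Type} [Fintype P] [Fintype A]
    (G : (P ⊕ A → ℂ × ℂ) → ℝ) :
    ∫ ξ, G ξ ∂(gamN (P ⊕ A)) = ∫ z : (P → ℂ × ℂ) × (A → ℂ × ℂ), G (Sum.elim z.1 z.2)
      ∂((gamN P).prod (gamN A)) := by
  rw [← (mp_sum P A).integral_comp
    (MeasurableEquiv.sumPiEquivProdPi (fun _ : P ⊕ A => ℂ × ℂ)).symm.measurableEmbedding G]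
  refine integral_congr_ae (Filter.Eventually.of_forall (fun z => ?_))
  change G _ = G _
  rw [sum_symm_apply]

/-- change of the index set -/
theorem mp_index {X Y : Type} [Fintype X] [Fintype Y] (e : Y ≃ X) :
    MeasurePreserving (MeasurableEquiv.piCongrLeft (fun _ : X => ℂ × ℂ) e)
      (gamN Y) (gamN X) :=
  measurePreserving_piCongrLeft (fun _ : X => gam) e

theorem index_apply {X Y : Type} (e : Y ≃ X) (η : Y → ℂ × ℂ) :
    MeasurableEquiv.piCongrLeft (fun _ : X => ℂ × ℂ) e η = fun l => η (e.symm l) := by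
  funext l
  obtain ⟨j, rfl⟩ := e.surjective l
  rw [MeasurableEquiv.coe_piCongrLeft, Equiv.piCongrLeft_apply_apply, Equiv.symm_apply_apply]

theorem integral_congr_index {X Y : Type} [Fintype X] [Fintype Y] (e : Y ≃ X)
    (F : (X → ℂ × ℂ) → ℝ) :
    ∫ ξ, F ξ ∂(gamN X) = ∫ η, F (fun l => η (e.symm l)) ∂(gamN Y) := by
  rw [← (mp_index e).integral_comp
    (MeasurableEquiv.piCongrLeft (fun _ : X => ℂ × ℂ) e).measurableEmbedding F]
  refine integral_congr_ae (Filter.Eventually.of_forall (fun z => ?_))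
  change F _ = F _
  rw [index_apply]

/-- Fubini for a decomposition of the index set into two parts -/
theorem integral_split {X P A : Type} [Fintype X] [Fintype P] [Fintype A] (e : P ⊕ A ≃ X)
    {F : (X → ℂ × ℂ) → ℝ} (hF : Integrable F (gamN X)) :
    ∫ ξ, F ξ ∂(gamN X) =
      ∫ p, ∫ a, F (fun l => Sum.elim p a (e.symm l)) ∂(gamN A) ∂(gamN P) := by
  have h1 : Integrable (fun η : P ⊕ A → ℂ × ℂ => F (fun l => η (e.symm l))) (gamN (P ⊕ A)) := by
    have h2 := (mp_index e).integrable_comp_of_integrable hF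
    refine h2.congr (Filter.Eventually.of_forall (fun z => ?_))
    change F _ = F _
    rw [index_apply]
  have h3 : Integrable (fun z : (P → ℂ × ℂ) × (A → ℂ × ℂ) =>
      F (fun l => Sum.elim z.1 z.2 (e.symm l))) ((gamN P).prod (gamN A)) := by
    have h2 := (mp_sum P A).integrable_comp_of_integrable h1
    refine h2.congr (Filter.Eventually.of_forall (fun z => ?_))
    change F _ = F _
    rw [sum_symm_apply]
  rw [integral_congr_index e F,
    integral_sum_prod (fun η : P ⊕ A → ℂ × ℂ => F (fun l => η (e.symm l)))]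
  unfold gamN at *
  exact integral_prod _ h3

/-- a product of functions of disjoint sets of variables, with parameters `p` -/
theorem integral_split_three {X P A B C : Type} [Fintype X] [Fintype P] [Fintype A] [Fintype B]
    [Fintype C] (e : P ⊕ (A ⊕ (B ⊕ C)) ≃ X)
    (g : (P → ℂ × ℂ) → ℝ) (f₁ : (P → ℂ × ℂ) → (A → ℂ × ℂ) → ℝ)
    (f₂ : (P → ℂ × ℂ) → (B → ℂ × ℂ) → ℝ) (f₃ : (P → ℂ × ℂ) → (C → ℂ × ℂ) → ℝ)
    {F : (X → ℂ × ℂ) → ℝ} (hF : Integrable F (gamN X))
    (h : ∀ p a b c, F (fun l => Sum.elim p (Sum.elim a (Sum.elim b c)) (e.symm l)) =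
      g p * (f₁ p a * (f₂ p b * f₃ p c))) :
    ∫ ξ, F ξ ∂(gamN X) =
      ∫ p, g p * ((∫ a, f₁ p a ∂(gamN A)) * ((∫ b, f₂ p b ∂(gamN B)) *
        (∫ c, f₃ p c ∂(gamN C)))) ∂(gamN P) := by
  rw [integral_split e hF]
  refine integral_congr_ae (Filter.Eventually.of_forall (fun p => ?_))
  change ∫ a, F (fun l => Sum.elim p a (e.symm l)) ∂(gamN (A ⊕ (B ⊕ C))) = _
  have hint : ∫ a, F (fun l => Sum.elim p a (e.symm l)) ∂(gamN (A ⊕ (B ⊕ C)))
      = ∫ z : (A → ℂ × ℂ) × (B ⊕ C → ℂ × ℂ), g p * (f₁ p z.1 *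
        (f₂ p (fun b => z.2 (Sum.inl b)) * f₃ p (fun c => z.2 (Sum.inr c))))
        ∂((gamN A).prod (gamN (B ⊕ C))) := by
    rw [integral_sum_prod (fun t : A ⊕ (B ⊕ C) → ℂ × ℂ =>
      F (fun l => Sum.elim p t (e.symm l)))]
    refine integral_congr_ae (Filter.Eventually.of_forall (fun z => ?_))
    have h5 := h p z.1 (fun b => z.2 (Sum.inl b)) (fun c => z.2 (Sum.inr c))
    have h6 : (Sum.elim (fun b => z.2 (Sum.inl b)) (fun c => z.2 (Sum.inr c)) : B ⊕ C → ℂ × ℂ)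
        = z.2 := by
      funext t
      cases t <;> rfl
    rw [h6] at h5
    exact h5
  rw [hint, integral_const_mul]
  congr 1
  have h4 : ∫ z : (A → ℂ × ℂ) × (B ⊕ C → ℂ × ℂ), f₁ p z.1 *
        (f₂ p (fun b => z.2 (Sum.inl b)) * f₃ p (fun c => z.2 (Sum.inr c)))
        ∂((gamN A).prod (gamN (B ⊕ C)))
      = (∫ a, f₁ p a ∂(gamN A)) * ∫ t : B ⊕ C → ℂ × ℂ,
        (f₂ p (fun b => t (Sum.inl b)) * f₃ p (fun c => t (Sum.inr c))) ∂(gamN (B ⊕ C)) := by
    unfold gamN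
    exact integral_prod_mul (f₁ p)
      (fun t : B ⊕ C → ℂ × ℂ => f₂ p (fun b => t (Sum.inl b)) * f₃ p (fun c => t (Sum.inr c)))
  rw [h4]
  congr 1
  rw [integral_sum_prod (fun t : B ⊕ C → ℂ × ℂ =>
    f₂ p (fun b => t (Sum.inl b)) * f₃ p (fun c => t (Sum.inr c)))]
  unfold gamN
  exact integral_prod_mul (f₂ p) (f₃ p)

theorem br_sq_le (p q : ℂ × ℂ) : ‖br p q‖ ^ 2 ≤ qq p * qq q := by
  have key : ‖br p q‖ ^ 2 + ‖(starRingEnd ℂ) p.1 * q.1 + (starRingEnd ℂ) p.2 * q.2‖ ^ 2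
      = qq p * qq q := by
    unfold br qq
    simp only [← Complex.normSq_eq_norm_sq, Complex.normSq_apply, Complex.sub_re, Complex.sub_im,
      Complex.add_re, Complex.add_im, Complex.mul_re, Complex.mul_im, Complex.conj_re,
      Complex.conj_im]
    ring
  have := sq_nonneg ‖(starRingEnd ℂ) p.1 * q.1 + (starRingEnd ℂ) p.2 * q.2‖
  linarith

theorem br_swap (p q : ℂ × ℂ) : ‖br p q‖ = ‖br q p‖ := by
  have h : br p q = -br q p := by
    unfold br
    ring
  rw [h, norm_neg]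

end Pc0b458P
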