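import Pool.Agent.Lib.Pc0b458.Reduce2

/-!
# Module ExPsd: semipositivity on exotic classes is enough (about 0.8h)

This is a variant of `Pc0b458.NumTheory.of_exotic` (file `Pc0b458/Reduce2.lean`) with `0 ≤` in place of `0 <`. By
`NumTheory.pos_of_psd` it is enough to prove `0 ≤ (-1)^n deg (x x L^(g-2n))` for primitive `x`. As in the proof of `of_exotic` write
`x = ε + lam` with `lam` a primitive Lefschetz class and `ε` primitive and orthogonal to the Lefschetz classes; the form is
the sum of the values at `ε` and `lam`, and the value at `lam` is nonnegative by `T.lef_pos`. Copy the proof.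
-/

universe u

open Pc0b458

namespace Pc0b458P

theorem of_exotic_psd (T : NumTheory.{u}) (A : T.AV) {L : T.Z A} (hL : L ∈ T.Pol A) {n : ℕ}
    (hn : 2 * n ≤ T.dim A)
    (h : ∀ x ∈ T.cod A n, L ^ (T.dim A - 2 * n + 1) * x = 0 →
      (∀ y ∈ Lef T.toCycleRings A n, T.deg A (x * y * L ^ (T.dim A - 2 * n)) = 0) →
      0 ≤ (-1) ^ n * T.deg A (x * x * L ^ (T.dim A - 2 * n))) :
    HSC T.toCycleRings A L n := by
  classical
  refine NumTheory.pos_of_psd A hL hn fun x hx hxp => ?_
  set K := L ^ (T.dim A - 2 * n) with hK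
  set m := T.dim A - 2 * n + 1 with hm
  -- the space of primitive Lefschetz classes
  let V : Submodule ℚ (T.Z A) := Lef T.toCycleRings A n ⊓ LinearMap.ker (LinearMap.mulLeft ℚ (L ^ m))
  have hVmem : ∀ y, y ∈ V ↔ y ∈ Lef T.toCycleRings A n ∧ L ^ m * y = 0 := by
    intro y
    rw [Submodule.mem_inf, LinearMap.mem_ker, LinearMap.mulLeft_apply]
  have hVpos : ∀ y ∈ V, y ≠ 0 → 0 < (-1) ^ n * T.deg A (y * y * K) := by
    intro y hy hy0
    exact T.lef_pos A L n hL hn y ((hVmem y).1 hy).1 hy0 ((hVmem y).1 hy).2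
  let F : T.Z A →ₗ[ℚ] (V →ₗ[ℚ] ℚ) :=
    { toFun := fun z => (T.deg A) ∘ₗ (LinearMap.mulLeft ℚ (z * K)) ∘ₗ V.subtype
      map_add' := by
        intro z z'
        ext y
        simp only [LinearMap.comp_apply, LinearMap.mulLeft_apply, LinearMap.add_apply, add_mul,
          map_add]
      map_smul' := by
        intro c z
        ext y
        simp only [LinearMap.comp_apply, LinearMap.mulLeft_apply, LinearMap.smul_apply,
          smul_mul_assoc, map_smul, RingHom.id_apply] }
  have hF : ∀ z (y : V), F z y = T.deg A (z * K * y) := fun z y => rfl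
  have hinj : Function.Injective (F ∘ₗ V.subtype) := by
    rw [← LinearMap.ker_eq_bot, LinearMap.ker_eq_bot']
    intro y hy
    by_contra hy0
    have h1 := LinearMap.congr_fun hy y
    rw [LinearMap.comp_apply, hF, LinearMap.zero_apply] at h1
    have h2 := hVpos y y.2 (fun h0 => hy0 (Subtype.ext h0))
    have e1 : (V.subtype y : T.Z A) * K * (y : T.Z A) = (y : T.Z A) * (y : T.Z A) * K := by
      rw [Submodule.subtype_apply]; ring
    rw [e1] at h1
    rw [h1, mul_zero] at h2
    exact lt_irrefl _ h2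
  have hsurj : Function.Surjective (F ∘ₗ V.subtype) :=
    (LinearMap.injective_iff_surjective_of_finrank_eq_finrank
      (Subspace.dual_finrank_eq (K := ℚ) (V := V)).symm).1 hinj
  obtain ⟨lam, hlam⟩ := hsurj (F x)
  have horth : ∀ y : V, T.deg A (((x : T.Z A) - lam) * K * y) = 0 := by
    intro y
    have h1 := LinearMap.congr_fun hlam y
    rw [LinearMap.comp_apply, hF, hF, Submodule.subtype_apply] at h1
    rw [sub_mul, sub_mul, map_sub, h1, sub_self]
  obtain ⟨hl1, hl2⟩ := (hVmem _).1 lam.2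
  set ε := (x : T.Z A) - lam with hε
  have hεc : ε ∈ T.cod A n := Submodule.sub_mem _ hx (NumTheory.lef_cod A n hl1)
  have hεp : L ^ m * ε = 0 := by rw [hε, mul_sub, hxp, hl2, sub_self]
  have hεo := NumTheory.orth_lef A hL hn hεp (fun y hy hyp => by
    have h1 := horth ⟨y, (hVmem y).2 ⟨hy, hyp⟩⟩
    have e1 : ε * y * K = ε * K * y := by ring
    rw [← hK, e1]; exact h1)
  have hx2 : (-1 : ℚ) ^ n * T.deg A (x * x * K) = (-1) ^ n * T.deg A (ε * ε * K) +
      (-1) ^ n * T.deg A ((lam : T.Z A) * lam * K) := by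
    have e1 : x * x * K = ε * ε * K + (lam : T.Z A) * lam * K + (2 : ℚ) • (ε * lam * K) := by
      rw [hε, Algebra.smul_def, map_ofNat]; ring
    have h1 := hεo lam hl1
    rw [← hK] at h1
    rw [e1, map_add, map_add, map_smul, h1, smul_zero, add_zero, mul_add]
  rw [hx2]
  have hεge : 0 ≤ (-1 : ℚ) ^ n * T.deg A (ε * ε * K) := h ε hεc hεp hεo
  have hlge : 0 ≤ (-1 : ℚ) ^ n * T.deg A ((lam : T.Z A) * lam * K) := by
    by_cases h0 : (lam : T.Z A) = 0
    · rw [h0, zero_mul, zero_mul, map_zero, mul_zero]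
    · exact (hVpos _ lam.2 h0).le
  exact add_nonneg hεge hlge

end Pc0b458P
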