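import Pool.Agent.Lib.Pc0b458P.Vand

/-!
# Module ExpandA: expansion of the product over the sites (about 1.2h, commutative algebra)

Write `f 0 l, .., f 3 l` for the pairs at the site `l`; all squares vanish, so
`(∑ i, f i l)^2 = P l + 2 f 0 l Q l`, with `P l = 2 (f 1 f 2 + f 1 f 3 + f 2 f 3)`, `Q l = f 1 + f 2 + f 3`. Put
`E l = 2 f 0 l Q l + τ a l + τ' b l`. Then `∏ l, (P l + E l) = ∑_{S} ∏_{l ∈ S} E l * ∏_{l ∉ S} P l`
(`Finset.prod_add`). For `l ≠ l'`: `E l * E l' * Θ = τ τ' (a l b l' + b l a l') Θ` by the hypotheses, and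
`E l E l' E l'' Θ = 0` for distinct sites. So only `card S ≤ 2` contributes, and the sum over the
two element sets is the sum over ordered pairs in the statement.
-/

open Finset

namespace Pc0b458P

theorem ExpandAAux.expand {X : Type} [DecidableEq X] {R : Type} [CommRing R]
    (P E a b : X → R) (c Θ : R)
    (hEE : ∀ x y, x ≠ y → E x * E y * Θ = c * (a x * b y + a y * b x) * Θ)
    (hEab : ∀ x y z, z ≠ x → z ≠ y → E z * (a x * b y) * Θ = 0) (s : Finset X) :
    (∏ l ∈ s, (P l + E l)) * Θ =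
      ((∏ l ∈ s, P l) + (∑ x ∈ s, E x * ∏ l ∈ s.erase x, P l) +
        c * ∑ x ∈ s, ∑ y ∈ s.erase x, a x * b y * ∏ l ∈ (s.erase x).erase y, P l) * Θ := by
  induction s using Finset.induction_on with
  | empty => simp
  | insert z s hz ih =>
    set A := ∏ l ∈ s, P l with hA
    set B := ∑ x ∈ s, E x * ∏ l ∈ s.erase x, P l with hB
    set D := ∑ x ∈ s, ∑ y ∈ s.erase x, a x * b y * ∏ l ∈ (s.erase x).erase y, P l with hD
    have hzx : ∀ x ∈ s, z ≠ x := fun x hx h => hz (by rw [h]; exact hx)
    have hB' : ∑ x ∈ insert z s, E x * ∏ l ∈ (insert z s).erase x, P l = E z * A + P z * B := by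
      rw [Finset.sum_insert hz, Finset.erase_insert hz, hB, Finset.mul_sum]
      congr 1
      refine Finset.sum_congr rfl (fun x hx => ?_)
      rw [Finset.erase_insert_of_ne (hzx x hx), Finset.prod_insert (fun h =>
        hz (Finset.mem_of_mem_erase h))]
      ring
    have hD' : ∑ x ∈ insert z s, ∑ y ∈ (insert z s).erase x,
        a x * b y * ∏ l ∈ ((insert z s).erase x).erase y, P l
        = (∑ x ∈ s, (a z * b x + a x * b z) * ∏ l ∈ s.erase x, P l) + P z * D := by
      rw [Finset.sum_insert hz, Finset.erase_insert hz]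
      have h1 : ∀ x ∈ s, ∑ y ∈ (insert z s).erase x,
          a x * b y * ∏ l ∈ ((insert z s).erase x).erase y, P l
          = a x * b z * (∏ l ∈ s.erase x, P l)
            + P z * ∑ y ∈ s.erase x, a x * b y * ∏ l ∈ (s.erase x).erase y, P l := by
        intro x hx
        have hzs : z ∉ s.erase x := fun h => hz (Finset.mem_of_mem_erase h)
        rw [Finset.erase_insert_of_ne (hzx x hx), Finset.sum_insert hzs,
          Finset.erase_insert hzs, Finset.mul_sum]
        congr 1
        refine Finset.sum_congr rfl (fun y hy => ?_)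
        rw [Finset.erase_insert_of_ne (hzx y (Finset.mem_of_mem_erase hy)),
          Finset.prod_insert (fun h => hzs (Finset.mem_of_mem_erase h))]
        ring
      rw [Finset.sum_congr rfl h1, Finset.sum_add_distrib, hD, Finset.mul_sum, ← add_assoc,
        ← Finset.sum_add_distrib]
      congr 1
      refine Finset.sum_congr rfl (fun x _ => ?_)
      ring
    have h2 : E z * B * Θ = c * (∑ x ∈ s, (a z * b x + a x * b z) * ∏ l ∈ s.erase x, P l) * Θ := by
      rw [hB, Finset.mul_sum, Finset.sum_mul, Finset.mul_sum, Finset.sum_mul]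
      refine Finset.sum_congr rfl (fun x hx => ?_)
      calc E z * (E x * ∏ l ∈ s.erase x, P l) * Θ
          = (E z * E x * Θ) * ∏ l ∈ s.erase x, P l := by ring
        _ = (c * (a z * b x + a x * b z) * Θ) * ∏ l ∈ s.erase x, P l := by
            rw [hEE z x (hzx x hx)]
        _ = _ := by ring
    have h3 : E z * D * Θ = 0 := by
      rw [hD, Finset.mul_sum, Finset.sum_mul]
      refine Finset.sum_eq_zero (fun x hx => ?_)
      rw [Finset.mul_sum, Finset.sum_mul]
      refine Finset.sum_eq_zero (fun y hy => ?_)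
      calc E z * (a x * b y * ∏ l ∈ (s.erase x).erase y, P l) * Θ
          = (E z * (a x * b y) * Θ) * ∏ l ∈ (s.erase x).erase y, P l := by ring
        _ = 0 := by
            rw [hEab x y z (hzx x hx) (hzx y (Finset.mem_of_mem_erase hy)), zero_mul]
    rw [hB', hD', Finset.prod_insert hz, Finset.prod_insert hz]
    calc (P z + E z) * (∏ l ∈ s, (P l + E l)) * Θ
        = (P z + E z) * ((∏ l ∈ s, (P l + E l)) * Θ) := by ring
      _ = (P z + E z) * ((A + B + c * D) * Θ) := by rw [ih]
      _ = P z * A * Θ + (E z * A + P z * B) * Θ + c * (P z * D) * Θ + E z * B * Θ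
          + c * (E z * D * Θ) := by ring
      _ = _ := by rw [h2, h3]; ring

section

variable {X : Type} [Fintype X] [DecidableEq X] {R : Type} [CommRing R] [Algebra ℂ R]

/-- twice the second elementary symmetric function of the last three pairs -/
noncomputable def PP (f : Fin 4 → X → R) (l : X) : R :=
  2 * (f 1 l * f 2 l + f 1 l * f 3 l + f 2 l * f 3 l)

theorem expand_sites (f : Fin 4 → X → R) (a b : X → R) (Θ : R)
    (hff : ∀ i l, f i l * f i l = 0)
    (h00 : ∀ x y, x ≠ y → f 0 x * f 0 y * Θ = 0)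
    (ha0 : ∀ x y, x ≠ y → a x * f 0 y * Θ = 0) (hb0 : ∀ x y, x ≠ y → b x * f 0 y * Θ = 0)
    (haa : ∀ x y, x ≠ y → a x * a y * Θ = 0) (hbb : ∀ x y, x ≠ y → b x * b y * Θ = 0)
    (τ τ' : ℂ) :
    (∏ l, ((∑ i, f i l) ^ 2 + τ • a l + τ' • b l)) * Θ =
      ((∏ l, PP f l) +
        (∑ x, (2 * (f 0 x * (f 1 x + f 2 x + f 3 x)) + τ • a x + τ' • b x) *
          ∏ l ∈ univ.erase x, PP f l) +
        (τ * τ') • ∑ x, ∑ y ∈ univ.erase x, a x * b y *
          ∏ l ∈ (univ.erase x).erase y, PP f l) * Θ := by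
  have hsq : ∀ l, (∑ i, f i l) ^ 2 + τ • a l + τ' • b l
      = PP f l + (2 * (f 0 l * (f 1 l + f 2 l + f 3 l)) + τ • a l + τ' • b l) := by
    intro l
    have h0 := hff 0 l
    have h1 := hff 1 l
    have h2 := hff 2 l
    have h3 := hff 3 l
    rw [Fin.sum_univ_four]
    unfold PP
    linear_combination h0 + h1 + h2 + h3
  rw [Finset.prod_congr rfl (fun l _ => hsq l)]
  have key := ExpandAAux.expand (PP f)
    (fun l => 2 * (f 0 l * (f 1 l + f 2 l + f 3 l)) + τ • a l + τ' • b l) a b
    (algebraMap ℂ R (τ * τ')) Θ ?_ ?_ univ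
  · rw [key, ← Algebra.smul_def]
  · intro x y hxy
    have hyx := Ne.symm hxy
    simp only [Algebra.smul_def, map_mul]
    have e1 := h00 x y hxy
    have e2 := ha0 x y hxy
    have e3 := ha0 y x hyx
    have e4 := hb0 x y hxy
    have e5 := hb0 y x hyx
    have e6 := haa x y hxy
    have e7 := hbb x y hxy
    linear_combination (4 * (f 1 x + f 2 x + f 3 x) * (f 1 y + f 2 y + f 3 y)) * e1
      + (algebraMap ℂ R τ * (2 * (f 1 y + f 2 y + f 3 y))) * e2
      + (algebraMap ℂ R τ * (2 * (f 1 x + f 2 x + f 3 x))) * e3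
      + (algebraMap ℂ R τ' * (2 * (f 1 y + f 2 y + f 3 y))) * e4
      + (algebraMap ℂ R τ' * (2 * (f 1 x + f 2 x + f 3 x))) * e5
      + (algebraMap ℂ R τ * algebraMap ℂ R τ) * e6
      + (algebraMap ℂ R τ' * algebraMap ℂ R τ') * e7
  · intro x y z hzx hzy
    simp only [Algebra.smul_def]
    have e1 := ha0 x z (Ne.symm hzx)
    have e2 := haa z x hzx
    have e3 := hbb z y hzy
    linear_combination (2 * (f 1 z + f 2 z + f 3 z) * b y) * e1
      + (algebraMap ℂ R τ * b y) * e2 + (algebraMap ℂ R τ' * a x) * e3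

end

end Pc0b458P
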