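import Pool.Agent.Lib.Pc0b458P.Vand

/-!
# Module ExpandB: colourings (about 1.5h, commutative algebra and counting)

`PP f l = 2 * ∑ c : Fin 3, ∏ i ∈ univ.erase c, f i.succ l`: the colour `c` is the species which is missing at the site.
So a product of `PP` over a set `S` of sites is `2^|S|` times the sum over colourings of `S` of
`∏_i ∏_{l ∈ S, κ l ≠ i} f i.succ l` (`Finset.prod_univ_sum`, `Finset.prod_sum`).

* `all_zero`: `∏_{all l} PP * Θ_1 Θ_2 Θ_3 = 0`: the three sets `U i = {l | κ l ≠ i}` have total size `2 (3m+2) = 6m+4`, so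
  some `U i` has at least `2m+2` elements and `vand_two` applies.
* `one_zero`: `c * ∏_{l ≠ x} PP * Θ_1 Θ_2 Θ_3 = 0` if `c * (P i).top = 0` for all `i`: the sets `U i` have total size `6m+2`,
  so some `U i` has at least `2m+1` elements; then `∏_{U i} * Θ_i` is a multiple of the top element
  (`vand_one` or `vand_two`).
* `diag_eq`: for the term `(f 1 x + f 2 x + f 3 x) * ∏_{l ≠ x} PP`: let `κ x` be the species present at `x`; then
  the set of sites where species `i` is present is the complement of `H0 κ x i`. If all `H0 κ x i` have `m+1` elements,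
  `vand_one` gives `∏ dd`; otherwise some complement has more than `2m+1` elements (the total is
  `1 + 2 (3m+1) = 3 (2m+1)`) and `vand_two` gives `0`.
* `off_eq`: for `x ≠ y` and `∏_i F_i (x, y) * ∏_{l ≠ x, y} PP`: species `i` is present on
  `U i = {l ≠ x, y | κ l ≠ i}`, whose total size is `2 * 3m`; `H1 κ x y i` is the complement in `X - {x, y}`. If all
  `H1` have `m` elements use `vand_three`; otherwise some `U i` has more than `2m` elements, and then
  `F_i (x,y) * ∏_{U i} * Θ_i = 0` by `PairMap.prod_zero`. The colourings of `X - {x, y}` are identified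
  with the colourings `κ` of `X` with `κ x = κ y = 0`.
-/

open Finset ComplexConjugate

namespace Pc0b458P

section

variable {X : Type} [Fintype X] [DecidableEq X] {R : Type} [CommRing R] [Algebra ℂ R]

/-- the product of the elements `2 * e_2` of three pair maps at the site `l` -/
noncomputable def QQ (P : Fin 3 → PairMap X R) (l : X) : R :=
  2 * ((P 0).F (dl l) (dl l) * (P 1).F (dl l) (dl l) + (P 0).F (dl l) (dl l) *
    (P 2).F (dl l) (dl l) + (P 1).F (dl l) (dl l) * (P 2).F (dl l) (dl l))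

variable (P : Fin 3 → PairMap X R) (m : ℕ) (ξ : X → ℂ × ℂ)

namespace ExpandBAux

/-- sites where the species `i` is present -/
def UU (T : X → Finset (Fin 3)) (i : Fin 3) : Finset X := univ.filter fun l => i ∈ T l

/-- the product of the species present -/
noncomputable def prT (T : X → Finset (Fin 3)) : R := ∏ l, ∏ i ∈ T l, (P i).F (dl l) (dl l)

lemma prT_eq (T : X → Finset (Fin 3)) :
    prT P T = ∏ i, ∏ l ∈ UU T i, (P i).F (dl l) (dl l) := by
  unfold prT UU
  have h : ∀ l : X, ∏ i ∈ T l, (P i).F (dl l) (dl l) =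
      ∏ i, if i ∈ T l then (P i).F (dl l) (dl l) else 1 := by
    intro l
    rw [Finset.prod_ite_mem, Finset.univ_inter]
  simp_rw [h]
  rw [Finset.prod_comm]
  refine Finset.prod_congr rfl fun i _ => ?_
  rw [Finset.prod_filter]

omit [DecidableEq X] in
lemma card_UU (T : X → Finset (Fin 3)) : ∑ i, (UU T i).card = ∑ l, (T l).card := by
  unfold UU
  simp_rw [Finset.card_eq_sum_ones, Finset.sum_filter]
  rw [Finset.sum_comm]
  refine Finset.sum_congr rfl fun l _ => ?_
  rw [Finset.sum_ite_mem, Finset.univ_inter]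

lemma prT_mul (T : X → Finset (Fin 3)) :
    prT P T * ∏ i, Theta (P i) m ξ =
      ∏ i, ((∏ l ∈ UU T i, (P i).F (dl l) (dl l)) * Theta (P i) m ξ) := by
  rw [prT_eq, Finset.prod_mul_distrib]

lemma prT_zero (T : X → Finset (Fin 3)) (i : Fin 3)
    (h : Fintype.card X < (UU T i).card + (m + 1)) : prT P T * ∏ i, Theta (P i) m ξ = 0 := by
  rw [prT_mul]
  exact Finset.prod_eq_zero (Finset.mem_univ i) (vand_two (P i) m ξ _ h)

lemma prT_top (T : X → Finset (Fin 3))
    (h : ∀ i, (UU T i).card + (m + 1) = Fintype.card X) :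
    prT P T * ∏ i, Theta (P i) m ξ =
      ((∏ i, dd ξ (UU T i)ᶜ : ℝ) : ℂ) • ∏ i, (P i).top := by
  rw [prT_mul, Finset.prod_congr rfl fun i _ => vand_one (P i) m ξ _ (h i)]
  rw [Finset.prod_smul]
  push_cast
  rfl

/-- expansion of `QQ` at a site -/
lemma QQ_eq (l : X) : QQ P l = ∑ c : Fin 3, 2 * ∏ i ∈ univ.erase c, (P i).F (dl l) (dl l) := by
  have e0 : (univ : Finset (Fin 3)).erase 0 = {1, 2} := by decide
  have e1 : (univ : Finset (Fin 3)).erase 1 = {0, 2} := by decide
  have e2 : (univ : Finset (Fin 3)).erase 2 = {0, 1} := by decide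
  unfold QQ
  rw [Fin.sum_univ_three, e0, e1, e2, Finset.prod_pair (by decide), Finset.prod_pair (by decide),
    Finset.prod_pair (by decide)]
  ring

/-- the set of species present at the site, with empty set on `E` -/
def TT (E : Finset X) (κ : X → Fin 3) (l : X) : Finset (Fin 3) :=
  if l ∈ E then ∅ else univ.erase (κ l)

/-- the product of `QQ` outside a set -/
lemma prod_QQ (E : Finset X) :
    ∏ l ∈ Eᶜ, QQ P l = 2 ^ (Eᶜ).card * ∑ κ ∈ Fintype.piFinset
      (fun l => if l ∈ E then ({0} : Finset (Fin 3)) else univ), prT P (TT E κ) := by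
  have h1 : ∏ l ∈ Eᶜ, QQ P l = ∏ l, ∑ c ∈ (if l ∈ E then ({0} : Finset (Fin 3)) else univ),
      (if l ∈ E then (1 : R) else 2) *
        ∏ i ∈ (if l ∈ E then (∅ : Finset (Fin 3)) else univ.erase c), (P i).F (dl l) (dl l) := by
    rw [← Finset.prod_subset (Finset.subset_univ Eᶜ)]
    · refine Finset.prod_congr rfl fun l hl => ?_
      rw [Finset.mem_compl] at hl
      simp only [hl, if_false, QQ_eq]
    · intro l _ hl
      rw [Finset.mem_compl, not_not] at hl
      simp [hl]
  rw [h1, Finset.prod_univ_sum, Finset.mul_sum]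
  refine Finset.sum_congr rfl fun κ _ => ?_
  rw [Finset.prod_mul_distrib]
  congr 1
  rw [Finset.prod_ite]
  simp only [Finset.prod_const_one, one_mul, Finset.prod_const]
  congr 2
  ext l
  simp

lemma UU_TT (E : Finset X) (κ : X → Fin 3) (i : Fin 3) (l : X) :
    l ∈ UU (TT E κ) i ↔ l ∉ E ∧ κ l ≠ i := by
  unfold UU TT
  rw [Finset.mem_filter]
  by_cases h : l ∈ E
  · simp [h]
  · simp [h, ne_comm]

lemma card_TT (E : Finset X) (κ : X → Fin 3) : ∑ i, (UU (TT E κ) i).card = 2 * (Eᶜ).card := by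
  rw [card_UU]
  have h : ∀ l : X, (TT E κ l).card = if l ∈ Eᶜ then 2 else 0 := by
    intro l
    unfold TT
    by_cases hl : l ∈ E
    · simp [hl]
    · simp [hl]
  simp_rw [h]
  rw [Finset.sum_ite_mem, Finset.univ_inter, Finset.sum_const, smul_eq_mul, mul_comm]

end ExpandBAux

open ExpandBAux

theorem all_zero (hX : Fintype.card X = 3 * m + 2) :
    (∏ l, QQ P l) * ∏ i, Theta (P i) m ξ = 0 := by
  have h := prod_QQ P (∅ : Finset X)
  rw [Finset.compl_empty] at h
  rw [h, mul_assoc, Finset.sum_mul, Finset.sum_eq_zero, mul_zero]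
  intro κ _
  have hc := card_TT (∅ : Finset X) κ
  rw [Finset.compl_empty, Finset.card_univ, hX, Fin.sum_univ_three] at hc
  by_contra hne
  have hle : ∀ i, (UU (TT (∅ : Finset X) κ) i).card + (m + 1) ≤ 3 * m + 2 := by
    intro i
    by_contra hlt
    push Not at hlt
    exact hne (prT_zero P m ξ _ i (by rw [hX]; exact hlt))
  have h0 := hle 0
  have h1 := hle 1
  have h2 := hle 2
  omega

theorem one_zero (hX : Fintype.card X = 3 * m + 2) (x : X) (c : R)
    (hc : ∀ i, c * (P i).top = 0) :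
    c * (∏ l ∈ univ.erase x, QQ P l) * ∏ i, Theta (P i) m ξ = 0 := by
  have h := prod_QQ P ({x} : Finset X)
  have he : ({x} : Finset X)ᶜ = univ.erase x := by
    ext l
    simp
  have hcard : (({x} : Finset X)ᶜ).card = 3 * m + 1 := by
    rw [Finset.card_compl, hX, Finset.card_singleton]
    omega
  rw [← he, h, mul_assoc, mul_assoc, Finset.sum_mul, mul_left_comm, Finset.mul_sum,
    Finset.sum_eq_zero, mul_zero]
  intro κ _
  have hk := card_TT ({x} : Finset X) κ
  rw [hcard, Fin.sum_univ_three] at hk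
  by_contra hne
  have hle : ∀ i, (UU (TT ({x} : Finset X) κ) i).card + (m + 1) < 3 * m + 2 := by
    intro i
    by_contra hlt
    push Not at hlt
    rcases hlt.lt_or_eq with hlt | heq
    · exact hne (by rw [prT_zero P m ξ _ i (by rw [hX]; exact hlt), mul_zero])
    · apply hne
      have hv := vand_one (P i) m ξ (UU (TT ({x} : Finset X) κ) i) (by rw [hX]; exact heq.symm)
      rw [prT_mul, ← Finset.mul_prod_erase _ _ (Finset.mem_univ i), hv, ← mul_assoc,
        mul_smul_comm, hc i, smul_zero, zero_mul]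
  have h0 := hle 0
  have h1 := hle 1
  have h2 := hle 2
  omega

/-- species at the sites for the diagonal term -/
def ExpandBAux.TD (x : X) (κ : X → Fin 3) (l : X) : Finset (Fin 3) :=
  if l = x then {κ l} else univ.erase (κ l)

lemma ExpandBAux.prod_dg (x : X) :
    (∑ i, (P i).F (dl x) (dl x)) * (∏ l ∈ univ.erase x, QQ P l) =
      2 ^ ((univ : Finset X).erase x).card * ∑ κ : X → Fin 3, prT P (TD x κ) := by
  have h1 : (∑ i, (P i).F (dl x) (dl x)) * (∏ l ∈ univ.erase x, QQ P l) =
      ∏ l, ∑ c : Fin 3, (if l = x then (1 : R) else 2) *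
        ∏ i ∈ (if l = x then ({c} : Finset (Fin 3)) else univ.erase c), (P i).F (dl l) (dl l) := by
    rw [← Finset.mul_prod_erase univ _ (Finset.mem_univ x)]
    congr 1
    · simp
    · refine Finset.prod_congr rfl fun l hl => ?_
      have hl' := Finset.ne_of_mem_erase hl
      simp only [hl', if_false, QQ_eq]
  rw [h1, Finset.prod_univ_sum, Finset.mul_sum, Fintype.piFinset_univ]
  refine Finset.sum_congr rfl fun κ _ => ?_
  rw [Finset.prod_mul_distrib]
  congr 1
  rw [Finset.prod_ite]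
  simp only [Finset.prod_const_one, one_mul, Finset.prod_const]
  congr 2
  ext l
  simp

lemma ExpandBAux.card_TD (x : X) (κ : X → Fin 3) :
    ∑ i, (UU (TD x κ) i).card = 2 * ((univ : Finset X).erase x).card + 1 := by
  rw [card_UU, ← Finset.sum_erase_add univ _ (Finset.mem_univ x)]
  congr 1
  · rw [Finset.sum_congr rfl (g := fun _ => 2), Finset.sum_const, smul_eq_mul, mul_comm]
    intro l hl
    have hl' := Finset.ne_of_mem_erase hl
    simp [TD, hl']
  · simp [TD]

lemma ExpandBAux.compl_UU_TD (x : X) (κ : X → Fin 3) (s : Fin 3) :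
    (UU (TD x κ) s)ᶜ = H0 κ x s := by
  ext l
  unfold UU TD H0
  rw [Finset.mem_compl, Finset.mem_filter]
  by_cases hl : l = x
  · subst hl
    by_cases hs : s = κ l
    · simp [hs]
    · simp [hs]
  · by_cases hs : s = κ x
    · simp [hs, hl]
      tauto
    · simp [hs, hl]
      tauto

theorem diag_eq (hX : Fintype.card X = 3 * m + 2) (x : X) :
    (∑ i, (P i).F (dl x) (dl x)) * (∏ l ∈ univ.erase x, QQ P l) * ∏ i, Theta (P i) m ξ =
      ((2 ^ (3 * m + 1) * ∑ κ : X → Fin 3,
        if ∀ s, (H0 κ x s).card = m + 1 then ∏ s, dd ξ (H0 κ x s) else 0 : ℝ) : ℂ) •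
          ∏ i, (P i).top := by
  have hcard : ((univ : Finset X).erase x).card = 3 * m + 1 := by
    rw [Finset.card_erase_of_mem (Finset.mem_univ x), Finset.card_univ, hX]
    omega
  rw [prod_dg, hcard, mul_assoc, Finset.sum_mul]
  have h2 : ∀ κ : X → Fin 3, prT P (TD x κ) * ∏ i, Theta (P i) m ξ =
      ((if ∀ s, (H0 κ x s).card = m + 1 then ∏ s, dd ξ (H0 κ x s) else 0 : ℝ) : ℂ) •
        ∏ i, (P i).top := by
    intro κ
    have hcc : ∀ s, (UU (TD x κ) s).card + (H0 κ x s).card = 3 * m + 2 := by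
      intro s
      rw [← compl_UU_TD, Finset.card_add_card_compl, hX]
    by_cases hall : ∀ s, (H0 κ x s).card = m + 1
    · rw [if_pos hall, prT_top]
      · simp_rw [compl_UU_TD]
      · intro i
        have h1 := hcc i
        rw [hall i] at h1
        rw [h1, hX]
    · rw [if_neg hall]
      push_cast
      rw [zero_smul]
      by_contra hne
      have hle : ∀ i, (UU (TD x κ) i).card + (m + 1) ≤ 3 * m + 2 := by
        intro i
        by_contra hlt
        push Not at hlt
        exact hne (prT_zero P m ξ _ i (by rw [hX]; exact hlt))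
      have hk := card_TD x κ
      rw [hcard, Fin.sum_univ_three] at hk
      have h0 := hle 0
      have h1 := hle 1
      have h2 := hle 2
      apply hall
      have e0 := hcc 0
      have e1 := hcc 1
      have e2 := hcc 2
      intro s
      fin_cases s
      · change (H0 κ x 0).card = m + 1
        omega
      · change (H0 κ x 1).card = m + 1
        omega
      · change (H0 κ x 2).card = m + 1
        omega
  rw [Finset.sum_congr rfl fun κ _ => h2 κ, ← Finset.sum_smul]
  rw [← Complex.ofReal_sum, Complex.ofReal_mul, mul_smul]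
  generalize (((∑ κ : X → Fin 3, if ∀ s, (H0 κ x s).card = m + 1 then ∏ s, dd ξ (H0 κ x s)
    else 0 : ℝ) : ℂ) • ∏ i, (P i).top) = r
  have e2 : ((2 ^ (3 * m + 1) : ℝ) : ℂ) = (2 : ℂ) ^ (3 * m + 1) := by push_cast; ring
  rw [e2, Algebra.smul_def, map_pow, map_ofNat]

lemma ExpandBAux.prod_H1 (x y : X) (κ : X → Fin 3) (f : X → ℂ) :
    ∏ s, ∏ u ∈ H1 κ x y s, f u = ∏ u ∈ univ.filter fun l => l ≠ x ∧ l ≠ y, f u := by
  rw [← Finset.prod_fiberwise (univ.filter fun l => l ≠ x ∧ l ≠ y) κ f]
  refine Finset.prod_congr rfl fun s _ => ?_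
  refine Finset.prod_congr ?_ fun _ _ => rfl
  ext l
  unfold H1
  simp only [Finset.mem_filter, Finset.mem_univ, true_and]
  tauto

lemma ExpandBAux.off_zero (P : PairMap X R) (x y : X) (U : Finset X)
    (h : Fintype.card X < 1 + U.card + (m + 1)) :
    P.F (dl x) (dl y) * (∏ l ∈ U, P.F (dl l) (dl l)) * Theta P m ξ = 0 := by
  have h1 := P.prod_zero (κ := (Unit ⊕ {l // l ∈ U}) ⊕ Fin (m + 1)) (by
    simp only [Fintype.card_sum, Fintype.card_unit, Fintype.card_coe, Fintype.card_fin]
    exact h)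
    (Sum.elim (Sum.elim (fun _ => dl x) (fun l => dl (l : X))) (mon m ξ))
    (Sum.elim (Sum.elim (fun _ => dl y) (fun l => dl (l : X))) (fun j => cj (mon m ξ j)))
  rw [Fintype.prod_sum_type, Fintype.prod_sum_type] at h1
  simp only [Sum.elim_inl, Sum.elim_inr, Finset.univ_unique, Finset.prod_singleton] at h1
  rw [Finset.prod_coe_sort U (fun l => P.F (dl l) (dl l))] at h1
  exact h1

lemma ExpandBAux.off_term (hX : Fintype.card X = 3 * m + 2)
    (hξ : ∀ i j, i ≠ j → br (ξ i) (ξ j) ≠ 0)
    (x y : X) (hxy : x ≠ y) (κ : X → Fin 3) :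
    (∏ i, (P i).F (dl x) (dl y)) * (prT P (TT {x, y} κ) * ∏ i, Theta (P i) m ξ) =
      (-(if ∀ s, (H1 κ x y s).card = m then ((∏ s, dd ξ (H1 κ x y s) : ℝ) : ℂ) else 0) *
        (conj (∏ u ∈ univ.filter fun l => l ≠ x ∧ l ≠ y, br (ξ u) (ξ x)) *
          ∏ u ∈ univ.filter fun l => l ≠ x ∧ l ≠ y, br (ξ u) (ξ y))) • ∏ i, (P i).top := by
  have hmem : ∀ (i : Fin 3) (l : X), l ∈ UU (TT ({x, y} : Finset X) κ) i ↔
      (l ≠ x ∧ l ≠ y) ∧ κ l ≠ i := by
    intro i l
    rw [UU_TT]
    simp
  have hH : ∀ (i : Fin 3) (l : X), l ∈ H1 κ x y i ↔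
      l ∉ UU (TT ({x, y} : Finset X) κ) i ∧ l ≠ x ∧ l ≠ y := by
    intro i l
    rw [hmem]
    unfold H1
    simp only [Finset.mem_filter, Finset.mem_univ, true_and]
    tauto
  have hcE : (({x, y} : Finset X)ᶜ).card = 3 * m := by
    rw [Finset.card_compl, hX, Finset.card_pair hxy]
    omega
  have hcc : ∀ i : Fin 3, (UU (TT ({x, y} : Finset X) κ) i).card + (H1 κ x y i).card = 3 * m := by
    intro i
    rw [← hcE, ← Finset.card_union_of_disjoint]
    · congr 1
      ext l
      rw [Finset.mem_union, hH, hmem, Finset.mem_compl]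
      simp only [Finset.mem_insert, Finset.mem_singleton]
      tauto
    · rw [Finset.disjoint_left]
      intro l h1 h2
      exact ((hH i l).1 h2).1 h1
  have hsplit : (∏ i, (P i).F (dl x) (dl y)) * (prT P (TT {x, y} κ) * ∏ i, Theta (P i) m ξ) =
      ∏ i, ((P i).F (dl x) (dl y) *
        (∏ l ∈ UU (TT ({x, y} : Finset X) κ) i, (P i).F (dl l) (dl l)) * Theta (P i) m ξ) := by
    rw [prT_mul, ← Finset.prod_mul_distrib]
    refine Finset.prod_congr rfl fun i _ => ?_
    rw [mul_assoc]
  rw [hsplit]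
  by_cases hall : ∀ s, (H1 κ x y s).card = m
  · rw [if_pos hall]
    have hv := fun i => vand_three (P i) m ξ hξ x y hxy (UU (TT ({x, y} : Finset X) κ) i)
      (H1 κ x y i) (hH i) (by rw [hmem]; tauto) (by rw [hmem]; tauto) (hall i)
    rw [Finset.prod_congr rfl fun i _ => hv i, Finset.prod_smul]
    congr 1
    rw [Finset.prod_mul_distrib, Finset.prod_mul_distrib, prod_H1 x y κ fun u => br (ξ u) (ξ y),
      ← map_prod (starRingEnd ℂ), prod_H1 x y κ fun u => br (ξ u) (ξ x), Fin.prod_univ_three,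
      Fin.prod_univ_three]
    push_cast
    ring
  · rw [if_neg hall]
    have hk := card_TT ({x, y} : Finset X) κ
    rw [hcE, Fin.sum_univ_three] at hk
    have hex : ∃ i : Fin 3, 2 * m < (UU (TT ({x, y} : Finset X) κ) i).card := by
      by_contra hne
      push Not at hne
      have h0 := hne 0
      have h1 := hne 1
      have h2 := hne 2
      apply hall
      have e0 := hcc 0
      have e1 := hcc 1
      have e2 := hcc 2
      intro s
      fin_cases s
      · change (H1 κ x y 0).card = m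
        omega
      · change (H1 κ x y 1).card = m
        omega
      · change (H1 κ x y 2).card = m
        omega
    obtain ⟨i, hi⟩ := hex
    rw [Finset.prod_eq_zero (Finset.mem_univ i) (off_zero m ξ (P i) x y _ (by rw [hX]; omega))]
    simp

theorem off_eq (hX : Fintype.card X = 3 * m + 2) (hξ : ∀ i j, i ≠ j → br (ξ i) (ξ j) ≠ 0)
    (x y : X) (hxy : x ≠ y) :
    (∏ i, (P i).F (dl x) (dl y)) * (∏ l ∈ (univ.erase x).erase y, QQ P l) *
      ∏ i, Theta (P i) m ξ =
      (-(2 : ℂ) ^ (3 * m) * (∑ κ : X → Fin 3,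
        if κ x = 0 ∧ κ y = 0 ∧ ∀ s, (H1 κ x y s).card = m then
          ((∏ s, dd ξ (H1 κ x y s) : ℝ) : ℂ) else 0) *
        (conj (∏ u ∈ univ.filter fun l => l ≠ x ∧ l ≠ y, br (ξ u) (ξ x)) *
          ∏ u ∈ univ.filter fun l => l ≠ x ∧ l ≠ y, br (ξ u) (ξ y))) • ∏ i, (P i).top := by
  have hcE : (({x, y} : Finset X)ᶜ).card = 3 * m := by
    rw [Finset.card_compl, hX, Finset.card_pair hxy]
    omega
  have he : (univ.erase x).erase y = ({x, y} : Finset X)ᶜ := by
    ext l
    simp only [Finset.mem_erase, Finset.mem_univ, Finset.mem_compl, Finset.mem_insert,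
      Finset.mem_singleton]
    tauto
  rw [he, prod_QQ, hcE, mul_assoc, mul_assoc, Finset.sum_mul, mul_left_comm, Finset.mul_sum,
    Finset.sum_congr rfl fun κ _ => off_term P m ξ hX hξ x y hxy κ]
  have hset : Fintype.piFinset (fun l : X => if l ∈ ({x, y} : Finset X) then
      ({0} : Finset (Fin 3)) else univ) = univ.filter fun κ : X → Fin 3 => κ x = 0 ∧ κ y = 0 := by
    ext κ
    rw [Fintype.mem_piFinset, Finset.mem_filter]
    constructor
    · intro h
      have h1 := h x
      have h2 := h y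
      simp at h1 h2
      exact ⟨Finset.mem_univ _, h1, h2⟩
    · rintro ⟨_, h1, h2⟩ l
      by_cases hl : l ∈ ({x, y} : Finset X)
      · rw [if_pos hl, Finset.mem_singleton]
        rw [Finset.mem_insert, Finset.mem_singleton] at hl
        rcases hl with rfl | rfl
        · exact h1
        · exact h2
      · rw [if_neg hl]
        exact Finset.mem_univ _
  rw [hset, Finset.sum_filter]
  have hstep : ∀ κ : X → Fin 3, (if κ x = 0 ∧ κ y = 0 then
      (-(if ∀ s, (H1 κ x y s).card = m then ((∏ s, dd ξ (H1 κ x y s) : ℝ) : ℂ) else 0) *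
        (conj (∏ u ∈ univ.filter fun l => l ≠ x ∧ l ≠ y, br (ξ u) (ξ x)) *
          ∏ u ∈ univ.filter fun l => l ≠ x ∧ l ≠ y, br (ξ u) (ξ y))) • ∏ i, (P i).top else 0) =
      ((if κ x = 0 ∧ κ y = 0 ∧ ∀ s, (H1 κ x y s).card = m then
          ((∏ s, dd ξ (H1 κ x y s) : ℝ) : ℂ) else 0) *
        (-(conj (∏ u ∈ univ.filter fun l => l ≠ x ∧ l ≠ y, br (ξ u) (ξ x)) *
          ∏ u ∈ univ.filter fun l => l ≠ x ∧ l ≠ y, br (ξ u) (ξ y)))) • ∏ i, (P i).top := by
    intro κ
    by_cases h1 : κ x = 0 ∧ κ y = 0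
    · rw [if_pos h1]
      congr 1
      by_cases h2 : ∀ s, (H1 κ x y s).card = m
      · rw [if_pos h2, if_pos ⟨h1.1, h1.2, h2⟩]
        ring
      · rw [if_neg h2, if_neg fun h => h2 h.2.2]
        ring
    · rw [if_neg h1, if_neg fun h => h1 ⟨h.1, h.2.1⟩, zero_mul, zero_smul]
  rw [Finset.sum_congr rfl fun κ _ => hstep κ, ← Finset.sum_smul, ← Finset.sum_mul]
  generalize (∑ κ : X → Fin 3, if κ x = 0 ∧ κ y = 0 ∧ ∀ s, (H1 κ x y s).card = m then
          ((∏ s, dd ξ (H1 κ x y s) : ℝ) : ℂ) else 0) = A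
  generalize (conj (∏ u ∈ univ.filter fun l => l ≠ x ∧ l ≠ y, br (ξ u) (ξ x)) *
          ∏ u ∈ univ.filter fun l => l ≠ x ∧ l ≠ y, br (ξ u) (ξ y)) = B
  have h2 : ∀ r : R, (2 : R) ^ (3 * m) * r = ((2 : ℂ) ^ (3 * m)) • r := by
    intro r
    rw [Algebra.smul_def, map_pow, map_ofNat]
  rw [h2, smul_smul]
  congr 1
  ring

end

end Pc0b458P
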