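import Pool.Agent.Lib.Pc0b458P.Line
import Pool.Agent.Lib.Pc0b458P.ExpandA
import Pool.Agent.Lib.Pc0b458P.ExpandB

/-!
# Module TestAlg: the degree of the product of the test classes, abstract form (about 1.5h)

Take `q x = ∏_{l ≠ x} br (ξ l) (ξ x)` and `w x = ω x * q x / |q x|`, and `θ` from `exists_theta` with `n = 3m+1`.
Let `Θ₀ = ∏ j, (T.P 0).F (θ j) (cj (θ j))`. The hypotheses of `expand_sites` for `Θ₀` hold: `h00` by
`PairMap.prod_zero`, `ha0`: `f 0 y * Θ₀` is a multiple of `(T.P 0).top`, and `T.a_top`; `haa`: `T.aa`. Multiply the result by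
`∏ i : Fin 3, Theta (P i.succ)`. The first term vanishes by `all_zero`, the terms with `τ • a x`, `τ' • b x` by
`one_zero`; `2 f 0 x (f 1 + f 2 + f 3) ∏ PP` is evaluated by `diag_eq` and `f 0 x * Θ₀ = |w x|^2 • top = ω x ^2 • top`;
`a x * b y = ∏ i, F_i (x, y)` and `off_eq`, `F_0 (x,y) * Θ₀ = w x * conj (w y) • top`. Finally
`-(w x) conj (w y) conj (Q x) (Q y) = ω x ω y |Q x| |Q y|` for `Q z = ∏_{l ≠ x, y} br (ξ l) (ξ z)`, since
`q x = br (ξ y) (ξ x) Q x` and `q y = br (ξ x) (ξ y) Q y = - br (ξ y) (ξ x) Q y`.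
-/

open Finset ComplexConjugate

namespace Pc0b458P

/-- Four pair maps, and elements `a x`, `b y` which behave like the products of the four vectors of the first
resp. second kind at a site. -/
structure TestAlg (X : Type) [Fintype X] [DecidableEq X] (R : Type) [CommRing R]
    [Algebra ℂ R] where
  P : Fin 4 → PairMap X R
  a : X → R
  b : X → R
  ab : ∀ x y, a x * b y = ∏ i, (P i).F (dl x) (dl y)
  a_top : ∀ i x, a x * (P i).top = 0
  b_top : ∀ i x, b x * (P i).top = 0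
  aa : ∀ (n : ℕ) (u v : Fin n → X → ℂ) (x y : X), n + 1 = Fintype.card X →
    a x * a y * ∏ j, (P 0).F (u j) (v j) = 0
  bb : ∀ (n : ℕ) (u v : Fin n → X → ℂ) (x y : X), n + 1 = Fintype.card X →
    b x * b y * ∏ j, (P 0).F (u j) (v j) = 0

namespace TestAlgAux

theorem sum_dl {X : Type} [Fintype X] [DecidableEq X] (w : X → ℂ) (x : X) :
    ∑ z, w z * dl x z = w x := by
  unfold dl
  simp [Pi.single_apply]

theorem br_swap (p q : ℂ × ℂ) : br p q = - br q p := by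
  unfold br; ring

theorem phase {ωx ωy : ℝ} {B Qx Qy qx qy : ℂ} (hB : B ≠ 0) (hQx : Qx ≠ 0) (hQy : Qy ≠ 0)
    (hx : qx = B * Qx) (hy : qy = -B * Qy) :
    -((ωx * qx / ‖qx‖) * conj ((ωy : ℂ) * qy / ‖qy‖) * (conj Qx * Qy)) =
      ((ωx * ωy * (‖Qx‖ * ‖Qy‖) : ℝ) : ℂ) := by
  have hB0 : (‖B‖ : ℂ) ≠ 0 := by exact_mod_cast norm_ne_zero_iff.2 hB
  have hx0 : (‖Qx‖ : ℂ) ≠ 0 := by exact_mod_cast norm_ne_zero_iff.2 hQx
  have hy0 : (‖Qy‖ : ℂ) ≠ 0 := by exact_mod_cast norm_ne_zero_iff.2 hQy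
  have e1 : B * conj B = (‖B‖ : ℂ) ^ 2 := Complex.mul_conj' B
  have e2 : Qx * conj Qx = (‖Qx‖ : ℂ) ^ 2 := Complex.mul_conj' Qx
  have e3 : Qy * conj Qy = (‖Qy‖ : ℂ) ^ 2 := Complex.mul_conj' Qy
  rw [hx, hy, map_div₀, map_mul, map_mul, map_neg, Complex.conj_ofReal, Complex.conj_ofReal,
    norm_mul, norm_mul, norm_neg]
  push_cast
  have e4 : -((ωx : ℂ) * (B * Qx) / (‖B‖ * ‖Qx‖) * (ωy * (-conj B * conj Qy) / (‖B‖ * ‖Qy‖)) *
      (conj Qx * Qy)) = ωx * ωy * ((B * conj B) * (Qx * conj Qx) * (Qy * conj Qy)) /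
        ((‖B‖ : ℂ) ^ 2 * ‖Qx‖ * ‖Qy‖) := by
    field_simp
  rw [e4, e1, e2, e3]
  field_simp

end TestAlgAux

open TestAlgAux

theorem test_abstract {X : Type} [Fintype X] [DecidableEq X] (m : ℕ)
    (hX : Fintype.card X = 3 * m + 2) (ξ : X → ℂ × ℂ)
    (hξ : ∀ i j, i ≠ j → br (ξ i) (ξ j) ≠ 0) (ω : X → ℝ) (hω : ∀ i, 0 < ω i) :
    ∃ θ : Fin (3 * m + 1) → X → ℂ, ∀ (R : Type) [CommRing R] [Algebra ℂ R] (T : TestAlg X R)
      (τ τ' : ℂ),
      (∏ l, ((∑ i, (T.P i).F (dl l) (dl l)) ^ 2 + τ • T.a l + τ' • T.b l)) *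
        (∏ j, (T.P 0).F (θ j) (cj (θ j))) * (∏ i : Fin 3, Theta (T.P i.succ) m ξ) =
      ((2 : ℂ) ^ (3 * m + 2) * ((N0 m ξ ω : ℝ) + τ * τ' / 4 * (N1 m ξ ω : ℝ))) •
        ∏ i, (T.P i).top := by
  classical
  set q : X → ℂ := fun x => ∏ l ∈ univ.erase x, br (ξ l) (ξ x) with hq
  have hq0 : ∀ x, q x ≠ 0 := by
    intro x
    rw [hq]
    exact Finset.prod_ne_zero_iff.2 fun l hl => hξ l x (Finset.ne_of_mem_erase hl)
  set w : X → ℂ := fun x => ω x * q x / ‖q x‖ with hw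
  have hwn : ∀ x, w x * conj (w x) = ((ω x ^ 2 : ℝ) : ℂ) := by
    intro x
    have h1 : (‖q x‖ : ℂ) ≠ 0 := by exact_mod_cast norm_ne_zero_iff.2 (hq0 x)
    have h2 : q x * conj (q x) = (‖q x‖ : ℂ) ^ 2 := Complex.mul_conj' _
    rw [hw]
    simp only
    rw [map_div₀, map_mul, Complex.conj_ofReal, Complex.conj_ofReal]
    push_cast
    have e : (ω x : ℂ) * q x / ‖q x‖ * (ω x * conj (q x) / ‖q x‖) =
        (ω x : ℂ) ^ 2 * (q x * conj (q x)) / (‖q x‖ : ℂ) ^ 2 := by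
      field_simp
    rw [e, h2]
    field_simp
  have hne : Nonempty X := by
    rw [← Fintype.card_pos_iff, hX]; omega
  have hw0 : w ≠ 0 := by
    obtain ⟨x⟩ := hne
    intro h
    have h1 := hwn x
    rw [h] at h1
    simp only [Pi.zero_apply, zero_mul] at h1
    have h2 : (ω x ^ 2 : ℝ) = 0 := by exact_mod_cast h1.symm
    exact absurd h2 (pow_pos (hω x) 2).ne'
  obtain ⟨θ, hθ⟩ := exists_theta (3 * m + 1) (by omega) (by omega) w hw0
  refine ⟨θ, ?_⟩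
  intro R _ _ T τ τ'
  set Θ₀ := ∏ j, (T.P 0).F (θ j) (cj (θ j)) with hΘ₀
  set P' : Fin 3 → PairMap X R := fun i => T.P i.succ with hP'
  set Θ' := ∏ i : Fin 3, Theta (P' i) m ξ with hΘ'
  set f : Fin 4 → X → R := fun i l => (T.P i).F (dl l) (dl l) with hf
  have hF : ∀ x y, (T.P 0).F (dl x) (dl y) * Θ₀ = (w x * conj (w y)) • (T.P 0).top := by
    intro x y
    rw [hΘ₀, hθ R (T.P 0) (dl x) (dl y), sum_dl, sum_dl (fun x => conj (w x))]
  have hPP : ∀ l, PP f l = QQ P' l := fun l => rfl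
  have htop : ∏ i, (T.P i).top = (T.P 0).top * ∏ i, (P' i).top := Fin.prod_univ_succ _
  have hexp := expand_sites f T.a T.b Θ₀ (fun i l => PairMap.self_mul (T.P i) l)
    (fun x y _ => by
      have : f 0 x * f 0 y * Θ₀ = f 0 x * ((T.P 0).F (dl y) (dl y) * Θ₀) := by ring
      rw [this, hF, mul_smul_comm, PairMap.mul_top, smul_zero])
    (fun x y _ => by
      have : T.a x * f 0 y * Θ₀ = T.a x * ((T.P 0).F (dl y) (dl y) * Θ₀) := by ring
      rw [this, hF, mul_smul_comm, T.a_top, smul_zero])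
    (fun x y _ => by
      have : T.b x * f 0 y * Θ₀ = T.b x * ((T.P 0).F (dl y) (dl y) * Θ₀) := by ring
      rw [this, hF, mul_smul_comm, T.b_top, smul_zero])
    (fun x y _ => T.aa (3 * m + 1) θ (fun j => cj (θ j)) x y (by omega))
    (fun x y _ => T.bb (3 * m + 1) θ (fun j => cj (θ j)) x y (by omega)) τ τ'
  simp only [hPP] at hexp
  change (∏ l, ((∑ i, f i l) ^ 2 + τ • T.a l + τ' • T.b l)) * Θ₀ * Θ' = _
  rw [hexp, htop]
  set TOP := (T.P 0).top * ∏ i, (P' i).top with hTOP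
  have hA : (∏ l, QQ P' l) * Θ₀ * Θ' = 0 := by
    have : (∏ l, QQ P' l) * Θ₀ * Θ' = Θ₀ * ((∏ l, QQ P' l) * Θ') := by ring
    rw [this, hΘ', all_zero P' m ξ hX, mul_zero]
  set D : X → ℝ := fun x => ∑ κ : X → Fin 3,
    if ∀ s, (H0 κ x s).card = m + 1 then ∏ s, dd ξ (H0 κ x s) else 0 with hD
  have hBx : ∀ x, (2 * (f 0 x * (f 1 x + f 2 x + f 3 x)) + τ • T.a x + τ' • T.b x) *
      (∏ l ∈ univ.erase x, QQ P' l) * Θ₀ * Θ' =
        ((2 : ℂ) ^ (3 * m + 2) * ((ω x ^ 2 * D x : ℝ) : ℂ)) • TOP := by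
    intro x
    have h1 := one_zero P' m ξ hX x (T.a x) (fun i => T.a_top i.succ x)
    have h2 := one_zero P' m ξ hX x (T.b x) (fun i => T.b_top i.succ x)
    have h3 := diag_eq P' m ξ hX x
    rw [Fin.sum_univ_three] at h3
    have h4 : (f 1 x + f 2 x + f 3 x) * (∏ l ∈ univ.erase x, QQ P' l) * Θ' =
        (((2 ^ (3 * m + 1) * D x : ℝ)) : ℂ) • ∏ i, (P' i).top := h3
    have h5 := hF x x
    rw [hwn] at h5
    have h5' : f 0 x * Θ₀ = ((ω x ^ 2 : ℝ) : ℂ) • (T.P 0).top := h5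
    rw [← hΘ'] at h1 h2
    have e : (2 * (f 0 x * (f 1 x + f 2 x + f 3 x)) + τ • T.a x + τ' • T.b x) *
      (∏ l ∈ univ.erase x, QQ P' l) * Θ₀ * Θ' =
        2 * ((f 0 x * Θ₀) * ((f 1 x + f 2 x + f 3 x) * (∏ l ∈ univ.erase x, QQ P' l) * Θ')) +
        τ • (Θ₀ * (T.a x * (∏ l ∈ univ.erase x, QQ P' l) * Θ')) +
        τ' • (Θ₀ * (T.b x * (∏ l ∈ univ.erase x, QQ P' l) * Θ')) := by
      simp only [Algebra.smul_def]
      ring
    rw [e, h1, h2, h4, h5', mul_zero, smul_zero, smul_zero, add_zero, add_zero, hTOP]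
    rw [smul_mul_smul_comm, two_mul, ← add_smul]
    congr 1
    push_cast
    ring
  set E : X → X → ℝ := fun x y => ∑ κ : X → Fin 3,
    if κ x = 0 ∧ κ y = 0 ∧ ∀ s, (H1 κ x y s).card = m then t1 ξ ω κ x y else 0 with hE
  have hCxy : ∀ x, ∀ y ∈ univ.erase x, T.a x * T.b y *
      (∏ l ∈ (univ.erase x).erase y, QQ P' l) * Θ₀ * Θ' =
        ((2 : ℂ) ^ (3 * m) * ((E x y : ℝ) : ℂ)) • TOP := by
    intro x y hy
    have hyx : y ≠ x := Finset.ne_of_mem_erase hy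
    have hfil : (univ.erase x).erase y = univ.filter fun l => l ≠ x ∧ l ≠ y := by
      ext l
      simp only [mem_erase, mem_univ, and_true, mem_filter, true_and]
      tauto
    have hfil' : (univ.erase y).erase x = univ.filter fun l => l ≠ x ∧ l ≠ y := by
      ext l
      simp only [mem_erase, mem_univ, and_true, mem_filter, true_and]
    set Qx := ∏ u ∈ univ.filter fun l => l ≠ x ∧ l ≠ y, br (ξ u) (ξ x) with hQx
    set Qy := ∏ u ∈ univ.filter fun l => l ≠ x ∧ l ≠ y, br (ξ u) (ξ y) with hQy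
    have hqx : q x = br (ξ y) (ξ x) * Qx := by
      rw [hq, hQx, ← hfil]
      exact (Finset.mul_prod_erase _ _ hy).symm
    have hqy : q y = -br (ξ y) (ξ x) * Qy := by
      rw [hq, hQy, ← hfil', ← br_swap]
      exact (Finset.mul_prod_erase _ _ (Finset.mem_erase.2 ⟨hyx.symm, mem_univ x⟩)).symm
    have hQx0 : Qx ≠ 0 := by
      rw [hQx]
      exact Finset.prod_ne_zero_iff.2 fun l hl => hξ l x (mem_filter.1 hl).2.1
    have hQy0 : Qy ≠ 0 := by
      rw [hQy]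
      exact Finset.prod_ne_zero_iff.2 fun l hl => hξ l y (mem_filter.1 hl).2.2
    have hph := phase (ωx := ω x) (ωy := ω y) (hξ y x hyx) hQx0 hQy0 hqx hqy
    have h1 := off_eq P' m ξ hX hξ x y hyx.symm
    rw [← hQx, ← hQy, ← hΘ'] at h1
    have h2 := hF x y
    have hab : T.a x * T.b y = (T.P 0).F (dl x) (dl y) * ∏ i, (P' i).F (dl x) (dl y) := by
      rw [T.ab x y]; exact Fin.prod_univ_succ _
    set Sr : ℝ := ∑ κ : X → Fin 3,
        if κ x = 0 ∧ κ y = 0 ∧ ∀ s, (H1 κ x y s).card = m then ∏ s, dd ξ (H1 κ x y s) else 0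
      with hSr
    have hS : (∑ κ : X → Fin 3, if κ x = 0 ∧ κ y = 0 ∧ ∀ s, (H1 κ x y s).card = m then
          ((∏ s, dd ξ (H1 κ x y s) : ℝ) : ℂ) else 0) = ((Sr : ℝ) : ℂ) := by
      rw [hSr, Complex.ofReal_sum]
      refine Finset.sum_congr rfl fun κ _ => ?_
      split_ifs <;> simp
    rw [hS] at h1
    have e : T.a x * T.b y * (∏ l ∈ (univ.erase x).erase y, QQ P' l) * Θ₀ * Θ' =
        ((T.P 0).F (dl x) (dl y) * Θ₀) * ((∏ i, (P' i).F (dl x) (dl y)) *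
          (∏ l ∈ (univ.erase x).erase y, QQ P' l) * Θ') := by
      rw [hab]; ring
    rw [e, h2, h1, hTOP, smul_mul_smul_comm]
    congr 1
    have hE' : (E x y : ℝ) = (ω x * ω y * (‖Qx‖ * ‖Qy‖)) * Sr := by
      rw [hE, hSr, Finset.mul_sum]
      refine Finset.sum_congr rfl fun κ _ => ?_
      rw [mul_ite, mul_zero]
      refine if_congr Iff.rfl ?_ rfl
      unfold t1
      rw [hQx, hQy, norm_prod, norm_prod, ← Finset.prod_mul_distrib]
    rw [hE', Complex.ofReal_mul, ← hph]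
    change (w x * conj (w y)) * (-(2:ℂ) ^ (3 * m) * (Sr : ℂ) * (conj Qx * Qy)) =
      (2:ℂ) ^ (3 * m) * (-(w x * conj (w y) * (conj Qx * Qy)) * (Sr : ℂ))
    ring
  rw [add_mul, add_mul, add_mul, add_mul, hA, zero_add, Finset.sum_mul, Finset.sum_mul,
    Finset.sum_congr rfl (fun x _ => hBx x), smul_mul_assoc, smul_mul_assoc, Finset.sum_mul,
    Finset.sum_mul]
  have h6 : ∀ x, (∑ y ∈ univ.erase x, T.a x * T.b y *
      (∏ l ∈ (univ.erase x).erase y, QQ P' l)) * Θ₀ * Θ' =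
        ∑ y ∈ univ.erase x, ((2 : ℂ) ^ (3 * m) * ((E x y : ℝ) : ℂ)) • TOP := by
    intro x
    rw [Finset.sum_mul, Finset.sum_mul]
    exact Finset.sum_congr rfl (hCxy x)
  rw [Finset.sum_congr rfl (fun x _ => h6 x)]
  simp only [← Finset.sum_smul]
  rw [smul_smul, ← add_smul]
  congr 1
  have hN0 : N0 m ξ ω = ∑ x, ω x ^ 2 * D x := by
    unfold N0
    rw [Finset.sum_comm]
    refine Finset.sum_congr rfl fun x _ => ?_
    rw [hD, Finset.mul_sum]
    refine Finset.sum_congr rfl fun κ _ => ?_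
    rw [mul_ite, mul_zero]
  have hN1 : N1 m ξ ω = ∑ x, ∑ y ∈ univ.erase x, E x y := by
    unfold N1
    rw [Finset.sum_comm]
    refine Finset.sum_congr rfl fun x _ => ?_
    rw [Finset.sum_comm, ← Finset.sum_erase_add _ _ (mem_univ x)]
    have h7 : ∑ κ : X → Fin 3, (if x ≠ x ∧ κ x = 0 ∧ κ x = 0 ∧
        ∀ s, (H1 κ x x s).card = m then t1 ξ ω κ x x else 0) = 0 := by
      apply Finset.sum_eq_zero
      intro κ _
      rw [if_neg]
      rintro ⟨h, _⟩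
      exact h rfl
    rw [h7, add_zero]
    refine Finset.sum_congr rfl fun y hy => ?_
    rw [hE]
    refine Finset.sum_congr rfl fun κ _ => ?_
    have hyx : x ≠ y := (Finset.ne_of_mem_erase hy).symm
    exact if_congr ⟨fun h => h.2, fun h => ⟨hyx, h⟩⟩ rfl rfl
  rw [hN0, hN1]
  push_cast
  simp only [← Finset.mul_sum]
  have h8 : (2 : ℂ) ^ (3 * m + 2) = 2 ^ (3 * m) * 4 := by rw [pow_add]; norm_num
  rw [h8]
  ring

end Pc0b458P
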