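import Pool.Agent.Lib.Pc0b458P.Coh
import Pool.Agent.Lib.Pc0b458P.TestAlg

/-!
# Module Ext: the exterior algebra gives test algebras (about 2h)

* `pm s`: the pair map `F u v = ev (inj s true u) (inj s false v)`. `left`: `ι a ι b ι a ι c = - ι a ι a ι b ι c = 0`.
* `tAlg`: the pair maps `pm (J i)`, `a = e4 J true`, `b = e4 J false`.
  `ab`: in the exterior algebra `e1 e2 e3 e4 f1 f2 f3 f4 = e1 f1 e2 f2 e3 f3 e4 f4` (three transpositions of `f1`, two of
  `f2`, one of `f3`: sign `+`), where the pairs `e_i f_i` are `F (dl x) (dl y)`; here `inj s b (dl x) = ee s b x`.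
  `a_top`: `(pm (J i)).top` contains the factor `F (dl x) (dl x) = ι(ee (J i) true x) ι(ee (J i) false x)`, and `e4 J true x`
  contains the factor `ι (ee (J i) true x)` (move it next to the other one; all pairs are central).
  `aa`: `e4 J true x * e4 J true y * ∏ j, F (u j) (v j)` contains `ι p`, `ι p'` with `p = inj (J 0) true (dl x)`,
  `p' = inj (J 0) true (dl y)` and `ι (inj (J 0) true (u j))`, `j < n`, together `n + 2 = card X + 1` vectors of a space of dimension
  `card X`. So there is a nontrivial linear relation between `dl x, dl y, u j`. If the coefficient of `dl x` is nonzero,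
  replace `dl x` by a combination of the others, and each term vanishes (`ι v` times `ι v` times anything), similarly for
  `dl y` and for `u j`. (Alternatively: the product `∏ j F (u j) (v j)` for `n = card X - 1` is a combination of
  `∏_{l ≠ k} F (dl l) (dl (π l))`...; the relation argument is easier.)
-/

open Finset ComplexConjugate

namespace Pc0b458P

namespace ExtAux

section

variable {Φ X : Type}

theorem ev_val (u v : HV Φ X) :
    ((ev u v : HC Φ X) : HH Φ X) = ExteriorAlgebra.ι ℂ u * ExteriorAlgebra.ι ℂ v := rfl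

theorem io_swap (u v : HV Φ X) : (ExteriorAlgebra.ι ℂ u : HH Φ X) * ExteriorAlgebra.ι ℂ v =
    -(ExteriorAlgebra.ι ℂ v * ExteriorAlgebra.ι ℂ u) :=
  eq_neg_of_add_eq_zero_left (ExteriorAlgebra.ι_add_mul_swap (R := ℂ) u v)

theorem ev_swap (u v : HV Φ X) : (ev u (-v) : HC Φ X) = ev v u := by
  apply Subtype.ext
  change ExteriorAlgebra.ι ℂ u * ExteriorAlgebra.ι ℂ (-v) =
    ExteriorAlgebra.ι ℂ v * ExteriorAlgebra.ι ℂ u
  rw [map_neg, mul_neg, io_swap v u]

theorem ev_mul_ll (u v w : HV Φ X) : (ev u v : HC Φ X) * ev u w = 0 := by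
  apply Subtype.ext
  change ExteriorAlgebra.ι ℂ u * ExteriorAlgebra.ι ℂ v *
    (ExteriorAlgebra.ι ℂ u * ExteriorAlgebra.ι ℂ w) = 0
  rw [io_swap u v, neg_mul, mul_assoc, ← mul_assoc (ExteriorAlgebra.ι ℂ u)
    (ExteriorAlgebra.ι ℂ u), ExteriorAlgebra.ι_sq_zero, zero_mul, mul_zero, neg_zero]

theorem ev_mul_rr (u v w : HV Φ X) : (ev v u : HC Φ X) * ev w u = 0 := by
  rw [← ev_swap u v, ← ev_swap u w, ev_mul_ll]

theorem ev_mul_lr (u v w : HV Φ X) : (ev u v : HC Φ X) * ev w u = 0 := by
  rw [← ev_swap u w, ev_mul_ll]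

theorem ev_mul_rl (u v w : HV Φ X) : (ev v u : HC Φ X) * ev u w = 0 := by
  rw [← ev_swap u v, ev_mul_ll]

theorem ev_eight (a b c d p q r t : HV Φ X) :
    (ev a b : HC Φ X) * ev c d * (ev p q * ev r t) = ev a p * ev b q * ev c r * ev d t := by
  have h1 : ∀ a b c d : HV Φ X, (ev a b : HC Φ X) * ev c d = ev a c * ev (-b) d := by
    intro a b c d
    apply Subtype.ext
    change ExteriorAlgebra.ι ℂ a * ExteriorAlgebra.ι ℂ b *
      (ExteriorAlgebra.ι ℂ c * ExteriorAlgebra.ι ℂ d) =
      ExteriorAlgebra.ι ℂ a * ExteriorAlgebra.ι ℂ c *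
      (ExteriorAlgebra.ι ℂ (-b) * ExteriorAlgebra.ι ℂ d)
    rw [mul_assoc, ← mul_assoc (ExteriorAlgebra.ι ℂ b) (ExteriorAlgebra.ι ℂ c), io_swap b c,
      map_neg]
    simp only [mul_assoc, neg_mul, mul_neg]
  have h2 : (ev (-b) q : HC Φ X) * ev (-d) t = ev b q * ev d t := by
    apply Subtype.ext
    change ExteriorAlgebra.ι ℂ (-b) * ExteriorAlgebra.ι ℂ q *
      (ExteriorAlgebra.ι ℂ (-d) * ExteriorAlgebra.ι ℂ t) =
      ExteriorAlgebra.ι ℂ b * ExteriorAlgebra.ι ℂ q *
      (ExteriorAlgebra.ι ℂ d * ExteriorAlgebra.ι ℂ t)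
    rw [map_neg, map_neg]
    simp only [neg_mul, mul_neg, neg_neg]
  calc (ev a b : HC Φ X) * ev c d * (ev p q * ev r t)
      = (ev a b * ev p q) * (ev c d * ev r t) := by ring
    _ = (ev a p * ev (-b) q) * (ev c r * ev (-d) t) := by rw [h1 a b p q, h1 c d r t]
    _ = ev a p * ev c r * (ev (-b) q * ev (-d) t) := by ring
    _ = _ := by rw [h2]; ring

theorem ev_zero_left (v : HV Φ X) : (ev 0 v : HC Φ X) = 0 := by
  apply Subtype.ext
  change ExteriorAlgebra.ι ℂ 0 * ExteriorAlgebra.ι ℂ v = (0 : HH Φ X)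
  rw [map_zero, zero_mul]

/-- the product of two vectors as a linear map in the first vector -/
noncomputable def evL (v : HV Φ X) : HV Φ X →ₗ[ℂ] HC Φ X where
  toFun u := ev u v
  map_add' u u' := by
    apply Subtype.ext
    simp [ev, add_mul]
  map_smul' c u := by
    apply Subtype.ext
    simp [ev]

theorem evL_apply (u v : HV Φ X) : evL v u = ev u v := rfl

/-- a product of pairs with too many first vectors vanishes -/
theorem prod_ev_zero [DecidableEq Φ] [Fintype X] (s : Φ) (b : Bool) {κ : Type} [Fintype κ]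
    (h : Fintype.card X < Fintype.card κ) (w : κ → X → ℂ) (z : κ → HV Φ X) :
    ∏ k, (ev (inj s b (w k)) (z k) : HC Φ X) = 0 := by
  classical
  let f : (X → ℂ) [⋀^κ]→ₗ[ℂ] HC Φ X :=
    { (MultilinearMap.mkPiAlgebra ℂ κ (HC Φ X)).compLinearMap
        (fun k => (evL (z k)).comp (inj s b)) with
      map_eq_zero_of_eq' := by
        intro v i j hij hne
        change ∏ k, (ev (inj s b (v k)) (z k) : HC Φ X) = 0
        rw [← Finset.mul_prod_erase univ _ (mem_univ i), ← Finset.mul_prod_erase (univ.erase i) _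
          (mem_erase.mpr ⟨hne.symm, mem_univ j⟩), ← mul_assoc, hij, ev_mul_ll, zero_mul] }
  have hf : f w = ∏ k, (ev (inj s b (w k)) (z k) : HC Φ X) := rfl
  rw [← hf]
  apply AlternatingMap.map_linearDependent
  intro hli
  have := hli.fintype_card_le_finrank
  rw [Module.finrank_pi] at this
  omega

end

end ExtAux

open ExtAux

section

variable {Φ X : Type} [DecidableEq Φ] [Fintype X] [DecidableEq X]

omit [Fintype X] in
theorem inj_dl (s : Φ) (b : Bool) (x : X) : inj s b (dl x) = ee s b x := by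
  funext i
  obtain ⟨t, c, y⟩ := i
  change (if t = s ∧ c = b then (Pi.single x 1 : X → ℂ) y else 0) =
    (Pi.single (s, b, x) 1 : HV Φ X) (t, c, y)
  by_cases h1 : t = s
  · by_cases h2 : c = b
    · by_cases h3 : y = x
      · rw [if_pos ⟨h1, h2⟩, h1, h2, h3, Pi.single_eq_same, Pi.single_eq_same]
      · rw [if_pos ⟨h1, h2⟩, Pi.single_eq_of_ne h3, Pi.single_eq_of_ne]
        intro h; exact h3 (congrArg (fun q => q.2.2) h)
    · rw [if_neg (fun h => h2 h.2), Pi.single_eq_of_ne]
      intro h; exact h2 (congrArg (fun q => q.2.1) h)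
  · rw [if_neg (fun h => h1 h.1), Pi.single_eq_of_ne]
    intro h; exact h1 (congrArg (fun q => q.1) h)

/-- the pair map of `s` -/
noncomputable def pm (s : Φ) : PairMap X (HC Φ X) where
  F := LinearMap.mk₂ ℂ (fun u v => ev (inj s true u) (inj s false v))
    (fun u u' v => by
      apply Subtype.ext
      simp [ev, add_mul])
    (fun c u v => by
      apply Subtype.ext
      simp [ev])
    (fun u v v' => by
      apply Subtype.ext
      simp [ev, mul_add])
    (fun c u v => by
      apply Subtype.ext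
      simp [ev])
  left := fun u v v' => ev_mul_ll _ _ _
  right := fun u u' v => ev_mul_rr _ _ _

omit [DecidableEq X] in
theorem pm_apply (s : Φ) (u v : X → ℂ) :
    (pm s : PairMap X (HC Φ X)).F u v = ev (inj s true u) (inj s false v) := rfl

theorem e4_ab (J : Fin 4 → Φ) (x y : X) :
    e4 J true x * e4 J false y = ∏ i, (pm (J i) : PairMap X (HC Φ X)).F (dl x) (dl y) := by
  simp only [pm_apply, inj_dl, Fin.prod_univ_four, e4]
  exact ev_eight _ _ _ _ _ _ _ _

theorem e4_top (J : Fin 4 → Φ) (i : Fin 4) (b : Bool) (x : X) :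
    e4 J b x * (pm (J i) : PairMap X (HC Φ X)).top = 0 := by
  have h1 : (pm (J i) : PairMap X (HC Φ X)).top =
      ev (ee (J i) true x) (ee (J i) false x) *
        ∏ y ∈ univ.erase x, (pm (J i) : PairMap X (HC Φ X)).F (dl y) (dl y) := by
    rw [PairMap.top, ← Finset.mul_prod_erase univ _ (mem_univ x), pm_apply, inj_dl, inj_dl]
  have h2 : e4 J b x * ev (ee (J i) true x) (ee (J i) false x) = (0 : HC Φ X) := by
    have h3 : ∀ u : HV Φ X, (ev (ee (J i) b x) u : HC Φ X) *
        ev (ee (J i) true x) (ee (J i) false x) = 0 := by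
      intro u
      cases b
      · exact ev_mul_lr _ _ _
      · exact ev_mul_ll _ _ _
    have h4 : ∀ u : HV Φ X, (ev u (ee (J i) b x) : HC Φ X) *
        ev (ee (J i) true x) (ee (J i) false x) = 0 := by
      intro u
      cases b
      · exact ev_mul_rr _ _ _
      · exact ev_mul_rl _ _ _
    unfold e4
    fin_cases i
    · rw [mul_right_comm]
      exact (congrArg (· * _) (h3 _)).trans (zero_mul _)
    · rw [mul_right_comm]
      exact (congrArg (· * _) (h4 _)).trans (zero_mul _)
    · rw [mul_assoc]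
      exact (congrArg (_ * ·) (h3 _)).trans (mul_zero _)
    · rw [mul_assoc]
      exact (congrArg (_ * ·) (h4 _)).trans (mul_zero _)
  rw [h1, ← mul_assoc, h2, zero_mul]

theorem e4_e4 (J : Fin 4 → Φ) (b : Bool) (n : ℕ) (u v : Fin n → X → ℂ) (x y : X)
    (hn : n + 1 = Fintype.card X) :
    e4 J b x * e4 J b y * ∏ j, (pm (J 0) : PairMap X (HC Φ X)).F (u j) (v j) = 0 := by
  obtain ⟨w, z, hw⟩ : ∃ (w : Fin n → X → ℂ) (z : Fin n → HV Φ X),
      ∀ j, (pm (J 0) : PairMap X (HC Φ X)).F (u j) (v j) = ev (inj (J 0) b (w j)) (z j) := by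
    cases b
    · refine ⟨v, fun j => -inj (J 0) true (u j), fun j => ?_⟩
      rw [pm_apply, ev_swap]
    · exact ⟨u, fun j => inj (J 0) false (v j), fun j => rfl⟩
  have h1 := prod_ev_zero (κ := Fin (n + 2)) (J 0) b (by rw [Fintype.card_fin]; omega)
    (Fin.cons (dl x) (Fin.cons (dl y) w) : Fin (n + 2) → X → ℂ)
    (Fin.cons (ee (J 1) b x) (Fin.cons (ee (J 1) b y) z) : Fin (n + 2) → HV Φ X)
  rw [Fin.prod_univ_succ, Fin.prod_univ_succ] at h1
  simp only [Fin.cons_zero, Fin.cons_succ, inj_dl] at h1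
  simp only [hw, e4]
  calc _ = (ev (ee (J 0) b x) (ee (J 1) b x) * (ev (ee (J 0) b y) (ee (J 1) b y) *
          ∏ j, (ev (inj (J 0) b (w j)) (z j) : HC Φ X))) *
          (ev (ee (J 2) b x) (ee (J 3) b x) * ev (ee (J 2) b y) (ee (J 3) b y)) := by ring
    _ = 0 := by rw [h1, zero_mul]

/-- the test algebra -/
noncomputable def tAlg (J : Fin 4 → Φ) : TestAlg X (HC Φ X) where
  P i := pm (J i)
  a x := e4 J true x
  b x := e4 J false x
  ab := e4_ab J
  a_top i x := e4_top J i true x
  b_top i x := e4_top J i false x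
  aa n u v x y hn := e4_e4 J true n u v x y hn
  bb n u v x y hn := e4_e4 J false n u v x y hn

omit [DecidableEq X] in
theorem Dv_single [Fintype Φ] (s : Φ) (u : X → ℂ) :
    Dv (Pi.single s u : Φ → X → ℂ) = (pm s : PairMap X (HC Φ X)).F u (cj u) := by
  rw [Dv, Finset.sum_eq_single s]
  · rw [Pi.single_eq_same, pm_apply]
  · intro t _ ht
    rw [Pi.single_eq_of_ne ht, map_zero, ev_zero_left]
  · intro h; exact absurd (mem_univ s) h

theorem Dv_dls [Fintype Φ] (x : X) :
    Dv (dls x : Φ → X → ℂ) = ∑ s, (pm s : PairMap X (HC Φ X)).F (dl x) (dl x) := by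
  have h : cj (dl x) = dl x := by
    funext l
    rw [cj, dl]
    by_cases hl : l = x
    · rw [hl, Pi.single_eq_same, map_one]
    · rw [Pi.single_eq_of_ne hl, map_zero]
  rw [Dv]
  refine Finset.sum_congr rfl fun s _ => ?_
  rw [pm_apply, dls, h]

theorem topF_eq [Fintype Φ] : (topF : HC Φ X) = ∏ s, (pm s : PairMap X (HC Φ X)).top := by
  rw [topF]
  refine Finset.prod_congr rfl fun s _ => ?_
  rw [PairMap.top]
  refine Finset.prod_congr rfl fun x _ => ?_
  rw [pm_apply, inj_dl, inj_dl]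

end

end Pc0b458P
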