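import Pool.Agent.Lib.Pc0b458P.Tor

/-!
# Module Fou: weight components (about 1.5h)

`z3 ^ 3 = 1`, `conj z3 = z3 ^ 2`, so `pt u s = z3 ^ (u s).val` depends additively on `u` (exponents modulo 3), and
`tor (pt u) (mo f) = z3 ^ (∑ s, u s * wt f s).val • mo f` by `tor_mo` (a factor `z3 ^ (u s).val` for `true` and its conjugate
`z3 ^ (-(u s)).val` for `false`; note `wt f s` is the sum of the signs of the entries of `f` at `s`).
* `Pr_mo`: orthogonality of the characters of `Φ → ZMod 3` (sum over `u` of `z3 ^ (∑ u s (wt f s - η s)).val`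
  is `3 ^ card Φ` if `wt f = η` and zero otherwise; product of one variable sums).
* `sum_Pr`: on monomials. `Pr_rs`: `Pr η z + Pr (-η) z` is the sum of the `tor (pt u) z` with the real coefficients
  `2 Re (z3 ^ ..) / 3 ^ card Φ`, and `tor_rs`.
* `Pr_mul`: if `w` is fixed by all `tor (pt u)` then `tor (pt u) (z w) = tor (pt u) z * w`.
* `Pr_span`: from `mo_span` and `Pr_mo`.
-/

universe u

open Pc0b458 Finset ComplexConjugate

namespace Pc0b458P

namespace FouAux

/-- the character -/
noncomputable def ps : AddChar (ZMod 3) ℂ := ZMod.stdAddChar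

theorem ps_eq (a : ZMod 3) : z3 ^ a.val = ps a := by
  unfold ps z3
  conv_rhs => rw [← ZMod.natCast_zmod_val a]
  have h := ZMod.stdAddChar_coe (N := 3) (a.val : ℤ)
  rw [Int.cast_natCast] at h
  rw [h, ← Complex.exp_nat_mul]
  congr 1
  push_cast
  ring

theorem ps_sum {ι : Type*} (S : Finset ι) (f : ι → ZMod 3) :
    ps (∑ i ∈ S, f i) = ∏ i ∈ S, ps (f i) := by
  classical
  induction S using Finset.induction_on with
  | empty => simp
  | insert i S hi ih => rw [Finset.sum_insert hi, Finset.prod_insert hi, AddChar.map_add_eq_mul, ih]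

theorem ps_neg (a : ZMod 3) : ps (-a) = conj (ps a) := AddChar.map_neg_eq_conj ps a

theorem ps_orth (b : ZMod 3) : ∑ a : ZMod 3, ps (a * b) = if b = 0 then 3 else 0 := by
  have h := AddChar.sum_mulShift (ψ := (ps : AddChar (ZMod 3) ℂ)) b (ZMod.isPrimitive_stdAddChar 3)
  rw [h]
  split_ifs <;> simp

variable {Φ : Type} [Fintype Φ] [DecidableEq Φ]

theorem ps_orth_pi (b : Φ → ZMod 3) :
    ∑ u : Φ → ZMod 3, ps (∑ s, u s * b s) = if b = 0 then (3 : ℂ) ^ Fintype.card Φ else 0 := by
  have h1 : ∀ u : Φ → ZMod 3, ps (∑ s, u s * b s) = ∏ s, ps (u s * b s) := fun u => ps_sum _ _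
  simp only [h1]
  have h2 := Finset.prod_univ_sum (fun _ : Φ => (univ : Finset (ZMod 3))) fun s a => ps (a * b s)
  rw [Fintype.piFinset_univ] at h2
  rw [← h2]
  simp only [ps_orth]
  split_ifs with hb
  · subst hb
    simp
  · have : ∃ s, b s ≠ 0 := by
      by_contra hcon
      push Not at hcon
      exact hb (funext hcon)
    obtain ⟨s, hs⟩ := this
    exact Finset.prod_eq_zero (mem_univ s) (if_neg hs)

theorem wt_sum {k : ℕ} (u : Φ → ZMod 3) (f : Fin k → Φ × Bool) :
    ∑ s, u s * wt f s = ∑ j, u (f j).1 * (if (f j).2 then 1 else -1) := by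
  simp only [wt, Finset.sum_apply, Finset.mul_sum]
  rw [Finset.sum_comm]
  refine Finset.sum_congr rfl fun j _ => ?_
  rw [Finset.sum_eq_single (f j).1]
  · rw [Pi.single_eq_same]
  · intro s _ hs
    rw [Pi.single_eq_of_ne hs, mul_zero]
  · intro h
    exact absurd (mem_univ _) h

end FouAux

section

variable {Φ : Type} [Fintype Φ] [DecidableEq Φ]

theorem tor_pt_mo {k : ℕ} (u : Φ → ZMod 3) (f : Fin k → Φ × Bool) :
    tor (pt u) (mo f) = (z3 ^ (∑ s, u s * wt f s : ZMod 3).val) • mo f := by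
  rw [tor_mo, FouAux.ps_eq, FouAux.wt_sum, FouAux.ps_sum]
  congr 1
  refine Finset.prod_congr rfl fun j _ => ?_
  unfold pt
  rw [FouAux.ps_eq]
  split_ifs
  · rw [mul_one]
  · rw [mul_neg, mul_one, FouAux.ps_neg]

theorem Pr_mo {k : ℕ} (η : Φ → ZMod 3) (f : Fin k → Φ × Bool) :
    Pr η (mo f) = if wt f = η then mo f else 0 := by
  unfold Pr
  simp only [tor_pt_mo, FouAux.ps_eq, smul_smul, ← Finset.sum_smul, ← AddChar.map_add_eq_mul]
  have h : ∀ u : Φ → ZMod 3, (-∑ s, u s * η s) + ∑ s, u s * wt f s = ∑ s, u s * (wt f - η) s := by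
    intro u
    rw [neg_add_eq_sub, ← Finset.sum_sub_distrib]
    refine Finset.sum_congr rfl fun s _ => ?_
    rw [Pi.sub_apply]
    ring
  simp only [h, FouAux.ps_orth_pi, sub_eq_zero]
  split_ifs with hw
  · rw [inv_mul_cancel₀ (pow_ne_zero _ (by norm_num)), one_smul]
  · rw [mul_zero, zero_smul]

theorem Pr_add (η : Φ → ZMod 3) (z w : HH Φ Unit) : Pr η (z + w) = Pr η z + Pr η w := by
  unfold Pr
  simp only [map_add, smul_add, Finset.sum_add_distrib]

theorem Pr_smul (η : Φ → ZMod 3) (c : ℂ) (z : HH Φ Unit) : Pr η (c • z) = c • Pr η z := by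
  unfold Pr
  simp only [map_smul, Finset.smul_sum]
  refine Finset.sum_congr rfl fun u _ => ?_
  rw [smul_comm _ c, smul_comm _ c]

theorem FouAux.Pr_zero (η : Φ → ZMod 3) : Pr η (0 : HH Φ Unit) = 0 := by
  have := Pr_smul η 0 (0 : HH Φ Unit)
  simpa using this

theorem Pr_span {k : ℕ} (η : Φ → ZMod 3) {z : HH Φ Unit} (hz : z ∈ ⋀[ℂ]^k (HV Φ Unit)) :
    Pr η z ∈ Submodule.span ℂ {w | ∃ f : Fin k → Φ × Bool, wt f = η ∧ w = mo f} := by
  have h := mo_span k z hz
  clear hz
  induction h using Submodule.span_induction with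
  | mem x hx =>
    obtain ⟨f, rfl⟩ := hx
    rw [Pr_mo]
    split_ifs with hw
    · exact Submodule.subset_span ⟨f, hw, rfl⟩
    · exact Submodule.zero_mem _
  | zero => rw [FouAux.Pr_zero]; exact Submodule.zero_mem _
  | add x y _ _ hx hy => rw [Pr_add]; exact Submodule.add_mem _ hx hy
  | smul a x _ hx => rw [Pr_smul]; exact Submodule.smul_mem _ _ hx

theorem sum_Pr {k : ℕ} {z : HH Φ Unit} (hz : z ∈ ⋀[ℂ]^k (HV Φ Unit)) :
    ∑ η : Φ → ZMod 3, Pr η z = z := by
  have h := mo_span k z hz
  clear hz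
  induction h using Submodule.span_induction with
  | mem x hx =>
    obtain ⟨f, rfl⟩ := hx
    simp only [Pr_mo]
    rw [Finset.sum_ite_eq univ (wt f), if_pos (mem_univ _)]
  | zero => simp only [FouAux.Pr_zero, Finset.sum_const_zero]
  | add x y _ _ hx hy => simp only [Pr_add, Finset.sum_add_distrib, hx, hy]
  | smul a x _ hx => simp only [Pr_smul, ← Finset.smul_sum, hx]

theorem Pr_mul (η : Φ → ZMod 3) (z w : HH Φ Unit) (hw : ∀ u, tor (pt u) w = w) :
    Pr η (z * w) = Pr η z * w := by
  unfold Pr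
  simp only [map_mul, hw, smul_mul_assoc, Finset.sum_mul]

namespace FouAux

theorem tor_span {k : ℕ} (η : Φ → ZMod 3) (u : Φ → ZMod 3) {z : HH Φ Unit}
    (hz : z ∈ Submodule.span ℂ {w | ∃ f : Fin k → Φ × Bool, wt f = η ∧ w = mo f}) :
    tor (pt u) z = ps (∑ s, u s * η s) • z := by
  induction hz using Submodule.span_induction with
  | mem x hx =>
    obtain ⟨f, rfl, rfl⟩ := hx
    rw [tor_pt_mo, ps_eq]
  | zero => simp
  | add x y _ _ hx hy => rw [map_add, hx, hy, smul_add]
  | smul a x _ hx => rw [map_smul, hx, smul_comm]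

theorem tor_top (u : Φ → ZMod 3) {z : HH Φ Unit}
    (hz : z ∈ ⋀[ℂ]^(2 * Fintype.card Φ) (HV Φ Unit)) : tor (pt u) z = z := by
  have h := mo_span _ z hz
  clear hz
  induction h using Submodule.span_induction with
  | mem x hx =>
    obtain ⟨f, rfl⟩ := hx
    by_cases hf : Function.Injective f
    · have hb : Function.Bijective f := by
        rw [Fintype.bijective_iff_injective_and_card]
        refine ⟨hf, ?_⟩
        rw [Fintype.card_fin, Fintype.card_prod, Fintype.card_bool, mul_comm]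
      have h1 : ∑ s, u s * wt f s = 0 := by
        rw [wt_sum]
        have h2 := (Equiv.ofBijective f hb).sum_comp
          (fun p : Φ × Bool => u p.1 * (if p.2 then 1 else -1))
        simp only [Equiv.ofBijective_apply] at h2
        rw [h2, Fintype.sum_prod_type]
        apply Finset.sum_eq_zero
        intro s _
        simp
      rw [tor_pt_mo, h1, ps_eq, AddChar.map_zero_eq_one, one_smul]
    · have h0 : (mo f : HH Φ Unit) = 0 := by
        rw [Function.Injective] at hf
        push Not at hf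
        obtain ⟨i, j, hij, hne⟩ := hf
        exact AlternatingMap.map_eq_zero_of_eq _ _ (by simp only [hij]) hne
      simp only [h0, map_zero]
  | zero => simp
  | add x y _ _ hx hy => rw [map_add, hx, hy]
  | smul a x _ hx => rw [map_smul, hx]

end FouAux

/-- an element of the top degree which is a product of elements of opposite weights only can be
nonzero -/
theorem weight_orth {k l : ℕ} (η η' : Φ → ZMod 3) (h : η + η' ≠ 0) (δ : HH Φ Unit →ₗ[ℂ] ℂ)
    {z w c : HH Φ Unit}
    (hz : z ∈ Submodule.span ℂ {w | ∃ f : Fin k → Φ × Bool, wt f = η ∧ w = mo f})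
    (hw : w ∈ Submodule.span ℂ {w | ∃ f : Fin l → Φ × Bool, wt f = η' ∧ w = mo f})
    (hc : ∀ u, tor (pt u) c = c)
    (htop : z * w * c ∈ ⋀[ℂ]^(2 * Fintype.card Φ) (HV Φ Unit)) : δ (z * w * c) = 0 := by
  have h1 : ∀ u : Φ → ZMod 3, z * w * c = FouAux.ps (∑ s, u s * (η + η') s) • (z * w * c) := by
    intro u
    conv_lhs => rw [← FouAux.tor_top u htop]
    rw [map_mul, map_mul, hc, FouAux.tor_span η u hz, FouAux.tor_span η' u hw, smul_mul_smul_comm,
      smul_mul_assoc, ← AddChar.map_add_eq_mul, ← Finset.sum_add_distrib]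
    simp only [Pi.add_apply, mul_add]
  have h2 : ∃ s, (η + η') s ≠ 0 := by
    by_contra hcon
    push Not at hcon
    exact h (funext hcon)
  obtain ⟨s, hs⟩ := h2
  by_cases hx : z * w * c = 0
  · rw [hx, map_zero]
  · exfalso
    have h3 : ∀ a : ZMod 3, FouAux.ps (a * (η + η') s) = 1 := by
      intro a
      have h4 := h1 (Pi.single s a)
      have h5 : ∑ t, (Pi.single s a : Φ → ZMod 3) t * (η + η') t = a * (η + η') s := by
        rw [Finset.sum_eq_single s]
        · rw [Pi.single_eq_same]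
        · intro t _ ht
          rw [Pi.single_eq_of_ne ht, zero_mul]
        · intro h'
          exact absurd (mem_univ _) h'
      rw [h5] at h4
      by_contra hne
      have h6 : (FouAux.ps (a * (η + η') s) - 1) • (z * w * c) = 0 := by
        rw [sub_smul, one_smul, ← h4, sub_self]
      rcases smul_eq_zero.1 h6 with h7 | h7
      · exact hne (sub_eq_zero.1 h7)
      · exact hx h7
    have h8 := FouAux.ps_orth ((η + η') s)
    rw [if_neg hs] at h8
    simp only [h3, Finset.sum_const, Finset.card_univ, ZMod.card, nsmul_eq_mul, mul_one] at h8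
    norm_num at h8

end

variable {T : NumTheory.{u}} {W : EffData T} {A : T.AV} {L : T.Z A} (d : CMData T W A L)

theorem Pr_rs (i : ℕ) (η : d.Φ → ZMod 3) {z : HH d.Φ Unit} (hz : z ∈ d.rs i) :
    Pr η z + Pr (-η) z ∈ d.rs i := by
  have hsm : ∀ (r : ℝ) (z : HH d.Φ Unit), r • z = (r : ℂ) • z :=
    fun r z => (algebraMap_smul ℂ r z).symm
  have h1 : Pr η z + Pr (-η) z =
      ∑ u : d.Φ → ZMod 3, (((3 : ℝ) ^ Fintype.card d.Φ)⁻¹ * (2 * (FouAux.ps (∑ s, u s * η s)).re)) •
        tor (pt u) z := by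
    unfold Pr
    rw [← smul_add, ← Finset.sum_add_distrib, Finset.smul_sum]
    refine Finset.sum_congr rfl fun u _ => ?_
    rw [← add_smul, smul_smul, hsm]
    congr 1
    simp only [FouAux.ps_eq, Pi.neg_apply, mul_neg, Finset.sum_neg_distrib, neg_neg, FouAux.ps_neg]
    push_cast
    rw [add_comm, Complex.add_conj]
    push_cast
    ring
  rw [h1]
  exact Submodule.sum_mem _ fun u _ => Submodule.smul_mem _ _ (tor_rs d i _ hz)

end Pc0b458P
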