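import Pool.Agent.Lib.Pc0b458P.Gauss

/-!
# Module Rot: unitary invariance (about 1.2h)

For `qq x = 1` take the complex linear map
`R u = (conj x.1 * u.1 + conj x.2 * u.2, x.1 * u.2 - x.2 * u.1)`, of determinant `qq x = 1`.
`br (R u) (R v) = br u v` and `qq (R u) = qq u` are direct computations. `R` preserves the volume:
as a real linear map it has determinant `|det|^2 = 1` (`LinearMap.det_restrictScalars`, or write `R` as a product of
simple maps; `MeasureTheory.Measure.map_linearMap_addHaar_eq_smul_addHaar` or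
`LinearMap.measurePreserving...`), hence it preserves `gam`, whose density is a function of `qq`.
A convenient way: the inverse of `R` is given by a similar formula, so `R` is a measurable
equivalence.
-/

open MeasureTheory Finset ComplexConjugate

namespace Pc0b458P

namespace RotAux

/-- the rotation as a linear map -/
noncomputable def rot (x : ℂ × ℂ) : (ℂ × ℂ) →ₗ[ℂ] (ℂ × ℂ) :=
  Matrix.toLin (Module.Basis.finTwoProd ℂ) (Module.Basis.finTwoProd ℂ)
    !![conj x.1, conj x.2; -x.2, x.1]

theorem rot_apply (x u : ℂ × ℂ) :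
    rot x u = (conj x.1 * u.1 + conj x.2 * u.2, -x.2 * u.1 + x.1 * u.2) :=
  Matrix.toLin_finTwoProd_apply _ _ _ _ _

theorem conj_eq {x : ℂ × ℂ} (hx : qq x = 1) : conj x.1 * x.1 + conj x.2 * x.2 = 1 := by
  rw [mul_comm, Complex.mul_conj, mul_comm (conj x.2), Complex.mul_conj,
    Complex.normSq_eq_norm_sq, Complex.normSq_eq_norm_sq, ← Complex.ofReal_add]
  unfold qq at hx
  rw [hx, Complex.ofReal_one]

theorem det_rot {x : ℂ × ℂ} (hx : qq x = 1) :
    LinearMap.det ((rot x).restrictScalars ℝ) = 1 := by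
  have h1 : LinearMap.det (rot x) = 1 := by
    rw [rot, LinearMap.det_toLin, Matrix.det_fin_two_of]
    have := conj_eq hx
    linear_combination this
  rw [LinearMap.det_restrictScalars, h1, map_one]

/-- the inverse map -/
noncomputable def inv (x u : ℂ × ℂ) : ℂ × ℂ :=
  (x.1 * u.1 - conj x.2 * u.2, x.2 * u.1 + conj x.1 * u.2)

theorem inv_rot {x : ℂ × ℂ} (hx : qq x = 1) (u : ℂ × ℂ) : inv x (rot x u) = u := by
  have h := conj_eq hx
  rw [rot_apply]
  unfold inv
  refine Prod.ext ?_ ?_
  · simp only
    linear_combination u.1 * h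
  · simp only
    linear_combination u.2 * h

theorem rot_inv {x : ℂ × ℂ} (hx : qq x = 1) (u : ℂ × ℂ) : rot x (inv x u) = u := by
  have h := conj_eq hx
  rw [rot_apply]
  unfold inv
  refine Prod.ext ?_ ?_
  · simp only
    linear_combination u.1 * h
  · simp only
    linear_combination u.2 * h

theorem measurable_rot (x : ℂ × ℂ) : Measurable (rot x) := by
  have : (fun u => rot x u) =
      fun u : ℂ × ℂ => (conj x.1 * u.1 + conj x.2 * u.2, -x.2 * u.1 + x.1 * u.2) :=
    funext fun u => rot_apply x u
  change Measurable (fun u => rot x u)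
  rw [this]
  fun_prop

theorem measurable_inv (x : ℂ × ℂ) : Measurable (inv x) := by
  unfold inv
  fun_prop

/-- the rotation as a measurable equivalence -/
noncomputable def equiv (x : ℂ × ℂ) (hx : qq x = 1) : (ℂ × ℂ) ≃ᵐ (ℂ × ℂ) where
  toFun := rot x
  invFun := inv x
  left_inv := inv_rot hx
  right_inv := rot_inv hx
  measurable_toFun := measurable_rot x
  measurable_invFun := measurable_inv x

theorem qq_rot {x : ℂ × ℂ} (hx : qq x = 1) (u : ℂ × ℂ) : qq (rot x u) = qq u := by
  have h := conj_eq hx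
  have h1 : ∀ v : ℂ × ℂ, ((qq v : ℝ) : ℂ) = conj v.1 * v.1 + conj v.2 * v.2 := by
    intro v
    rw [mul_comm, Complex.mul_conj, mul_comm (conj v.2), Complex.mul_conj,
      Complex.normSq_eq_norm_sq, Complex.normSq_eq_norm_sq, ← Complex.ofReal_add]
    rfl
  apply Complex.ofReal_injective
  rw [h1, h1, rot_apply]
  simp only [map_add, map_mul, map_neg, Complex.conj_conj]
  linear_combination (conj u.1 * u.1 + conj u.2 * u.2) * h

theorem mp_rot {x : ℂ × ℂ} (hx : qq x = 1) :
    MeasurePreserving (rot x) (volume : Measure (ℂ × ℂ)) volume := by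
  refine ⟨measurable_rot x, ?_⟩
  have hH : (volume : Measure (ℂ × ℂ)).IsAddHaarMeasure :=
    inferInstanceAs ((volume : Measure ℂ).prod (volume : Measure ℂ)).IsAddHaarMeasure
  have h := Measure.map_linearMap_addHaar_eq_smul_addHaar (volume : Measure (ℂ × ℂ))
    (f := (rot x).restrictScalars ℝ) (by rw [det_rot hx]; exact one_ne_zero)
  rw [det_rot hx] at h
  simp only [inv_one, abs_one, ENNReal.ofReal_one, one_smul] at h
  exact h

theorem mp_gam {x : ℂ × ℂ} (hx : qq x = 1) : MeasurePreserving (rot x) gam gam := by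
  refine ⟨measurable_rot x, ?_⟩
  ext s hs
  have hm : Measurable fun u : ℂ × ℂ => ENNReal.ofReal (Real.exp (-(‖u.1‖ ^ 2 + ‖u.2‖ ^ 2))) := by
    fun_prop
  rw [Measure.map_apply (measurable_rot x) hs, gam, withDensity_apply _ (measurable_rot x hs),
    withDensity_apply _ hs, ← (mp_rot hx).setLIntegral_comp_preimage hs hm]
  refine lintegral_congr fun u => ?_
  have h := qq_rot hx u
  unfold qq at h
  rw [h]

end RotAux

open RotAux

theorem exists_rot (x : ℂ × ℂ) (hx : qq x = 1) :
    ∃ R : (ℂ × ℂ) ≃ᵐ (ℂ × ℂ), MeasurePreserving R gam gam ∧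
      (∀ u v, br (R u) (R v) = br u v) ∧ (∀ u, (R u).2 = br x u) ∧ ∀ u, qq (R u) = qq u := by
  refine ⟨RotAux.equiv x hx, mp_gam hx, ?_, ?_, qq_rot hx⟩
  · intro u v
    change br (rot x u) (rot x v) = br u v
    have h := conj_eq hx
    rw [rot_apply, rot_apply]
    unfold br
    simp only
    linear_combination (u.1 * v.2 - u.2 * v.1) * h
  · intro u
    change (rot x u).2 = br x u
    rw [rot_apply]
    unfold br
    simp only
    ring

end Pc0b458P
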