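import Pool.Agent.Lib.Pc0b458P.Andr
import Pool.Agent.Lib.Pc0b458P.Rot

/-!
# Module GF: homogeneity (about 1.2h)

For `x ≠ 0` (i.e. `qq x ≠ 0`) write `x = √(qq x) • x'` with `qq x' = 1`; then
`‖br u x‖ = √(qq x) ‖br x' u‖`, take `R` from `exists_rot x'`, and substitute `u i ↦ R (u i)`
(the product map preserves `gamN`: `MeasureTheory.measurePreserving_pi`); `dd` is invariant because the brackets
are. For `x = 0` both sides vanish when `0 < m` and agree when `m = 0`.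

`II_succ`: `dd v univ = dd u univ * ∏ i, ‖br (u i) x‖^2` for `v = Fin.cons x u`; apply `integral_split`
with `P = Unit` (or `Fin 1`) and `A = Fin m`, and `GG_eq`.
-/

open MeasureTheory Finset

namespace Pc0b458P

namespace GFAux

theorem qq_nonneg (x : ℂ × ℂ) : 0 ≤ qq x := by unfold qq; positivity

theorem eq_zero_of_qq {x : ℂ × ℂ} (h : qq x = 0) : x = 0 := by
  unfold qq at h
  have h1 : ‖x.1‖ ^ 2 = 0 := by nlinarith [sq_nonneg ‖x.1‖, sq_nonneg ‖x.2‖]
  have h2 : ‖x.2‖ ^ 2 = 0 := by nlinarith [sq_nonneg ‖x.1‖, sq_nonneg ‖x.2‖]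
  have h3 : x.1 = 0 := by simpa using h1
  have h4 : x.2 = 0 := by simpa using h2
  exact Prod.ext h3 h4

theorem gen (r m : ℕ) (hr : r ≠ 0) (x : ℂ × ℂ) :
    ∫ u : Fin m → ℂ × ℂ, dd u univ * ∏ i, ‖br (u i) x‖ ^ r ∂(gamN (Fin m)) =
      (Real.sqrt (qq x) ^ r) ^ m * II r m := by
  by_cases hx : qq x = 0
  · have hx0 := eq_zero_of_qq hx
    subst hx0
    rcases Nat.eq_zero_or_pos m with hm | hm
    · subst hm
      simp [II]
    · have h1 : ∀ u : Fin m → ℂ × ℂ, dd u univ * ∏ i, ‖br (u i) 0‖ ^ r = 0 := by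
        intro u
        rw [Finset.prod_eq_zero (Finset.mem_univ (⟨0, hm⟩ : Fin m)), mul_zero]
        have : br (u ⟨0, hm⟩) 0 = 0 := by unfold br; simp
        rw [this, norm_zero, zero_pow hr]
      simp_rw [h1]
      rw [integral_zero, hx, Real.sqrt_zero, zero_pow hr, zero_pow hm.ne', zero_mul]
  · have hq : 0 < qq x := lt_of_le_of_ne (qq_nonneg x) (Ne.symm hx)
    set s : ℝ := Real.sqrt (qq x) with hs
    have hs0 : 0 < s := Real.sqrt_pos.2 hq
    have hsq : s ^ 2 = qq x := Real.sq_sqrt hq.le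
    let x' : ℂ × ℂ := ((s : ℂ)⁻¹ * x.1, (s : ℂ)⁻¹ * x.2)
    have hx' : qq x' = 1 := by
      have h1 : qq x' = (s⁻¹) ^ 2 * qq x := by
        unfold qq
        simp only [x']
        rw [norm_mul, norm_mul, norm_inv, Complex.norm_real, Real.norm_of_nonneg hs0.le]
        ring
      rw [h1, ← hsq]
      field_simp
    obtain ⟨R, hR1, hR2, hR3, -⟩ := exists_rot x' hx'
    have hbr : ∀ u, ‖br u x‖ = s * ‖(R u).2‖ := by
      intro u
      rw [hR3]
      have h2 : br u x = -((s : ℂ) * br x' u) := by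
        unfold br
        simp only [x']
        have : (s : ℂ) ≠ 0 := by exact_mod_cast hs0.ne'
        field_simp
        ring
      rw [h2, norm_neg, norm_mul, Complex.norm_real, Real.norm_of_nonneg hs0.le]
    have hmp : MeasurePreserving (fun (u : Fin m → ℂ × ℂ) i => R (u i)) (gamN (Fin m))
        (gamN (Fin m)) := measurePreserving_pi _ _ fun _ => hR1
    have hemb : MeasurableEmbedding (fun (u : Fin m → ℂ × ℂ) i => R (u i)) :=
      (MeasurableEquiv.piCongrRight fun _ : Fin m => R).measurableEmbedding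
    have h3 : ∀ u : Fin m → ℂ × ℂ, dd u univ * ∏ i, ‖br (u i) x‖ ^ r =
        (s ^ r) ^ m * (dd (fun i => R (u i)) univ * ∏ i, ‖(R (u i)).2‖ ^ r) := by
      intro u
      have h4 : dd (fun i => R (u i)) univ = dd u univ := by
        unfold dd
        exact Finset.prod_congr rfl fun p _ => by rw [hR2]
      have h5 : ∏ i, ‖br (u i) x‖ ^ r = (s ^ r) ^ m * ∏ i, ‖(R (u i)).2‖ ^ r := by
        have : ∀ i, ‖br (u i) x‖ ^ r = s ^ r * ‖(R (u i)).2‖ ^ r := fun i => by
          rw [hbr, mul_pow]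
        rw [Finset.prod_congr rfl fun i _ => this i, Finset.prod_mul_distrib, Finset.prod_const,
          Finset.card_univ, Fintype.card_fin]
      rw [h4, h5]; ring
    simp_rw [h3]
    rw [integral_const_mul]
    congr 1
    exact hmp.integral_comp hemb (fun v : Fin m → ℂ × ℂ => dd v univ * ∏ i, ‖(v i).2‖ ^ r)

theorem dd_cons (m : ℕ) (v : Fin (m + 1) → ℂ × ℂ) :
    dd v univ = dd (fun i : Fin m => v i.succ) univ * ∏ i : Fin m, ‖br (v i.succ) (v 0)‖ ^ 2 := by
  unfold dd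
  rw [AndrAux.offDiag_prod (fun i j => ‖br (v i) (v j)‖) (fun i j => AndrAux.br_symm _ _),
    AndrAux.offDiag_prod (fun i j : Fin m => ‖br (v i.succ) (v j.succ)‖)
      (fun i j => AndrAux.br_symm _ _), Fin.prod_univ_succ, Fin.prod_Ioi_zero, mul_pow, mul_comm,
    Finset.prod_pow]
  congr 1
  · congr 1
    refine Finset.prod_congr rfl fun i _ => ?_
    rw [Fin.prod_Ioi_succ]
  · congr 1
    exact Finset.prod_congr rfl fun i _ => AndrAux.br_symm _ _

end GFAux

open GFAux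

theorem GG_eq (m : ℕ) (x : ℂ × ℂ) :
    ∫ u : Fin m → ℂ × ℂ, dd u univ * ∏ i, ‖br (u i) x‖ ^ 2 ∂(gamN (Fin m)) =
      qq x ^ m * II 2 m := by
  rw [gen 2 m (by norm_num), Real.sq_sqrt (qq_nonneg x)]

theorem FF_eq (m : ℕ) (x : ℂ × ℂ) :
    ∫ u : Fin m → ℂ × ℂ, dd u univ * ∏ i, ‖br (u i) x‖ ∂(gamN (Fin m)) =
      Real.sqrt (qq x) ^ m * II 1 m := by
  have h := gen 1 m (by norm_num) x
  simpa using h

theorem II_succ (m : ℕ) : II 0 (m + 1) = kap m * II 2 m := by
  have h0 : ∀ v : Fin (m + 1) → ℂ × ℂ, dd v univ * ∏ i, ‖(v i).2‖ ^ 0 =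
      dd (fun i : Fin m => v i.succ) univ * ∏ i : Fin m, ‖br (v i.succ) (v 0)‖ ^ 2 := by
    intro v
    simp only [pow_zero, Finset.prod_const_one, mul_one]
    exact dd_cons m v
  have hint := integrable_II 0 (m + 1)
  simp_rw [h0] at hint
  unfold II
  simp_rw [h0]
  have hmp := measurePreserving_piFinSuccAbove (fun _ : Fin (m + 1) => gam) 0
  set F : (ℂ × ℂ) × (Fin m → ℂ × ℂ) → ℝ := fun p =>
    dd p.2 univ * ∏ i : Fin m, ‖br (p.2 i) p.1‖ ^ 2 with hF
  have e1 : (fun v : Fin (m + 1) → ℂ × ℂ =>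
      dd (fun i : Fin m => v i.succ) univ * ∏ i : Fin m, ‖br (v i.succ) (v 0)‖ ^ 2) =
      F ∘ (MeasurableEquiv.piFinSuccAbove (fun _ : Fin (m + 1) => ℂ × ℂ) 0) := by
    funext v
    rfl
  have h1 : ∫ v : Fin (m + 1) → ℂ × ℂ,
      dd (fun i : Fin m => v i.succ) univ * ∏ i : Fin m, ‖br (v i.succ) (v 0)‖ ^ 2
        ∂(gamN (Fin (m + 1))) = ∫ p, F p ∂(gam.prod (gamN (Fin m))) := by
    have := hmp.integral_comp' F
    exact this
  have hF' : Integrable F (gam.prod (gamN (Fin m))) := by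
    rw [e1] at hint
    exact (hmp.integrable_comp_emb (MeasurableEquiv.measurableEmbedding _)).1 hint
  have hsf : SFinite (gamN (Fin m)) := by unfold gamN; infer_instance
  rw [h1, integral_prod _ hF']
  have h2 : ∀ x : ℂ × ℂ, ∫ u : Fin m → ℂ × ℂ, F (x, u) ∂(gamN (Fin m)) = qq x ^ m * II 2 m :=
    fun x => GG_eq m x
  simp_rw [h2]
  rw [integral_mul_const]
  rfl

end Pc0b458P
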