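import Pool.Agent.Lib.Pc0b458P.Defs

/-!
# Module Gauss: moments of the Gaussian measure

`gam` is the measure with density `exp (-(‖u.1‖^2 + ‖u.2‖^2))` on `ℂ × ℂ`; it is the product of
the measure with density `exp (-‖z‖^2)` with itself.
-/

open MeasureTheory Finset ComplexConjugate

namespace Pc0b458P

/-- the one-dimensional Gaussian measure, of total mass `π` -/
noncomputable def gam1 : Measure ℂ :=
  volume.withDensity fun z => ENNReal.ofReal (Real.exp (-‖z‖ ^ 2))

theorem measurable_dens1 : Measurable fun z : ℂ => ENNReal.ofReal (Real.exp (-‖z‖ ^ 2)) := by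
  fun_prop

theorem gam_eq : gam = gam1.prod gam1 := by
  have h0 : gam1.prod gam1 = ((volume : Measure ℂ).prod (volume : Measure ℂ)).withDensity
      (fun z => ENNReal.ofReal (Real.exp (-‖z.1‖ ^ 2)) * ENNReal.ofReal (Real.exp (-‖z.2‖ ^ 2))) :=
    prod_withDensity measurable_dens1 measurable_dens1
  rw [h0]
  unfold gam
  rw [← Measure.volume_eq_prod]
  congr 1
  funext u
  rw [← ENNReal.ofReal_mul (Real.exp_pos _).le, ← Real.exp_add]
  congr 2
  ring

theorem integral_gam1 {E : Type*} [NormedAddCommGroup E] [NormedSpace ℝ E] (g : ℂ → E) :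
    ∫ z, g z ∂gam1 = ∫ z : ℂ, Real.exp (-‖z‖ ^ 2) • g z := by
  unfold gam1
  rw [integral_withDensity_eq_integral_toReal_smul measurable_dens1
    (Filter.Eventually.of_forall fun z => ENNReal.ofReal_lt_top)]
  congr 1
  funext z
  rw [ENNReal.toReal_ofReal (Real.exp_pos _).le]

/-- the one-dimensional absolute moments -/
theorem integral_norm_pow (a : ℕ) :
    ∫ z : ℂ, ‖z‖ ^ a ∂gam1 = Real.pi * Real.Gamma ((a : ℝ) / 2 + 1) := by
  rw [integral_gam1]
  have h := Complex.integral_rpow_mul_exp_neg_rpow (p := 2) (q := (a : ℝ)) (by norm_num)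
    (lt_of_lt_of_le (by norm_num) (Nat.cast_nonneg a))
  have e : (fun z : ℂ => Real.exp (-‖z‖ ^ 2) • ‖z‖ ^ a)
      = fun z : ℂ => ‖z‖ ^ (a : ℝ) * Real.exp (-‖z‖ ^ (2 : ℝ)) := by
    funext z
    rw [Real.rpow_natCast, Real.rpow_ofNat, smul_eq_mul, mul_comm]
  rw [e, h]
  have e1 : 2 * Real.pi / 2 = Real.pi := by ring
  have e2 : ((a : ℝ) + 2) / 2 = (a : ℝ) / 2 + 1 := by ring
  rw [e1, e2]

theorem integral_norm_pow_pos (a : ℕ) : 0 < ∫ z : ℂ, ‖z‖ ^ a ∂gam1 := by
  rw [integral_norm_pow]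
  exact mul_pos Real.pi_pos (Real.Gamma_pos_of_pos (by positivity))

theorem integrable_norm_pow (a : ℕ) : Integrable (fun z : ℂ => ‖z‖ ^ a) gam1 :=
  Integrable.of_integral_ne_zero (integral_norm_pow_pos a).ne'

instance : IsFiniteMeasure gam1 := by
  have h := integrable_norm_pow 0
  simp only [pow_zero] at h
  exact (integrable_const_iff.1 h).resolve_left one_ne_zero

theorem integrable_mono (a b : ℕ) :
    Integrable (fun u : ℂ × ℂ => ‖u.1‖ ^ a * ‖u.2‖ ^ b) gam := by
  rw [gam_eq]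
  exact (integrable_norm_pow a).mul_prod (integrable_norm_pow b)

instance : IsFiniteMeasure gam := by
  rw [gam_eq]
  infer_instance

/-- `gam` is absolutely continuous with respect to the volume and conversely -/
theorem gam_ac : gam ≪ volume ∧ (volume : Measure (ℂ × ℂ)) ≪ gam := by
  refine ⟨withDensity_absolutelyContinuous _ _, ?_⟩
  refine withDensity_absolutelyContinuous' ?_ ?_
  · exact (by fun_prop : Measurable fun u : ℂ × ℂ =>
      ENNReal.ofReal (Real.exp (-(‖u.1‖ ^ 2 + ‖u.2‖ ^ 2)))).aemeasurable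
  · refine Filter.Eventually.of_forall fun u => ?_
    exact (ENNReal.ofReal_pos.2 (Real.exp_pos _)).ne'

theorem integrable_one_add (k : ℕ) : Integrable (fun z : ℂ => (1 + ‖z‖ ^ 2) ^ k) gam1 := by
  have e : (fun z : ℂ => (1 + ‖z‖ ^ 2) ^ k)
      = fun z : ℂ => ∑ m ∈ range (k + 1), ‖z‖ ^ (2 * (k - m)) * (k.choose m : ℝ) := by
    funext z
    rw [add_pow]
    refine Finset.sum_congr rfl (fun m _ => ?_)
    rw [one_pow, one_mul, pow_mul]
  rw [e]
  exact integrable_finsetSum _ (fun m _ => (integrable_norm_pow _).mul_const _)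

theorem measurable_qq : Measurable qq := by
  unfold qq
  fun_prop

theorem continuous_qq : Continuous qq := by
  unfold qq
  fun_prop

theorem qq_nonneg (u : ℂ × ℂ) : 0 ≤ qq u := by
  unfold qq
  positivity

theorem integrable_qq (k : ℕ) : Integrable (fun u : ℂ × ℂ => (1 + qq u) ^ k) gam := by
  have h1 : Integrable (fun u : ℂ × ℂ => (1 + ‖u.1‖ ^ 2) ^ k * (1 + ‖u.2‖ ^ 2) ^ k) gam := by
    rw [gam_eq]
    exact (integrable_one_add k).mul_prod (integrable_one_add k)
  refine h1.mono' ((measurable_qq.const_add 1).pow_const k).aestronglyMeasurable ?_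
  refine Filter.Eventually.of_forall fun u => ?_
  have hq := qq_nonneg u
  rw [Real.norm_eq_abs, abs_of_nonneg (by positivity), ← mul_pow]
  refine pow_le_pow_left₀ (by positivity) ?_ k
  unfold qq
  have h2 : 0 ≤ ‖u.1‖ ^ 2 * ‖u.2‖ ^ 2 := by positivity
  nlinarith

/-- one-dimensional moments -/
theorem mom1 (a b r : ℕ) :
    ∫ z : ℂ, (z ^ a * conj z ^ b) * ((‖z‖ ^ r : ℝ) : ℂ) ∂gam1 =
    if a = b then ((Real.pi * Real.Gamma (a + 1 + r / 2) : ℝ) : ℂ) else 0 := by
  split_ifs with hab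
  · subst hab
    have e : (fun z : ℂ => (z ^ a * conj z ^ a) * ((‖z‖ ^ r : ℝ) : ℂ))
        = fun z : ℂ => ((‖z‖ ^ (2 * a + r) : ℝ) : ℂ) := by
      funext z
      rw [← mul_pow, Complex.mul_conj, Complex.normSq_eq_norm_sq, pow_add, pow_mul]
      push_cast
      ring
    rw [e]
    have h := integral_ofReal (𝕜 := ℂ) (μ := gam1) (f := fun z : ℂ => ‖z‖ ^ (2 * a + r))
    rw [integral_norm_pow] at h
    have e2 : ((2 * a + r : ℕ) : ℝ) / 2 + 1 = a + 1 + r / 2 := by
      push_cast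
      ring
    rw [e2] at h
    exact h
  · set I : ℂ := ∫ z : ℂ, (z ^ a * conj z ^ b) * ((‖z‖ ^ r : ℝ) : ℂ) ∂gam1 with hI
    have hd : (a : ℝ) - b ≠ 0 := sub_ne_zero.2 (by exact_mod_cast hab)
    set θ : ℝ := Real.pi / ((a : ℝ) - b) with hθ
    set c : Circle := Circle.exp θ with hc
    have hc1 : ((c : ℂ)) ^ a * conj (c : ℂ) ^ b = -1 := by
      have h1 : (c : ℂ) = Complex.exp (θ * Complex.I) := by rw [hc, Circle.coe_exp]
      have h2 : conj (c : ℂ) = Complex.exp (-(θ * Complex.I)) := by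
        rw [h1, ← Complex.exp_conj]
        congr 1
        simp
      rw [h2, h1, ← Complex.exp_nat_mul, ← Complex.exp_nat_mul, ← Complex.exp_add]
      have h3 : (a : ℂ) * (θ * Complex.I) + b * -(θ * Complex.I)
          = ((((a : ℝ) - b) * θ : ℝ) : ℂ) * Complex.I := by
        push_cast
        ring
      have h4 : ((a : ℝ) - b) * θ = Real.pi := by
        rw [hθ]
        field_simp
      rw [h3, h4, Complex.exp_pi_mul_I]
    have hn : ∀ z : ℂ, ‖(c : ℂ) * z‖ = ‖z‖ := by
      intro z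
      rw [norm_mul, Circle.norm_coe, one_mul]
    have key : I = -1 * I := by
      conv_lhs => rw [hI, integral_gam1]
      rw [← (rotation c).measurePreserving.integral_comp
        (rotation c).toHomeomorph.measurableEmbedding, hI, integral_gam1, ← integral_const_mul]
      congr 1
      funext z
      have h5 : (rotation c) z = (c : ℂ) * z := rotation_apply c z
      rw [h5, hn, map_mul, mul_pow, mul_pow, ← hc1]
      simp only [Complex.real_smul]
      ring
    have h6 : I + I = 0 := by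
      nth_rewrite 1 [key]
      ring
    exact add_self_eq_zero.1 h6

theorem mom (a b c d r : ℕ) :
    ∫ u : ℂ × ℂ, (u.1 ^ a * conj u.1 ^ b * (u.2 ^ c * conj u.2 ^ d)) *
      ((‖u.2‖ ^ r : ℝ) : ℂ) ∂gam =
    if a = b ∧ c = d then
      ((Real.pi ^ 2 * Real.Gamma (a + 1) * Real.Gamma (c + 1 + r / 2) : ℝ) : ℂ) else 0 := by
  have e : (fun u : ℂ × ℂ => (u.1 ^ a * conj u.1 ^ b * (u.2 ^ c * conj u.2 ^ d)) *
      ((‖u.2‖ ^ r : ℝ) : ℂ)) = fun u : ℂ × ℂ =>
      (fun z : ℂ => (z ^ a * conj z ^ b) * ((‖z‖ ^ 0 : ℝ) : ℂ)) u.1 *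
      (fun z : ℂ => (z ^ c * conj z ^ d) * ((‖z‖ ^ r : ℝ) : ℂ)) u.2 := by
    funext u
    simp only [pow_zero, Complex.ofReal_one, mul_one]
    ring
  rw [e, gam_eq, integral_prod_mul (μ := gam1) (ν := gam1)
    (fun z : ℂ => (z ^ a * conj z ^ b) * ((‖z‖ ^ 0 : ℝ) : ℂ))
    (fun z : ℂ => (z ^ c * conj z ^ d) * ((‖z‖ ^ r : ℝ) : ℂ)), mom1, mom1]
  by_cases h1 : a = b
  · by_cases h2 : c = d
    · rw [if_pos h1, if_pos h2, if_pos ⟨h1, h2⟩]
      push_cast
      rw [zero_div, add_zero]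
      ring
    · have h3 : ¬ (a = b ∧ c = d) := fun h => h2 h.2
      rw [if_neg h2, if_neg h3, mul_zero]
  · have h3 : ¬ (a = b ∧ c = d) := fun h => h1 h.1
    rw [if_neg h1, if_neg h3, zero_mul]

theorem integrable_qq_pow (m : ℕ) : Integrable (fun u : ℂ × ℂ => qq u ^ m) gam := by
  refine (integrable_qq m).mono' (measurable_qq.pow_const m).aestronglyMeasurable ?_
  refine Filter.Eventually.of_forall fun u => ?_
  have hq := qq_nonneg u
  rw [Real.norm_eq_abs, abs_of_nonneg (by positivity)]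
  exact pow_le_pow_left₀ hq (by linarith) m

theorem kap_pos (m : ℕ) : 0 < kap m := by
  unfold kap
  rw [integral_pos_iff_support_of_nonneg (fun u => pow_nonneg (qq_nonneg u) m)
    (integrable_qq_pow m)]
  rw [pos_iff_ne_zero]
  intro h
  have h1 := gam_ac.2 h
  have hopen : IsOpen (Function.support fun u : ℂ × ℂ => qq u ^ m) :=
    (continuous_qq.pow m).isOpen_support
  have hne : (Function.support fun u : ℂ × ℂ => qq u ^ m).Nonempty := by
    refine ⟨(1, 0), ?_⟩
    rw [Function.mem_support]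
    simp [qq]
  exact (hopen.measure_pos volume hne).ne' h1

end Pc0b458P
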