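import Mathlib

/-!
# Module Grow: growth of a product of Gamma quotients (about 1h, elementary)

`φ j = Γ(j+3/2)^2 / (Γ(j+1) Γ(j+2))`. Facts:
* `φ j ≤ 1`: log convexity of `Γ` (`Real.BohrMollerup` / `Real.convexOn_log_Gamma`), not even needed if one uses the limit.
* `φ j / φ (j+1) = (j+1)(j+2)/(j+3/2)^2 = 1 - 1/(2j+3)^2` from `Γ(x+1) = x Γ(x)`.
* `φ j ≥ (j+1)/(j+3/2)`: from `Γ(j+2)^2 ≤ Γ(j+3/2) Γ(j+5/2) = Γ(j+3/2)^2 (j+3/2)` (log convexity).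
* hence for `N ≥ j`: `φ j = φ N * ∏_{i=j}^{N-1} (1 - 1/(2i+3)^2) ≥ φ N * (1 - ∑ 1/(4(i+1)(i+2)))
  ≥ (N+1)/(N+3/2) * (1 - 1/(4(j+1)))`, and `N → ∞` gives `φ j ≥ 1 - 1/(4(j+1))`.
* so with `P m = ∏_{j<m} φ j`: `(m+2) P(m+1)^3 / ((m+1) P(m)^3) ≥ (m+2)/(m+1) * (1 - 1/(4(m+1)))^3
  ≥ (1 + 1/(m+1)) (1 - 3/(4(m+1))) ≥ 1 + 1/(4(m+1)) - 3/(4(m+1)^2)`, and
  `(m+1) P(m)^3` tends to infinity (compare with `(m+1)^(1/5)`, or sum the logarithms: the series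
  `∑ 1/(4(m+1)) - 3/(4(m+1)^2)` diverges; e.g. for `m ≥ 5` the ratio is at least `1 + 1/(8(m+1))`, and
  `∏ (1 + 1/(8(m+1))) ≥ 1 + ∑ 1/(8(m+1))` which is unbounded).
-/

open Finset

namespace Pc0b458P

namespace Grow

/-- the Gamma quotient. -/
noncomputable def ph (j : ℕ) : ℝ := Real.Gamma ((j : ℝ) + 3 / 2) ^ 2 /
      (Real.Gamma ((j : ℝ) + 1) * Real.Gamma ((j : ℝ) + 2))

theorem ph_pos (j : ℕ) : 0 < ph j := by
  unfold ph
  have hj : (0 : ℝ) ≤ j := Nat.cast_nonneg j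
  have h1 : 0 < Real.Gamma ((j : ℝ) + 3 / 2) := Real.Gamma_pos_of_pos (by linarith)
  have h2 : 0 < Real.Gamma ((j : ℝ) + 1) := Real.Gamma_pos_of_pos (by linarith)
  have h3 : 0 < Real.Gamma ((j : ℝ) + 2) := Real.Gamma_pos_of_pos (by linarith)
  positivity

theorem ph_succ (j : ℕ) :
    ph j * ((j : ℝ) + 3 / 2) ^ 2 = ph (j + 1) * (((j : ℝ) + 1) * ((j : ℝ) + 2)) := by
  unfold ph
  have hj : (0 : ℝ) ≤ j := Nat.cast_nonneg j
  have e1 : Real.Gamma (((j + 1 : ℕ) : ℝ) + 3 / 2)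
      = ((j : ℝ) + 3 / 2) * Real.Gamma ((j : ℝ) + 3 / 2) := by
    rw [← Real.Gamma_add_one (by linarith)]
    congr 1
    push_cast
    ring
  have e2 : Real.Gamma (((j + 1 : ℕ) : ℝ) + 1)
      = ((j : ℝ) + 1) * Real.Gamma ((j : ℝ) + 1) := by
    rw [← Real.Gamma_add_one (by linarith)]
    congr 1
    push_cast
    ring
  have e3 : Real.Gamma (((j + 1 : ℕ) : ℝ) + 2)
      = ((j : ℝ) + 2) * Real.Gamma ((j : ℝ) + 2) := by
    rw [← Real.Gamma_add_one (by linarith)]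
    congr 1
    push_cast
    ring
  rw [e1, e2, e3]
  have h2 : 0 < Real.Gamma ((j : ℝ) + 1) := Real.Gamma_pos_of_pos (by linarith)
  have h3 : 0 < Real.Gamma ((j : ℝ) + 2) := Real.Gamma_pos_of_pos (by linarith)
  have h4 : (0 : ℝ) < (j : ℝ) + 1 := by linarith
  have h5 : (0 : ℝ) < (j : ℝ) + 2 := by linarith
  field_simp

theorem ph_ge (j : ℕ) : ((j : ℝ) + 1) / ((j : ℝ) + 3 / 2) ≤ ph j := by
  unfold ph
  have hj : (0 : ℝ) ≤ j := Nat.cast_nonneg j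
  have h1 : 0 < Real.Gamma ((j : ℝ) + 3 / 2) := Real.Gamma_pos_of_pos (by linarith)
  have h2 : 0 < Real.Gamma ((j : ℝ) + 1) := Real.Gamma_pos_of_pos (by linarith)
  have h3 : 0 < Real.Gamma ((j : ℝ) + 2) := Real.Gamma_pos_of_pos (by linarith)
  have h5 : 0 < Real.Gamma ((j : ℝ) + 5 / 2) := Real.Gamma_pos_of_pos (by linarith)
  have hcv := Real.Gamma_mul_add_mul_le_rpow_Gamma_mul_rpow_Gamma (s := (j : ℝ) + 3 / 2)
    (t := (j : ℝ) + 5 / 2) (a := 1 / 2) (b := 1 / 2) (by linarith) (by linarith) (by norm_num)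
    (by norm_num) (by norm_num)
  have e0 : 1 / 2 * ((j : ℝ) + 3 / 2) + 1 / 2 * ((j : ℝ) + 5 / 2) = (j : ℝ) + 2 := by ring
  rw [e0, ← Real.sqrt_eq_rpow, ← Real.sqrt_eq_rpow, ← Real.sqrt_mul h1.le] at hcv
  have hsq : Real.Gamma ((j : ℝ) + 2) ^ 2
      ≤ Real.Gamma ((j : ℝ) + 3 / 2) * Real.Gamma ((j : ℝ) + 5 / 2) := by
    calc Real.Gamma ((j : ℝ) + 2) ^ 2
        ≤ (Real.sqrt (Real.Gamma ((j : ℝ) + 3 / 2) * Real.Gamma ((j : ℝ) + 5 / 2))) ^ 2 :=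
          pow_le_pow_left₀ h3.le hcv 2
      _ = _ := Real.sq_sqrt (by positivity)
  have e1 : Real.Gamma ((j : ℝ) + 5 / 2)
      = ((j : ℝ) + 3 / 2) * Real.Gamma ((j : ℝ) + 3 / 2) := by
    rw [← Real.Gamma_add_one (by linarith)]
    congr 1
    ring
  have e2 : Real.Gamma ((j : ℝ) + 2)
      = ((j : ℝ) + 1) * Real.Gamma ((j : ℝ) + 1) := by
    rw [← Real.Gamma_add_one (by linarith)]
    congr 1
    ring
  rw [e1, e2] at hsq
  rw [e2]
  rw [div_le_div_iff₀ (by linarith) (by positivity)]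
  nlinarith [hsq]

/-- lower bound sequence. -/
noncomputable def lo (j : ℕ) : ℝ := 1 - 1 / (4 * ((j : ℝ) + 1))

theorem lo_pos (j : ℕ) : 0 < lo j := by
  unfold lo
  have hj : (0 : ℝ) ≤ j := Nat.cast_nonneg j
  rw [sub_pos, div_lt_one (by linarith)]
  linarith

theorem lo_le (j : ℕ) : lo j ≤ 1 := by
  unfold lo
  have hj : (0 : ℝ) ≤ j := Nat.cast_nonneg j
  have : 0 ≤ 1 / (4 * ((j : ℝ) + 1)) := by positivity
  linarith

theorem step (j : ℕ) : ph (j + 1) * lo j ≤ ph j * lo (j + 1) := by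
  have hj : (0 : ℝ) ≤ j := Nat.cast_nonneg j
  have hs := ph_succ j
  have hp := ph_pos (j + 1)
  have e1 : ph j = ph (j + 1) * (((j : ℝ) + 1) * ((j : ℝ) + 2)) / ((j : ℝ) + 3 / 2) ^ 2 := by
    rw [← hs]
    field_simp
  have e2 : lo j = (4 * (j : ℝ) + 3) / (4 * ((j : ℝ) + 1)) := by
    unfold lo
    field_simp
    ring
  have e3 : lo (j + 1) = (4 * (j : ℝ) + 7) / (4 * ((j : ℝ) + 2)) := by
    unfold lo
    push_cast
    have : (j : ℝ) + 1 + 1 = (j : ℝ) + 2 := by ring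
    rw [this]
    field_simp
    ring
  rw [e1, e2, e3]
  have key : (4 * (j : ℝ) + 3) / (4 * ((j : ℝ) + 1))
      ≤ (((j : ℝ) + 1) * ((j : ℝ) + 2)) / ((j : ℝ) + 3 / 2) ^ 2
        * ((4 * (j : ℝ) + 7) / (4 * ((j : ℝ) + 2))) := by
    have e4 : (((j : ℝ) + 1) * ((j : ℝ) + 2)) / ((j : ℝ) + 3 / 2) ^ 2
        * ((4 * (j : ℝ) + 7) / (4 * ((j : ℝ) + 2)))
        = (((j : ℝ) + 1) * (4 * (j : ℝ) + 7)) / (4 * ((j : ℝ) + 3 / 2) ^ 2) := by
      have : (j : ℝ) + 2 ≠ 0 := by linarith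
      field_simp
    rw [e4, div_le_div_iff₀ (by linarith) (by positivity)]
    nlinarith [hj]
  calc ph (j + 1) * ((4 * (j : ℝ) + 3) / (4 * ((j : ℝ) + 1)))
      ≤ ph (j + 1) * ((((j : ℝ) + 1) * ((j : ℝ) + 2)) / ((j : ℝ) + 3 / 2) ^ 2
        * ((4 * (j : ℝ) + 7) / (4 * ((j : ℝ) + 2)))) := mul_le_mul_of_nonneg_left key hp.le
    _ = _ := by ring

theorem chain (j k : ℕ) : ph (j + k) / lo (j + k) ≤ ph j / lo j := by
  induction k with
  | zero => simp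
  | succ k ih =>
    refine le_trans ?_ ih
    rw [div_le_div_iff₀ (lo_pos _) (lo_pos _)]
    exact step (j + k)

theorem lo_le_ph (j : ℕ) : lo j ≤ ph j := by
  have h1 : ∀ k : ℕ, 1 - 1 / ((k : ℝ) + 1) ≤ ph j / lo j := by
    intro k
    have hk : (0 : ℝ) ≤ k := Nat.cast_nonneg k
    have hj : (0 : ℝ) ≤ j := Nat.cast_nonneg j
    refine le_trans ?_ (chain j k)
    have h2 := ph_ge (j + k)
    have h3 : ph (j + k) ≤ ph (j + k) / lo (j + k) := by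
      rw [le_div_iff₀ (lo_pos _)]
      exact mul_le_of_le_one_right (ph_pos _).le (lo_le _)
    refine le_trans ?_ (le_trans h2 h3)
    push_cast
    rw [le_div_iff₀ (by linarith)]
    have h4 : (1 - 1 / ((k : ℝ) + 1)) * ((j : ℝ) + k + 3 / 2)
        = ((j : ℝ) + k + 3 / 2) - ((j : ℝ) + k + 3 / 2) / ((k : ℝ) + 1) := by ring
    rw [h4]
    have h5 : 1 ≤ ((j : ℝ) + k + 3 / 2) / ((k : ℝ) + 1) := by
      rw [le_div_iff₀ (by linarith)]
      linarith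
    linarith
  have h2 : 1 ≤ ph j / lo j := by
    have ht : Filter.Tendsto (fun k : ℕ => 1 - 1 / ((k : ℝ) + 1)) Filter.atTop (nhds (1 - 0)) :=
      tendsto_const_nhds.sub tendsto_one_div_add_atTop_nhds_zero_nat
    rw [sub_zero] at ht
    exact le_of_tendsto' ht h1
  rw [le_div_iff₀ (lo_pos _), one_mul] at h2
  exact h2

/-- the product with the linear factor. -/
noncomputable def G (m : ℕ) : ℝ := ((m : ℝ) + 1) * (∏ j ∈ range m, ph j) ^ 3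

theorem G_pos (m : ℕ) : 0 < G m := by
  unfold G
  have h : 0 < ∏ j ∈ range m, ph j := Finset.prod_pos fun j _ => ph_pos j
  positivity

theorem G_succ (m : ℕ) (hm : 5 ≤ m) : G m * (1 + 1 / (8 * ((m : ℝ) + 1))) ≤ G (m + 1) := by
  have hm' : (5 : ℝ) ≤ m := by exact_mod_cast hm
  have e1 : G (m + 1) = G m * ((((m : ℝ) + 2) / ((m : ℝ) + 1)) * ph m ^ 3) := by
    unfold G
    rw [prod_range_succ]
    push_cast
    field_simp
    ring
  rw [e1]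
  apply mul_le_mul_of_nonneg_left _ (G_pos m).le
  have h1 : lo m ^ 3 ≤ ph m ^ 3 := pow_le_pow_left₀ (lo_pos m).le (lo_le_ph m) 3
  have h0 : (0 : ℝ) ≤ ((m : ℝ) + 2) / ((m : ℝ) + 1) := by positivity
  refine le_trans ?_ (mul_le_mul_of_nonneg_left h1 h0)
  unfold lo
  set t : ℝ := 1 / ((m : ℝ) + 1) with ht
  have ht0 : 0 < t := by positivity
  have ht1 : t ≤ 1 / 6 := by
    rw [ht]
    apply one_div_le_one_div_of_le (by norm_num) (by linarith)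
  have e2 : ((m : ℝ) + 2) / ((m : ℝ) + 1) = 1 + t := by
    rw [ht]
    field_simp
    ring
  have e3 : 1 / (4 * ((m : ℝ) + 1)) = t / 4 := by
    rw [ht]
    field_simp
  have e4 : 1 / (8 * ((m : ℝ) + 1)) = t / 8 := by
    rw [ht]
    field_simp
  rw [e2, e3, e4]
  have h5 : 1 - 3 * t / 4 ≤ (1 - t / 4) ^ 3 := by nlinarith [ht0, ht1, sq_nonneg t]
  have h6 : (1 + t) * (1 - 3 * t / 4) ≤ (1 + t) * (1 - t / 4) ^ 3 :=
    mul_le_mul_of_nonneg_left h5 (by linarith)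
  refine le_trans ?_ h6
  nlinarith [ht0, ht1]

theorem G_lower (k : ℕ) :
    G 5 + G 5 / 8 * ∑ i ∈ range k, (1 / (((5 + i : ℕ) : ℝ) + 1)) ≤ G (5 + k) := by
  induction k with
  | zero => simp
  | succ k ih =>
    have hs := G_succ (5 + k) (by omega)
    have h0 : 0 ≤ ∑ i ∈ range k, (1 / (((5 + i : ℕ) : ℝ) + 1)) :=
      Finset.sum_nonneg fun i _ => by positivity
    have h5 := G_pos 5
    have hle : G 5 ≤ G (5 + k) := by
      refine le_trans ?_ ih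
      have : 0 ≤ G 5 / 8 * ∑ i ∈ range k, (1 / (((5 + i : ℕ) : ℝ) + 1)) := by positivity
      linarith
    rw [sum_range_succ]
    have ht : 0 < 1 / (((5 + k : ℕ) : ℝ) + 1) := by positivity
    have e4 : 1 / (8 * (((5 + k : ℕ) : ℝ) + 1)) = (1 / (((5 + k : ℕ) : ℝ) + 1)) / 8 := by
      field_simp
    rw [e4] at hs
    have e5 : 5 + (k + 1) = 5 + k + 1 := by ring
    rw [e5]
    refine le_trans ?_ hs
    have h7 : G 5 * ((1 / (((5 + k : ℕ) : ℝ) + 1)) / 8)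
        ≤ G (5 + k) * ((1 / (((5 + k : ℕ) : ℝ) + 1)) / 8) :=
      mul_le_mul_of_nonneg_right hle (by positivity)
    nlinarith [h7, ih]

theorem sum_atTop : Filter.Tendsto (fun k : ℕ => ∑ i ∈ range k, (1 / (((5 + i : ℕ) : ℝ) + 1)))
    Filter.atTop Filter.atTop := by
  have h1 := Real.tendsto_sum_range_one_div_nat_succ_atTop
  have h2 : Filter.Tendsto (fun k : ℕ => ∑ i ∈ range (k + 5), (1 / ((i : ℝ) + 1)))
      Filter.atTop Filter.atTop := (Filter.tendsto_add_atTop_iff_nat 5).2 h1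
  have h3 : ∀ k : ℕ, ∑ i ∈ range k, (1 / (((5 + i : ℕ) : ℝ) + 1))
      = ∑ i ∈ range (k + 5), (1 / ((i : ℝ) + 1)) + -(∑ i ∈ range 5, (1 / ((i : ℝ) + 1))) := by
    intro k
    have : ∑ i ∈ range (k + 5), (1 / ((i : ℝ) + 1))
        = ∑ i ∈ range 5, (1 / ((i : ℝ) + 1)) + ∑ i ∈ range k, (1 / (((5 + i : ℕ) : ℝ) + 1)) := by
      rw [add_comm k 5, Finset.sum_range_add]
    rw [this]
    ring
  simp_rw [h3]
  exact Filter.tendsto_atTop_add_const_right _ _ h2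

end Grow

open Grow in
theorem grow (C : ℝ) : ∃ m : ℕ, C < ((m : ℝ) + 1) *
    (∏ j ∈ range m, (Real.Gamma ((j : ℝ) + 3 / 2) ^ 2 /
      (Real.Gamma ((j : ℝ) + 1) * Real.Gamma ((j : ℝ) + 2)))) ^ 3 := by
  have h5 := G_pos 5
  have h1 := Filter.Tendsto.const_mul_atTop (show (0 : ℝ) < G 5 / 8 by positivity) sum_atTop
  obtain ⟨k, hk⟩ := (h1.eventually (Filter.eventually_gt_atTop C)).exists
  refine ⟨5 + k, ?_⟩
  have h2 := G_lower k
  have h3 : C < G (5 + k) := by linarith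
  exact h3

end Pc0b458P
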