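import Pool.Agent.Lib.Pc0b458P.Deg

/-!
# Module LefTwo: the other components are Lefschetz classes (about 2.2h)

Write `ℒ = cl L = ∑ s, Ds s`, `g = dim A = card Φ`, and `D_R = ∏_{s ∈ R} Ds s ∈ rs |R|` (`Ds_rs`, `rs_mul`).

`mul_rl`: products of two elements of `rs 1` lie in `rl 2` (bilinearity; `Lef A 2` is spanned by products of two divisors).

`lef_zero`: `w = Pr 0 z ∈ rs 2` (half of `Pr 0 z + Pr (-0) z`, `Pr_rs`), `w = ∑_{s ≠ t} c s t • Ds s * Ds t` with symmetric `c`
(`rs_pow`, `Pr_span`, `wt_zero`). For `s ≠ t` and `R = Φ - {s, t}`: `w * D_R = 2 c s t • topF`, and its trace is real (`rs_tr`), so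
`c s t` is real by `kap_one`. Hence `w ∈ rl 2` by `mul_rl`.

`lef_two`: `w = Pr η z + Pr (-η) z ∈ rs 2` and by `wt_two` `w = ∑_s Ds s * (c s • μ + c' s • μ')`, `μ = m2 p q a b`, `μ' = m2 p q (!a) (!b)`,
`s ≠ p, q`. Fix `s` and let `R = Φ - {p, q, s}`; then `w * D_R = (c s • μ + c' s • μ') * D_{R ∪ {s}} ∈ rs (g-1)`. By hard Lefschetz
(`T.hl`, surjectivity for `n = 1`, `2 ≤ g`) every element of `rs (g-1)` is `ℒ^(g-2) * β` with `β ∈ rs 1`. Put
`β' = Pr η β + Pr (-η) β ∈ rs 1`, `β' = e • μ + e' • μ'` (`wt_two`). As `ℒ` has weight zero (`tor_Ds`, `Pr_mul`) and `w * D_R` is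
the sum of its components of weight `η` and `-η`, we get `ℒ^(g-2) * β' = (c s • μ + c' s • μ') * D_{R ∪ {s}}`. On the other hand
`ℒ^(g-2) * μ = (g-2)! • D_{Φ - {p, q}} * μ` (since `Ds p * μ = 0 = Ds q * μ`). Multiply by `μ'` resp. `μ` and use
`μ * μ' * D_{Φ - {p,q}} = ± topF ≠ 0` to get `c s = (g-2)! e`, `c' s = (g-2)! e'`. So
`c s • μ + c' s • μ' = (g-2)! • β' ∈ rs 1` and `w ∈ rl 2` by `mul_rl`. (`η ≠ -η` as `η ≠ 0` in characteristic three.)
-/

universe u

open Pc0b458 Finset ComplexConjugate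

namespace Pc0b458P

namespace LefTwoAux

section

variable {Φ : Type} [Fintype Φ] [DecidableEq Φ]

theorem fix_prod (u : Φ → ZMod 3) (R : Finset Φ) :
    tor (pt u) ((∏ r ∈ R, Dc r : HC Φ Unit) : HH Φ Unit) =
      ((∏ r ∈ R, Dc r : HC Φ Unit) : HH Φ Unit) := by
  induction R using Finset.induction_on with
  | empty => rw [Finset.prod_empty]; exact map_one _
  | insert a s ha ih =>
    rw [Finset.prod_insert ha]
    change tor (pt u) (Ds a * ((∏ r ∈ s, Dc r : HC Φ Unit) : HH Φ Unit)) =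
      Ds a * ((∏ r ∈ s, Dc r : HC Φ Unit) : HH Φ Unit)
    rw [map_mul, tor_Ds, ih]

theorem coe_sum_Dc : ((∑ s, Dc s : HC Φ Unit) : HH Φ Unit) = ∑ s : Φ, Ds s := by
  rw [AddSubmonoidClass.coe_finsetSum]
  rfl

theorem fix_sum (u : Φ → ZMod 3) (k : ℕ) :
    tor (pt u) (((∑ s, Dc s) ^ k : HC Φ Unit) : HH Φ Unit) =
      (((∑ s, Dc s) ^ k : HC Φ Unit) : HH Φ Unit) := by
  have h1 : tor (pt u) ((∑ s, Dc s : HC Φ Unit) : HH Φ Unit) =
      ((∑ s, Dc s : HC Φ Unit) : HH Φ Unit) := by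
    rw [coe_sum_Dc, map_sum]
    exact Finset.sum_congr rfl fun s _ => tor_Ds u s
  change tor (pt u) (((∑ s, Dc s : HC Φ Unit) : HH Φ Unit) ^ k) =
    ((∑ s, Dc s : HC Φ Unit) : HH Φ Unit) ^ k
  rw [map_pow, h1]

theorem Dc_prod_zero {t : Φ} {R : Finset Φ} (h : t ∈ R) :
    (Dc t : HC Φ Unit) * ∏ r ∈ R, Dc r = 0 := by
  rw [← Finset.mul_prod_erase R _ h, ← mul_assoc, Dc_sq, zero_mul]

theorem Pr_of_span {k : ℕ} (η η' : Φ → ZMod 3) {x : HH Φ Unit}
    (hx : x ∈ Submodule.span ℂ {w | ∃ f : Fin k → Φ × Bool, wt f = η' ∧ w = mo f}) :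
    Pr η x = if η' = η then x else 0 := by
  induction hx using Submodule.span_induction with
  | mem x h =>
    obtain ⟨f, hf, rfl⟩ := h
    rw [Pr_mo, hf]
  | zero =>
    have h0 := Pr_smul η (0 : ℂ) (0 : HH Φ Unit)
    rw [zero_smul, zero_smul] at h0
    rw [h0]; split_ifs <;> rfl
  | add x y _ _ hx hy =>
    rw [Pr_add, hx, hy]
    split_ifs
    · rfl
    · exact add_zero _
  | smul c x _ hx =>
    rw [Pr_smul, hx]
    split_ifs
    · rfl
    · exact smul_zero _

theorem topF_eq : (topF : HC Φ Unit) = ∏ s, Dc s := by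
  unfold topF
  refine Finset.prod_congr rfl fun s _ => ?_
  exact Fintype.prod_unique _

theorem anti (u v : HV Φ Unit) : ExteriorAlgebra.ι ℂ u * ExteriorAlgebra.ι ℂ v =
    -(ExteriorAlgebra.ι ℂ v * ExteriorAlgebra.ι ℂ u) := by
  have h := ExteriorAlgebra.ι_add_mul_swap (R := ℂ) u v
  exact eq_neg_of_add_eq_zero_left h

theorem ev_swap (u v : HV Φ Unit) : (ev v u : HC Φ Unit) = - ev u v :=
  Subtype.ext (anti v u)

theorem ev_self (u : HV Φ Unit) : (ev u u : HC Φ Unit) = 0 :=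
  Subtype.ext (ExteriorAlgebra.ι_sq_zero u)

theorem ev_mul (u v u' v' : HV Φ Unit) :
    (ev u v * ev u' v' : HC Φ Unit) = -(ev u u' * ev v v') := by
  apply Subtype.ext
  change ExteriorAlgebra.ι ℂ u * ExteriorAlgebra.ι ℂ v *
    (ExteriorAlgebra.ι ℂ u' * ExteriorAlgebra.ι ℂ v') =
    -(ExteriorAlgebra.ι ℂ u * ExteriorAlgebra.ι ℂ u' *
      (ExteriorAlgebra.ι ℂ v * ExteriorAlgebra.ι ℂ v'))
  calc ExteriorAlgebra.ι ℂ u * ExteriorAlgebra.ι ℂ v *
    (ExteriorAlgebra.ι ℂ u' * ExteriorAlgebra.ι ℂ v')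
      = ExteriorAlgebra.ι ℂ u * (ExteriorAlgebra.ι ℂ v * ExteriorAlgebra.ι ℂ u') *
        ExteriorAlgebra.ι ℂ v' := by simp only [mul_assoc]
    _ = _ := by
      rw [anti v u']
      simp only [mul_assoc, neg_mul, mul_neg]

/-- the product of two vectors in the centre -/
noncomputable def mc (p q : Φ) (a b : Bool) : HC Φ Unit := ev (ee p a ()) (ee q b ())

theorem mc_self (p q : Φ) (a b : Bool) : mc p q a b * mc p q a b = 0 := by
  unfold mc
  rw [ev_mul, ev_self, zero_mul, neg_zero]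

theorem mc_opp (p q : Φ) (a b : Bool) :
    ∃ σ : ℂ, σ ≠ 0 ∧ mc p q a b * mc p q (!a) (!b) = σ • (Dc p * Dc q) := by
  have h1 : ∀ (p : Φ) (a : Bool), ∃ τ : ℂ, τ ≠ 0 ∧
      (ev (ee p a ()) (ee p (!a) ()) : HC Φ Unit) = τ • Dc p := by
    intro p a
    cases a
    · refine ⟨-1, by norm_num, ?_⟩
      rw [neg_smul, one_smul]
      exact ev_swap _ _
    · exact ⟨1, one_ne_zero, (one_smul _ _).symm⟩
  obtain ⟨τ, hτ, e1⟩ := h1 p a
  obtain ⟨τ', hτ', e2⟩ := h1 q b
  refine ⟨-(τ * τ'), neg_ne_zero.2 (mul_ne_zero hτ hτ'), ?_⟩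
  unfold mc
  rw [ev_mul, e1, e2, smul_mul_smul_comm, neg_smul]

end

variable {T : NumTheory.{u}} {W : EffData T} {A : T.AV} {L : T.Z A} (d : CMData T W A L)

theorem smul_rs {i : ℕ} {x : HH d.Φ Unit} (r : ℝ) (hx : x ∈ d.rs i) : (r : ℂ) • x ∈ d.rs i := by
  have h := Submodule.smul_mem (d.rs i) r hx
  exact h

theorem smul_rl {i : ℕ} {x : HH d.Φ Unit} (r : ℝ) (hx : x ∈ d.rl i) : (r : ℂ) • x ∈ d.rl i := by
  have h := Submodule.smul_mem (d.rl i) r hx
  exact h

theorem prod_rs (hL : L ∈ T.Pol A) (R : Finset d.Φ) :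
    ((∏ r ∈ R, Dc r : HC d.Φ Unit) : HH d.Φ Unit) ∈ d.rs R.card := by
  induction R using Finset.induction_on with
  | empty =>
    rw [Finset.prod_empty, Finset.card_empty]
    apply Submodule.subset_span
    refine ⟨1, T.one_mem A, ?_⟩
    change ((d.cl 1 : HC d.Φ Unit) : HH d.Φ Unit) = _
    rw [map_one]
  | insert a s ha ih =>
    rw [Finset.prod_insert ha, Finset.card_insert_of_notMem ha, add_comm]
    exact rs_mul d (Ds_rs d hL a) ih

theorem hl_rs (hL : L ∈ T.Pol A) (h2 : 2 ≤ T.dim A) {y : HH d.Φ Unit}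
    (hy : y ∈ d.rs (T.dim A - 1)) :
    ∃ β ∈ d.rs 1, y = β * ((d.cl L ^ (T.dim A - 2) : HC d.Φ Unit) : HH d.Φ Unit) := by
  unfold CMData.rs at hy
  induction hy using Submodule.span_induction with
  | mem x h =>
    obtain ⟨y, hy, rfl⟩ := h
    obtain ⟨x, hx, hxy⟩ := (T.hl A L hL 1 (by omega)).2 y hy
    refine ⟨(d.cl x : HH d.Φ Unit), Submodule.subset_span ⟨x, hx, rfl⟩, ?_⟩
    change ((d.cl y : HC d.Φ Unit) : HH d.Φ Unit) =
      ((d.cl x * d.cl L ^ (T.dim A - 2) : HC d.Φ Unit) : HH d.Φ Unit)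
    rw [← hxy, map_mul, map_pow, mul_comm]
  | zero => exact ⟨0, Submodule.zero_mem _, (zero_mul _).symm⟩
  | add x y _ _ hx hy =>
    obtain ⟨β, h1, h2⟩ := hx
    obtain ⟨β', h1', h2'⟩ := hy
    exact ⟨β + β', Submodule.add_mem _ h1 h1', by rw [add_mul, ← h2, ← h2']⟩
  | smul c x _ hx =>
    obtain ⟨β, h1, h2⟩ := hx
    refine ⟨(c : ℂ) • β, smul_rs d c h1, ?_⟩
    change ((c : ℝ) : ℂ) • x = _
    rw [smul_mul_assoc, ← h2]

theorem topF_ne (hL : L ∈ T.Pol A) : (topF : HC d.Φ Unit) ≠ 0 := by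
  obtain ⟨κ, hκ, h⟩ := kap_one d hL
  intro h0
  rw [h0] at h
  have h1 : d.tr ((0 : HC d.Φ Unit) : HH d.Φ Unit) = 0 := map_zero d.tr
  rw [h1] at h
  have h2 : (κ : ℂ) ≠ 0 := by exact_mod_cast hκ.ne'
  exact h2 h.symm

end LefTwoAux

open LefTwoAux

variable {T : NumTheory.{u}} {W : EffData T} {A : T.AV} {L : T.Z A} (d : CMData T W A L)

theorem mul_rl {z w : HH d.Φ Unit} (hz : z ∈ d.rs 1) (hw : w ∈ d.rs 1) : z * w ∈ d.rl 2 := by
  unfold CMData.rs at hz
  induction hz using Submodule.span_induction with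
  | mem z h =>
    obtain ⟨x, hx, rfl⟩ := h
    unfold CMData.rs at hw
    induction hw using Submodule.span_induction with
    | mem w h =>
      obtain ⟨y, hy, rfl⟩ := h
      apply Submodule.subset_span
      refine ⟨x * y, ?_, ?_⟩
      · apply Submodule.subset_span
        refine ⟨![x, y], ?_, ?_⟩
        · intro i
          fin_cases i
          · exact hx
          · exact hy
        · rw [Fin.prod_univ_two]; rfl
      · change ((d.cl (x * y) : HC d.Φ Unit) : HH d.Φ Unit) =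
          ((d.cl x * d.cl y : HC d.Φ Unit) : HH d.Φ Unit)
        rw [map_mul]
    | zero => rw [mul_zero]; exact Submodule.zero_mem _
    | add a b _ _ ha hb => rw [mul_add]; exact Submodule.add_mem _ ha hb
    | smul c a _ ha => rw [mul_smul_comm]; exact Submodule.smul_mem _ _ ha
  | zero => rw [zero_mul]; exact Submodule.zero_mem _
  | add a b _ _ ha hb => rw [add_mul]; exact Submodule.add_mem _ ha hb
  | smul c a _ ha => rw [smul_mul_assoc]; exact Submodule.smul_mem _ _ ha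

theorem lef_zero (hL : L ∈ T.Pol A) {z : HH d.Φ Unit} (hz : z ∈ d.rs 2) :
    Pr 0 z ∈ d.rl 2 := by
  have hw : Pr 0 z ∈ d.rs 2 := by
    have h1 := Pr_rs d 2 0 hz
    rw [neg_zero] at h1
    have h2 := smul_rs d (1 / 2 : ℝ) h1
    have e : ((1 / 2 : ℝ) : ℂ) • (Pr 0 z + Pr 0 z) = Pr 0 z := by
      rw [← two_smul ℂ (Pr 0 z), smul_smul]
      push_cast
      norm_num
    rwa [e] at h2
  have h4 : z ∈ ⋀[ℂ]^4 (HV d.Φ Unit) := rs_pow d hz
  obtain ⟨c, hsym, hc⟩ := wt_zero _ (Pr_span 0 h4)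
  obtain ⟨κ, hκ, htop⟩ := kap_one d hL
  -- the coefficients are real
  have hreal : ∀ s t : d.Φ, s ≠ t → c s t = ((c s t).re : ℂ) := by
    intro s t hst
    obtain ⟨P, hP⟩ : ∃ P : HC d.Φ Unit, P = ∏ r ∈ (univ.erase s).erase t, Dc r := ⟨_, rfl⟩
    have hPt : Dc t * P = ∏ r ∈ univ.erase s, Dc r := by
      rw [hP]
      exact Finset.mul_prod_erase _ _ (Finset.mem_erase.2 ⟨hst.symm, Finset.mem_univ _⟩)
    have hst1 : Dc s * Dc t * P = topF := by
      rw [mul_assoc, hPt, topF_eq]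
      exact Finset.mul_prod_erase _ _ (Finset.mem_univ _)
    have hts1 : Dc t * Dc s * P = topF := by
      rw [mul_comm (Dc t) (Dc s)]; exact hst1
    have hz1 : ∀ a, a ≠ s → a ≠ t → Dc a * P = 0 := by
      intro a h1 h2
      rw [hP]
      exact Dc_prod_zero (Finset.mem_erase.2 ⟨h2, Finset.mem_erase.2 ⟨h1, Finset.mem_univ _⟩⟩)
    have hterm : ∀ a b, a ≠ b → Dc a * Dc b * P =
        (if a = s then (if b = t then (topF : HC d.Φ Unit) else 0) else 0) +
        (if a = t then (if b = s then (topF : HC d.Φ Unit) else 0) else 0) := by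
      intro a b hab
      by_cases h1 : a = s
      · subst h1
        rw [if_pos rfl, if_neg hst, add_zero]
        by_cases h2 : b = t
        · subst h2
          rw [if_pos rfl]; exact hst1
        · rw [if_neg h2, mul_assoc, hz1 b hab.symm h2, mul_zero]
      · rw [if_neg h1, zero_add]
        by_cases h2 : a = t
        · subst h2
          rw [if_pos rfl]
          by_cases h3 : b = s
          · subst h3
            rw [if_pos rfl]; exact hts1
          · rw [if_neg h3, mul_assoc, hz1 b h3 hab.symm, mul_zero]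
        · rw [if_neg h2, mul_comm (Dc a) (Dc b), mul_assoc, hz1 a h1 h2, mul_zero]
    have hprod : Pr 0 z * (P : HH d.Φ Unit) = (((2 * c s t) • (topF : HC d.Φ Unit) :
        HC d.Φ Unit) : HH d.Φ Unit) := by
      have e1 : Pr 0 z = ((∑ a, ∑ b ∈ univ.erase a, c a b • (Dc a * Dc b) : HC d.Φ Unit) :
          HH d.Φ Unit) := by
        rw [hc, AddSubmonoidClass.coe_finsetSum]
        refine Finset.sum_congr rfl fun a _ => ?_
        rw [AddSubmonoidClass.coe_finsetSum]
        rfl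
      have e2 : (∑ a, ∑ b ∈ univ.erase a, c a b • (Dc a * Dc b) : HC d.Φ Unit) * P =
          (2 * c s t) • (topF : HC d.Φ Unit) := by
        rw [Finset.sum_mul]
        have e3 : ∀ a ∈ (univ : Finset d.Φ),
            (∑ b ∈ univ.erase a, c a b • (Dc a * Dc b) : HC d.Φ Unit) * P =
            (if a = s then c s t • (topF : HC d.Φ Unit) else 0) +
            (if a = t then c t s • (topF : HC d.Φ Unit) else 0) := by
          intro a _
          rw [Finset.sum_mul]
          have e4 : ∀ b ∈ univ.erase a, (c a b • (Dc a * Dc b) : HC d.Φ Unit) * P =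
              (if b = t then (if a = s then c s t • (topF : HC d.Φ Unit) else 0) else 0) +
              (if b = s then (if a = t then c t s • (topF : HC d.Φ Unit) else 0) else 0) := by
            intro b hb
            have hab : a ≠ b := (Finset.ne_of_mem_erase hb).symm
            rw [smul_mul_assoc, hterm a b hab, smul_add]
            congr 1
            · by_cases h1 : a = s
              · by_cases h2 : b = t
                · rw [if_pos h1, if_pos h2, if_pos h2, if_pos h1, h1, h2]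
                · rw [if_pos h1, if_neg h2, if_neg h2, smul_zero]
              · by_cases h2 : b = t
                · rw [if_neg h1, if_pos h2, if_neg h1, smul_zero]
                · rw [if_neg h1, if_neg h2, smul_zero]
            · by_cases h1 : a = t
              · by_cases h2 : b = s
                · rw [if_pos h1, if_pos h2, if_pos h2, if_pos h1, h1, h2]
                · rw [if_pos h1, if_neg h2, if_neg h2, smul_zero]
              · by_cases h2 : b = s
                · rw [if_neg h1, if_pos h2, if_neg h1, smul_zero]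
                · rw [if_neg h1, if_neg h2, smul_zero]
          rw [Finset.sum_congr rfl e4, Finset.sum_add_distrib, Finset.sum_ite_eq',
            Finset.sum_ite_eq']
          congr 1
          · by_cases h1 : a = s
            · rw [if_pos h1, if_pos]
              rw [Finset.mem_erase, h1]
              exact ⟨hst.symm, Finset.mem_univ _⟩
            · rw [if_neg h1, ite_self]
          · by_cases h1 : a = t
            · rw [if_pos h1, if_pos]
              rw [Finset.mem_erase, h1]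
              exact ⟨hst, Finset.mem_univ _⟩
            · rw [if_neg h1, ite_self]
        rw [Finset.sum_congr rfl e3, Finset.sum_add_distrib, Finset.sum_ite_eq',
          Finset.sum_ite_eq', if_pos (Finset.mem_univ _), if_pos (Finset.mem_univ _), hsym t s,
          ← add_smul, two_mul]
      rw [← e2, e1]
      rfl
    have hcard : ((univ.erase s).erase t : Finset d.Φ).card = T.dim A - 2 := by
      rw [Finset.card_erase_of_mem (Finset.mem_erase.2 ⟨hst.symm, Finset.mem_univ _⟩),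
        Finset.card_erase_of_mem (Finset.mem_univ _), Finset.card_univ, d.card_Φ]
      omega
    have hdim : 2 ≤ T.dim A := by
      rw [← d.card_Φ, ← Finset.card_univ]
      have : ({s, t} : Finset d.Φ).card ≤ (univ : Finset d.Φ).card :=
        Finset.card_le_card (Finset.subset_univ _)
      rwa [Finset.card_pair hst] at this
    have hmem : Pr 0 z * (P : HH d.Φ Unit) ∈ d.rs (T.dim A) := by
      have h1 := rs_mul d hw (prod_rs d hL ((univ.erase s).erase t))
      rw [hcard, ← hP] at h1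
      have h2 : 2 + (T.dim A - 2) = T.dim A := by omega
      rwa [h2] at h1
    obtain ⟨r, hr⟩ := rs_tr d hmem
    rw [hprod] at hr
    have h3 : d.tr (((2 * c s t) • (topF : HC d.Φ Unit) : HC d.Φ Unit) : HH d.Φ Unit) =
        (2 * c s t) * (κ : ℂ) := by
      have h4 : (((2 * c s t) • (topF : HC d.Φ Unit) : HC d.Φ Unit) : HH d.Φ Unit) =
          (2 * c s t) • ((topF : HC d.Φ Unit) : HH d.Φ Unit) := rfl
      rw [h4, map_smul, htop, smul_eq_mul]
    rw [h3] at hr
    have hκ' : (κ : ℂ) ≠ 0 := by exact_mod_cast hκ.ne'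
    have h5 : c s t = ((r / (2 * κ) : ℝ) : ℂ) := by
      push_cast
      rw [eq_div_iff (mul_ne_zero two_ne_zero hκ'), ← hr]
      ring
    rw [h5, Complex.ofReal_re]
  rw [hc]
  refine Submodule.sum_mem _ fun s _ => Submodule.sum_mem _ fun t ht => ?_
  have hst : s ≠ t := (Finset.ne_of_mem_erase ht).symm
  rw [hreal s t hst]
  exact smul_rl d _ (mul_rl d (Ds_rs d hL s) (Ds_rs d hL t))

theorem lef_two (hL : L ∈ T.Pol A) (η : d.Φ → ZMod 3)
    (hη : (univ.filter fun s => η s ≠ 0).card = 2) {z : HH d.Φ Unit} (hz : z ∈ d.rs 2) :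
    Pr η z + Pr (-η) z ∈ d.rl 2 := by
  have hw := Pr_rs d 2 η hz
  have h4 : z ∈ ⋀[ℂ]^4 (HV d.Φ Unit) := rs_pow d hz
  have hs1 := Pr_span η h4
  have hs2 := Pr_span (-η) h4
  obtain ⟨p, q, a, b, hpq, w1, w2, w3, w4⟩ := wt_two η hη
  obtain ⟨c, hc⟩ := w1 _ hs1
  obtain ⟨c', hc'⟩ := w2 _ hs2
  have hηne : η ≠ -η := by
    intro h
    have h0 : η = 0 := by
      funext s
      have h1 := congrFun h s
      rw [Pi.neg_apply] at h1
      change η s = 0
      revert h1
      generalize η s = x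
      revert x
      decide
    rw [h0] at hη
    simp at hη
  have htopne := topF_ne d hL
  obtain ⟨μ, hμ⟩ : ∃ μ : HC d.Φ Unit, μ = mc p q a b := ⟨_, rfl⟩
  obtain ⟨μ', hμ'⟩ : ∃ μ' : HC d.Φ Unit, μ' = mc p q (!a) (!b) := ⟨_, rfl⟩
  have hμm : m2 p q a b = (μ : HH d.Φ Unit) := by rw [hμ]; rfl
  have hμm' : m2 p q (!a) (!b) = (μ' : HH d.Φ Unit) := by rw [hμ']; rfl
  obtain ⟨σ, hσ, hμμ⟩ := mc_opp p q a b
  rw [← hμ, ← hμ'] at hμμ
  have hμ2 : μ * μ = 0 := by rw [hμ]; exact mc_self _ _ _ _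
  have hμ2' : μ' * μ' = 0 := by rw [hμ']; exact mc_self _ _ _ _
  have hclL : d.cl L = ∑ s, Dc s := by rw [d.cl_L, Dv_dls_unit]
  have hcardΦ := d.card_Φ
  have hdim : 2 ≤ T.dim A := by
    rw [← d.card_Φ, ← Finset.card_univ]
    have : ({p, q} : Finset d.Φ).card ≤ (univ : Finset d.Φ).card :=
      Finset.card_le_card (Finset.subset_univ _)
    rwa [Finset.card_pair hpq] at this
  -- the top products
  obtain ⟨Q, hQ⟩ : ∃ Q : HC d.Φ Unit, Q = ∏ r ∈ (univ.erase p).erase q, Dc r := ⟨_, rfl⟩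
  have hpqQ : Dc p * Dc q * Q = topF := by
    rw [mul_assoc, hQ, Finset.mul_prod_erase _ _ (Finset.mem_erase.2 ⟨hpq.symm,
      Finset.mem_univ _⟩), topF_eq]
    exact Finset.mul_prod_erase _ _ (Finset.mem_univ _)
  have hμμQ : μ * μ' * Q = σ • topF := by
    rw [hμμ, smul_mul_assoc, hpqQ]
  have hμμL : μ * μ' * (∑ s, Dc s) ^ (T.dim A - 2) =
      (σ * ((T.dim A - 2).factorial : ℂ)) • topF := by
    have h1 := prod_pow ({p, q} : Finset d.Φ)
    rw [Finset.prod_pair hpq, Finset.card_pair hpq, hcardΦ] at h1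
    rw [hμμ, smul_mul_assoc, h1, smul_smul]
  have hf0 : ((T.dim A - 2).factorial : ℂ) ≠ 0 := by
    exact_mod_cast (Nat.factorial_ne_zero _)
  -- the coefficients
  have key : ∀ s ∈ (univ.erase p).erase q, c s • (μ : HH d.Φ Unit) + c' s • (μ' : HH d.Φ Unit)
      ∈ d.rs 1 := by
    intro s hs
    have hsq : s ≠ q := Finset.ne_of_mem_erase hs
    have hsp : s ≠ p := Finset.ne_of_mem_erase (Finset.mem_of_mem_erase hs)
    obtain ⟨P, hP⟩ : ∃ P : HC d.Φ Unit, P = ∏ r ∈ ((univ.erase p).erase q).erase s, Dc r :=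
      ⟨_, rfl⟩
    have hsP : Dc s * P = Q := by
      rw [hP, hQ]
      exact Finset.mul_prod_erase _ _ hs
    have hz1 : ∀ t ∈ (univ.erase p).erase q, t ≠ s → Dc t * P = 0 := by
      intro t ht hts
      rw [hP]
      exact Dc_prod_zero (Finset.mem_erase.2 ⟨hts, ht⟩)
    have hcard : (((univ.erase p).erase q).erase s : Finset d.Φ).card = T.dim A - 3 := by
      rw [Finset.card_erase_of_mem hs,
        Finset.card_erase_of_mem (Finset.mem_erase.2 ⟨hpq.symm, Finset.mem_univ _⟩),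
        Finset.card_erase_of_mem (Finset.mem_univ _), Finset.card_univ, d.card_Φ]
      omega
    have hdim3 : 3 ≤ T.dim A := by
      have h1 : 0 < ((univ.erase p).erase q : Finset d.Φ).card := Finset.card_pos.2 ⟨s, hs⟩
      rw [Finset.card_erase_of_mem (Finset.mem_erase.2 ⟨hpq.symm, Finset.mem_univ _⟩),
        Finset.card_erase_of_mem (Finset.mem_univ _), Finset.card_univ, d.card_Φ] at h1
      omega
    -- products of the components with P
    have hcomp : ∀ (k : d.Φ → ℂ) (ν : HC d.Φ Unit),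
        (∑ t ∈ (univ.erase p).erase q, k t • (Ds t * (ν : HH d.Φ Unit))) * (P : HH d.Φ Unit) =
          ((k s • (ν * Q) : HC d.Φ Unit) : HH d.Φ Unit) := by
      intro k ν
      have e1 : (∑ t ∈ (univ.erase p).erase q, k t • (Dc t * ν) : HC d.Φ Unit) * P =
          k s • (ν * Q) := by
        rw [Finset.sum_mul, Finset.sum_eq_single_of_mem s hs]
        · rw [smul_mul_assoc, mul_comm (Dc s) ν, mul_assoc, hsP]
        · intro t ht hts
          rw [smul_mul_assoc, mul_comm (Dc t) ν, mul_assoc, hz1 t ht hts, mul_zero, smul_zero]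
      rw [← e1]
      change _ = ((∑ t ∈ (univ.erase p).erase q, k t • (Dc t * ν) : HC d.Φ Unit) : HH d.Φ Unit) *
        (P : HH d.Φ Unit)
      rw [AddSubmonoidClass.coe_finsetSum]
      rfl
    have hA := hcomp c μ
    have hB := hcomp c' μ'
    rw [← hμm, ← hc] at hA
    rw [← hμm', ← hc'] at hB
    have hmem : (Pr η z + Pr (-η) z) * (P : HH d.Φ Unit) ∈ d.rs (T.dim A - 1) := by
      have h1 := rs_mul d hw (prod_rs d hL (((univ.erase p).erase q).erase s))
      rw [hcard, ← hP] at h1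
      have h2 : 2 + (T.dim A - 3) = T.dim A - 1 := by omega
      rwa [h2] at h1
    obtain ⟨β, hβ, hβe⟩ := hl_rs d hL hdim hmem
    rw [hclL] at hβe
    have hβ2 : β ∈ ⋀[ℂ]^2 (HV d.Φ Unit) := rs_pow d hβ
    obtain ⟨e, he⟩ := w3 _ (Pr_span η hβ2)
    obtain ⟨e', he'⟩ := w4 _ (Pr_span (-η) hβ2)
    have hβ' := Pr_rs d 1 η hβ
    -- compare the components
    have hc1 : Pr η z * (P : HH d.Φ Unit) =
        Pr η β * (((∑ s, Dc s) ^ (T.dim A - 2) : HC d.Φ Unit) : HH d.Φ Unit) := by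
      have h1 : Pr η ((Pr η z + Pr (-η) z) * (P : HH d.Φ Unit)) = Pr η z * (P : HH d.Φ Unit) := by
        rw [Pr_mul _ _ _ (fun u => by rw [hP]; exact fix_prod u _), Pr_add,
          Pr_of_span η η hs1, Pr_of_span η (-η) hs2, if_pos rfl, if_neg (Ne.symm hηne), add_zero]
      rw [← h1, hβe, Pr_mul _ _ _ (fun u => fix_sum u _)]
    have hc2 : Pr (-η) z * (P : HH d.Φ Unit) =
        Pr (-η) β * (((∑ s, Dc s) ^ (T.dim A - 2) : HC d.Φ Unit) : HH d.Φ Unit) := by
      have h1 : Pr (-η) ((Pr η z + Pr (-η) z) * (P : HH d.Φ Unit)) =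
          Pr (-η) z * (P : HH d.Φ Unit) := by
        rw [Pr_mul _ _ _ (fun u => by rw [hP]; exact fix_prod u _), Pr_add,
          Pr_of_span (-η) η hs1, Pr_of_span (-η) (-η) hs2, if_pos rfl, if_neg hηne, zero_add]
      rw [← h1, hβe, Pr_mul _ _ _ (fun u => fix_sum u _)]
    rw [hA, he, hμm] at hc1
    rw [hB, he', hμm'] at hc2
    have hc1' : c s • (μ * Q) = (e • μ) * (∑ s, Dc s) ^ (T.dim A - 2) := Subtype.ext hc1
    have hc2' : c' s • (μ' * Q) = (e' • μ') * (∑ s, Dc s) ^ (T.dim A - 2) := Subtype.ext hc2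
    have hce : c s = ((T.dim A - 2).factorial : ℂ) * e := by
      have h1 := congrArg (fun x => x * μ') hc1'
      simp only [smul_mul_assoc] at h1
      have h2 : μ * Q * μ' = μ * μ' * Q := by ring
      have h3 : μ * (∑ s, Dc s) ^ (T.dim A - 2) * μ' = μ * μ' * (∑ s, Dc s) ^ (T.dim A - 2) := by
        ring
      rw [h2, h3, hμμQ, hμμL, smul_smul, smul_smul] at h1
      have h4 : (c s * σ - e * (σ * ((T.dim A - 2).factorial : ℂ))) • (topF : HC d.Φ Unit) = 0 := by
        rw [sub_smul, h1, sub_self]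
      rcases smul_eq_zero.1 h4 with h5 | h5
      · apply mul_right_cancel₀ hσ
        linear_combination h5
      · exact absurd h5 htopne
    have hce' : c' s = ((T.dim A - 2).factorial : ℂ) * e' := by
      have h1 := congrArg (fun x => x * μ) hc2'
      simp only [smul_mul_assoc] at h1
      have h2 : μ' * Q * μ = μ * μ' * Q := by ring
      have h3 : μ' * (∑ s, Dc s) ^ (T.dim A - 2) * μ = μ * μ' * (∑ s, Dc s) ^ (T.dim A - 2) := by
        ring
      rw [h2, h3, hμμQ, hμμL, smul_smul, smul_smul] at h1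
      have h4 : (c' s * σ - e' * (σ * ((T.dim A - 2).factorial : ℂ))) •
          (topF : HC d.Φ Unit) = 0 := by
        rw [sub_smul, h1, sub_self]
      rcases smul_eq_zero.1 h4 with h5 | h5
      · apply mul_right_cancel₀ hσ
        linear_combination h5
      · exact absurd h5 htopne
    have hfin : c s • (μ : HH d.Φ Unit) + c' s • (μ' : HH d.Φ Unit) =
        (((T.dim A - 2).factorial : ℝ) : ℂ) • (Pr η β + Pr (-η) β) := by
      rw [he, he', hμm, hμm', hce, hce', smul_add, smul_smul, smul_smul]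
      push_cast
      rfl
    rw [hfin]
    exact smul_rs d _ hβ'
  have hsum : Pr η z + Pr (-η) z = ∑ s ∈ (univ.erase p).erase q,
      Ds s * (c s • (μ : HH d.Φ Unit) + c' s • (μ' : HH d.Φ Unit)) := by
    rw [hc, hc', ← Finset.sum_add_distrib]
    refine Finset.sum_congr rfl fun s _ => ?_
    rw [hμm, hμm', mul_add, mul_smul_comm, mul_smul_comm]
  rw [hsum]
  exact Submodule.sum_mem _ fun s hs => mul_rl d (Ds_rs d hL s) (key s hs)

end Pc0b458P
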