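import Pool.Agent.Lib.Pc0b458P.Vand

/-!
# Module Line: the test classes for the first species (about 1h)

Let `w ≠ 0` in `ℂ^X`, `card X = n + 1` with `1 ≤ n`. Choose a basis `θ 0, .., θ (n-1)` of the hyperplane
`∑ w_x p_x = 0` and a vector `p₀` with `∑ w_x p₀_x = 1`. With an equivalence `Option (Fin n) ≃ X` (or
`Unit ⊕ Fin n`) the determinant `g p = det (p, θ)` is linear in `p`, vanishes on the hyperplane, hence
`g p = C * ∑ w_x p_x` with `C = g p₀ ≠ 0` (`p₀, θ` is a basis). Divide `θ 0` by `C`. Then by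
`PairMap.prod_equiv`: `P.F p q * ∏ j, P.F (θ j) (cj (θ j)) = g p * conj (g (cj q)) • top` (the determinant of the
conjugate matrix is the conjugate of the determinant), which is the claim.
-/

open Finset ComplexConjugate

namespace Pc0b458P

namespace Line46

section

variable {X : Type} [Fintype X] [DecidableEq X]

/-- the vectors of the hyperplane -/
noncomputable def th (c : X → ℂ) (x₀ x : X) : X → ℂ := dl x - c x • dl x₀

theorem det_upd (c : X → ℂ) (x₀ : X) (h : c x₀ = 1) (p : X → ℂ) :
    Matrix.det (Matrix.of (Function.update (th c x₀) x₀ p)) = ∑ x, c x * p x := by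
  set A : Matrix X X ℂ := Matrix.of (th c x₀) with hA
  set g : (X → ℂ) →ₗ[ℂ] ℂ := (LinearMap.proj x₀).comp (Matrix.cramer A.transpose) with hg
  have h1 : ∀ b, g b = (A.updateRow x₀ b).det := fun b => Matrix.cramer_transpose_apply A b x₀
  have h2 : g (dl x₀) = 1 := by
    rw [h1, ← Matrix.det_one (n := X)]
    refine Matrix.det_eq_of_forall_row_eq_smul_add_const
      (fun x => if x = x₀ then 0 else - c x) x₀ (by simp) ?_
    intro i j
    by_cases hi : i = x₀
    · subst hi
      rw [Matrix.updateRow_self, if_pos rfl, zero_mul, add_zero, dl, Matrix.one_apply,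
        Pi.single_apply]
      simp only [eq_comm]
    · rw [Matrix.updateRow_ne hi, if_neg hi]
      simp only [hA, Matrix.of_apply, th, Pi.sub_apply, Pi.smul_apply, smul_eq_mul, dl,
        Matrix.one_apply, Pi.single_apply, eq_comm (a := j)]
      ring
  have h3 : ∀ x, g (dl x) = c x := by
    intro x
    by_cases hx : x = x₀
    · rw [hx, h2, h]
    · have h4 : dl x = th c x₀ x + c x • dl x₀ := by simp [th]
      have h5 : g (th c x₀ x) = 0 := by
        rw [h1]
        exact Matrix.det_updateRow_eq_zero hx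
      rw [h4, map_add, map_smul, h2, h5, zero_add, smul_eq_mul, mul_one]
  have h6 : p = ∑ x, p x • dl x := by
    funext y
    simp [dl, Finset.sum_apply, Pi.single_apply]
  have h7 : Matrix.det (Matrix.of (Function.update (th c x₀) x₀ p)) = g p := (h1 p).symm
  rw [h7]
  conv_lhs => rw [h6]
  rw [map_sum]
  refine Finset.sum_congr rfl fun x _ => ?_
  rw [map_smul, h3, smul_eq_mul, mul_comm]

omit [Fintype X] in
theorem cj_th (c : X → ℂ) (x₀ x : X) : cj (th c x₀ x) = th (fun x => conj (c x)) x₀ x := by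
  funext y
  simp only [cj, th, Pi.sub_apply, Pi.smul_apply, smul_eq_mul, map_sub, map_mul, dl,
    Pi.single_apply]
  split_ifs <;> simp

omit [Fintype X] [DecidableEq X] in
theorem cj_smul (s : ℂ) (v : X → ℂ) : cj (s • v) = conj s • cj v := by
  funext y
  simp [cj]

end

end Line46

open Line46

theorem exists_theta {X : Type} [Fintype X] [DecidableEq X] (n : ℕ) (hn : 1 ≤ n)
    (hX : Fintype.card X = n + 1) (w : X → ℂ) (hw : w ≠ 0) :
    ∃ θ : Fin n → X → ℂ, ∀ (R : Type) [CommRing R] [Algebra ℂ R] (P : PairMap X R)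
      (p q : X → ℂ), P.F p q * ∏ j, P.F (θ j) (cj (θ j)) =
        ((∑ x, w x * p x) * ∑ x, conj (w x) * q x) • P.top := by
  obtain ⟨x₀, hx₀⟩ := Function.ne_iff.1 hw
  rw [Pi.zero_apply] at hx₀
  have hcard : Fintype.card {x // x ≠ x₀} = n := by
    rw [Fintype.card_subtype_compl, Fintype.card_subtype_eq, hX]
    rfl
  set e : Fin n ≃ {x // x ≠ x₀} := (Fintype.equivFinOfCardEq hcard).symm with he
  set c : X → ℂ := fun x => w x / w x₀ with hc
  have hc0 : c x₀ = 1 := div_self hx₀
  set s : Fin n → ℂ := fun j => if j = ⟨0, hn⟩ then w x₀ else 1 with hs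
  have hsprod : ∏ j, s j = w x₀ := by
    rw [hs, Finset.prod_ite_eq' univ (⟨0, hn⟩ : Fin n) (fun _ => w x₀), if_pos (mem_univ _)]
  refine ⟨fun j => s j • th c x₀ (e j), ?_⟩
  intro R _ _ P p q
  have h1 : ∏ j, P.F (s j • th c x₀ (e j)) (cj (s j • th c x₀ (e j))) =
      (w x₀ * conj (w x₀)) • ∏ y : {x // x ≠ x₀}, P.F (th c x₀ y)
        (th (fun x => conj (c x)) x₀ y) := by
    rw [← e.prod_comp]
    have h2 : ∀ j, P.F (s j • th c x₀ (e j)) (cj (s j • th c x₀ (e j))) =
        (s j * conj (s j)) • P.F (th c x₀ (e j)) (th (fun x => conj (c x)) x₀ (e j)) := by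
      intro j
      rw [cj_smul, cj_th, map_smul, map_smul, LinearMap.smul_apply, smul_smul,
        mul_comm (conj (s j))]
    simp only [h2]
    rw [Finset.prod_smul, Finset.prod_mul_distrib, ← map_prod, hsprod]
  rw [h1, mul_smul_comm]
  have h3 : P.F p q * ∏ y : {x // x ≠ x₀}, P.F (th c x₀ y) (th (fun x => conj (c x)) x₀ y) =
      ∏ x, P.F (Function.update (th c x₀) x₀ p x)
        (Function.update (th (fun x => conj (c x)) x₀) x₀ q x) := by
    rw [Fintype.prod_eq_mul_prod_subtype_ne _ x₀]
    congr 1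
    · rw [Function.update_self, Function.update_self]
    · refine Finset.prod_congr rfl fun y _ => ?_
      rw [Function.update_of_ne y.2, Function.update_of_ne y.2]
  have hc0' : conj (c x₀) = 1 := by rw [hc0, map_one]
  rw [h3, P.prod_eq, det_upd c x₀ hc0, det_upd (fun x => conj (c x)) x₀ hc0', smul_smul]
  congr 1
  have h4 : ∑ x, c x * p x = (w x₀)⁻¹ * ∑ x, w x * p x := by
    rw [Finset.mul_sum]
    refine Finset.sum_congr rfl fun x _ => ?_
    simp only [hc]
    ring
  have h5 : ∑ x, conj (c x) * q x = (conj (w x₀))⁻¹ * ∑ x, conj (w x) * q x := by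
    rw [Finset.mul_sum]
    refine Finset.sum_congr rfl fun x _ => ?_
    simp only [hc, map_div₀]
    ring
  have hcx : conj (w x₀) ≠ 0 := by
    rw [Ne, map_eq_zero]
    exact hx₀
  rw [h4, h5]
  field_simp

end Pc0b458P
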