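import Pool.Agent.Lib.Pc0b458P.Psd
import Pool.Agent.Lib.Pc0b458P.ExPsd

/-!
# The numerical Hodge standard conjecture in codimension two
-/

universe u

open Pc0b458

namespace Pc0b458P

theorem hsc_two (T : FpTheory.{u}) (A : T.AV) (hg : 4 ≤ T.dim A) {L : T.Z A} (hL : L ∈ T.Pol A) :
    HSC T.toCycleRings A L 2 := by
  obtain ⟨L₀, hL₀, ⟨d⟩⟩ := T.cm A
  refine NumTheory.indep A hL₀ hL (by omega) ?_
  refine of_exotic_psd T.toNumTheory A hL₀ (by omega) fun x hx _ ho => ?_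
  have h := psd_exotic d hL₀ hg hx ho
  have e : ((-1 : ℚ)) ^ 2 = 1 := by norm_num
  rw [e, one_mul]
  exact h

theorem hsc_one {T : NumTheory.{u}} {A : T.AV} {L : T.Z A} (hL : L ∈ T.Pol A)
    (hg : 2 ≤ T.dim A) : HSC T.toCycleRings A L 1 := by
  intro x hx hx0 hxp
  refine T.lef_pos A L 1 hL (by omega) x ?_ hx0 hxp
  exact Submodule.subset_span ⟨fun _ => x, fun _ => hx, by simp⟩

theorem hsc_zero {T : NumTheory.{u}} {A : T.AV} {L : T.Z A} (hL : L ∈ T.Pol A)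
    (h0 : ∀ x ∈ T.cod A 0, ∃ r : ℚ, x = algebraMap ℚ (T.Z A) r) :
    HSC T.toCycleRings A L 0 := by
  intro x hx hx0 _
  obtain ⟨r, rfl⟩ := h0 x hx
  have hr : r ≠ 0 := by
    rintro rfl
    exact hx0 (map_zero _)
  have e : algebraMap ℚ (T.Z A) r * algebraMap ℚ (T.Z A) r * L ^ (T.dim A - 2 * 0) =
      (r * r) • L ^ T.dim A := by
    rw [← map_mul, ← Algebra.smul_def]
    rfl
  rw [e, map_smul, smul_eq_mul, pow_zero, one_mul]
  exact mul_pos (mul_self_pos.2 hr) (T.pol_pos A L hL)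

/-- all of Q1 in dimension at most five -/
theorem q1_five (T : FpTheory.{u}) (A : T.AV) (hg : T.dim A ≤ 5) : Q1 T.toNumTheory A := by
  intro L hL n hn
  rcases Nat.lt_or_ge n 1 with h | h
  · obtain rfl : n = 0 := by omega
    exact hsc_zero hL fun x hx => T.cod_zero A x hx
  · rcases Nat.lt_or_ge n 2 with h' | h'
    · obtain rfl : n = 1 := by omega
      exact hsc_one hL (by omega)
    · obtain rfl : n = 2 := by omega
      exact hsc_two T A (by omega) hL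

theorem Specialisation.hsc {T T₀ : NumTheory.{u}} (S : Specialisation T T₀) {A : T.AV}
    {L : T.Z A} (hL : L ∈ T.Pol A) {n : ℕ} (hn : 2 * n ≤ T.dim A)
    (h : ∀ A₀ ∈ S.sp A, ∀ L₀ ∈ T₀.Pol A₀, HSC T₀.toCycleRings A₀ L₀ n) :
    HSC T.toCycleRings A L n := by
  obtain ⟨A₀, hA₀⟩ := S.sp_exists A
  obtain ⟨L₀, hL₀, hx⟩ := S.prim A A₀ hA₀ L hL
  have hd := S.dim_eq A A₀ hA₀
  refine NumTheory.pos_of_psd A hL hn fun x hxc hxp => ?_
  obtain ⟨x₀, hx₀, hp₀, he⟩ := hx n hn x hxc hxp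
  rw [← he]
  by_cases h0 : x₀ = 0
  · rw [h0, zero_mul, zero_mul, map_zero, mul_zero]
  · have := h A₀ hA₀ L₀ hL₀ x₀ hx₀ h0 (by rw [hd]; exact hp₀)
    rw [hd] at this
    exact this.le

end Pc0b458P
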