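import Pool.Agent.Lib.Pc0b458P.Vec

/-!
# Module Pair: products of pairs in a commutative algebra (about 1.2h)

`prod_eq`: for fixed `v` the map `u ↦ ∏ x, P.F (u x) (v x)` is multilinear in the rows of `u` and vanishes when two
rows agree (`left`, after splitting off two factors of the product), so it is an alternating map in
`u : X → (X → ℂ)` and equals `det u` times its value at the unit matrix (`AlternatingMap.eq_smul_basis_det`,
`Pi.basisFun_det`, or `Matrix.detRowAlternating`; to build the multilinear map use `MultilinearMap.mkPiAlgebra`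
composed with linear maps: `(MultilinearMap.mkPiAlgebra ℂ X R).compLinearMap (fun x => P.F.flip (v x))`).
The same for `v`.
`prod_equiv`: reindex. `mul_top`: expand `p` and `q` in unit vectors, `F (dl x) (dl y) * F (dl x) (dl x) = 0`.
`prod_zero`: split `κ` into a part with `card X` elements and a nonempty rest; use `prod_equiv` and `mul_top`.
`left_top`: `c * F (dl x) q = 0` for all `x, q` with `x` in the support... see the statement.
-/

open Finset

namespace Pc0b458P

section

variable {X : Type} [Fintype X] [DecidableEq X] {R : Type} [CommRing R] [Algebra ℂ R]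

namespace Pair46

omit [Algebra ℂ R] in
theorem prod_two_zero {f : X → R} {i j : X} (hij : i ≠ j) (h : f i * f j = 0) : ∏ x, f x = 0 := by
  rw [← Finset.mul_prod_erase univ f (mem_univ i),
    ← Finset.mul_prod_erase (univ.erase i) f (mem_erase.2 ⟨hij.symm, mem_univ j⟩), ← mul_assoc, h,
    zero_mul]

/-- the alternating map of a family of linear maps -/
noncomputable def altOf (L : X → (X → ℂ) →ₗ[ℂ] R) (h : ∀ i j, i ≠ j → ∀ w, L i w * L j w = 0) :
    (X → ℂ) [⋀^X]→ₗ[ℂ] R :=
  { (MultilinearMap.mkPiAlgebra ℂ X R).compLinearMap L with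
    map_eq_zero_of_eq' := by
      intro v i j hv hij
      change ∏ x, L x (v x) = 0
      apply prod_two_zero hij
      rw [hv]
      exact h i j hij _ }

theorem altOf_apply (L : X → (X → ℂ) →ₗ[ℂ] R) (h : ∀ i j, i ≠ j → ∀ w, L i w * L j w = 0)
    (u : X → X → ℂ) : altOf L h u = ∏ x, L x (u x) := rfl

theorem alt_eq (L : X → (X → ℂ) →ₗ[ℂ] R) (h : ∀ i j, i ≠ j → ∀ w, L i w * L j w = 0)
    (u : X → X → ℂ) : ∏ x, L x (u x) = Matrix.det (Matrix.of u) • ∏ x, L x (dl x) := by
  have key : altOf L h = (LinearMap.toSpanSingleton ℂ R (∏ x, L x (dl x))).compAlternatingMap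
      Matrix.detRowAlternating := by
    refine Module.Basis.ext_alternating (Pi.basisFun ℂ X) fun v hv => ?_
    have hb : Function.Bijective v := Finite.injective_iff_bijective.1 hv
    set σ : Equiv.Perm X := Equiv.ofBijective v hb with hσ
    have h1 : (fun i => (Pi.basisFun ℂ X) (v i)) = (fun i => dl i) ∘ σ := by
      funext i
      rw [Pi.basisFun_apply]
      rfl
    rw [h1, AlternatingMap.map_perm, AlternatingMap.map_perm]
    congr 1
    change ∏ x, L x (dl x) = Matrix.det (fun i => dl i) • ∏ x, L x (dl x)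
    have h2 : Matrix.det (fun i : X => (dl i : X → ℂ)) = 1 := by
      rw [← Matrix.det_one (n := X)]
      congr 1
      funext i j
      by_cases hij : i = j
      · subst hij
        simp [dl]
      · simp [dl, Matrix.one_apply_ne hij, Pi.single_eq_of_ne (Ne.symm hij)]
    rw [h2, one_smul]
  exact congrArg (fun f => f u) key

end Pair46

open Pair46

variable (P : PairMap X R)

theorem PairMap.prod_eq (u v : X → X → ℂ) :
    ∏ x, P.F (u x) (v x) = (Matrix.det (Matrix.of u) * Matrix.det (Matrix.of v)) • P.top := by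
  have h1 := alt_eq (fun x => P.F.flip (v x)) (fun i j _ w => P.left w (v i) (v j)) u
  have h2 := alt_eq (fun x => P.F (dl x)) (fun i j _ w => P.right (dl i) (dl j) w) v
  change ∏ x, P.F (u x) (v x) = Matrix.det (Matrix.of u) • ∏ x, P.F (dl x) (v x) at h1
  rw [h1, h2, smul_smul]
  rfl

theorem PairMap.prod_equiv {κ : Type} [Fintype κ] (e : κ ≃ X) (u v : κ → X → ℂ) :
    ∏ k, P.F (u k) (v k) = (Matrix.det (Matrix.of fun x => u (e.symm x)) *
      Matrix.det (Matrix.of fun x => v (e.symm x))) • P.top := by
  rw [← P.prod_eq]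
  exact (e.symm.prod_comp (fun k => P.F (u k) (v k))).symm

theorem PairMap.mul_top (p q : X → ℂ) : P.F p q * P.top = 0 := by
  have h1 : P.F p q = ∑ x, p x • P.F (dl x) q := by
    have h2 : p = ∑ x, p x • dl x := by
      funext y
      simp [dl, Finset.sum_apply, Pi.single_apply]
    conv_lhs => rw [h2]
    rw [map_sum, LinearMap.sum_apply]
    refine Finset.sum_congr rfl fun x _ => ?_
    rw [map_smul, LinearMap.smul_apply]
  rw [h1, Finset.sum_mul]
  refine Finset.sum_eq_zero fun x _ => ?_
  unfold PairMap.top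
  rw [← Finset.mul_prod_erase univ _ (mem_univ x), smul_mul_assoc, ← mul_assoc, P.left, zero_mul,
    smul_zero]

theorem PairMap.prod_zero {κ : Type} [Fintype κ] (h : Fintype.card X < Fintype.card κ)
    (u v : κ → X → ℂ) : ∏ k, P.F (u k) (v k) = 0 := by
  classical
  obtain ⟨e⟩ : Nonempty (X ↪ κ) := Function.Embedding.nonempty_of_card_le h.le
  obtain ⟨k₀, hk₀⟩ : ∃ k₀, k₀ ∉ (univ.map e : Finset κ) := by
    by_contra hcon
    push Not at hcon
    have h1 : (univ.map e : Finset κ) = univ := Finset.eq_univ_iff_forall.2 hcon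
    have h2 := congrArg Finset.card h1
    rw [Finset.card_map, Finset.card_univ, Finset.card_univ] at h2
    omega
  have h3 : ∏ k ∈ univ.map e, P.F (u k) (v k) = (Matrix.det (Matrix.of fun x => u (e x)) *
      Matrix.det (Matrix.of fun x => v (e x))) • P.top := by
    rw [Finset.prod_map, ← P.prod_eq]
  rw [← Finset.mul_prod_erase univ _ (mem_univ k₀)]
  have h4 : univ.map e ⊆ univ.erase k₀ := by
    intro k hk
    rw [mem_erase]
    exact ⟨fun h5 => hk₀ (h5 ▸ hk), mem_univ k⟩
  rw [← Finset.prod_sdiff h4, h3, mul_smul_comm, mul_smul_comm, mul_left_comm, P.mul_top,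
    mul_zero, smul_zero]

theorem PairMap.self_mul (x : X) : P.F (dl x) (dl x) * P.F (dl x) (dl x) = 0 :=
  P.left _ _ _

end

end Pc0b458P
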