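import Pool.Agent.Lib.Pc0b458P.PosA

/-!
# Module PosB: nonnegativity of the test products at all points (about 1.5h)

The function `G v = trp M ((∏ x, zx x) * ∏ i, Dv (v i))` of `v : Fin k → Φ → Fin M → ℂ` is continuous:
`Dv v = ∑ s, ∑ x, ∑ y, (v s x * conj (v s y)) • ev (ee s true x) (ee s false y)`, expand the product over `i`
(`Finset.prod_univ_sum`) and apply the linear map `trp M`: a finite sum of products of continuous functions with
constants. The points `v i s l = emb s (a i l)` are dense in `Fin k → Φ → Fin M → ℂ` (`d.dense`, for all `i, l`), and at these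
points `G v` lies in the closed set `{w | ∃ r : ℝ, 0 ≤ r ∧ w = r}` by `pos_rational`.
-/

universe u

open Pc0b458 Finset ComplexConjugate

namespace Pc0b458P

variable {T : NumTheory.{u}} {W : EffData T} {A : T.AV} {L : T.Z A} (d : CMData T W A L)

namespace PosBAux

theorem inj_sum {Φ X : Type} [DecidableEq Φ] [Fintype X] [DecidableEq X] (s : Φ) (b : Bool)
    (v : X → ℂ) : inj s b v = ∑ x, v x • ee s b x := by
  funext i
  obtain ⟨t, b', y⟩ := i
  simp only [inj, LinearMap.coe_mk, AddHom.coe_mk, Finset.sum_apply, Pi.smul_apply, smul_eq_mul, ee,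
    Pi.single_apply, Prod.mk.injEq]
  split_ifs with h
  · obtain ⟨rfl, rfl⟩ := h
    simp
  · symm
    apply Finset.sum_eq_zero
    intro x _
    rw [if_neg (fun h' => h ⟨h'.1, h'.2.1⟩), mul_zero]

theorem Dv_expand {Φ X : Type} [Fintype Φ] [DecidableEq Φ] [Fintype X] [DecidableEq X]
    (v : Φ → X → ℂ) :
    (Dv v : HC Φ X) = ∑ s, ∑ x, ∑ y, (v s x * conj (v s y)) • ev (ee s true x) (ee s false y) := by
  unfold Dv
  refine Finset.sum_congr rfl fun s _ => ?_
  apply Subtype.ext
  simp only [ev, inj_sum, map_sum, map_smul, Finset.sum_mul, Finset.mul_sum, cj,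
    AddSubmonoidClass.coe_finsetSum, SetLike.val_smul, smul_mul_assoc, mul_smul_comm, mul_smul]
  rw [Finset.sum_comm]
  refine Finset.sum_congr rfl fun x _ => ?_
  simp only [Finset.smul_sum]
  refine Finset.sum_congr rfl fun y _ => ?_
  rw [smul_comm]

end PosBAux

theorem continuous_test {Φ X ι : Type} [Fintype Φ] [DecidableEq Φ] [Fintype X] [DecidableEq X]
    [Fintype ι] (δ : HH Φ X →ₗ[ℂ] ℂ) (c : HC Φ X) :
    Continuous fun v : ι → Φ → X → ℂ => δ ((c * ∏ i, Dv (v i) : HC Φ X) : HH Φ X) := by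
  classical
  have key : ∀ (S : Finset ι) (c : HC Φ X),
      Continuous fun v : ι → Φ → X → ℂ => δ ((c * ∏ i ∈ S, Dv (v i) : HC Φ X) : HH Φ X) := by
    intro S
    induction S using Finset.induction_on with
    | empty => intro c; simpa using continuous_const
    | insert i S hi ih =>
      intro c
      have h : (fun v : ι → Φ → X → ℂ =>
          δ ((c * ∏ j ∈ insert i S, Dv (v j) : HC Φ X) : HH Φ X)) =
          fun v => ∑ s, ∑ x, ∑ y, (v i s x * conj (v i s y)) *
            δ (((c * ev (ee s true x) (ee s false y)) * ∏ j ∈ S, Dv (v j) : HC Φ X) : HH Φ X) := by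
        funext v
        rw [Finset.prod_insert hi, ← mul_assoc, PosBAux.Dv_expand]
        simp only [Finset.mul_sum, Finset.sum_mul, mul_smul_comm, smul_mul_assoc,
          AddSubmonoidClass.coe_finsetSum, SetLike.val_smul, map_sum, map_smul, smul_eq_mul]
      rw [h]
      refine continuous_finsetSum _ fun s _ => continuous_finsetSum _ fun x _ =>
        continuous_finsetSum _ fun y _ => ?_
      refine Continuous.mul ?_ (ih _)
      refine Continuous.mul ?_ ?_
      · exact (continuous_apply x).comp ((continuous_apply s).comp (continuous_apply i))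
      · exact Complex.continuous_conj.comp
          ((continuous_apply y).comp ((continuous_apply s).comp (continuous_apply i)))
  exact key univ c

theorem pos_all (hL : L ∈ T.Pol A) (M k : ℕ) (hk : 2 * M + k = M * T.dim A)
    {z : HH d.Φ Unit} (hz : z ∈ d.pc 2) (zx : Fin M → HC d.Φ (Fin M))
    (hzx : ∀ x, (zx x : HH d.Φ (Fin M)) = ExteriorAlgebra.map (pb (dls x)) z)
    (v : Fin k → d.Φ → Fin M → ℂ) :
    ∃ r : ℝ, 0 ≤ r ∧ d.trp M (((∏ x, zx x) * ∏ i, Dv (v i) :
      HC d.Φ (Fin M)) : HH d.Φ (Fin M)) = (r : ℂ) := by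
  have hcont := continuous_test (ι := Fin k) (d.trp M) (∏ x, zx x)
  have hcl : IsClosed {w : ℂ | 0 ≤ w.re ∧ w.im = 0} :=
    (isClosed_le continuous_const Complex.continuous_re).inter
      (isClosed_eq Complex.continuous_im continuous_const)
  have hpre := hcl.preimage hcont
  suffices h : v ∈ (fun v : Fin k → d.Φ → Fin M → ℂ =>
      d.trp M (((∏ x, zx x) * ∏ i, Dv (v i) : HC d.Φ (Fin M)) : HH d.Φ (Fin M))) ⁻¹'
        {w : ℂ | 0 ≤ w.re ∧ w.im = 0} by
    refine ⟨_, h.1, ?_⟩
    apply Complex.ext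
    · rw [Complex.ofReal_re]
    · rw [Complex.ofReal_im]; exact h.2
  rw [← hpre.closure_eq]
  rw [Metric.mem_closure_iff]
  intro ε hε
  have h1 : ∀ (i : Fin k) (l : Fin M), ∃ a : d.E, ∀ s, ‖d.emb s a - v i s l‖ < ε / 2 :=
    fun i l => d.dense (fun s => v i s l) (ε / 2) (half_pos hε)
  choose a ha using h1
  refine ⟨fun i s l => d.emb s (a i l), ?_, ?_⟩
  · obtain ⟨r, hr, h⟩ := pos_rational d hL M k hk hz zx hzx a
    simp only [Set.mem_preimage, Set.mem_ofPred_eq]
    rw [h]
    exact ⟨by simpa using hr, by simp⟩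
  · refine lt_of_le_of_lt ?_ (half_lt_self hε)
    rw [dist_pi_le_iff (half_pos hε).le]
    intro i
    rw [dist_pi_le_iff (half_pos hε).le]
    intro s
    rw [dist_pi_le_iff (half_pos hε).le]
    intro l
    rw [dist_comm, dist_eq_norm]
    exact (ha i l s).le

end Pc0b458P
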