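import Pool.Agent.Lib.Pc0b458P.Sign
import Pool.Agent.Lib.Pc0b458P.PosB
import Pool.Agent.Lib.Pc0b458P.Deg
import Pool.Agent.Lib.Pc0b458P.Cone

/-!
# Module PairPos: the sign of a pair of conjugate components (about 1.5h)

Let `α = c • m4 J b + c' • m4 J (not b) ∈ rs 2`. The number `tr (α * α * (cl L)^(g-4))` is real (`rs_mul`, `clL_rs`, `rs_tr`,
`2 + 2 + (g-4) = g`; note `4 ≤ g` as `J` is injective) and equals `2 c c' sgb b (g-4)! κ` by `m4_self`, `four_four`, `kap_one`.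
So `c c' sgb b = y` is real. Suppose `y < 0`. Take `t = t₀` from `interior` and `z = (cl L)^2 + t • α ∈ pc 2`. Apply `neg_test_sign`
with `Y = t^2 y / 4 < 0`: with `τ = t c`, `τ' = t c'` we have `τ τ' = t^2 c c' = 4 Y sgb b` (`sgb b ^ 2 = 1`), so the product
of the `zx x = Dv (dls x)^2 + τ • m4 J b x + τ' • m4 J (not b) x` and the `Dv (v i)` is `r • topF` with `r < 0`. Here
`zx x = map (pb (dls x)) z` (`map_pb_L`, and `map (pb (dls x))` maps `m4 J b ()` to `m4 J b x`, as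
`pb (dls x) (ee s b ()) = ee s b x`). By `kap_pow` its trace is a negative real number, but by `pos_all` it is
nonnegative.
-/

universe u

open Pc0b458 Finset ComplexConjugate

namespace Pc0b458P

namespace PairAux

theorem sgb_sq (b : Fin 4 → Bool) : sgb b * sgb b = 1 := by
  unfold sgb
  rw [← Finset.prod_mul_distrib]
  apply Finset.prod_eq_one
  intro i _
  split_ifs <;> norm_num

theorem pb_dls_ee {Φ X : Type} [DecidableEq Φ] [DecidableEq X] (x : X) (s : Φ) (b : Bool) :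
    pb (dls x) (ee s b ()) = (ee s b x : HV Φ X) := by
  funext i
  obtain ⟨t, c, y⟩ := i
  change (if c then (Pi.single x (1 : ℂ) : X → ℂ) y else conj ((Pi.single x (1 : ℂ) : X → ℂ) y)) *
    (Pi.single (s, b, ()) (1 : ℂ) : HV Φ Unit) (t, c, ()) =
    (Pi.single (s, b, x) (1 : ℂ) : HV Φ X) (t, c, y)
  have h0 : (if c then (Pi.single x (1 : ℂ) : X → ℂ) y else
      conj ((Pi.single x (1 : ℂ) : X → ℂ) y)) = (Pi.single x (1 : ℂ) : X → ℂ) y := by
    by_cases hy : y = x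
    · rw [hy, Pi.single_eq_same, map_one, ite_self]
    · rw [Pi.single_eq_of_ne hy, map_zero, ite_self]
  rw [h0]
  by_cases h : (t, c, y) = (s, b, x)
  · rw [h]
    simp only [Prod.mk.injEq] at h
    obtain ⟨rfl, rfl, rfl⟩ := h
    rw [Pi.single_eq_same, Pi.single_eq_same, Pi.single_eq_same, one_mul]
  · rw [Pi.single_eq_of_ne h]
    by_cases hy : y = x
    · have h1 : (t, c, ()) ≠ (s, b, ()) := by
        intro hh
        apply h
        simp only [Prod.mk.injEq, and_true] at hh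
        rw [hh.1, hh.2, hy]
      rw [Pi.single_eq_of_ne h1, mul_zero]
    · rw [Pi.single_eq_of_ne hy, zero_mul]

theorem map_ev {Φ X : Type} [DecidableEq Φ] [DecidableEq X] (f : HV Φ Unit →ₗ[ℂ] HV Φ X)
    (u v : HV Φ Unit) :
    ExteriorAlgebra.map f ((ev u v : HC Φ Unit) : HH Φ Unit) =
      ((ev (f u) (f v) : HC Φ X) : HH Φ X) := by
  change ExteriorAlgebra.map f (ExteriorAlgebra.ι ℂ u * ExteriorAlgebra.ι ℂ v) =
    ExteriorAlgebra.ι ℂ (f u) * ExteriorAlgebra.ι ℂ (f v)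
  rw [map_mul, ExteriorAlgebra.map_apply_ι, ExteriorAlgebra.map_apply_ι]

theorem map_m4 {Φ X : Type} [DecidableEq Φ] [DecidableEq X] (J : Fin 4 → Φ) (b : Fin 4 → Bool)
    (x : X) :
    ExteriorAlgebra.map (pb (dls x)) ((m4 J b () : HC Φ Unit) : HH Φ Unit) =
      ((m4 J b x : HC Φ X) : HH Φ X) := by
  change ExteriorAlgebra.map (pb (dls x))
    (((ev (ee (J 0) (b 0) ()) (ee (J 1) (b 1) ()) : HC Φ Unit) : HH Φ Unit) *
      ((ev (ee (J 2) (b 2) ()) (ee (J 3) (b 3) ()) : HC Φ Unit) : HH Φ Unit)) =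
    ((ev (ee (J 0) (b 0) x) (ee (J 1) (b 1) x) : HC Φ X) : HH Φ X) *
      ((ev (ee (J 2) (b 2) x) (ee (J 3) (b 3) x) : HC Φ X) : HH Φ X)
  rw [map_mul, map_ev, map_ev, pb_dls_ee, pb_dls_ee, pb_dls_ee, pb_dls_ee]

/-- the square of a sum of two elements of square zero -/
theorem sq_sum {Φ : Type} [Fintype Φ] [DecidableEq Φ] (J : Fin 4 → Φ)
    (hJ : Function.Injective J) (b : Fin 4 → Bool) (c c' : ℂ) :
    (c • (m4 J b () : HC Φ Unit) + c' • m4 J (fun i => !(b i)) ()) *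
      (c • (m4 J b () : HC Φ Unit) + c' • m4 J (fun i => !(b i)) ()) *
      (∑ s, Dc s) ^ (Fintype.card Φ - 4) =
    (2 * (c * c') * (sgb b * ((Fintype.card Φ - 4).factorial : ℂ))) • (topF : HC Φ Unit) := by
  have h1 := m4_self J b
  have h2 := m4_self J (fun i => !(b i))
  have h3 := four_four J hJ b
  have h4 : (c • (m4 J b () : HC Φ Unit) + c' • m4 J (fun i => !(b i)) ()) *
      (c • (m4 J b () : HC Φ Unit) + c' • m4 J (fun i => !(b i)) ()) =
      (c * c) • ((m4 J b () : HC Φ Unit) * m4 J b ()) +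
      (2 * (c * c')) • ((m4 J b () : HC Φ Unit) * m4 J (fun i => !(b i)) ()) +
      (c' * c') • ((m4 J (fun i => !(b i)) () : HC Φ Unit) * m4 J (fun i => !(b i)) ()) := by
    rw [mul_add, add_mul, add_mul]
    simp only [smul_mul_smul_comm]
    rw [mul_comm (m4 J (fun i => !(b i)) () : HC Φ Unit) (m4 J b ()), mul_comm c' c, two_mul,
      add_smul]
    abel
  rw [h4, h1, h2, smul_zero, smul_zero, zero_add, add_zero, smul_mul_assoc, h3, smul_smul]

end PairAux

open PairAux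

variable {T : NumTheory.{u}} {W : EffData T} {A : T.AV} {L : T.Z A} (d : CMData T W A L)

theorem pair_nonneg (hL : L ∈ T.Pol A) (J : Fin 4 → d.Φ) (hJ : Function.Injective J)
    (b : Fin 4 → Bool) (c c' : ℂ)
    (h : c • ((m4 J b () : HC d.Φ Unit) : HH d.Φ Unit) +
      c' • ((m4 J (fun i => !(b i)) () : HC d.Φ Unit) : HH d.Φ Unit) ∈ d.rs 2) :
    ∃ y : ℝ, 0 ≤ y ∧ c * c' * sgb b = (y : ℂ) := by
  have hg4 : 4 ≤ Fintype.card d.Φ := by
    have := Fintype.card_le_of_injective J hJ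
    rwa [Fintype.card_fin] at this
  have hcard := d.card_Φ
  have hclL : (d.cl L : HC d.Φ Unit) = ∑ s, Dc s := by rw [d.cl_L, Dv_dls_unit]
  obtain ⟨κ, hκ, hκt⟩ := kap_one d hL
  -- the number `tr (α * α * L ^ (g - 4))` is real
  obtain ⟨y, hy⟩ : ∃ y : ℝ, c * c' * sgb b = (y : ℂ) := by
    have h1 := rs_mul d (rs_mul d h h) (clL_rs d hL (T.dim A - 4))
    have h2 : 2 + 2 + (T.dim A - 4) = T.dim A := by rw [← hcard]; omega
    rw [h2] at h1
    obtain ⟨r0, hr0⟩ := rs_tr d h1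
    have h3 := congrArg (Subtype.val : HC d.Φ Unit → HH d.Φ Unit) (sq_sum J hJ b c c')
    have h4 : d.tr ((((2 * (c * c') * (sgb b * ((Fintype.card d.Φ - 4).factorial : ℂ))) •
        (topF : HC d.Φ Unit) : HC d.Φ Unit)) : HH d.Φ Unit) = (r0 : ℂ) := by
      rw [← hr0, ← h3, hclL, hcard]
      rfl
    have h5 : 2 * (c * c') * (sgb b * ((Fintype.card d.Φ - 4).factorial : ℂ)) * (κ : ℂ) =
        (r0 : ℂ) := by
      rw [← h4, ← hκt, ← smul_eq_mul, ← map_smul]
      rfl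
    have hf : ((Fintype.card d.Φ - 4).factorial : ℂ) ≠ 0 := by
      exact_mod_cast Nat.factorial_ne_zero _
    have hκ0 : (κ : ℂ) ≠ 0 := by exact_mod_cast hκ.ne'
    refine ⟨r0 / (2 * (Fintype.card d.Φ - 4).factorial * κ), ?_⟩
    push_cast
    rw [eq_div_iff (mul_ne_zero (mul_ne_zero two_ne_zero hf) hκ0), ← h5]
    ring
  refine ⟨y, ?_, hy⟩
  by_contra hneg
  rw [not_le] at hneg
  obtain ⟨t, ht, hint⟩ := interior d hL h
  have hz := hint t (by rw [abs_of_pos ht])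
  obtain ⟨M, k, v, r, hMk, hr, htest⟩ := neg_test_sign J hJ b (t ^ 2 * y / 4)
    (by
      have : 0 < t ^ 2 := by positivity
      nlinarith)
  have htau : ((t : ℂ) * c) * ((t : ℂ) * c') = ((4 * (t ^ 2 * y / 4) : ℝ) : ℂ) * sgb b := by
    push_cast
    rw [← hy]
    calc ((t : ℂ) * c) * ((t : ℂ) * c') = (t : ℂ) ^ 2 * (c * c') * 1 := by ring
      _ = (t : ℂ) ^ 2 * (c * c') * (sgb b * sgb b) := by rw [sgb_sq]
      _ = _ := by ring
  have hprod := htest _ _ htau
  obtain ⟨r', hr', hpos⟩ := pos_all d hL M k (by rw [hMk, hcard]) hz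
    (fun x => Dv (dls x) ^ 2 + ((t : ℂ) * c) • m4 J b x + ((t : ℂ) * c') •
      m4 J (fun i => !(b i)) x)
    (by
      intro x
      have e1 : ExteriorAlgebra.map (pb (dls x)) ((d.cl L : HC d.Φ Unit) : HH d.Φ Unit) =
          ((Dv (dls x) : HC d.Φ (Fin M)) : HH d.Φ (Fin M)) := by
        rw [d.cl_L]
        exact map_pb_L (dls x)
      have e2 : t • (c • ((m4 J b () : HC d.Φ Unit) : HH d.Φ Unit) +
          c' • ((m4 J (fun i => !(b i)) () : HC d.Φ Unit) : HH d.Φ Unit)) =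
          ((t : ℂ) * c) • ((m4 J b () : HC d.Φ Unit) : HH d.Φ Unit) +
          ((t : ℂ) * c') • ((m4 J (fun i => !(b i)) () : HC d.Φ Unit) : HH d.Φ Unit) := by
        rw [← smul_smul, ← smul_smul, ← smul_add]
        rfl
      rw [e2, map_add, map_add, map_pow, e1, map_smul, map_smul, map_m4, map_m4, ← add_assoc]
      rfl)
    v
  rw [hprod] at hpos
  obtain ⟨κ', hκ', hκ't⟩ := kap_pow d hL M
  have h6 : ((r * κ' : ℝ) : ℂ) = (r' : ℂ) := by
    rw [← hpos]
    push_cast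
    rw [← hκ't, ← smul_eq_mul, ← map_smul]
  have h7 : r * κ' = r' := by exact_mod_cast h6
  have h8 : r * κ' < 0 := mul_neg_of_neg_of_pos hr hκ'
  linarith

end Pc0b458P
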