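import Pool.Agent.Lib.Pc0b458P.Term
import Pool.Agent.Lib.Pc0b458P.Count
import Pool.Agent.Lib.Pc0b458P.Grow

/-!
# Module Points: existence of good points (about 1.2h)

Take `m` from `grow (3 * max C 0)` and `X = Fin (3*m+2)`. Suppose that for all `ξ` with
`br (ξ i) (ξ j) ≠ 0` for `i ≠ j` one has `N1 m ξ ω ≤ C * N0 m ξ ω` with `ω l = om m (ξ l)`.
(These `ω l` are positive: `br (ξ l) (ξ j) ≠ 0` implies `ξ l ≠ 0`; there are at least two sites.)
Such `ξ` are almost all: the set of `(p, q)` with `br p q = 0` has measure zero (for fixed `p ≠ 0` it is a line;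
`gam_ac`), use `integral_split`-like arguments or: the set `{ξ | br (ξ i) (ξ j) = 0}` is the preimage under the
projection `ξ ↦ (ξ i, ξ j)`, or an analytic / polynomial zero set / proper submanifold argument
(`MeasureTheory.Measure.addHaar_affineSubspace` on fibres, `measure_prod_null`).
Integrate: `∫ N1 = cB * V1 m`, `∫ N0 = cA * V0 m` (`term0`, `term1`, `integral_finset_sum`), so
`cB * V1 ≤ C * cA * V0`, and with `(m+1) cA = 3 cB`, `V1 ≥ kap^2 (II 1^2/II 0)^3`, `V0 = kap^2 II 2^3`: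
`(m+1)/3 * (II 1 ^2 / (II 0 * II 2))^3 ≤ C`, where by `II_eq` (and `m!`, `π`, `Γ(m-j)` cancel)
`II 1^2/(II 0 II 2) = ∏_{j<m} Γ(j+3/2)^2/(Γ(j+1) Γ(j+2))`. This contradicts `grow`.
-/

open MeasureTheory Finset

namespace Pc0b458P

theorem pts_haar : (volume : Measure (ℂ × ℂ)).IsAddHaarMeasure := by
  rw [Measure.volume_eq_prod]
  infer_instance

theorem pts_gam_ne_zero : ∀ᵐ u ∂gam, u ≠ 0 := by
  refine gam_ac.1.ae_le ?_
  rw [mem_ae_iff]
  have h0 : {x : ℂ × ℂ | (fun u => u ≠ 0) x}ᶜ = {0} := by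
    ext x; simp
  rw [h0]
  have _i := pts_haar
  exact measure_singleton 0

theorem pts_line (u : ℂ × ℂ) (hu : u ≠ 0) : ∀ᵐ v ∂gam, br u v ≠ 0 := by
  refine gam_ac.1.ae_le ?_
  rw [mem_ae_iff]
  let L : ℂ × ℂ →ₗ[ℝ] ℂ :=
    { toFun := fun v => br u v
      map_add' := by intro a b; simp only [br, Prod.fst_add, Prod.snd_add]; ring
      map_smul' := by
        intro a b
        simp only [br, Prod.smul_fst, Prod.smul_snd, Complex.real_smul, RingHom.id_apply]; ring }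
  have h1 : {x : ℂ × ℂ | (fun v => br u v ≠ 0) x}ᶜ = (LinearMap.ker L : Set (ℂ × ℂ)) := by
    ext x
    simp [L]
  rw [h1]
  have _i := pts_haar
  apply Measure.addHaar_submodule
  intro h
  rw [LinearMap.ker_eq_top] at h
  apply hu
  have e1 : L (0, 1) = 0 := by rw [h]; rfl
  have e2 : L (1, 0) = 0 := by rw [h]; rfl
  have e1' : u.1 = 0 := by simpa [L, br] using e1
  have e2' : u.2 = 0 := by simpa [L, br] using e2
  exact Prod.ext e1' e2'

theorem ae_br_ne {X : Type} [Fintype X] (i j : X) (hij : i ≠ j) :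
    ∀ᵐ ξ ∂(gamN X), br (ξ i) (ξ j) ≠ 0 := by
  classical
  have hmp := measurePreserving_piEquivPiSubtypeProd (fun _ : X => gam) (fun x => x ≠ j)
  have key : ∀ᵐ q ∂((Measure.pi fun _ : {x // x ≠ j} => gam).prod
      (Measure.pi fun _ : {x // ¬ x ≠ j} => gam)),
      br (q.1 ⟨i, hij⟩) (q.2 ⟨j, by simp⟩) ≠ 0 := by
    rw [Measure.ae_prod_iff_ae_ae]
    · have h1 : ∀ᵐ x ∂(Measure.pi fun _ : {x // x ≠ j} => gam), x ⟨i, hij⟩ ≠ 0 :=
        (Measure.quasiMeasurePreserving_eval (fun _ : {x // x ≠ j} => gam) ⟨i, hij⟩).ae pts_gam_ne_zero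
      filter_upwards [h1] with x hx
      exact (Measure.quasiMeasurePreserving_eval (fun _ : {x // ¬ x ≠ j} => gam) ⟨j, by simp⟩).ae
        (pts_line _ hx)
    · apply MeasurableSet.compl
      apply measurableSet_eq_fun
      · unfold br
        fun_prop
      · fun_prop
  have h2 := hmp.quasiMeasurePreserving.ae key
  exact h2

theorem pts_om_pos (m : ℕ) {u v : ℂ × ℂ} (h : br u v ≠ 0) : 0 < om m u := by
  unfold om
  apply inv_pos.mpr
  apply pow_pos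
  apply Real.sqrt_pos.mpr
  unfold qq
  by_contra hc
  have h1 : ‖u.1‖ ^ 2 = 0 := by
    nlinarith [sq_nonneg ‖u.1‖, sq_nonneg ‖u.2‖]
  have h2 : ‖u.2‖ ^ 2 = 0 := by
    nlinarith [sq_nonneg ‖u.1‖, sq_nonneg ‖u.2‖]
  have h1' : u.1 = 0 := by simpa using h1
  have h2' : u.2 = 0 := by simpa using h2
  apply h
  unfold br
  rw [h1', h2']
  ring

theorem pts_N0 {X : Type} [Fintype X] [DecidableEq X] (m : ℕ) :
    Integrable (fun ξ : X → ℂ × ℂ => N0 m ξ (fun l => om m (ξ l))) (gamN X) ∧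
    ∫ ξ : X → ℂ × ℂ, N0 m ξ (fun l => om m (ξ l)) ∂(gamN X) = (cA m X : ℝ) * V0 m := by
  have hterm : ∀ (κ : X → Fin 3) (x : X),
      Integrable (fun ξ : X → ℂ × ℂ => if ∀ s, (H0 κ x s).card = m + 1 then
        om m (ξ x) ^ 2 * ∏ s, dd ξ (H0 κ x s) else 0) (gamN X) ∧
      ∫ ξ : X → ℂ × ℂ, (if ∀ s, (H0 κ x s).card = m + 1 then
        om m (ξ x) ^ 2 * ∏ s, dd ξ (H0 κ x s) else 0) ∂(gamN X) =
        if ∀ s, (H0 κ x s).card = m + 1 then V0 m else 0 := by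
    intro κ x
    by_cases h : ∀ s, (H0 κ x s).card = m + 1
    · simp only [if_pos h]
      exact term0 m κ x h
    · simp only [if_neg h]
      exact ⟨integrable_zero _ _ _, integral_zero _ _⟩
  constructor
  · unfold N0
    exact integrable_finsetSum _ fun κ _ => integrable_finsetSum _ fun x _ => (hterm κ x).1
  · unfold N0
    rw [integral_finsetSum _ fun κ _ => integrable_finsetSum _ fun x _ => (hterm κ x).1]
    have h2 : ∀ κ ∈ (univ : Finset (X → Fin 3)),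
        ∫ ξ : X → ℂ × ℂ, (∑ x : X, if ∀ s, (H0 κ x s).card = m + 1 then
          om m (ξ x) ^ 2 * ∏ s, dd ξ (H0 κ x s) else 0) ∂(gamN X) =
        ∑ x : X, if ∀ s, (H0 κ x s).card = m + 1 then V0 m else 0 := by
      intro κ _
      rw [integral_finsetSum _ fun x _ => (hterm κ x).1]
      exact Finset.sum_congr rfl fun x _ => (hterm κ x).2
    rw [Finset.sum_congr rfl h2]
    unfold cA
    rw [Finset.card_filter, Nat.cast_sum, Finset.sum_mul, Fintype.sum_prod_type]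
    refine Finset.sum_congr rfl fun κ _ => Finset.sum_congr rfl fun x _ => ?_
    by_cases h : ∀ s, (H0 κ x s).card = m + 1
    · rw [if_pos h, if_pos h]; simp
    · rw [if_neg h, if_neg h]; simp

theorem pts_N1 {X : Type} [Fintype X] [DecidableEq X] (m : ℕ) :
    Integrable (fun ξ : X → ℂ × ℂ => N1 m ξ (fun l => om m (ξ l))) (gamN X) ∧
    ∫ ξ : X → ℂ × ℂ, N1 m ξ (fun l => om m (ξ l)) ∂(gamN X) = (cB m X : ℝ) * V1 m := by
  have hterm : ∀ (κ : X → Fin 3) (x y : X),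
      Integrable (fun ξ : X → ℂ × ℂ => if x ≠ y ∧ κ x = 0 ∧ κ y = 0 ∧
        ∀ s, (H1 κ x y s).card = m then t1 ξ (fun l => om m (ξ l)) κ x y else 0) (gamN X) ∧
      ∫ ξ : X → ℂ × ℂ, (if x ≠ y ∧ κ x = 0 ∧ κ y = 0 ∧
        ∀ s, (H1 κ x y s).card = m then t1 ξ (fun l => om m (ξ l)) κ x y else 0) ∂(gamN X) =
        if x ≠ y ∧ κ x = 0 ∧ κ y = 0 ∧ ∀ s, (H1 κ x y s).card = m then V1 m else 0 := by
    intro κ x y
    by_cases h : x ≠ y ∧ κ x = 0 ∧ κ y = 0 ∧ ∀ s, (H1 κ x y s).card = m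
    · simp only [if_pos h]
      exact term1 m κ x y h.1 h.2.2.2
    · simp only [if_neg h]
      exact ⟨integrable_zero _ _ _, integral_zero _ _⟩
  have hI2 : ∀ (κ : X → Fin 3) (x : X), Integrable (fun ξ : X → ℂ × ℂ => ∑ y : X,
      if x ≠ y ∧ κ x = 0 ∧ κ y = 0 ∧
        ∀ s, (H1 κ x y s).card = m then t1 ξ (fun l => om m (ξ l)) κ x y else 0) (gamN X) :=
    fun κ x => integrable_finsetSum _ fun y _ => (hterm κ x y).1
  have hI1 : ∀ (κ : X → Fin 3), Integrable (fun ξ : X → ℂ × ℂ => ∑ x : X, ∑ y : X,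
      if x ≠ y ∧ κ x = 0 ∧ κ y = 0 ∧
        ∀ s, (H1 κ x y s).card = m then t1 ξ (fun l => om m (ξ l)) κ x y else 0) (gamN X) :=
    fun κ => integrable_finsetSum _ fun x _ => hI2 κ x
  constructor
  · unfold N1
    exact integrable_finsetSum _ fun κ _ => hI1 κ
  · unfold N1
    rw [integral_finsetSum _ fun κ _ => hI1 κ]
    have h3 : ∀ κ ∈ (univ : Finset (X → Fin 3)),
        ∫ ξ : X → ℂ × ℂ, (∑ x : X, ∑ y : X, if x ≠ y ∧ κ x = 0 ∧ κ y = 0 ∧
        ∀ s, (H1 κ x y s).card = m then t1 ξ (fun l => om m (ξ l)) κ x y else 0) ∂(gamN X) =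
        ∑ x : X, ∑ y : X, if x ≠ y ∧ κ x = 0 ∧ κ y = 0 ∧ ∀ s, (H1 κ x y s).card = m
          then V1 m else 0 := by
      intro κ _
      rw [integral_finsetSum _ fun x _ => hI2 κ x]
      refine Finset.sum_congr rfl fun x _ => ?_
      rw [integral_finsetSum _ fun y _ => (hterm κ x y).1]
      exact Finset.sum_congr rfl fun y _ => (hterm κ x y).2
    rw [Finset.sum_congr rfl h3]
    unfold cB
    rw [Finset.card_filter, Nat.cast_sum, Finset.sum_mul, Fintype.sum_prod_type]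
    refine Finset.sum_congr rfl fun κ _ => ?_
    rw [Fintype.sum_prod_type]
    refine Finset.sum_congr rfl fun x _ => Finset.sum_congr rfl fun y _ => ?_
    by_cases h : x ≠ y ∧ κ x = 0 ∧ κ y = 0 ∧ ∀ s, (H1 κ x y s).card = m
    · rw [if_pos h, if_pos h]; simp
    · rw [if_neg h, if_neg h]; simp

theorem pts_ratio (m : ℕ) : II 1 m ^ 2 = (II 0 m * II 2 m) *
    ∏ j ∈ range m, (Real.Gamma ((j : ℝ) + 3 / 2) ^ 2 /
      (Real.Gamma ((j : ℝ) + 1) * Real.Gamma ((j : ℝ) + 2))) := by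
  rw [II_eq, II_eq, II_eq]
  have h : ∀ j ∈ range m, (Real.pi ^ 2 * Real.Gamma ((m : ℝ) - j) *
      Real.Gamma ((j : ℝ) + 1 + ((1 : ℕ) : ℝ) / 2)) ^ 2 =
      ((Real.pi ^ 2 * Real.Gamma ((m : ℝ) - j) * Real.Gamma ((j : ℝ) + 1 + ((0 : ℕ) : ℝ) / 2)) *
      (Real.pi ^ 2 * Real.Gamma ((m : ℝ) - j) * Real.Gamma ((j : ℝ) + 1 + ((2 : ℕ) : ℝ) / 2))) *
      (Real.Gamma ((j : ℝ) + 3 / 2) ^ 2 /
      (Real.Gamma ((j : ℝ) + 1) * Real.Gamma ((j : ℝ) + 2))) := by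
    intro j _
    have e1 : (j : ℝ) + 1 + ((1 : ℕ) : ℝ) / 2 = (j : ℝ) + 3 / 2 := by push_cast; ring
    have e0 : (j : ℝ) + 1 + ((0 : ℕ) : ℝ) / 2 = (j : ℝ) + 1 := by push_cast; ring
    have e2 : (j : ℝ) + 1 + ((2 : ℕ) : ℝ) / 2 = (j : ℝ) + 2 := by push_cast; ring
    rw [e1, e0, e2]
    have g1 : Real.Gamma ((j : ℝ) + 1) ≠ 0 := (Real.Gamma_pos_of_pos (by positivity)).ne'
    have g2 : Real.Gamma ((j : ℝ) + 2) ≠ 0 := (Real.Gamma_pos_of_pos (by positivity)).ne'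
    field_simp
  rw [mul_pow, ← Finset.prod_pow, Finset.prod_congr rfl h, Finset.prod_mul_distrib,
    Finset.prod_mul_distrib]
  ring

theorem exists_points (C : ℝ) : ∃ (m : ℕ) (ξ : Fin (3 * m + 2) → ℂ × ℂ)
    (ω : Fin (3 * m + 2) → ℝ), (∀ i j, i ≠ j → br (ξ i) (ξ j) ≠ 0) ∧ (∀ i, 0 < ω i) ∧
      C * N0 m ξ ω < N1 m ξ ω := by
  obtain ⟨m, hm⟩ := grow (3 * max C 0)
  set G : ℝ := ∏ j ∈ range m, (Real.Gamma ((j : ℝ) + 3 / 2) ^ 2 /
      (Real.Gamma ((j : ℝ) + 1) * Real.Gamma ((j : ℝ) + 2))) with hG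
  by_contra hcon
  push Not at hcon
  have hgood : ∀ᵐ ξ ∂(gamN (Fin (3 * m + 2))), ∀ i j, i ≠ j → br (ξ i) (ξ j) ≠ 0 := by
    rw [ae_all_iff]
    intro i
    rw [ae_all_iff]
    intro j
    by_cases hij : i = j
    · exact Filter.Eventually.of_forall fun ξ h => absurd hij h
    · filter_upwards [ae_br_ne i j hij] with ξ hξ _
      exact hξ
  have hle : ∀ᵐ ξ ∂(gamN (Fin (3 * m + 2))), N1 m ξ (fun l => om m (ξ l)) ≤
      max C 0 * N0 m ξ (fun l => om m (ξ l)) := by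
    filter_upwards [hgood] with ξ hξ
    have hpos : ∀ i, 0 < om m (ξ i) := by
      intro i
      obtain ⟨j, hj⟩ : ∃ j : Fin (3 * m + 2), i ≠ j := by
        have _i : Nontrivial (Fin (3 * m + 2)) := Fin.nontrivial_iff_two_le.mpr (by omega)
        obtain ⟨j, hj⟩ := exists_ne i
        exact ⟨j, hj.symm⟩
      exact pts_om_pos m (hξ i j hj)
    have h1 := hcon m ξ (fun l => om m (ξ l)) hξ hpos
    refine h1.trans ?_
    apply mul_le_mul_of_nonneg_right (le_max_left _ _)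
    unfold N0
    refine Finset.sum_nonneg fun κ _ => Finset.sum_nonneg fun x _ => ?_
    split_ifs
    · refine mul_nonneg (sq_nonneg _) (Finset.prod_nonneg fun s _ => ?_)
      unfold dd
      exact Finset.prod_nonneg fun p _ => norm_nonneg _
    · exact le_rfl
  have hint := integral_mono_ae (pts_N1 (X := Fin (3 * m + 2)) m).1
    ((pts_N0 (X := Fin (3 * m + 2)) m).1.const_mul (max C 0)) hle
  rw [integral_const_mul, (pts_N1 m).2, (pts_N0 m).2] at hint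
  have hk := kap_pos m
  have h0 := II_pos 0 m
  have h1 := II_pos 1 m
  have h2 := II_pos 2 m
  have hV1 := V1_ge m
  have hAB : ((m : ℝ) + 1) * (cA m (Fin (3 * m + 2)) : ℝ) = 3 * (cB m (Fin (3 * m + 2)) : ℝ) := by
    exact_mod_cast cA_cB m (Fin (3 * m + 2))
  have hA : (0 : ℝ) < (cA m (Fin (3 * m + 2)) : ℝ) := by exact_mod_cast cA_pos m
  have hB : (0 : ℝ) ≤ (cB m (Fin (3 * m + 2)) : ℝ) := Nat.cast_nonneg _
  have hV0 : V0 m = kap m ^ 2 * II 2 m ^ 3 := rfl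
  have hr : II 1 m ^ 2 / II 0 m = II 2 m * G := by
    rw [pts_ratio m, ← hG, mul_assoc, mul_div_cancel_left₀ _ h0.ne']
  rw [hr] at hV1
  have h3 : (cB m (Fin (3 * m + 2)) : ℝ) * (kap m ^ 2 * (II 2 m * G) ^ 3) ≤
      max C 0 * ((cA m (Fin (3 * m + 2)) : ℝ) * (kap m ^ 2 * II 2 m ^ 3)) := by
    rw [← hV0]
    exact (mul_le_mul_of_nonneg_left hV1 hB).trans hint
  have h4 : (cA m (Fin (3 * m + 2)) : ℝ) * (kap m ^ 2 * II 2 m ^ 3) *
      (((m : ℝ) + 1) * G ^ 3) ≤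
      (cA m (Fin (3 * m + 2)) : ℝ) * (kap m ^ 2 * II 2 m ^ 3) * (3 * max C 0) := by
    have e : (cA m (Fin (3 * m + 2)) : ℝ) * (kap m ^ 2 * II 2 m ^ 3) *
      (((m : ℝ) + 1) * G ^ 3) = 3 * ((cB m (Fin (3 * m + 2)) : ℝ) *
        (kap m ^ 2 * (II 2 m * G) ^ 3)) := by
      calc _ = (((m : ℝ) + 1) * (cA m (Fin (3 * m + 2)) : ℝ)) *
          (kap m ^ 2 * II 2 m ^ 3 * G ^ 3) := by ring
        _ = _ := by rw [hAB]; ring
    rw [e]
    linarith
  have h5 : ((m : ℝ) + 1) * G ^ 3 ≤ 3 * max C 0 :=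
    le_of_mul_le_mul_left h4 (by positivity)
  linarith

end Pc0b458P
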