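import Pool.Agent.Lib.Pc0b458P.Theory

/-!
# Module PosA: nonnegativity of the test products at rational points (about 1.5h)

Write `z = ∑ k, r k • cl (x k)`, `r k ≥ 0`, `x k` effective of codimension two. In the commutative ring `HC`:
`zx x = ∑ k, r k • clp M (pull M (Pi.single x 1) (x k))` by `clp_pull` and
`pb (fun s l => emb s (Pi.single x 1 l)) = pb (dls x)`; and `Dv (fun s l => emb s (a l)) = clp M (pull M a L)` by
`cl_L` and `map_pb_L`. (`map_pb_L`: `ExteriorAlgebra.map_apply_ι`, `pb v (ee s true ()) = inj s true (v s)`,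
`pb v (ee s false ()) = inj s false (cj (v s))`.) Expand `∏ x, zx x` (`Finset.prod_univ_sum`): the product is
`∑_{κ : Fin M → Fin n} (∏ r (κ x)) • clp M (∏ x, pull M (Pi.single x 1) (x (κ x)) * ∏ i, pull M (a i) L)`, and each class is
effective of codimension `2 M + k = M g = dim (pow M)` (`eff_mul` by induction over a finite product; `1` is not
needed if you multiply a nonempty product, the case of an empty product: `pol_int` with `i = 0` gives multiples of `1`;
or treat `M = 0` and `k = 0` separately: then the class is `1`, and `deg_pull` with `M = 0` gives degree one), so that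
`trp M` of it is a nonnegative rational number.
-/

universe u

open Pc0b458 Finset ComplexConjugate

namespace Pc0b458P

variable {T : NumTheory.{u}} {W : EffData T} {A : T.AV} {L : T.Z A} (d : CMData T W A L)

theorem map_pb_L {Φ X : Type} [Fintype Φ] [DecidableEq Φ] [DecidableEq X] (v : Φ → X → ℂ) :
    ExteriorAlgebra.map (pb v) ((Dv (dls ()) : HC Φ Unit) : HH Φ Unit) =
      ((Dv v : HC Φ X) : HH Φ X) := by
  have h1 : ∀ s : Φ, pb v (inj s true (dl ())) = inj s true (v s) := by
    intro s
    funext i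
    obtain ⟨s', b, x⟩ := i
    change (if b = true then v s' x else conj (v s' x)) *
      (if s' = s ∧ b = true then (Pi.single () 1 : Unit → ℂ) () else 0) =
      if s' = s ∧ b = true then v s x else 0
    by_cases h : s' = s ∧ b = true
    · obtain ⟨rfl, rfl⟩ := h
      simp
    · rw [if_neg h, if_neg h, mul_zero]
  have h2 : ∀ s : Φ, pb v (inj s false (cj (dl ()))) = inj s false (cj (v s)) := by
    intro s
    funext i
    obtain ⟨s', b, x⟩ := i
    change (if b = true then v s' x else conj (v s' x)) *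
      (if s' = s ∧ b = false then conj ((Pi.single () 1 : Unit → ℂ) ()) else 0) =
      if s' = s ∧ b = false then conj (v s x) else 0
    by_cases h : s' = s ∧ b = false
    · obtain ⟨rfl, rfl⟩ := h
      simp
    · rw [if_neg h, if_neg h, mul_zero]
  unfold Dv
  rw [AddSubmonoidClass.coe_finsetSum, AddSubmonoidClass.coe_finsetSum, map_sum]
  refine Finset.sum_congr rfl fun s _ => ?_
  change ExteriorAlgebra.map (pb v) (ExteriorAlgebra.ι ℂ (inj s true (dl ())) *
      ExteriorAlgebra.ι ℂ (inj s false (cj (dl ())))) =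
    ExteriorAlgebra.ι ℂ (inj s true (v s)) * ExteriorAlgebra.ι ℂ (inj s false (cj (v s)))
  rw [map_mul, ExteriorAlgebra.map_apply_ι, ExteriorAlgebra.map_apply_ι, h1, h2]

namespace PosAAux

/-- a positive multiple of a product of effective classes is effective -/
theorem eff_prod (B : T.AV) (M k i j : ℕ) (c : Fin M → T.Z B) (e : Fin k → T.Z B)
    (hc : ∀ x, c x ∈ W.eff B i) (he : ∀ x, e x ∈ W.eff B j) :
    ∃ r : ℚ, 0 < r ∧ r • ((∏ x, c x) * ∏ x, e x) ∈ W.eff B (M * i + k * j) := by
  obtain ⟨L', hL'⟩ := T.pol_exists B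
  obtain ⟨r, hr, h0⟩ := W.pol_int B L' hL' 0 0 (Submodule.zero_mem _)
  rw [pow_zero, add_zero] at h0
  have h1 : ∀ s : Finset (Fin M), (r • (1 : T.Z B)) * ∏ x ∈ s, c x ∈ W.eff B (s.card * i) := by
    intro s
    induction s using Finset.induction_on with
    | empty => simpa using h0
    | insert a s ha ih =>
      rw [Finset.prod_insert ha, Finset.card_insert_of_notMem ha, mul_left_comm, add_mul, one_mul,
        add_comm]
      exact W.eff_mul B i (s.card * i) _ _ (hc a) ih
  have h2 : ∀ s : Finset (Fin k), ((r • (1 : T.Z B)) * ∏ x, c x) * ∏ x ∈ s, e x ∈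
      W.eff B (M * i + s.card * j) := by
    intro s
    induction s using Finset.induction_on with
    | empty =>
      have := h1 univ
      rw [Finset.card_univ, Fintype.card_fin] at this
      simpa using this
    | insert a s ha ih =>
      rw [Finset.prod_insert ha, Finset.card_insert_of_notMem ha, mul_left_comm,
        show M * i + (s.card + 1) * j = j + (M * i + s.card * j) by ring]
      exact W.eff_mul B j _ _ _ (he a) ih
  refine ⟨r, hr, ?_⟩
  have h3 := h2 univ
  rw [Finset.card_univ, Fintype.card_fin] at h3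
  rwa [smul_mul_assoc, one_mul, smul_mul_assoc] at h3

end PosAAux

open PosAAux

theorem pos_rational (hL : L ∈ T.Pol A) (M k : ℕ) (hk : 2 * M + k = M * T.dim A)
    {z : HH d.Φ Unit} (hz : z ∈ d.pc 2) (zx : Fin M → HC d.Φ (Fin M))
    (hzx : ∀ x, (zx x : HH d.Φ (Fin M)) = ExteriorAlgebra.map (pb (dls x)) z)
    (a : Fin k → Fin M → d.E) :
    ∃ r : ℝ, 0 ≤ r ∧ d.trp M (((∏ x, zx x) * ∏ i, Dv (fun s l => d.emb s (a i l)) :
      HC d.Φ (Fin M)) : HH d.Φ (Fin M)) = (r : ℂ) := by
  obtain ⟨n, r, xx, hr, hxx, rfl⟩ := hz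
  -- the classes of the polarisation
  have hDv : ∀ i, Dv (fun s l => d.emb s (a i l)) = d.clp M (d.pull M (a i) L) := by
    intro i
    apply Subtype.ext
    rw [d.clp_pull, d.cl_L, map_pb_L]
  -- the classes `zx`
  have hpb : ∀ x : Fin M, (pb fun s l => d.emb s ((Pi.single x 1 : Fin M → d.E) l)) =
      pb (Φ := d.Φ) (dls x) := by
    intro x
    congr 1
    funext s l
    by_cases h : l = x
    · subst h
      rw [Pi.single_eq_same, map_one]
      simp [dls, dl]
    · rw [Pi.single_eq_of_ne h, map_zero]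
      simp [dls, dl, Pi.single_eq_of_ne h]
  have hz' : ∀ x, zx x = ∑ j, (r j : ℂ) • d.clp M (d.pull M (Pi.single x 1) (xx j)) := by
    intro x
    apply Subtype.ext
    rw [hzx, AddSubmonoidClass.coe_finsetSum, map_sum]
    refine Finset.sum_congr rfl fun j _ => ?_
    change _ = (r j : ℂ) • (d.clp M (d.pull M (Pi.single x 1) (xx j)) : HH d.Φ (Fin M))
    rw [d.clp_pull, hpb, ← map_smul]
    congr 1
  -- expansion
  have hexp : (∏ x, zx x) * ∏ i, Dv (fun s l => d.emb s (a i l)) =
      ∑ κ : Fin M → Fin n, ((∏ x, r (κ x) : ℝ) : ℂ) • d.clp M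
        ((∏ x, d.pull M (Pi.single x 1) (xx (κ x))) * ∏ i, d.pull M (a i) L) := by
    have h1 : ∏ x, zx x = ∑ κ : Fin M → Fin n, ∏ x,
        ((r (κ x) : ℂ) • d.clp M (d.pull M (Pi.single x 1) (xx (κ x)))) := by
      rw [Finset.prod_congr rfl fun x _ => hz' x, Finset.prod_univ_sum, Fintype.piFinset_univ]
    rw [h1, Finset.sum_mul]
    refine Finset.sum_congr rfl fun κ _ => ?_
    rw [map_mul, map_prod, map_prod, Finset.prod_congr rfl fun i _ => hDv i]
    have h2 : ∏ x, ((r (κ x) : ℂ) • d.clp M (d.pull M (Pi.single x 1) (xx (κ x)))) =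
        ((∏ x, r (κ x) : ℝ) : ℂ) • ∏ x, d.clp M (d.pull M (Pi.single x 1) (xx (κ x))) := by
      push_cast
      simp only [Algebra.smul_def, Finset.prod_mul_distrib, map_prod]
    rw [h2, smul_mul_assoc]
  -- positivity of the degrees
  have hdeg : ∀ κ : Fin M → Fin n, ∃ q : ℚ, 0 ≤ q ∧ d.trp M (d.clp M
      ((∏ x, d.pull M (Pi.single x 1) (xx (κ x))) * ∏ i, d.pull M (a i) L) :
        HH d.Φ (Fin M)) = (q : ℂ) := by
    intro κ
    obtain ⟨t, ht, heff⟩ := eff_prod (T := T) (W := W) (d.pow M) M k 2 1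
      (fun x => d.pull M (Pi.single x 1) (xx (κ x))) (fun i => d.pull M (a i) L)
      (fun x => d.pull_eff M _ 2 _ (hxx (κ x)))
      (fun i => d.pull_eff M _ 1 _ (W.pol_eff A L hL))
    rw [show M * 2 + k * 1 = T.dim (d.pow M) by rw [d.dim_pow, ← hk]; ring] at heff
    set y := (∏ x, d.pull M (Pi.single x 1) (xx (κ x))) * ∏ i, d.pull M (a i) L with hy
    have hcod : y ∈ T.cod (d.pow M) (T.dim (d.pow M)) := by
      have h1 := W.eff_cod _ _ _ heff
      have h2 := Submodule.smul_mem _ t⁻¹ h1
      rwa [smul_smul, inv_mul_cancel₀ ht.ne', one_smul] at h2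
    have hpos := W.eff_deg _ _ heff
    rw [map_smul, smul_eq_mul] at hpos
    refine ⟨T.deg (d.pow M) y, ?_, d.trp_cl M y hcod⟩
    exact (mul_nonneg_iff_of_pos_left ht).1 hpos
  choose q hq hq' using hdeg
  refine ⟨∑ κ : Fin M → Fin n, (∏ x, r (κ x)) * (q κ : ℝ), ?_, ?_⟩
  · refine Finset.sum_nonneg fun κ _ => mul_nonneg (Finset.prod_nonneg fun x _ => hr _) ?_
    exact_mod_cast hq κ
  · rw [hexp, AddSubmonoidClass.coe_finsetSum, map_sum]
    push_cast
    refine Finset.sum_congr rfl fun κ _ => ?_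
    rw [map_smul, hq', smul_eq_mul]

end Pc0b458P
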