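import Pool.Agent.Lib.Pc0b458P.LefTwo
import Pool.Agent.Lib.Pc0b458P.PairPos

/-!
# Module Psd: positivity on classes orthogonal to Lefschetz classes (about 1.5h)

Let `z = cl x`, `ℒ = cl L`, `g = dim A`. The hypothesis gives `tr (w * z * ℒ^(g-4)) = 0` for all `w ∈ rl 2` (real linearity).
By `sum_Pr`, `z = ∑ η, Pr η z`. Let `S4` be the set of the `η` with support of cardinality four, `S2` similarly. By
`wt_other` (with `Pr_span`, `rs_pow`) `z = Pr 0 z + ∑_{S2} Pr η z + ∑_{S4} Pr η z`. Now `Pr 0 z ∈ rl 2` (`lef_zero`) and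
`2 • ∑_{S2} Pr η z = ∑_{S2} (Pr η z + Pr (-η) z) ∈ rl 2` (`lef_two`; `η ↦ -η` preserves `S2`). So
`tr (z z ℒ^(g-4)) = ∑_{η ∈ S4} tr (Pr η z * z * ℒ^(g-4))`, and by `weight_orth` (all in degree `2 g`) and `sum_Pr` the term of `η` is
`tr (Pr η z * Pr (-η) z * ℒ^(g-4))`. With `wt_four`, `Pr η z = c • m4 J b`, `Pr (-η) z = c' • m4 J (not b)`, so it is
`c c' sgb b (g-4)! κ` (`four_four`, `kap_one`), which is real and nonnegative by `pair_nonneg`, since
`Pr η z + Pr (-η) z ∈ rs 2` (`Pr_rs`). Finally `tr (z z ℒ^(g-4)) = deg (x x L^(g-4))` by `tr_cl`.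
-/

universe u

open Pc0b458 Finset ComplexConjugate

namespace Pc0b458P

namespace PsdX

theorem mo_mem {Φ : Type} [DecidableEq Φ] {k : ℕ} (f : Fin k → Φ × Bool) :
    mo f ∈ ⋀[ℂ]^k (HV Φ Unit) :=
  ExteriorAlgebra.ιMulti_range ℂ k ⟨_, rfl⟩

theorem span_mem {Φ : Type} [DecidableEq Φ] {k : ℕ} (η : Φ → ZMod 3) {z : HH Φ Unit}
    (hz : z ∈ Submodule.span ℂ {w | ∃ f : Fin k → Φ × Bool, wt f = η ∧ w = mo f}) :
    z ∈ ⋀[ℂ]^k (HV Φ Unit) := by
  refine (Submodule.span_le.2 ?_) hz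
  rintro w ⟨f, -, rfl⟩
  exact mo_mem f

theorem mul_mem_pow {Φ : Type} {a b : ℕ} {z w : HH Φ Unit} (hz : z ∈ ⋀[ℂ]^a (HV Φ Unit))
    (hw : w ∈ ⋀[ℂ]^b (HV Φ Unit)) : z * w ∈ ⋀[ℂ]^(a + b) (HV Φ Unit) := by
  change z * w ∈ (LinearMap.range (ExteriorAlgebra.ι ℂ : HV Φ Unit →ₗ[ℂ] HH Φ Unit)) ^ (a + b)
  rw [pow_add]
  exact Submodule.mul_mem_mul hz hw

theorem cneg {Φ : Type} [Fintype Φ] (η : Φ → ZMod 3) :
    (univ.filter fun s => (-η) s ≠ 0).card = (univ.filter fun s => η s ≠ 0).card := by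
  congr 1
  ext s
  simp

end PsdX

variable {T : NumTheory.{u}} {W : EffData T} {A : T.AV} {L : T.Z A} (d : CMData T W A L)

open PsdX in
include d in
theorem psd_exotic (hL : L ∈ T.Pol A) (hg : 4 ≤ T.dim A) {x : T.Z A} (hx : x ∈ T.cod A 2)
    (h : ∀ y ∈ Lef T.toCycleRings A 2, T.deg A (x * y * L ^ (T.dim A - 4)) = 0) :
    0 ≤ T.deg A (x * x * L ^ (T.dim A - 4)) := by
  classical
  have hL1 : L ∈ T.cod A 1 := T.pol_mem A L hL
  set g := T.dim A with hgdef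
  set z : HH d.Φ Unit := (d.cl x : HH d.Φ Unit) with hzdef
  set P : HH d.Φ Unit := ((d.cl L : HC d.Φ Unit) : HH d.Φ Unit) ^ (g - 4) with hPdef
  have hzrs : z ∈ d.rs 2 := Submodule.subset_span ⟨x, hx, rfl⟩
  have hz4 : z ∈ ⋀[ℂ]^4 (HV d.Φ Unit) := rs_pow d hzrs
  have hP : P ∈ ⋀[ℂ]^(2 * (g - 4)) (HV d.Φ Unit) := rs_pow d (clL_rs d hL (g - 4))
  have hclL : (d.cl L : HC d.Φ Unit) = ∑ s, Dc s := by rw [d.cl_L, Dv_dls_unit]
  -- the torus fixes `P`
  have hPt : ∀ u, tor (pt u) P = P := by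
    intro u
    rw [hPdef, map_pow, hclL]
    congr 1
    have e : ((∑ s, Dc s : HC d.Φ Unit) : HH d.Φ Unit) = ∑ s, Ds s := by
      rw [AddSubmonoidClass.coe_finsetSum]
      rfl
    rw [e, map_sum]
    exact Finset.sum_congr rfl fun s _ => tor_Ds u s
  -- degrees of classes
  have hcl : ∀ y ∈ T.cod A 2, d.tr ((d.cl y : HH d.Φ Unit) * z * P) =
      (T.deg A (y * x * L ^ (g - 4)) : ℂ) := by
    intro y hy
    have hcod : y * x * L ^ (g - 4) ∈ T.cod A (T.dim A) :=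
      T.mul_mem' A (T.mul_mem A 2 2 _ _ hy hx) (T.pow_mem A hL1 _) (by omega)
    have e : d.cl (y * x * L ^ (g - 4)) = d.cl y * d.cl x * d.cl L ^ (g - 4) := by
      rw [map_mul, map_mul, map_pow]
    rw [← d.tr_cl _ hcod, e]
    rfl
  -- orthogonality to intersections of divisors
  have hrl : ∀ w ∈ d.rl 2, d.tr (w * z * P) = 0 := by
    intro w hw
    induction hw using Submodule.span_induction with
    | mem w hw =>
      obtain ⟨y, hy, rfl⟩ := hw
      have hy' : y ∈ Lef T.toCycleRings A 2 := hy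
      have h2 := h y hy'
      have h3 := hcl y (NumTheory.lef_cod A 2 hy')
      rw [mul_comm x y] at h2
      rw [h3, h2]
      simp
    | zero => simp
    | add a b _ _ ha hb => rw [add_mul, add_mul, map_add, ha, hb, add_zero]
    | smul r a _ ha =>
      rw [← Complex.coe_smul, smul_mul_assoc, smul_mul_assoc, map_smul, ha, smul_zero]
  -- the components
  have hsum : ∑ η : d.Φ → ZMod 3, Pr η z = z := sum_Pr hz4
  set t : (d.Φ → ZMod 3) → ℂ := fun η => d.tr (Pr η z * z * P) with ht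
  have htsum : d.tr (z * z * P) = ∑ η, t η := by
    have e : z * z * P = ∑ η : d.Φ → ZMod 3, Pr η z * z * P := by
      rw [← Finset.sum_mul, ← Finset.sum_mul, hsum]
    rw [e, map_sum]
  obtain ⟨κ, hκ, hκt⟩ := kap_one d hL
  have h4 : ∀ η : d.Φ → ZMod 3, (univ.filter fun s => η s ≠ 0).card = 4 →
      ∃ r : ℝ, 0 ≤ r ∧ t η = (r : ℂ) := by
    intro η hη
    obtain ⟨J, b, hJ, h1, h2⟩ := wt_four η hη
    obtain ⟨c, hc⟩ := h1 _ (Pr_span η hz4)
    obtain ⟨c', hc'⟩ := h2 _ (Pr_span (-η) hz4)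
    obtain ⟨y, hy, hyc⟩ := pair_nonneg d hL J hJ b c c' (by
      rw [← hc, ← hc']; exact Pr_rs d 2 η hzrs)
    refine ⟨y * ((g - 4).factorial : ℝ) * κ, by positivity, ?_⟩
    have e1 : t η = ∑ η' : d.Φ → ZMod 3, d.tr (Pr η z * Pr η' z * P) := by
      have e : Pr η z * z * P = ∑ η' : d.Φ → ZMod 3, Pr η z * Pr η' z * P := by
        rw [← Finset.sum_mul, ← Finset.mul_sum, hsum]
      rw [ht]
      simp only
      rw [e, map_sum]
    have e2 : ∑ η' : d.Φ → ZMod 3, d.tr (Pr η z * Pr η' z * P) =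
        d.tr (Pr η z * Pr (-η) z * P) := by
      refine Finset.sum_eq_single (-η) (fun η' _ hne => ?_) (fun hn => absurd (mem_univ _) hn)
      refine weight_orth (k := 4) (l := 4) η η' (fun h0 => hne ?_) d.tr (Pr_span η hz4)
        (Pr_span η' hz4) hPt ?_
      · rw [eq_neg_iff_add_eq_zero, add_comm]; exact h0
      · have hm := mul_mem_pow (mul_mem_pow (span_mem η (Pr_span η hz4))
          (span_mem η' (Pr_span η' hz4))) hP
        have hn : 4 + 4 + 2 * (g - 4) = 2 * Fintype.card d.Φ := by rw [d.card_Φ]; omega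
        rw [hn] at hm
        exact hm
    have e3 : Pr η z * Pr (-η) z * P = (((c * c') • ((m4 J b () : HC d.Φ Unit) *
        m4 J (fun i => !(b i)) () * (∑ s, Dc s) ^ (Fintype.card d.Φ - 4)) : HC d.Φ Unit) :
          HH d.Φ Unit) := by
      rw [hc, hc', hPdef, hclL, d.card_Φ]
      simp only [smul_mul_assoc, mul_smul_comm, smul_smul]
      rw [mul_comm c' c]
      rfl
    rw [e1, e2, e3, four_four J hJ b]
    have e4 : (((c * c') • ((sgb b * ((Fintype.card d.Φ - 4).factorial : ℂ)) •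
        (topF : HC d.Φ Unit)) : HC d.Φ Unit) : HH d.Φ Unit) =
        (c * c' * sgb b * ((g - 4).factorial : ℂ)) • ((topF : HC d.Φ Unit) : HH d.Φ Unit) := by
      rw [smul_smul, d.card_Φ, ← mul_assoc]
      rfl
    rw [e4, map_smul, hκt, hyc, smul_eq_mul]
    push_cast
    ring
  have hpair : ∀ η : d.Φ → ZMod 3, ∃ r : ℝ, 0 ≤ r ∧ t η + t (-η) = (r : ℂ) := by
    intro η
    by_cases c4 : (univ.filter fun s => η s ≠ 0).card = 4
    · obtain ⟨r, hr, e⟩ := h4 η c4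
      obtain ⟨r', hr', e'⟩ := h4 (-η) (by rw [cneg]; exact c4)
      exact ⟨r + r', by positivity, by rw [e, e']; push_cast; rfl⟩
    refine ⟨0, le_rfl, ?_⟩
    by_cases c2 : (univ.filter fun s => η s ≠ 0).card = 2
    · have := hrl _ (lef_two d hL η c2 hzrs)
      rw [add_mul, add_mul, map_add] at this
      simpa using this
    by_cases c0 : η = 0
    · have h0 : t 0 = 0 := hrl _ (lef_zero d hL hzrs)
      rw [c0, neg_zero, h0]
      simp
    · have h1 : Pr η z = 0 := wt_other η c4 c2 c0 _ (Pr_span η hz4)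
      have h2 : Pr (-η) z = 0 := wt_other (-η) (by rw [cneg]; exact c4)
        (by rw [cneg]; exact c2) (by simpa using c0) _ (Pr_span (-η) hz4)
      simp only [ht]
      rw [h1, h2]
      simp
  choose r hr hre using hpair
  have hneg : ∑ η : d.Φ → ZMod 3, t (-η) = ∑ η, t η :=
    Equiv.sum_comp (Equiv.neg (d.Φ → ZMod 3)) t
  have hfin : (2 * T.deg A (x * x * L ^ (g - 4)) : ℂ) = ((∑ η, r η : ℝ) : ℂ) := by
    rw [← hcl x hx, htsum, two_mul]
    conv_lhs => rhs; rw [← hneg]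
    rw [← Finset.sum_add_distrib]
    push_cast
    exact Finset.sum_congr rfl fun η _ => hre η
  have hfin' : 2 * ((T.deg A (x * x * L ^ (g - 4)) : ℚ) : ℝ) = ∑ η, r η := by
    exact_mod_cast hfin
  have hnn : 0 ≤ ∑ η, r η := Finset.sum_nonneg fun η _ => hr η
  have : (0 : ℝ) ≤ ((T.deg A (x * x * L ^ (g - 4)) : ℚ) : ℝ) := by linarith
  exact_mod_cast this

end Pc0b458P
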