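import Pool.Agent.Lib.Pc0b458P.Test

/-!
# Module Sign: the negative test product for arbitrary signs (about 1.5h)

For a set `S` of elements of `Φ` let `σ` be the linear automorphism of `HV Φ X` with
`ee s true x ↦ - ee s false x`, `ee s false x ↦ ee s true x` for `s ∈ S`, and the identity on the other unit vectors.
It induces an automorphism of the exterior algebra (`ExteriorAlgebra.map`), hence of its centre. One finds
`σ (Dv v) = Dv v'` with `v' s = cj (v s)` for `s ∈ S` and `v' s = v s` otherwise (use `ι a ι b = - ι b ι a`); in particular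
`Dv (dls x)` and `topF` are fixed. For `S = {J i | b i = false}`: `σ (e4 J true x) = sgb b • m4 J b x` and
`σ (e4 J false x) = m4 J (not b) x`. Apply `σ` to `neg_test` with `(sgb b * τ, τ')` in place of `(τ, τ')`
(`sgb b ^ 2 = 1`).
-/

open Finset ComplexConjugate

namespace Pc0b458P

namespace SignAux

section

set_option linter.unusedSectionVars false

variable {Φ X : Type} [DecidableEq Φ] [DecidableEq X]

omit [DecidableEq X] in
theorem ev_swap (u v : HV Φ X) : ev u v = - ev v u := by
  apply Subtype.ext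
  have h := ExteriorAlgebra.ι_add_mul_swap (R := ℂ) u v
  exact eq_neg_of_add_eq_zero_left h

omit [DecidableEq X] in
theorem ev_neg_left (u v : HV Φ X) : ev (-u) v = - ev u v := by
  apply Subtype.ext
  simp [ev]

omit [DecidableEq X] in
theorem ev_smul_left (c : ℂ) (u v : HV Φ X) : ev (c • u) v = c • ev u v := by
  apply Subtype.ext
  simp [ev]

omit [DecidableEq X] in
theorem ev_smul_right (c : ℂ) (u v : HV Φ X) : ev u (c • v) = c • ev u v := by
  apply Subtype.ext
  simp [ev]

/-- the automorphism of the first cohomology -/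
noncomputable def sg (S : Finset Φ) : HV Φ X →ₗ[ℂ] HV Φ X where
  toFun h i := if i.1 ∈ S then (if i.2.1 then h (i.1, false, i.2.2) else -h (i.1, true, i.2.2))
    else h i
  map_add' u v := by
    funext i
    simp only [Pi.add_apply]
    split_ifs <;> ring
  map_smul' c v := by
    funext i
    simp only [Pi.smul_apply, RingHom.id_apply, smul_eq_mul]
    split_ifs <;> ring

/-- its inverse -/
noncomputable def sgi (S : Finset Φ) : HV Φ X →ₗ[ℂ] HV Φ X where
  toFun h i := if i.1 ∈ S then (if i.2.1 then -h (i.1, false, i.2.2) else h (i.1, true, i.2.2))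
    else h i
  map_add' u v := by
    funext i
    simp only [Pi.add_apply]
    split_ifs <;> ring
  map_smul' c v := by
    funext i
    simp only [Pi.smul_apply, RingHom.id_apply, smul_eq_mul]
    split_ifs <;> ring

omit [DecidableEq X] in
theorem sg_sgi (S : Finset Φ) (h : HV Φ X) : sg S (sgi S h) = h := by
  funext i
  obtain ⟨s, c, x⟩ := i
  simp only [sg, sgi, LinearMap.coe_mk, AddHom.coe_mk]
  by_cases hs : s ∈ S
  · cases c <;> simp [hs]
  · simp [hs]

/-- the automorphism of the exterior algebra -/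
noncomputable def ph (S : Finset Φ) : HH Φ X →ₐ[ℂ] HH Φ X := ExteriorAlgebra.map (sg S)

omit [DecidableEq X] in
theorem ph_surj (S : Finset Φ) (z : HH Φ X) : ∃ y, ph S y = z := by
  refine ⟨ExteriorAlgebra.map (sgi S) z, ?_⟩
  have h1 : (ph S).comp (ExteriorAlgebra.map (sgi S)) = AlgHom.id ℂ (HH Φ X) := by
    apply ExteriorAlgebra.hom_ext
    apply LinearMap.ext
    intro v
    simp only [ph, AlgHom.comp_toLinearMap, LinearMap.coe_comp, Function.comp_apply,
      AlgHom.toLinearMap_apply, ExteriorAlgebra.map_apply_ι, sg_sgi, AlgHom.toLinearMap_id,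
      LinearMap.id_apply]
  exact congrArg (fun F : HH Φ X →ₐ[ℂ] HH Φ X => F z) h1

omit [DecidableEq X] in
theorem ph_center (S : Finset Φ) (z : HC Φ X) : ph S (z : HH Φ X) ∈ Subalgebra.center ℂ (HH Φ X) := by
  rw [Subalgebra.mem_center_iff]
  intro y
  obtain ⟨y', rfl⟩ := ph_surj S y
  rw [← map_mul, ← map_mul, Subalgebra.mem_center_iff.1 z.2 y']

/-- the automorphism of the centre -/
noncomputable def ps (S : Finset Φ) : HC Φ X →ₐ[ℂ] HC Φ X :=
  ((ph S).comp (Subalgebra.center ℂ (HH Φ X)).val).codRestrict _ (ph_center S)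

omit [DecidableEq X] in
theorem ps_ev (S : Finset Φ) (u v : HV Φ X) : ps S (ev u v) = ev (sg S u) (sg S v) := by
  apply Subtype.ext
  change ph S (ExteriorAlgebra.ι ℂ u * ExteriorAlgebra.ι ℂ v) = _
  rw [map_mul]
  simp only [ph, ExteriorAlgebra.map_apply_ι]
  rfl

omit [DecidableEq X] in
theorem sg_inj_true (S : Finset Φ) {s : Φ} (hs : s ∈ S) (u : X → ℂ) :
    sg S (inj s true u) = - inj s false u := by
  funext i
  obtain ⟨t, c, x⟩ := i
  simp only [sg, inj, LinearMap.coe_mk, AddHom.coe_mk, Pi.neg_apply]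
  by_cases ht : t = s
  · subst ht
    cases c <;> simp [hs]
  · by_cases hS : t ∈ S
    · cases c <;> simp [ht, hS]
    · simp [ht, hS]

omit [DecidableEq X] in
theorem sg_inj_false (S : Finset Φ) {s : Φ} (hs : s ∈ S) (u : X → ℂ) :
    sg S (inj s false u) = inj s true u := by
  funext i
  obtain ⟨t, c, x⟩ := i
  simp only [sg, inj, LinearMap.coe_mk, AddHom.coe_mk]
  by_cases ht : t = s
  · subst ht
    cases c <;> simp [hs]
  · by_cases hS : t ∈ S
    · cases c <;> simp [ht, hS]
    · simp [ht, hS]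

omit [DecidableEq X] in
theorem sg_inj_not (S : Finset Φ) {s : Φ} (hs : s ∉ S) (c : Bool) (u : X → ℂ) :
    sg S (inj s c u) = inj s c u := by
  funext i
  obtain ⟨t, d, x⟩ := i
  simp only [sg, inj, LinearMap.coe_mk, AddHom.coe_mk]
  by_cases ht : t = s
  · subst ht
    simp [hs]
  · by_cases hS : t ∈ S
    · cases d <;> simp [ht, hS]
    · simp [ht, hS]

theorem cj_dl (x : X) : cj (dl x) = dl x := by
  funext y
  unfold cj dl
  by_cases h : y = x
  · subst h; simp
  · simp [h]

omit [DecidableEq X] in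
theorem cj_cj (u : X → ℂ) : cj (cj u) = u := by
  funext y
  unfold cj
  simp

theorem ee_eq (s : Φ) (c : Bool) (x : X) : ee s c x = inj s c (dl x) := by
  funext i
  obtain ⟨t, d, y⟩ := i
  simp only [ee, inj, dl, LinearMap.coe_mk, AddHom.coe_mk]
  by_cases h : (t, d, y) = (s, c, x)
  · simp only [Prod.mk.injEq] at h
    obtain ⟨rfl, rfl, rfl⟩ := h
    simp
  · rw [Pi.single_eq_of_ne h]
    by_cases h1 : t = s ∧ d = c
    · rw [if_pos h1]
      have : y ≠ x := by
        rintro rfl
        exact h (by rw [h1.1, h1.2])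
      rw [Pi.single_eq_of_ne this]
    · rw [if_neg h1]

/-- the new vectors -/
noncomputable def nv (S : Finset Φ) (v : Φ → X → ℂ) : Φ → X → ℂ :=
  fun s => if s ∈ S then cj (v s) else v s

omit [DecidableEq X] in
theorem ps_pair (S : Finset Φ) (s : Φ) (u w : X → ℂ) :
    ps S (ev (inj s true u) (inj s false w)) =
      if s ∈ S then ev (inj s true w) (inj s false u) else ev (inj s true u) (inj s false w) := by
  rw [ps_ev]
  split_ifs with hs
  · rw [sg_inj_true S hs, sg_inj_false S hs, ev_neg_left, ← ev_swap]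
  · rw [sg_inj_not S hs, sg_inj_not S hs]

omit [DecidableEq X] in
theorem ps_Dv [Fintype Φ] (S : Finset Φ) (v : Φ → X → ℂ) : ps S (Dv v) = Dv (nv S v) := by
  unfold Dv
  rw [map_sum]
  refine Finset.sum_congr rfl fun s _ => ?_
  rw [ps_pair]
  unfold nv
  split_ifs with hs
  · rw [cj_cj]
  · rfl

theorem nv_dls (S : Finset Φ) (x : X) : nv S (dls x : Φ → X → ℂ) = dls x := by
  funext s
  unfold nv dls
  split_ifs
  · rw [cj_dl]
  · rfl

theorem ps_topF [Fintype Φ] [Fintype X] (S : Finset Φ) : ps S (topF : HC Φ X) = topF := by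
  unfold topF
  rw [map_prod]
  refine Finset.prod_congr rfl fun s _ => ?_
  rw [map_prod]
  refine Finset.prod_congr rfl fun x _ => ?_
  rw [ee_eq, ee_eq, ps_pair, ite_self]

end

end SignAux

open SignAux

theorem neg_test_sign {Φ : Type} [Fintype Φ] [DecidableEq Φ] (J : Fin 4 → Φ)
    (hJ : Function.Injective J) (b : Fin 4 → Bool) (Y : ℝ) (hY : Y < 0) :
    ∃ (M k : ℕ) (v : Fin k → Φ → Fin M → ℂ) (r : ℝ), 2 * M + k = M * Fintype.card Φ ∧ r < 0 ∧
      ∀ τ τ' : ℂ, τ * τ' = ((4 * Y : ℝ) : ℂ) * sgb b →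
        (∏ x, (Dv (dls x) ^ 2 + τ • m4 J b x + τ' • m4 J (fun i => !(b i)) x)) *
          ∏ i, Dv (v i) = (r : ℂ) • (topF : HC Φ (Fin M)) := by
  classical
  obtain ⟨M, k, v, r, hMk, hr, h⟩ := neg_test J hJ Y hY
  set S : Finset Φ := (univ.filter (fun i => b i = false)).image J with hS
  have hmem : ∀ i, J i ∈ S ↔ b i = false := by
    intro i
    rw [hS, mem_image]
    constructor
    · rintro ⟨j, hj, hji⟩
      have := hJ hji
      subst this
      exact (mem_filter.1 hj).2
    · intro hi
      exact ⟨i, mem_filter.2 ⟨mem_univ _, hi⟩, rfl⟩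
  refine ⟨M, k, fun i => nv S (v i), r, hMk, hr, ?_⟩
  intro τ τ' hττ
  have hsq : sgb b * sgb b = 1 := by
    unfold sgb
    rw [← Finset.prod_mul_distrib]
    apply Finset.prod_eq_one
    intro i _
    split_ifs <;> norm_num
  have h1 := h (sgb b * τ) τ' (by
    rw [mul_assoc, hττ]
    calc sgb b * (((4 * Y : ℝ) : ℂ) * sgb b) = ((4 * Y : ℝ) : ℂ) * (sgb b * sgb b) := by ring
      _ = _ := by rw [hsq, mul_one])
  have h2 := congrArg (ps S) h1
  rw [map_mul, map_prod, map_prod, map_smul, ps_topF] at h2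
  have htrue : ∀ i (x : Fin M), sg S (ee (J i) true x) =
      (if b i then (1 : ℂ) else -1) • ee (J i) (b i) x := by
    intro i x
    rw [ee_eq, ee_eq]
    cases hb : b i
    · rw [sg_inj_true S ((hmem i).2 hb)]
      simp
    · rw [sg_inj_not S (fun hc => by rw [(hmem i).1 hc] at hb; exact absurd hb (by simp))]
      simp
  have hfalse : ∀ i (x : Fin M), sg S (ee (J i) false x) = ee (J i) (!(b i)) x := by
    intro i x
    rw [ee_eq, ee_eq]
    cases hb : b i
    · rw [sg_inj_false S ((hmem i).2 hb)]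
      simp
    · rw [sg_inj_not S (fun hc => by rw [(hmem i).1 hc] at hb; exact absurd hb (by simp))]
      simp
  have hA : ∀ x : Fin M, ps S (e4 J true x) = sgb b • m4 J b x := by
    intro x
    unfold e4 m4 sgb
    rw [map_mul, ps_ev, ps_ev, htrue, htrue, htrue, htrue, ev_smul_left, ev_smul_right,
      ev_smul_left, ev_smul_right, Fin.prod_univ_four]
    simp only [smul_mul_smul_comm, smul_smul]
    congr 1
    ring
  have hB : ∀ x : Fin M, ps S (e4 J false x) = m4 J (fun i => !(b i)) x := by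
    intro x
    unfold e4 m4
    rw [map_mul, ps_ev, ps_ev, hfalse, hfalse, hfalse, hfalse]
  have h3 : ∀ x : Fin M, ps S (Dv (dls x) ^ 2 + (sgb b * τ) • e4 J true x + τ' • e4 J false x) =
      Dv (dls x) ^ 2 + τ • m4 J b x + τ' • m4 J (fun i => !(b i)) x := by
    intro x
    rw [map_add, map_add, map_pow, map_smul, map_smul, hA, hB, ps_Dv, nv_dls, smul_smul]
    have : sgb b * τ * sgb b = τ := by
      calc sgb b * τ * sgb b = τ * (sgb b * sgb b) := by ring
        _ = τ := by rw [hsq, mul_one]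
    rw [this]
  rw [Finset.prod_congr rfl (fun x _ => h3 x), Finset.prod_congr rfl (fun i _ => ps_Dv S (v i))]
    at h2
  exact h2

end Pc0b458P
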