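import Pool.Agent.Lib.Pc0b458P.VOne

/-!
# Module Term: the averages of the terms of N0 and N1 (about 2h)

`term0`: let `s₀ = κ x` and `S s = univ.filter (l ≠ x ∧ κ l = s)`; `card (S s₀) = m+1`, the other two have
`m` elements (as `x ∉ S s`), and `X = {x} ⊔ S 0 ⊔ S 1 ⊔ S 2`. For `s ≠ s₀`:
`dd ξ (insert x (S s)) = dd ξ (S s) * ∏ l ∈ S s, ‖br (ξ l) (ξ x)‖^2` (`br_swap`). Choose
`e : Unit ⊕ (Fin (m+1) ⊕ (Fin m ⊕ Fin m)) ≃ X` mapping the parts onto `{x}, S s₀` and the two others, and apply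
`integral_split_three`: the inner integrals are `II 0 (m+1)`, and twice `qq (ξ x)^m * II 2 m` (`GG_eq`). So the value is
`∫ om^2 * II 0 (m+1) * (qq^m II 2 m)^2 = kap m * II 0 (m+1) * II 2 m ^ 2 = V0 m` (`II_succ`), using
`om m x ^ 2 * qq x ^ m = 1` for `x ≠ 0`. Integrability: `integrable_of_le` with
`om^2 ∏ ‖br‖^2 ≤ om^2 qq(x)^(2m) ∏ qq(l)`, `|S| = 2m`, and `dd ξ S ≤ ∏_{l ∈ S} qq (ξ l)^(|S|-1)`.

`term1`: `X = {x, y} ⊔ H1 0 ⊔ H1 1 ⊔ H1 2`, all three of cardinality `m`;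
`t1 = om(x) om(y) ∏_s (dd ξ (H1 s) ∏_{l ∈ H1 s} ‖br l x‖ ‖br l y‖)`, so the value is `∫∫ om om JJ^3 = V1 m`
(take `P = Bool` or `Fin 2`, and pass from `gamN (Fin 2)` to `gam.prod gam`:
`MeasureTheory.measurePreserving_finTwoArrow` or `measurePreserving_piFinTwo`).
-/
open MeasureTheory Finset

namespace Pc0b458P

/-! ### products over finsets -/

private theorem dd_eq {X : Type} [DecidableEq X] (ξ : X → ℂ × ℂ) (S : Finset X) :
    dd ξ S = ∏ p ∈ S, ∏ q ∈ S, if p ≠ q then ‖br (ξ p) (ξ q)‖ else 1 := by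
  unfold dd
  rw [← Finset.prod_product', ← Finset.prod_filter]
  refine Finset.prod_congr ?_ fun _ _ => rfl
  ext ⟨a, b⟩
  simp [and_assoc]

private theorem dd_image {X Y : Type} [DecidableEq X] [DecidableEq Y] (φ : Y → X)
    (hφ : Function.Injective φ) (ξ : X → ℂ × ℂ) (T : Finset Y) {S : Finset X}
    (hS : S = T.image φ) : dd ξ S = dd (fun i => ξ (φ i)) T := by
  subst hS
  rw [dd_eq, dd_eq, Finset.prod_image (fun a _ b _ h => hφ h)]
  refine Finset.prod_congr rfl fun p _ => ?_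
  rw [Finset.prod_image (fun a _ b _ h => hφ h)]
  refine Finset.prod_congr rfl fun q _ => ?_
  by_cases h : p = q
  · simp [h]
  · rw [if_pos, if_pos h]
    exact fun h' => h (hφ h')

private theorem dd_insert {X : Type} [DecidableEq X] (ξ : X → ℂ × ℂ) {x : X} {S : Finset X}
    (hx : x ∉ S) : dd ξ (insert x S) = dd ξ S * ∏ l ∈ S, ‖br (ξ l) (ξ x)‖ ^ 2 := by
  rw [dd_eq, dd_eq, Finset.prod_insert hx, Finset.prod_insert hx]
  have h1 : ∀ p ∈ S, (∏ q ∈ insert x S, if p ≠ q then ‖br (ξ p) (ξ q)‖ else 1) =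
      ‖br (ξ p) (ξ x)‖ * ∏ q ∈ S, (if p ≠ q then ‖br (ξ p) (ξ q)‖ else 1) := by
    intro p hp
    rw [Finset.prod_insert hx, if_pos (fun h : p = x => hx (h ▸ hp))]
  rw [Finset.prod_congr rfl h1, Finset.prod_mul_distrib]
  have h2 : ∏ q ∈ S, (if x ≠ q then ‖br (ξ x) (ξ q)‖ else 1) = ∏ q ∈ S, ‖br (ξ q) (ξ x)‖ := by
    refine Finset.prod_congr rfl fun q hq => ?_
    rw [if_pos (fun h : x = q => hx (h ▸ hq)), br_swap]
  rw [if_neg (by simp), h2]
  simp_rw [sq, Finset.prod_mul_distrib]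
  ring

private theorem prod_im {X Y : Type} [DecidableEq X] (φ : Y → X) (hφ : Function.Injective φ)
    (f : X → ℝ) (T : Finset Y) {S : Finset X} (hS : S = T.image φ) :
    ∏ l ∈ S, f l = ∏ i ∈ T, f (φ i) := by
  subst hS
  rw [Finset.prod_image (fun a _ b _ h => hφ h)]

/-! ### decompositions of the index set -/

private theorem exists_equiv {X P : Type} [Fintype X] [DecidableEq X] (φ : P → X)
    (hφ : Function.Injective φ) (SA SB SC : Finset X) {a b c : ℕ} (hA : SA.card = a)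
    (hB : SB.card = b) (hC : SC.card = c) (hPA : ∀ p, φ p ∉ SA) (hPB : ∀ p, φ p ∉ SB)
    (hPC : ∀ p, φ p ∉ SC) (hAB : ∀ l, l ∈ SA → l ∉ SB) (hAC : ∀ l, l ∈ SA → l ∉ SC)
    (hBC : ∀ l, l ∈ SB → l ∉ SC)
    (hcov : ∀ l, (∃ p, φ p = l) ∨ l ∈ SA ∨ l ∈ SB ∨ l ∈ SC) :
    ∃ e : P ⊕ (Fin a ⊕ (Fin b ⊕ Fin c)) ≃ X, (∀ p, e (.inl p) = φ p) ∧
      (SA = univ.image fun i => e (.inr (.inl i))) ∧
      (SB = univ.image fun i => e (.inr (.inr (.inl i)))) ∧
      (SC = univ.image fun i => e (.inr (.inr (.inr i)))) := by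
  let eA := (SA.equivFinOfCardEq hA).symm
  let eB := (SB.equivFinOfCardEq hB).symm
  let eC := (SC.equivFinOfCardEq hC).symm
  let f : P ⊕ (Fin a ⊕ (Fin b ⊕ Fin c)) → X :=
    Sum.elim φ (Sum.elim (fun i => (eA i).1) (Sum.elim (fun i => (eB i).1) (fun i => (eC i).1)))
  have hf : Function.Bijective f := by
    constructor
    · rintro (p | i | i | i) (q | j | j | j) h
      · rw [hφ h]
      · exact (hPA p (show φ p ∈ SA from (show φ p = (eA j).1 from h) ▸ (eA j).2)).elim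
      · exact (hPB p (show φ p ∈ SB from (show φ p = (eB j).1 from h) ▸ (eB j).2)).elim
      · exact (hPC p (show φ p ∈ SC from (show φ p = (eC j).1 from h) ▸ (eC j).2)).elim
      · exact (hPA q (show φ q ∈ SA from (show (eA i).1 = φ q from h) ▸ (eA i).2)).elim
      · rw [eA.injective (Subtype.ext h)]
      · exact (hAB _ (eA i).2 ((show (eB j).1 = (eA i).1 from h.symm) ▸ (eB j).2)).elim
      · exact (hAC _ (eA i).2 ((show (eC j).1 = (eA i).1 from h.symm) ▸ (eC j).2)).elim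
      · exact (hPB q (show φ q ∈ SB from (show (eB i).1 = φ q from h) ▸ (eB i).2)).elim
      · exact (hAB _ (eA j).2 ((show (eB i).1 = (eA j).1 from h) ▸ (eB i).2)).elim
      · rw [eB.injective (Subtype.ext h)]
      · exact (hBC _ (eB i).2 ((show (eC j).1 = (eB i).1 from h.symm) ▸ (eC j).2)).elim
      · exact (hPC q (show φ q ∈ SC from (show (eC i).1 = φ q from h) ▸ (eC i).2)).elim
      · exact (hAC _ (eA j).2 ((show (eC i).1 = (eA j).1 from h) ▸ (eC i).2)).elim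
      · exact (hBC _ (eB j).2 ((show (eC i).1 = (eB j).1 from h) ▸ (eC i).2)).elim
      · rw [eC.injective (Subtype.ext h)]
    · intro l
      rcases hcov l with ⟨p, hp⟩ | h | h | h
      · exact ⟨.inl p, hp⟩
      · refine ⟨.inr (.inl (eA.symm ⟨l, h⟩)), ?_⟩
        show (eA (eA.symm ⟨l, h⟩)).1 = l
        rw [Equiv.apply_symm_apply]
      · refine ⟨.inr (.inr (.inl (eB.symm ⟨l, h⟩))), ?_⟩
        show (eB (eB.symm ⟨l, h⟩)).1 = l
        rw [Equiv.apply_symm_apply]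
      · refine ⟨.inr (.inr (.inr (eC.symm ⟨l, h⟩))), ?_⟩
        show (eC (eC.symm ⟨l, h⟩)).1 = l
        rw [Equiv.apply_symm_apply]
  refine ⟨Equiv.ofBijective f hf, fun p => rfl, ?_, ?_, ?_⟩
  · ext l
    simp only [Finset.mem_image, Finset.mem_univ, true_and]
    constructor
    · intro h
      refine ⟨eA.symm ⟨l, h⟩, ?_⟩
      show (eA (eA.symm ⟨l, h⟩)).1 = l
      rw [Equiv.apply_symm_apply]
    · rintro ⟨i, rfl⟩
      exact (eA i).2
  · ext l
    simp only [Finset.mem_image, Finset.mem_univ, true_and]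
    constructor
    · intro h
      refine ⟨eB.symm ⟨l, h⟩, ?_⟩
      show (eB (eB.symm ⟨l, h⟩)).1 = l
      rw [Equiv.apply_symm_apply]
    · rintro ⟨i, rfl⟩
      exact (eB i).2
  · ext l
    simp only [Finset.mem_image, Finset.mem_univ, true_and]
    constructor
    · intro h
      refine ⟨eC.symm ⟨l, h⟩, ?_⟩
      show (eC (eC.symm ⟨l, h⟩)).1 = l
      rw [Equiv.apply_symm_apply]
    · rintro ⟨i, rfl⟩
      exact (eC i).2

/-! ### measurability and bounds -/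

private theorem qq_nonneg_tm (u : ℂ × ℂ) : 0 ≤ qq u := by unfold qq; positivity

private theorem meas_qq : Measurable qq := by
  unfold qq
  fun_prop

private theorem meas_om (m : ℕ) : Measurable (om m) := by
  unfold om
  exact ((meas_qq.sqrt).pow_const m).inv

private theorem meas_br {X : Type} (p q : X) :
    Measurable (fun ξ : X → ℂ × ℂ => ‖br (ξ p) (ξ q)‖) := by
  unfold br
  fun_prop

private theorem meas_dd {X : Type} [DecidableEq X] (S : Finset X) :
    Measurable (fun ξ : X → ℂ × ℂ => dd ξ S) := by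
  unfold dd
  exact Finset.measurable_prod _ fun p _ => meas_br p.1 p.2

private noncomputable def WW {X : Type} [Fintype X] (ξ : X → ℂ × ℂ) : ℝ := ∏ l, (1 + qq (ξ l))

section
variable {X : Type} [Fintype X] [DecidableEq X] (ξ : X → ℂ × ℂ)

private theorem prod_le_WW (S : Finset X) : ∏ l ∈ S, (1 + qq (ξ l)) ≤ WW ξ := by
  unfold WW
  have h : ∀ T : Finset X, 1 ≤ ∏ l ∈ T, (1 + qq (ξ l)) := by
    intro T
    have := Finset.prod_le_prod (s := T) (f := fun _ => (1 : ℝ)) (g := fun l => 1 + qq (ξ l))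
      (fun _ _ => zero_le_one) (fun l _ => by have := qq_nonneg_tm (ξ l); simp [this])
    simpa using this
  rw [← Finset.prod_sdiff (Finset.subset_univ S)]
  exact le_mul_of_one_le_left (le_trans zero_le_one (h S)) (h _)

private theorem one_le_WW : 1 ≤ WW ξ := by
  have := prod_le_WW ξ ∅
  simpa using this

private theorem qq_le_WW (l : X) : 1 + qq (ξ l) ≤ WW ξ := by
  have := prod_le_WW ξ {l}
  simpa using this

private theorem br_le_WW (p q : X) : ‖br (ξ p) (ξ q)‖ ≤ WW ξ := by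
  have h1 := br_sq_le (ξ p) (ξ q)
  have h2 := qq_le_WW ξ p
  have h3 := qq_le_WW ξ q
  have h4 := qq_nonneg_tm (ξ p)
  have h5 := qq_nonneg_tm (ξ q)
  have h6 := one_le_WW ξ
  have h7 : ‖br (ξ p) (ξ q)‖ ^ 2 ≤ WW ξ ^ 2 := by
    refine h1.trans ?_
    rw [sq]
    exact mul_le_mul (by linarith) (by linarith) h5 (by linarith)
  exact (pow_le_pow_iff_left₀ (norm_nonneg _) (by linarith) two_ne_zero).1 h7

omit [Fintype X] in
private theorem dd_nonneg (S : Finset X) : 0 ≤ dd ξ S := Finset.prod_nonneg fun _ _ => norm_nonneg _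

private theorem dd_le_WW (S : Finset X) : dd ξ S ≤ WW ξ ^ (Fintype.card (X × X)) := by
  unfold dd
  have h := Finset.prod_le_prod (s := S.offDiag) (f := fun p => ‖br (ξ p.1) (ξ p.2)‖)
    (g := fun _ => WW ξ) (fun _ _ => norm_nonneg _) (fun p _ => br_le_WW ξ p.1 p.2)
  rw [Finset.prod_const] at h
  exact h.trans (pow_le_pow_right₀ (one_le_WW ξ) (Finset.card_le_univ _))

private theorem qq_pow_le (x : X) (m : ℕ) : qq (ξ x) ^ m ≤ WW ξ ^ m :=
  pow_le_pow_left₀ (qq_nonneg_tm _) (by have := qq_le_WW ξ x; linarith) m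

/-- products of squares of brackets -/
private theorem prod_br_sq_le (x : X) (S : Finset X) :
    ∏ l ∈ S, ‖br (ξ l) (ξ x)‖ ^ 2 ≤ qq (ξ x) ^ S.card * WW ξ := by
  have h := Finset.prod_le_prod (s := S) (f := fun l => ‖br (ξ l) (ξ x)‖ ^ 2)
    (g := fun l => qq (ξ x) * (1 + qq (ξ l))) (fun _ _ => by positivity) (fun l _ => by
      refine (br_sq_le _ _).trans ?_
      have h4 := qq_nonneg_tm (ξ l)
      have h5 := qq_nonneg_tm (ξ x)
      nlinarith)
  rw [Finset.prod_mul_distrib, Finset.prod_const] at h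
  exact h.trans (mul_le_mul_of_nonneg_left (prod_le_WW ξ S) (pow_nonneg (qq_nonneg_tm _) _))

/-- products of brackets -/
private theorem prod_br_le_tm (x : X) (S : Finset X) :
    ∏ l ∈ S, ‖br (ξ l) (ξ x)‖ ≤ Real.sqrt (qq (ξ x)) ^ S.card * WW ξ := by
  have h := Finset.prod_le_prod (s := S) (f := fun l => ‖br (ξ l) (ξ x)‖)
    (g := fun l => Real.sqrt (qq (ξ x)) * (1 + qq (ξ l))) (fun _ _ => norm_nonneg _) (fun l _ => by
      have h4 := qq_nonneg_tm (ξ l)
      have h5 := qq_nonneg_tm (ξ x)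
      have h6 := Real.sqrt_nonneg (qq (ξ x))
      have h7 := Real.sq_sqrt h5
      have h8 : ‖br (ξ l) (ξ x)‖ ^ 2 ≤ (Real.sqrt (qq (ξ x)) * (1 + qq (ξ l))) ^ 2 := by
        refine (br_sq_le _ _).trans ?_
        rw [mul_pow, h7]
        have : qq (ξ l) ≤ (1 + qq (ξ l)) ^ 2 := by nlinarith
        nlinarith
      exact (pow_le_pow_iff_left₀ (norm_nonneg _) (by positivity) two_ne_zero).1 h8)
  rw [Finset.prod_mul_distrib, Finset.prod_const] at h
  exact h.trans (mul_le_mul_of_nonneg_left (prod_le_WW ξ S) (by positivity))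

end

private theorem om_nonneg_tm (m : ℕ) (x : ℂ × ℂ) : 0 ≤ om m x := by unfold om; positivity

private theorem om_sq (m : ℕ) (x : ℂ × ℂ) :
    om m x ^ 2 * (qq x ^ m * qq x ^ m) = qq x ^ m := by
  have h : om m x ^ 2 = (qq x ^ m)⁻¹ := by
    unfold om
    rw [inv_pow, ← pow_mul, mul_comm m 2, pow_mul, Real.sq_sqrt (qq_nonneg_tm x)]
  rw [h]
  rcases eq_or_ne (qq x ^ m) 0 with h0 | h0
  · rw [h0]; simp
  · field_simp

private theorem om_cube (m : ℕ) (x : ℂ × ℂ) :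
    om m x * Real.sqrt (qq x) ^ (3 * m) = qq x ^ m := by
  have h : qq x ^ m = (Real.sqrt (qq x) ^ m) ^ 2 := by
    rw [← pow_mul, mul_comm m 2, pow_mul, Real.sq_sqrt (qq_nonneg_tm x)]
  unfold om
  rw [h, mul_comm 3 m, pow_mul]
  rcases eq_or_ne (Real.sqrt (qq x) ^ m) 0 with h0 | h0
  · rw [h0]; simp
  · field_simp

/-! ### three colours -/

private theorem fin3_split (s₀ : Fin 3) : ∃ s₁ s₂ : Fin 3, s₀ ≠ s₁ ∧ s₀ ≠ s₂ ∧ s₁ ≠ s₂ := by
  revert s₀
  decide

private theorem fin3_univ : ∀ s₀ s₁ s₂ : Fin 3, s₀ ≠ s₁ → s₀ ≠ s₂ → s₁ ≠ s₂ →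
    ∀ s, s = s₀ ∨ s = s₁ ∨ s = s₂ := by
  decide

private theorem fin3_prod (s₀ s₁ s₂ : Fin 3) (h01 : s₀ ≠ s₁) (h02 : s₀ ≠ s₂) (h12 : s₁ ≠ s₂)
    (f : Fin 3 → ℝ) : ∏ s, f s = f s₀ * (f s₁ * f s₂) := by
  have h : (univ : Finset (Fin 3)) = {s₀, s₁, s₂} := by
    ext s
    simp only [Finset.mem_univ, Finset.mem_insert, Finset.mem_singleton, true_iff]
    exact fin3_univ s₀ s₁ s₂ h01 h02 h12 s
  rw [h, Finset.prod_insert (by simp [h01, h02]), Finset.prod_insert (by simp [h12]),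
    Finset.prod_singleton]

private theorem II_zero (n : ℕ) :
    ∫ u : Fin n → ℂ × ℂ, dd u univ ∂(gamN (Fin n)) = II 0 n := by
  unfold II
  simp

theorem term0 {X : Type} [Fintype X] [DecidableEq X] (m : ℕ) (κ : X → Fin 3) (x : X)
    (h : ∀ s, (H0 κ x s).card = m + 1) :
    Integrable (fun ξ : X → ℂ × ℂ => om m (ξ x) ^ 2 * ∏ s, dd ξ (H0 κ x s)) (gamN X) ∧
    ∫ ξ : X → ℂ × ℂ, om m (ξ x) ^ 2 * ∏ s, dd ξ (H0 κ x s) ∂(gamN X) = V0 m := by
  obtain ⟨s₁, s₂, h01, h02, h12⟩ := fin3_split (κ x)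
  set S : Fin 3 → Finset X := fun s => univ.filter fun l => l ≠ x ∧ κ l = s with hS
  have hxS : ∀ s, x ∉ S s := fun s => by simp [hS]
  have hmem : ∀ s l, l ∈ S s ↔ l ≠ x ∧ κ l = s := fun s l => by simp [hS]
  have hH0 : H0 κ x (κ x) = S (κ x) := by simp [H0, hS]
  have hH1 : H0 κ x s₁ = insert x (S s₁) := by simp [H0, hS, h01.symm]
  have hH2 : H0 κ x s₂ = insert x (S s₂) := by simp [H0, hS, h02.symm]
  have hc0 : (S (κ x)).card = m + 1 := by rw [← hH0]; exact h _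
  have hc1 : (S s₁).card = m := by
    have := h s₁
    rw [hH1, Finset.card_insert_of_notMem (hxS s₁)] at this
    omega
  have hc2 : (S s₂).card = m := by
    have := h s₂
    rw [hH2, Finset.card_insert_of_notMem (hxS s₂)] at this
    omega
  have hF : ∀ ξ : X → ℂ × ℂ, om m (ξ x) ^ 2 * ∏ s, dd ξ (H0 κ x s) =
      om m (ξ x) ^ 2 * (dd ξ (S (κ x)) * ((dd ξ (S s₁) * ∏ l ∈ S s₁, ‖br (ξ l) (ξ x)‖ ^ 2) *
        (dd ξ (S s₂) * ∏ l ∈ S s₂, ‖br (ξ l) (ξ x)‖ ^ 2))) := by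
    intro ξ
    rw [fin3_prod (κ x) s₁ s₂ h01 h02 h12, hH0, hH1, hH2, dd_insert ξ (hxS s₁),
      dd_insert ξ (hxS s₂)]
  have hint : Integrable (fun ξ : X → ℂ × ℂ => om m (ξ x) ^ 2 * ∏ s, dd ξ (H0 κ x s))
      (gamN X) := by
    have hmeas : Measurable (fun ξ : X → ℂ × ℂ => om m (ξ x) ^ 2 * ∏ s, dd ξ (H0 κ x s)) :=
      (((meas_om m).comp (measurable_pi_apply x)).pow_const 2).mul
        (Finset.measurable_prod _ fun s _ => meas_dd _)
    refine integrable_of_le hmeas 1 (m + 2 + 3 * Fintype.card (X × X)) fun ξ => ?_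
    rw [Finset.prod_pow, one_mul, hF]
    change _ ≤ WW ξ ^ (m + 2 + 3 * Fintype.card (X × X))
    have d0 := dd_le_WW ξ (S (κ x))
    have d1 := dd_le_WW ξ (S s₁)
    have d2 := dd_le_WW ξ (S s₂)
    have n0 := dd_nonneg ξ (S (κ x))
    have n1 := dd_nonneg ξ (S s₁)
    have n2 := dd_nonneg ξ (S s₂)
    have p1 := prod_br_sq_le ξ x (S s₁)
    have p2 := prod_br_sq_le ξ x (S s₂)
    rw [hc1] at p1
    rw [hc2] at p2
    have q1 : 0 ≤ ∏ l ∈ S s₁, ‖br (ξ l) (ξ x)‖ ^ 2 := Finset.prod_nonneg fun _ _ => by positivity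
    have q2 : 0 ≤ ∏ l ∈ S s₂, ‖br (ξ l) (ξ x)‖ ^ 2 := Finset.prod_nonneg fun _ _ => by positivity
    have w := one_le_WW ξ
    have w0 : 0 ≤ WW ξ := by linarith
    have hq := qq_nonneg_tm (ξ x)
    rw [abs_of_nonneg (by positivity)]
    have e1 : om m (ξ x) ^ 2 * (dd ξ (S (κ x)) * ((dd ξ (S s₁) *
        ∏ l ∈ S s₁, ‖br (ξ l) (ξ x)‖ ^ 2) * (dd ξ (S s₂) * ∏ l ∈ S s₂, ‖br (ξ l) (ξ x)‖ ^ 2))) ≤
        om m (ξ x) ^ 2 * (WW ξ ^ (Fintype.card (X × X)) * ((WW ξ ^ (Fintype.card (X × X)) *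
        (qq (ξ x) ^ m * WW ξ)) * (WW ξ ^ (Fintype.card (X × X)) * (qq (ξ x) ^ m * WW ξ)))) := by
      have a1 := mul_le_mul d1 p1 q1 (by positivity)
      have a2 := mul_le_mul d2 p2 q2 (by positivity)
      have a3 := mul_le_mul a1 a2 (by positivity) (by positivity)
      have a4 := mul_le_mul d0 a3 (by positivity) (by positivity)
      exact mul_le_mul_of_nonneg_left a4 (by positivity)
    refine e1.trans ?_
    have e2 : om m (ξ x) ^ 2 * (WW ξ ^ (Fintype.card (X × X)) * ((WW ξ ^ (Fintype.card (X × X)) *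
        (qq (ξ x) ^ m * WW ξ)) * (WW ξ ^ (Fintype.card (X × X)) * (qq (ξ x) ^ m * WW ξ)))) =
        (om m (ξ x) ^ 2 * (qq (ξ x) ^ m * qq (ξ x) ^ m)) *
          WW ξ ^ (2 + 3 * Fintype.card (X × X)) := by ring
    rw [e2, om_sq, add_assoc, pow_add (WW ξ) m]
    exact mul_le_mul_of_nonneg_right (qq_pow_le ξ x m) (by positivity)
  refine ⟨hint, ?_⟩
  obtain ⟨e, he, hA, hB, hC⟩ := exists_equiv (fun _ : Unit => x)
    (Function.injective_of_subsingleton _) (S (κ x)) (S s₁) (S s₂) hc0 hc1 hc2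
    (fun _ => hxS _) (fun _ => hxS _) (fun _ => hxS _)
    (fun l h1 h2 => h01 (((hmem _ _).1 h1).2.symm.trans ((hmem _ _).1 h2).2))
    (fun l h1 h2 => h02 (((hmem _ _).1 h1).2.symm.trans ((hmem _ _).1 h2).2))
    (fun l h1 h2 => h12 (((hmem _ _).1 h1).2.symm.trans ((hmem _ _).1 h2).2))
    (fun l => by
      by_cases hl : x = l
      · exact Or.inl ⟨(), hl⟩
      · right
        have hl' : l ≠ x := fun h => hl h.symm
        rcases fin3_univ _ _ _ h01 h02 h12 (κ l) with h | h | h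
        · exact Or.inl ((hmem _ _).2 ⟨hl', h⟩)
        · exact Or.inr (Or.inl ((hmem _ _).2 ⟨hl', h⟩))
        · exact Or.inr (Or.inr ((hmem _ _).2 ⟨hl', h⟩)))
  have hx : e.symm x = .inl () := by rw [← he (), Equiv.symm_apply_apply]
  rw [integral_split_three e (fun p => om m (p ()) ^ 2) (fun _ a => dd a univ)
    (fun p b => dd b univ * ∏ i, ‖br (b i) (p ())‖ ^ 2)
    (fun p c => dd c univ * ∏ i, ‖br (c i) (p ())‖ ^ 2) hint ?_]
  · have h1 : ∀ p : Unit → ℂ × ℂ, om m (p ()) ^ 2 * ((∫ a, dd a univ ∂(gamN (Fin (m + 1)))) *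
        ((∫ b : Fin m → ℂ × ℂ, dd b univ * ∏ i, ‖br (b i) (p ())‖ ^ 2 ∂(gamN (Fin m))) *
        (∫ c : Fin m → ℂ × ℂ, dd c univ * ∏ i, ‖br (c i) (p ())‖ ^ 2 ∂(gamN (Fin m))))) =
        qq (p ()) ^ m * (II 0 (m + 1) * II 2 m ^ 2) := by
      intro p
      rw [II_zero, GG_eq]
      have := om_sq m (p ())
      calc _ = (om m (p ()) ^ 2 * (qq (p ()) ^ m * qq (p ()) ^ m)) *
          (II 0 (m + 1) * II 2 m ^ 2) := by ring
        _ = _ := by rw [this]
    simp_rw [h1]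
    rw [integral_mul_const]
    have h2 : ∫ p : Unit → ℂ × ℂ, qq (p ()) ^ m ∂(gamN Unit) = kap m :=
      (measurePreserving_funUnique gam Unit).integral_comp' (fun u => qq u ^ m)
    rw [h2, II_succ]
    unfold V0
    ring
  · intro p a b c
    refine (hF (fun l => Sum.elim p (Sum.elim a (Sum.elim b c)) (e.symm l))).trans ?_
    simp only [hx, Sum.elim_inl]
    have iA : Function.Injective (fun i : Fin (m + 1) => e (.inr (.inl i))) := fun i j h => by
      simpa using h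
    have iB : Function.Injective (fun i : Fin m => e (.inr (.inr (.inl i)))) := fun i j h => by
      simpa using h
    have iC : Function.Injective (fun i : Fin m => e (.inr (.inr (.inr i)))) := fun i j h => by
      simpa using h
    rw [dd_image _ iA _ univ hA, dd_image _ iB _ univ hB, dd_image _ iC _ univ hC,
      prod_im _ iB _ univ hB, prod_im _ iC _ univ hC]
    simp only [Equiv.symm_apply_apply, Sum.elim_inr, Sum.elim_inl]

theorem term1 {X : Type} [Fintype X] [DecidableEq X] (m : ℕ) (κ : X → Fin 3) (x y : X)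
    (hxy : x ≠ y) (h : ∀ s, (H1 κ x y s).card = m) :
    Integrable (fun ξ : X → ℂ × ℂ => t1 ξ (fun l => om m (ξ l)) κ x y) (gamN X) ∧
    ∫ ξ : X → ℂ × ℂ, t1 ξ (fun l => om m (ξ l)) κ x y ∂(gamN X) = V1 m := by
  have hmem : ∀ s l, l ∈ H1 κ x y s ↔ l ≠ x ∧ l ≠ y ∧ κ l = s := fun s l => by simp [H1]
  have h01 : (0 : Fin 3) ≠ 1 := by decide
  have h02 : (0 : Fin 3) ≠ 2 := by decide
  have h12 : (1 : Fin 3) ≠ 2 := by decide
  have hd : ∀ s t, s ≠ t → ∀ l, l ∈ H1 κ x y s → l ∉ H1 κ x y t := fun s t hst l h1 h2 =>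
    hst (((hmem _ _).1 h1).2.2.symm.trans ((hmem _ _).1 h2).2.2)
  set T : Finset X := univ.filter fun l => l ≠ x ∧ l ≠ y with hT
  have hTu : T = H1 κ x y 0 ∪ (H1 κ x y 1 ∪ H1 κ x y 2) := by
    ext l
    simp only [Finset.mem_union, hmem, hT, Finset.mem_filter, Finset.mem_univ, true_and]
    have := fin3_univ 0 1 2 h01 h02 h12 (κ l)
    tauto
  have hdis1 : Disjoint (H1 κ x y 1) (H1 κ x y 2) :=
    Finset.disjoint_left.2 fun l h1 => hd 1 2 h12 l h1
  have hdis0 : Disjoint (H1 κ x y 0) (H1 κ x y 1 ∪ H1 κ x y 2) :=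
    Finset.disjoint_left.2 fun l h1 h2 => by
      rcases Finset.mem_union.1 h2 with h2 | h2
      · exact hd 0 1 h01 l h1 h2
      · exact hd 0 2 h02 l h1 h2
  have hTc : T.card = 3 * m := by
    rw [hTu, Finset.card_union_of_disjoint hdis0, Finset.card_union_of_disjoint hdis1, h, h, h]
    ring
  have hF : ∀ ξ : X → ℂ × ℂ, t1 ξ (fun l => om m (ξ l)) κ x y =
      om m (ξ x) * om m (ξ y) *
        ((dd ξ (H1 κ x y 0) * ∏ l ∈ H1 κ x y 0, (‖br (ξ l) (ξ x)‖ * ‖br (ξ l) (ξ y)‖)) *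
        ((dd ξ (H1 κ x y 1) * ∏ l ∈ H1 κ x y 1, (‖br (ξ l) (ξ x)‖ * ‖br (ξ l) (ξ y)‖)) *
        (dd ξ (H1 κ x y 2) * ∏ l ∈ H1 κ x y 2, (‖br (ξ l) (ξ x)‖ * ‖br (ξ l) (ξ y)‖)))) := by
    intro ξ
    unfold t1
    rw [← hT, hTu, Finset.prod_union hdis0, Finset.prod_union hdis1,
      fin3_prod 0 1 2 h01 h02 h12]
    ring
  have hint : Integrable (fun ξ : X → ℂ × ℂ => t1 ξ (fun l => om m (ξ l)) κ x y) (gamN X) := by
    have hmeas : Measurable (fun ξ : X → ℂ × ℂ => t1 ξ (fun l => om m (ξ l)) κ x y) := by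
      unfold t1
      refine (((((meas_om m).comp (measurable_pi_apply x))).mul
        ((meas_om m).comp (measurable_pi_apply y))).mul ?_).mul
        (Finset.measurable_prod _ fun s _ => meas_dd _)
      exact Finset.measurable_prod _ fun l _ => (meas_br l x).mul (meas_br l y)
    refine integrable_of_le hmeas 1 (2 * m + 2 + 3 * Fintype.card (X × X)) fun ξ => ?_
    rw [Finset.prod_pow, one_mul]
    change _ ≤ WW ξ ^ (2 * m + 2 + 3 * Fintype.card (X × X))
    unfold t1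
    rw [← hT, fin3_prod 0 1 2 h01 h02 h12, Finset.prod_mul_distrib]
    have d0 := dd_le_WW ξ (H1 κ x y 0)
    have d1 := dd_le_WW ξ (H1 κ x y 1)
    have d2 := dd_le_WW ξ (H1 κ x y 2)
    have n0 := dd_nonneg ξ (H1 κ x y 0)
    have n1 := dd_nonneg ξ (H1 κ x y 1)
    have n2 := dd_nonneg ξ (H1 κ x y 2)
    have p1 := prod_br_le_tm ξ x T
    have p2 := prod_br_le_tm ξ y T
    rw [hTc] at p1 p2
    have q1 : 0 ≤ ∏ l ∈ T, ‖br (ξ l) (ξ x)‖ := Finset.prod_nonneg fun _ _ => norm_nonneg _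
    have q2 : 0 ≤ ∏ l ∈ T, ‖br (ξ l) (ξ y)‖ := Finset.prod_nonneg fun _ _ => norm_nonneg _
    have w := one_le_WW ξ
    have w0 : 0 ≤ WW ξ := by linarith
    have ox := om_nonneg_tm m (ξ x)
    have oy := om_nonneg_tm m (ξ y)
    rw [abs_of_nonneg (by positivity)]
    have e1 : om m (ξ x) * om m (ξ y) * ((∏ l ∈ T, ‖br (ξ l) (ξ x)‖) *
        ∏ l ∈ T, ‖br (ξ l) (ξ y)‖) * (dd ξ (H1 κ x y 0) * (dd ξ (H1 κ x y 1) *
          dd ξ (H1 κ x y 2))) ≤
        om m (ξ x) * om m (ξ y) * ((Real.sqrt (qq (ξ x)) ^ (3 * m) * WW ξ) *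
          (Real.sqrt (qq (ξ y)) ^ (3 * m) * WW ξ)) * (WW ξ ^ (Fintype.card (X × X)) *
          (WW ξ ^ (Fintype.card (X × X)) * WW ξ ^ (Fintype.card (X × X)))) := by
      have a1 := mul_le_mul p1 p2 q2 (by positivity)
      have a2 := mul_le_mul d1 d2 n2 (by positivity)
      have a3 := mul_le_mul d0 a2 (by positivity) (by positivity)
      exact mul_le_mul (mul_le_mul_of_nonneg_left a1 (by positivity)) a3 (by positivity)
        (by positivity)
    refine e1.trans ?_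
    have e2 : om m (ξ x) * om m (ξ y) * ((Real.sqrt (qq (ξ x)) ^ (3 * m) * WW ξ) *
          (Real.sqrt (qq (ξ y)) ^ (3 * m) * WW ξ)) * (WW ξ ^ (Fintype.card (X × X)) *
          (WW ξ ^ (Fintype.card (X × X)) * WW ξ ^ (Fintype.card (X × X)))) =
        ((om m (ξ x) * Real.sqrt (qq (ξ x)) ^ (3 * m)) *
        (om m (ξ y) * Real.sqrt (qq (ξ y)) ^ (3 * m))) *
          WW ξ ^ (2 + 3 * Fintype.card (X × X)) := by ring
    rw [e2, om_cube, om_cube, add_assoc, pow_add (WW ξ) (2 * m), two_mul m, pow_add (WW ξ) m m]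
    exact mul_le_mul_of_nonneg_right (mul_le_mul (qq_pow_le ξ x m) (qq_pow_le ξ y m)
      (pow_nonneg (qq_nonneg_tm _) _) (by positivity)) (by positivity)
  refine ⟨hint, ?_⟩
  have hφ : Function.Injective (fun i : Fin 2 => if i = 0 then x else y) := by
    intro i j hij
    fin_cases i <;> fin_cases j
    · rfl
    · exact absurd (by simpa using hij) hxy
    · exact absurd (by simpa using hij) hxy.symm
    · rfl
  have hnot : ∀ s (p : Fin 2), (if p = 0 then x else y) ∉ H1 κ x y s := by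
    intro s p hp
    rw [hmem] at hp
    fin_cases p
    · exact hp.1 rfl
    · exact hp.2.1 rfl
  obtain ⟨e, he, hA, hB, hC⟩ := exists_equiv (fun i : Fin 2 => if i = 0 then x else y)
    hφ (H1 κ x y 0) (H1 κ x y 1) (H1 κ x y 2) (h 0) (h 1) (h 2)
    (hnot 0) (hnot 1) (hnot 2) (hd 0 1 h01) (hd 0 2 h02) (hd 1 2 h12)
    (fun l => by
      by_cases hl : l = x
      · exact Or.inl ⟨0, by simp [hl]⟩
      by_cases hl' : l = y
      · exact Or.inl ⟨1, by simp [hl']⟩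
      right
      rcases fin3_univ _ _ _ h01 h02 h12 (κ l) with h | h | h
      · exact Or.inl ((hmem _ _).2 ⟨hl, hl', h⟩)
      · exact Or.inr (Or.inl ((hmem _ _).2 ⟨hl, hl', h⟩))
      · exact Or.inr (Or.inr ((hmem _ _).2 ⟨hl, hl', h⟩)))
  have hx : e.symm x = .inl 0 := by
    have := he 0
    simp only [if_true] at this
    rw [← this, Equiv.symm_apply_apply]
  have hy : e.symm y = .inl 1 := by
    have := he 1
    simp only [one_ne_zero, if_false] at this
    rw [← this, Equiv.symm_apply_apply]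
  rw [integral_split_three e (fun p => om m (p 0) * om m (p 1))
    (fun p a => dd a univ * ∏ i, (‖br (a i) (p 0)‖ * ‖br (a i) (p 1)‖))
    (fun p b => dd b univ * ∏ i, (‖br (b i) (p 0)‖ * ‖br (b i) (p 1)‖))
    (fun p c => dd c univ * ∏ i, (‖br (c i) (p 0)‖ * ‖br (c i) (p 1)‖)) hint ?_]
  · have h1 : ∀ p : Fin 2 → ℂ × ℂ, om m (p 0) * om m (p 1) *
        ((∫ a : Fin m → ℂ × ℂ, dd a univ * ∏ i, (‖br (a i) (p 0)‖ * ‖br (a i) (p 1)‖)
          ∂(gamN (Fin m))) *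
        ((∫ b : Fin m → ℂ × ℂ, dd b univ * ∏ i, (‖br (b i) (p 0)‖ * ‖br (b i) (p 1)‖)
          ∂(gamN (Fin m))) *
        (∫ c : Fin m → ℂ × ℂ, dd c univ * ∏ i, (‖br (c i) (p 0)‖ * ‖br (c i) (p 1)‖)
          ∂(gamN (Fin m))))) =
        om m (p 0) * om m (p 1) * JJ m (p 0) (p 1) ^ 3 := by
      intro p
      change om m (p 0) * om m (p 1) * (JJ m (p 0) (p 1) * (JJ m (p 0) (p 1) *
        JJ m (p 0) (p 1))) = _
      ring
    simp_rw [h1]
    exact (measurePreserving_finTwoArrow gam).integral_comp'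
      (fun q : (ℂ × ℂ) × (ℂ × ℂ) => om m q.1 * om m q.2 * JJ m q.1 q.2 ^ 3)
  · intro p a b c
    refine (hF (fun l => Sum.elim p (Sum.elim a (Sum.elim b c)) (e.symm l))).trans ?_
    simp only [hx, hy, Sum.elim_inl]
    have iA : Function.Injective (fun i : Fin m => e (.inr (.inl i))) := fun i j h => by
      simpa using h
    have iB : Function.Injective (fun i : Fin m => e (.inr (.inr (.inl i)))) := fun i j h => by
      simpa using h
    have iC : Function.Injective (fun i : Fin m => e (.inr (.inr (.inr i)))) := fun i j h => by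
      simpa using h
    rw [dd_image _ iA _ univ hA, dd_image _ iB _ univ hB, dd_image _ iC _ univ hC,
      prod_im _ iA _ univ hA, prod_im _ iB _ univ hB, prod_im _ iC _ univ hC]
    simp only [Equiv.symm_apply_apply, Sum.elim_inr, Sum.elim_inl]

end Pc0b458P
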