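import Pool.Agent.Lib.Pc0b458P.Ext
import Pool.Agent.Lib.Pc0b458P.Points

/-!
# Module Test: the negative test product

Take `C = 1 / (-Y)` in `exists_points`, so that `N0 + Y * N1 < 0`, `X = Fin (3*m+2)`, and `θ` from `test_abstract`.
The vectors `v` (each supported at a single `s`) are: `Pi.single s (dl x)` for `s` not in the image of `J` and all
`x`; `Pi.single (J 0) (θ j)`, `j < 3m+1`; `Pi.single (J i.succ) (mon m ξ j)`, `i < 3`, `j ≤ m`.
-/

open Finset ComplexConjugate

namespace Pc0b458P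

/-- multiplying by `R` one may change the factors of a product -/
theorem Test_prod_congr_mul {ι R : Type*} [CommRing R] (S : Finset ι) (f g : ι → R) (c : R)
    (h : ∀ i ∈ S, f i * c = g i * c) : (∏ i ∈ S, f i) * c = (∏ i ∈ S, g i) * c := by
  classical
  induction S using Finset.induction_on with
  | empty => simp
  | insert a S ha ih =>
    rw [Finset.prod_insert ha, Finset.prod_insert ha]
    have h1 := h a (Finset.mem_insert_self a S)
    have h2 := ih (fun i hi => h i (Finset.mem_insert_of_mem hi))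
    calc f a * (∏ i ∈ S, f i) * c = f a * ((∏ i ∈ S, f i) * c) := by ring
      _ = (f a * c) * ∏ i ∈ S, g i := by rw [h2]; ring
      _ = g a * (∏ i ∈ S, g i) * c := by rw [h1]; ring

theorem Test_aux {R : Type*} [CommRing R] (A B p q c : R) (h : B * c = 0) :
    ((A + B) ^ 2 + p + q) * c = (A ^ 2 + p + q) * c := by
  linear_combination (2 * A + B) * h

theorem Test_assoc {R : Type*} [CommRing R] (a b c d : R) : a * (b * (c * d)) = a * c * d * b := by
  ring

theorem Test_cj_dl {X : Type} [DecidableEq X] (x : X) : cj (dl x) = dl x := by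
  funext l
  unfold cj dl
  by_cases h : l = x
  · subst h
    simp
  · simp [Pi.single_eq_of_ne h]

theorem neg_test {Φ : Type} [Fintype Φ] [DecidableEq Φ] (J : Fin 4 → Φ)
    (hJ : Function.Injective J) (Y : ℝ) (hY : Y < 0) :
    ∃ (M k : ℕ) (v : Fin k → Φ → Fin M → ℂ) (r : ℝ), 2 * M + k = M * Fintype.card Φ ∧ r < 0 ∧
      ∀ τ τ' : ℂ, τ * τ' = ((4 * Y : ℝ) : ℂ) →
        (∏ x, (Dv (dls x) ^ 2 + τ • e4 J true x + τ' • e4 J false x)) * ∏ i, Dv (v i) =
          (r : ℂ) • (topF : HC Φ (Fin M)) := by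
  classical
  obtain ⟨m, ξ, ω, hξ, hω, hN⟩ := exists_points (1 / (-Y))
  obtain ⟨θ, hθ⟩ := test_abstract m (by rw [Fintype.card_fin]) ξ hξ ω hω
  have hneg : N0 m ξ ω + Y * N1 m ξ ω < 0 := by
    have hY' : 0 < -Y := by linarith
    have h1 : 1 / (-Y) * N0 m ξ ω = N0 m ξ ω / (-Y) := by ring
    rw [h1, div_lt_iff₀ hY'] at hN
    linarith
  -- the index type
  set S : Finset Φ := (univ.image J)ᶜ with hS
  have himg : (univ.image J).card = 4 := by
    rw [Finset.card_image_of_injective _ hJ]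
    simp
  have hcard : 4 + S.card = Fintype.card Φ := by
    have h4 := Finset.card_add_card_compl (univ.image J)
    rw [himg] at h4
    exact h4
  let κ : Type := ({s // s ∈ S} × Fin (3 * m + 2)) ⊕ (Fin (3 * m + 1) ⊕ (Fin 3 × Fin (m + 1)))
  let vv : κ → Φ → Fin (3 * m + 2) → ℂ := fun i =>
    match i with
    | Sum.inl p => Pi.single (p.1 : Φ) (dl p.2)
    | Sum.inr (Sum.inl j) => Pi.single (J 0) (θ j)
    | Sum.inr (Sum.inr p) => Pi.single (J p.1.succ) (mon m ξ p.2)
  let e : κ ≃ Fin (Fintype.card κ) := Fintype.equivFin κ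
  refine ⟨3 * m + 2, Fintype.card κ, fun i => vv (e.symm i),
    2 ^ (3 * m + 2) * (N0 m ξ ω + Y * N1 m ξ ω), ?_, ?_, ?_⟩
  · have hk : Fintype.card κ = S.card * (3 * m + 2) + ((3 * m + 1) + 3 * (m + 1)) := by
      show Fintype.card (({s // s ∈ S} × Fin (3 * m + 2)) ⊕
        (Fin (3 * m + 1) ⊕ (Fin 3 × Fin (m + 1)))) = _
      rw [Fintype.card_sum, Fintype.card_sum, Fintype.card_prod, Fintype.card_prod,
        Fintype.card_coe, Fintype.card_fin, Fintype.card_fin, Fintype.card_fin, Fintype.card_fin]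
    rw [hk, ← hcard]
    ring
  · exact mul_neg_of_pos_of_neg (by positivity) hneg
  · intro τ τ' hτ
    -- the product of the classes of the vectors
    have hprod : ∏ i, Dv (vv (e.symm i)) =
        (∏ s ∈ S, (pm s : PairMap (Fin (3 * m + 2)) (HC Φ (Fin (3 * m + 2)))).top) *
          ((∏ j, (pm (J 0) : PairMap (Fin (3 * m + 2)) (HC Φ (Fin (3 * m + 2)))).F (θ j)
            (cj (θ j))) * ∏ i : Fin 3,
            Theta (pm (J i.succ) : PairMap (Fin (3 * m + 2)) (HC Φ (Fin (3 * m + 2)))) m ξ) := by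
      rw [Equiv.prod_comp e.symm (fun i => Dv (vv i))]
      show ∏ i : ({s // s ∈ S} × Fin (3 * m + 2)) ⊕ (Fin (3 * m + 1) ⊕ (Fin 3 × Fin (m + 1))),
        Dv (vv i) = _
      rw [Fintype.prod_sum_type, Fintype.prod_sum_type, Fintype.prod_prod_type,
        Fintype.prod_prod_type]
      congr 1
      · rw [← Finset.prod_coe_sort S (fun s => (pm s : PairMap (Fin (3 * m + 2))
          (HC Φ (Fin (3 * m + 2)))).top)]
        refine Finset.prod_congr rfl (fun s _ => ?_)
        unfold PairMap.top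
        refine Finset.prod_congr rfl (fun x _ => ?_)
        show Dv (Pi.single (s : Φ) (dl x)) = _
        rw [Dv_single, Test_cj_dl]
      · congr 1
        · refine Finset.prod_congr rfl (fun j _ => ?_)
          show Dv (Pi.single (J 0) (θ j)) = _
          rw [Dv_single]
        · refine Finset.prod_congr rfl (fun i _ => ?_)
          unfold Theta
          refine Finset.prod_congr rfl (fun j _ => ?_)
          show Dv (Pi.single (J i.succ) (mon m ξ j)) = _
          rw [Dv_single]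
    rw [hprod]
    set RR : HC Φ (Fin (3 * m + 2)) :=
      ∏ s ∈ S, (pm s : PairMap (Fin (3 * m + 2)) (HC Φ (Fin (3 * m + 2)))).top with hRR
    -- the product over the sites may be restricted to the image of `J`
    have hBR : ∀ x : Fin (3 * m + 2), (∑ s ∈ S,
        (pm s : PairMap (Fin (3 * m + 2)) (HC Φ (Fin (3 * m + 2)))).F (dl x) (dl x)) * RR = 0 := by
      intro x
      rw [Finset.sum_mul]
      refine Finset.sum_eq_zero (fun s hs => ?_)
      rw [hRR, ← Finset.mul_prod_erase S _ hs, ← mul_assoc, PairMap.mul_top, zero_mul]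
    have hD : ∀ x : Fin (3 * m + 2), Dv (dls x : Φ → Fin (3 * m + 2) → ℂ) =
        (∑ i, ((tAlg J : TestAlg (Fin (3 * m + 2)) (HC Φ (Fin (3 * m + 2)))).P i).F (dl x)
          (dl x)) + ∑ s ∈ S,
          (pm s : PairMap (Fin (3 * m + 2)) (HC Φ (Fin (3 * m + 2)))).F (dl x) (dl x) := by
      intro x
      rw [Dv_dls, ← Finset.sum_add_sum_compl (univ.image J), Finset.sum_image
        (fun a _ b _ h => hJ h)]
      rfl
    have hsite : (∏ x, (Dv (dls x : Φ → Fin (3 * m + 2) → ℂ) ^ 2 + τ • e4 J true x +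
        τ' • e4 J false x)) * RR =
        (∏ l, ((∑ i, ((tAlg J : TestAlg (Fin (3 * m + 2)) (HC Φ (Fin (3 * m + 2)))).P i).F (dl l)
          (dl l)) ^ 2 + τ • (tAlg J : TestAlg (Fin (3 * m + 2)) (HC Φ (Fin (3 * m + 2)))).a l +
          τ' • (tAlg J : TestAlg (Fin (3 * m + 2)) (HC Φ (Fin (3 * m + 2)))).b l)) * RR := by
      refine Test_prod_congr_mul _ _ _ _ (fun x _ => ?_)
      rw [hD x]
      have h1 := hBR x
      set A := ∑ i, ((tAlg J : TestAlg (Fin (3 * m + 2)) (HC Φ (Fin (3 * m + 2)))).P i).F (dl x)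
        (dl x)
      set B := ∑ s ∈ S,
        (pm s : PairMap (Fin (3 * m + 2)) (HC Φ (Fin (3 * m + 2)))).F (dl x) (dl x)
      show ((A + B) ^ 2 + τ • e4 J true x + τ' • e4 J false x) * RR =
        (A ^ 2 + τ • e4 J true x + τ' • e4 J false x) * RR
      exact Test_aux A B _ _ RR h1
    have hT := hθ (HC Φ (Fin (3 * m + 2))) (tAlg J) τ τ'
    have htop : (∏ i, ((tAlg J : TestAlg (Fin (3 * m + 2)) (HC Φ (Fin (3 * m + 2)))).P i).top) *
        RR = topF := by
      rw [topF_eq, ← Finset.prod_mul_prod_compl (univ.image J), Finset.prod_image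
        (fun a _ b _ h => hJ h)]
      rfl
    have hval : (2 : ℂ) ^ (3 * m + 2) * ((N0 m ξ ω : ℝ) + τ * τ' / 4 * (N1 m ξ ω : ℝ)) =
        ((2 ^ (3 * m + 2) * (N0 m ξ ω + Y * N1 m ξ ω) : ℝ) : ℂ) := by
      rw [hτ]
      push_cast
      ring
    rw [hval] at hT
    rw [← mul_assoc, hsite, mul_assoc, Test_assoc, ← htop, ← smul_mul_assoc, ← hT]
    rfl

end Pc0b458P
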