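import Pool.Agent.Lib.Pc0b458.Reduce2
import Pool.Agent.Lib.Pc0b458P.Data
import Pool.Agent.Lib.Pc0b458P.Coh

/-!
# Effective cycles, complex multiplication and cohomology

`Pc0b458.NumTheory` lists known properties of numerical cycle classes on the abelian varieties over
a fixed field. Here we add known properties of effective cycles, and, over an algebraic
closure of a finite field, of complex multiplication and of the cycle class map to the
cohomology of the powers of an abelian variety.
-/

universe u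

namespace Pc0b458P

open Pc0b458 Finset ComplexConjugate

/-- Complex multiplication of `A` by a CM algebra `E` of degree `2 dim A`, stable under the Rosati
involution of `L`, which is the complex conjugation on `E`; the powers of `A`, and the cycle class
map to the cohomology with complex coefficients (for a prime number for which
numerical and homological equivalence agree on all powers of `A`). -/
structure CMData (T : NumTheory.{u}) (W : EffData T) (A : T.AV) (L : T.Z A) where
  /-- representatives of the embeddings of `E` in `ℂ` modulo complex conjugation -/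
  Φ : Type
  [finΦ : Fintype Φ]
  [decΦ : DecidableEq Φ]
  card_Φ : Fintype.card Φ = T.dim A
  E : Type
  [ringE : CommRing E]
  emb : Φ → E →+* ℂ
  /-- `E` is dense in the product of the fields `ℂ` over `Φ` -/
  dense : ∀ (v : Φ → ℂ) (ε : ℝ), 0 < ε → ∃ a : E, ∀ s, ‖emb s a - v s‖ < ε
  /-- pull-back of cycle classes under the elements of `E` in `End(A) ⊗ ℚ` -/
  act : E → (T.Z A →ₐ[ℚ] T.Z A)
  act_mem : ∀ a i x, x ∈ T.cod A i → act a x ∈ T.cod A i
  /-- the powers of `A` -/
  pow : ℕ → T.AV
  dim_pow : ∀ M, T.dim (pow M) = M * T.dim A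
  /-- pull-back under `(a_1, ..., a_M) : A^M → A` -/
  pull : ∀ M, (Fin M → E) → (T.Z A →ₐ[ℚ] T.Z (pow M))
  pull_eff : ∀ M a i x, x ∈ W.eff A i → pull M a x ∈ W.eff (pow M) i
  /-- the degree of an exterior product -/
  deg_pull : ∀ M (x : Fin M → T.Z A), (∀ l, x l ∈ T.cod A (T.dim A)) →
    T.deg (pow M) (∏ l, pull M (Pi.single l 1) (x l)) = ∏ l, T.deg A (x l)
  /-- the cycle class map for `A` -/
  cl : T.Z A →+* HC Φ Unit
  cl_mem : ∀ i x, x ∈ T.cod A i → (cl x : HH Φ Unit) ∈ ⋀[ℂ]^(2 * i) (HV Φ Unit)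
  cl_L : cl L = Dv (dls ())
  cl_act : ∀ a x, (cl (act a x) : HH Φ Unit) =
    ExteriorAlgebra.map (pb fun s _ => emb s a) (cl x : HH Φ Unit)
  /-- the cycle class map for the powers -/
  clp : ∀ M, T.Z (pow M) →+* HC Φ (Fin M)
  clp_pull : ∀ M a x, (clp M (pull M a x) : HH Φ (Fin M)) =
    ExteriorAlgebra.map (pb fun s l => emb s (a l)) (cl x : HH Φ Unit)
  /-- the trace maps -/
  tr : HH Φ Unit →ₗ[ℂ] ℂ
  tr_cl : ∀ x, x ∈ T.cod A (T.dim A) → tr (cl x : HH Φ Unit) = (T.deg A x : ℂ)
  trp : ∀ M, HH Φ (Fin M) →ₗ[ℂ] ℂ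
  trp_cl : ∀ M x, x ∈ T.cod (pow M) (T.dim (pow M)) →
    trp M (clp M x : HH Φ (Fin M)) = (T.deg (pow M) x : ℂ)

attribute [instance] CMData.finΦ CMData.decΦ CMData.ringE

/-- Numerical cycle classes on the abelian varieties over an algebraic closure of a finite
field. -/
structure FpTheory extends NumTheory.{u} where
  eff : EffData toNumTheory
  cod_zero : ∀ A x, x ∈ cod A 0 → ∃ r : ℚ, x = algebraMap ℚ (Z A) r
  /-- complex multiplication (Tate), for a suitable polarisation -/
  cm : ∀ A, ∃ L ∈ Pol A, Nonempty (CMData toNumTheory eff A L)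

section Spans

variable {T : NumTheory.{u}} {W : EffData T} {A : T.AV} {L : T.Z A} (d : CMData T W A L)

/-- the real span of the classes of codimension `i` -/
noncomputable def CMData.rs (i : ℕ) : Submodule ℝ (HH d.Φ Unit) :=
  Submodule.span ℝ ((fun x => (d.cl x : HH d.Φ Unit)) '' (T.cod A i : Set (T.Z A)))

/-- the real span of the intersections of `i` divisor classes -/
noncomputable def CMData.rl (i : ℕ) : Submodule ℝ (HH d.Φ Unit) :=
  Submodule.span ℝ ((fun x => (d.cl x : HH d.Φ Unit)) '' (Lef T.toCycleRings A i : Set (T.Z A)))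

/-- the nonnegative real combinations of effective classes -/
def CMData.pc (i : ℕ) : Set (HH d.Φ Unit) :=
  {z | ∃ (n : ℕ) (r : Fin n → ℝ) (x : Fin n → T.Z A), (∀ k, 0 ≤ r k) ∧
    (∀ k, x k ∈ W.eff A i) ∧ z = ∑ k, r k • (d.cl (x k) : HH d.Φ Unit)}

end Spans

section Torus

variable {Φ : Type} [DecidableEq Φ]

/-- the action of the torus on the cohomology -/
noncomputable def tor (u : Φ → ℂ) : HH Φ Unit →ₐ[ℂ] HH Φ Unit :=
  ExteriorAlgebra.map (pb fun s _ => u s)

/-- the class `e_s ∧ e_{cs}` -/
noncomputable def Ds (s : Φ) : HH Φ Unit := (ev (ee s true ()) (ee s false ()) : HC Φ Unit)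

/-- the root of unity of order three -/
noncomputable def z3 : ℂ := Complex.exp (2 * Real.pi * Complex.I / 3)

/-- the point of the torus given by `u` -/
noncomputable def pt (u : Φ → ZMod 3) : Φ → ℂ := fun s => z3 ^ (u s).val

/-- the component of weight `η` -/
noncomputable def Pr [Fintype Φ] (η : Φ → ZMod 3) (z : HH Φ Unit) : HH Φ Unit :=
  ((3 : ℂ) ^ Fintype.card Φ)⁻¹ • ∑ u : Φ → ZMod 3,
    (z3 ^ (-(∑ s, u s * η s) : ZMod 3).val) • tor (pt u) z

/-- monomials -/
noncomputable def mo {k : ℕ} (f : Fin k → Φ × Bool) : HH Φ Unit :=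
  ExteriorAlgebra.ιMulti ℂ k fun j => ee (f j).1 (f j).2 ()

/-- the weight of a monomial -/
def wt {k : ℕ} (f : Fin k → Φ × Bool) : Φ → ZMod 3 :=
  ∑ j, Pi.single (f j).1 (if (f j).2 then 1 else -1)

end Torus

end Pc0b458P
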