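import Pool.Agent.Lib.Pc0b458P.PosA

/-!
# Module Tor: the torus and the real spans (about 2h)

`tor_rs`: it suffices to take `z = cl x`, `x ∈ cod A i` (real linearity). Let `S = rs i`, a finite dimensional real subspace
of `HH`. If `tor u z ∉ S` there is a real linear form `f : HH → ℝ` with `f = 0` on `S` and `f (tor u z) ≠ 0`
(`Submodule.exists_le_ker_of_notMem` or the analogue). Now `u ↦ f (tor u z)` is continuous on `Φ → ℂ`: as
`z ∈ ⋀^(2i)`, `z` is a finite linear combination of monomials `mo f` (they span: `ιMulti` of vectors, expand the vectors in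
the unit vectors `ee s b ()`), and `tor u (mo f) = (∏ j, if (f j).2 then u (f j).1 else conj (u (f j).1)) • mo f`
(`ExteriorAlgebra.map_apply_ιMulti`). It vanishes at the points `u s = emb s a`, by `cl_act` and
`act_mem`, which are dense. Hence it vanishes everywhere, a contradiction.

`Ds_rs`: `Ds s = tor (Pi.single s 1) (cl L)` (use `map_pb_L`, `Dv` of a vector supported at `s`).
`rs_mul`: bilinearity, elements `cl x` multiply. `rs_tr`: for `cl x`, `x ∈ cod (dim A)`: `tr_cl`.
-/

universe u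

open Pc0b458 Finset ComplexConjugate

namespace Pc0b458P

theorem torAux_ee_span {Φ : Type} [Fintype Φ] [DecidableEq Φ] :
    Submodule.span ℂ (Set.range fun p : Φ × Bool => (ee p.1 p.2 () : HV Φ Unit)) = ⊤ := by
  rw [Submodule.eq_top_iff']
  intro v
  have h : v = ∑ i : Φ × Bool × Unit, v i • (Pi.single i 1 : HV Φ Unit) := by
    funext j
    simp [Finset.sum_apply, Pi.single_apply]
  rw [h]
  refine Submodule.sum_mem _ fun i _ => Submodule.smul_mem _ _ (Submodule.subset_span ?_)
  exact ⟨(i.1, i.2.1), rfl⟩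

theorem mo_span {Φ : Type} [Fintype Φ] [DecidableEq Φ] (k : ℕ) (z : HH Φ Unit)
    (hz : z ∈ ⋀[ℂ]^k (HV Φ Unit)) :
    z ∈ Submodule.span ℂ (Set.range fun f : Fin k → Φ × Bool => mo f) := by
  rw [← exteriorPower.ιMulti_span_fixedDegree_of_span_eq_top ℂ k (HV Φ Unit) torAux_ee_span] at hz
  refine Submodule.span_mono ?_ hz
  rintro _ ⟨a, ha, rfl⟩
  have h : ∀ j, ∃ p : Φ × Bool, (ee p.1 p.2 () : HV Φ Unit) = a j := fun j => ha ⟨j, rfl⟩
  choose f hf using h
  refine ⟨f, ?_⟩
  show ExteriorAlgebra.ιMulti ℂ k (fun j => ee (f j).1 (f j).2 ()) = _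
  congr 1
  funext j
  exact hf j

theorem torAux_pb_ee {Φ : Type} [DecidableEq Φ] (u : Φ → ℂ) (s : Φ) (b : Bool) :
    pb (fun s (_ : Unit) => u s) (ee s b ()) =
      (if b then u s else conj (u s)) • (ee s b () : HV Φ Unit) := by
  funext i
  obtain ⟨t, c, x⟩ := i
  show (if c then u t else conj (u t)) * (Pi.single (s, b, ()) 1 : HV Φ Unit) (t, c, ()) =
    (if b then u s else conj (u s)) * (Pi.single (s, b, ()) 1 : HV Φ Unit) (t, c, x)
  by_cases h : (t, c, x) = (s, b, ())
  · have h1 : t = s := (Prod.ext_iff.1 h).1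
    have h2 : c = b := (Prod.ext_iff.1 (Prod.ext_iff.1 h).2).1
    rw [h1, h2]
  · have h1 : (Pi.single (s, b, ()) 1 : HV Φ Unit) (t, c, x) = 0 := Pi.single_eq_of_ne h 1
    rw [h1, mul_zero, mul_zero]

theorem tor_mo {Φ : Type} [DecidableEq Φ] {k : ℕ} (u : Φ → ℂ) (f : Fin k → Φ × Bool) :
    tor u (mo f) = (∏ j, if (f j).2 then u (f j).1 else conj (u (f j).1)) • mo f := by
  unfold tor mo
  rw [ExteriorAlgebra.map_apply_ιMulti]
  have h : (pb (fun s (_ : Unit) => u s)) ∘ (fun j => (ee (f j).1 (f j).2 () : HV Φ Unit)) =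
      fun j => (if (f j).2 then u (f j).1 else conj (u (f j).1)) •
        (ee (f j).1 (f j).2 () : HV Φ Unit) := by
    funext j
    exact torAux_pb_ee u (f j).1 (f j).2
  rw [h]
  exact (ExteriorAlgebra.ιMulti ℂ k).toMultilinearMap.map_smul_univ _ _

variable {T : NumTheory.{u}} {W : EffData T} {A : T.AV} {L : T.Z A} (d : CMData T W A L)

theorem torAux_cl_rs {i : ℕ} {x : T.Z A} (hx : x ∈ T.cod A i) :
    ((d.cl x : HC d.Φ Unit) : HH d.Φ Unit) ∈ d.rs i :=
  Submodule.subset_span ⟨x, hx, rfl⟩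

theorem rs_pow {i : ℕ} {z : HH d.Φ Unit} (hz : z ∈ d.rs i) : z ∈ ⋀[ℂ]^(2 * i) (HV d.Φ Unit) := by
  induction hz using Submodule.span_induction with
  | mem z hz =>
    obtain ⟨x, hx, rfl⟩ := hz
    exact d.cl_mem i x hx
  | zero => exact Submodule.zero_mem _
  | add a b _ _ ha hb => exact Submodule.add_mem _ ha hb
  | smul r a _ ha =>
    change (r : ℂ) • a ∈ _
    exact Submodule.smul_mem _ _ ha

theorem torAux_cont {Φ : Type} [Fintype Φ] [DecidableEq Φ] (k : ℕ) (z : HH Φ Unit)
    (hz : z ∈ ⋀[ℂ]^k (HV Φ Unit)) (φ : HH Φ Unit →ₗ[ℝ] ℝ) :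
    Continuous fun u : Φ → ℂ => φ (tor u z) := by
  have hz' := mo_span k z hz
  have key : ∀ z ∈ Submodule.span ℂ (Set.range fun f : Fin k → Φ × Bool => (mo f : HH Φ Unit)),
      ∀ c : ℂ, Continuous fun u : Φ → ℂ => φ (c • tor u z) := by
    intro z hz
    induction hz using Submodule.span_induction with
    | mem z hz =>
      obtain ⟨f, rfl⟩ := hz
      intro c
      let m : HH Φ Unit := mo f
      let ψ : ℂ →ₗ[ℝ] ℝ :=
        { toFun := fun w => φ (w • m)
          map_add' := fun a b => by rw [add_smul, map_add]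
          map_smul' := fun r a => by
            rw [smul_assoc, map_smul]; rfl }
      have hψ : Continuous ψ := ψ.continuous_of_finiteDimensional
      have e : (fun u : Φ → ℂ => φ (c • tor u (mo f))) = fun u =>
          ψ (c * ∏ j, if (f j).2 then u (f j).1 else conj (u (f j).1)) := by
        funext u
        rw [tor_mo, smul_smul]
        rfl
      show Continuous fun u : Φ → ℂ => φ (c • tor u (mo f))
      rw [e]
      refine hψ.comp (continuous_const.mul (continuous_finsetProd _ fun j _ => ?_))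
      by_cases hb : (f j).2
      · simp only [hb, if_true]
        exact continuous_apply _
      · simp only [hb]
        exact Complex.continuous_conj.comp (continuous_apply _)
    | zero => intro c; simp only [map_zero, smul_zero]; exact continuous_const
    | add a b _ _ ha hb =>
      intro c
      have e : (fun u : Φ → ℂ => φ (c • tor u (a + b))) = fun u =>
          φ (c • tor u a) + φ (c • tor u b) := by
        funext u
        rw [map_add, smul_add, map_add]
      rw [e]
      exact (ha c).add (hb c)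
    | smul r a _ ha =>
      intro c
      have e : (fun u : Φ → ℂ => φ (c • tor u (r • a))) = fun u =>
          φ ((c * r) • tor u a) := by
        funext u
        have h3 : c • tor u (r • a) = (c * r) • tor u a := by
          rw [map_smul, smul_smul]
        rw [h3]
      rw [e]
      exact ha _
  have h1 := key z hz' 1
  simpa only [one_smul] using h1

theorem torAux_dense : Dense (Set.range fun a : d.E => (fun s => d.emb s a : d.Φ → ℂ)) := by
  rw [Metric.dense_iff]
  intro v r hr
  obtain ⟨a, ha⟩ := d.dense v r hr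
  refine ⟨fun s => d.emb s a, ?_, ⟨a, rfl⟩⟩
  rw [Metric.mem_ball, dist_pi_lt_iff hr]
  intro s
  rw [dist_eq_norm]
  exact ha s

theorem torAux_tor_cl (i : ℕ) (u : d.Φ → ℂ) {x : T.Z A} (hx : x ∈ T.cod A i) :
    tor u ((d.cl x : HC d.Φ Unit) : HH d.Φ Unit) ∈ d.rs i := by
  by_contra hc
  obtain ⟨φ, hφ, hk⟩ := Submodule.exists_le_ker_of_notMem hc
  apply hφ
  have hcont := torAux_cont (2 * i) ((d.cl x : HC d.Φ Unit) : HH d.Φ Unit) (d.cl_mem i x hx) φ
  have h0 : (fun u : d.Φ → ℂ => φ (tor u ((d.cl x : HC d.Φ Unit) : HH d.Φ Unit))) = fun _ => 0 := by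
    refine Continuous.ext_on (torAux_dense d) hcont continuous_const ?_
    rintro _ ⟨a, rfl⟩
    have h2 : tor (fun s => d.emb s a) ((d.cl x : HC d.Φ Unit) : HH d.Φ Unit) =
        ((d.cl (d.act a x) : HC d.Φ Unit) : HH d.Φ Unit) := (d.cl_act a x).symm
    show φ (tor (fun s => d.emb s a) ((d.cl x : HC d.Φ Unit) : HH d.Φ Unit)) = 0
    rw [h2]
    exact hk (torAux_cl_rs d (d.act_mem a i x hx))
  exact congrFun h0 u

theorem tor_rs (i : ℕ) (u : d.Φ → ℂ) {z : HH d.Φ Unit} (hz : z ∈ d.rs i) :
    tor u z ∈ d.rs i := by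
  induction hz using Submodule.span_induction with
  | mem z hz =>
    obtain ⟨x, hx, rfl⟩ := hz
    exact torAux_tor_cl d i u hx
  | zero => rw [map_zero]; exact Submodule.zero_mem _
  | add a b _ _ ha hb => rw [map_add]; exact Submodule.add_mem _ ha hb
  | smul r a _ ha =>
    have h1 : tor u ((r : ℂ) • a) = (r : ℂ) • tor u a := map_smul _ _ _
    change tor u ((r : ℂ) • a) ∈ _
    rw [h1]
    exact Submodule.smul_mem (d.rs i) r ha

theorem Ds_rs (hL : L ∈ T.Pol A) (s : d.Φ) : Ds s ∈ d.rs 1 := by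
  have h1 := torAux_tor_cl d 1 (Pi.single s 1) (T.pol_mem A L hL)
  have h2 : tor (Pi.single s 1) ((d.cl L : HC d.Φ Unit) : HH d.Φ Unit) = Ds s := by
    unfold tor
    rw [d.cl_L, map_pb_L]
    unfold Dv Ds
    rw [Finset.sum_eq_single s]
    · congr 2
      · funext i
        obtain ⟨t, b, x⟩ := i
        show (if t = s ∧ b = true then (Pi.single s 1 : d.Φ → ℂ) s else 0) =
          (Pi.single (s, true, ()) 1 : HV d.Φ Unit) (t, b, x)
        rw [Pi.single_eq_same, Pi.single_apply]
        by_cases h : t = s ∧ b = true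
        · rw [if_pos h, if_pos (by rw [h.1, h.2])]
        · rw [if_neg h, if_neg]
          intro h'
          exact h ⟨(Prod.ext_iff.1 h').1, (Prod.ext_iff.1 (Prod.ext_iff.1 h').2).1⟩
      · funext i
        obtain ⟨t, b, x⟩ := i
        show (if t = s ∧ b = false then conj ((Pi.single s 1 : d.Φ → ℂ) s) else 0) =
          (Pi.single (s, false, ()) 1 : HV d.Φ Unit) (t, b, x)
        rw [Pi.single_eq_same, Pi.single_apply, map_one]
        by_cases h : t = s ∧ b = false
        · rw [if_pos h, if_pos (by rw [h.1, h.2])]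
        · rw [if_neg h, if_neg]
          intro h'
          exact h ⟨(Prod.ext_iff.1 h').1, (Prod.ext_iff.1 (Prod.ext_iff.1 h').2).1⟩
    · intro t _ ht
      have h0 : (fun _ => (Pi.single s 1 : d.Φ → ℂ) t : Unit → ℂ) = 0 := by
        funext _
        exact Pi.single_eq_of_ne ht 1
      apply Subtype.ext
      show ExteriorAlgebra.ι ℂ (inj t true (fun _ => (Pi.single s 1 : d.Φ → ℂ) t)) * _ = 0
      rw [h0, map_zero, map_zero, zero_mul]
    · intro h
      exact absurd (Finset.mem_univ s) h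
  rwa [h2] at h1

theorem clL_rs (hL : L ∈ T.Pol A) (k : ℕ) : ((d.cl L : HC d.Φ Unit) : HH d.Φ Unit) ^ k ∈ d.rs k := by
  have h := torAux_cl_rs d (T.pow_mem A (T.pol_mem A L hL) k)
  rw [map_pow] at h
  exact h

theorem rs_comm {i : ℕ} {z w : HH d.Φ Unit} (hz : z ∈ d.rs i) : z * w = w * z := by
  induction hz using Submodule.span_induction with
  | mem z hz =>
    obtain ⟨x, hx, rfl⟩ := hz
    exact ((Subalgebra.mem_center_iff.1 (d.cl x).2) w).symm
  | zero => rw [zero_mul, mul_zero]
  | add a b _ _ ha hb => rw [add_mul, mul_add, ha, hb]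
  | smul r a _ ha => rw [smul_mul_assoc, mul_smul_comm, ha]

theorem rs_mul {i j : ℕ} {z w : HH d.Φ Unit} (hz : z ∈ d.rs i) (hw : w ∈ d.rs j) :
    z * w ∈ d.rs (i + j) := by
  induction hz using Submodule.span_induction with
  | mem z hz =>
    obtain ⟨x, hx, rfl⟩ := hz
    induction hw using Submodule.span_induction with
    | mem w hw =>
      obtain ⟨y, hy, rfl⟩ := hw
      have h := torAux_cl_rs d (T.mul_mem A i j x y hx hy)
      rw [map_mul] at h
      exact h
    | zero => rw [mul_zero]; exact Submodule.zero_mem _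
    | add a b _ _ ha hb => rw [mul_add]; exact Submodule.add_mem _ ha hb
    | smul r a _ ha => rw [mul_smul_comm]; exact Submodule.smul_mem _ _ ha
  | zero => rw [zero_mul]; exact Submodule.zero_mem _
  | add a b _ _ ha hb => rw [add_mul]; exact Submodule.add_mem _ ha hb
  | smul r a _ ha => rw [smul_mul_assoc]; exact Submodule.smul_mem _ _ ha

theorem rs_tr {z : HH d.Φ Unit} (hz : z ∈ d.rs (T.dim A)) : ∃ r : ℝ, d.tr z = (r : ℂ) := by
  induction hz using Submodule.span_induction with
  | mem z hz =>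
    obtain ⟨x, hx, rfl⟩ := hz
    refine ⟨(T.deg A x : ℝ), ?_⟩
    show d.tr ((d.cl x : HC d.Φ Unit) : HH d.Φ Unit) = _
    rw [d.tr_cl x hx]
    push_cast
    rfl
  | zero => exact ⟨0, by rw [map_zero, Complex.ofReal_zero]⟩
  | add a b _ _ ha hb =>
    obtain ⟨r, hr⟩ := ha
    obtain ⟨t, ht⟩ := hb
    exact ⟨r + t, by rw [map_add, hr, ht, Complex.ofReal_add]⟩
  | smul r a _ ha =>
    obtain ⟨t, ht⟩ := ha
    refine ⟨r * t, ?_⟩
    rw [← Complex.coe_smul r a, map_smul, ht, smul_eq_mul, Complex.ofReal_mul]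

end Pc0b458P
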