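import Pool.Agent.Lib.Pc0b458P.GF

/-!
# Module VOne: lower bound for the average of the off-diagonal terms

Write `ρ(x) = √(qq x)^m`, so `om m x * ρ x = 1` for `x ≠ 0`. For `a, c ≥ 0`: `a^3 ≥ 3 c^2 a - 2 c^3`.
With `a = JJ/(ρ(x) ρ(y))`, `c = II 1 m ^ 2 / II 0 m`, multiplied by `ρ(x)^2 ρ(y)^2`, integrate over `x, y`:
`V1 ≥ 3 c^2 S - 2 c^3 kap^2`, `S = ∫∫ JJ ρ ρ = ∫ dd u * P(u)^2 ∂u` (Fubini), and `P^2 ≥ 2 t P - t^2`.
-/

open MeasureTheory Finset

namespace Pc0b458P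

/-- the factor of homogeneity -/
noncomputable def rr (m : ℕ) (x : ℂ × ℂ) : ℝ := Real.sqrt (qq x) ^ m

theorem qq_nonneg' (x : ℂ × ℂ) : 0 ≤ qq x := by unfold qq; positivity

theorem rr_nonneg (m : ℕ) (x : ℂ × ℂ) : 0 ≤ rr m x := pow_nonneg (Real.sqrt_nonneg _) _

theorem rr_sq (m : ℕ) (x : ℂ × ℂ) : rr m x ^ 2 = qq x ^ m := by
  unfold rr
  rw [← pow_mul, mul_comm, pow_mul, Real.sq_sqrt (qq_nonneg' x)]

theorem continuous_qq' : Continuous qq := by unfold qq; fun_prop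

theorem continuous_rr (m : ℕ) : Continuous (rr m) := by
  unfold rr
  exact (Real.continuous_sqrt.comp continuous_qq').pow m

theorem measurable_om (m : ℕ) : Measurable (om m) := (continuous_rr m).measurable.inv

instance sigmaFinite_gamN (X : Type) [Fintype X] : SigmaFinite (gamN X) := by
  unfold gamN; infer_instance

instance isFiniteMeasure_gamN (X : Type) [Fintype X] : IsFiniteMeasure (gamN X) := by
  unfold gamN; infer_instance

theorem norm_br_le (p q : ℂ × ℂ) : ‖br p q‖ ≤ Real.sqrt (qq p) * Real.sqrt (qq q) := by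
  rw [← Real.sqrt_mul (qq_nonneg' p)]
  exact Real.le_sqrt_of_sq_le (br_sq_le p q)

theorem sqrt_le_one_add (t : ℝ) (ht : 0 ≤ t) : Real.sqrt t ≤ 1 + t := by
  rw [Real.sqrt_le_left (by positivity)]
  nlinarith

theorem prod_br_le {m : ℕ} (u : Fin m → ℂ × ℂ) (x : ℂ × ℂ) :
    ∏ i, ‖br (u i) x‖ ≤ (∏ i, Real.sqrt (qq (u i))) * rr m x := by
  have h : (∏ i, Real.sqrt (qq (u i))) * rr m x = ∏ i, (Real.sqrt (qq (u i)) * Real.sqrt (qq x)) := by
    rw [prod_mul_distrib, prod_const, card_univ, Fintype.card_fin]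
    rfl
  rw [h]
  exact prod_le_prod (fun i _ => norm_nonneg _) fun i _ => norm_br_le _ _

theorem dd_nonneg' {m : ℕ} (u : Fin m → ℂ × ℂ) : 0 ≤ dd u univ :=
  prod_nonneg fun _ _ => norm_nonneg _

theorem dd_le {m : ℕ} (u : Fin m → ℂ × ℂ) : dd u univ ≤ ∏ l, (1 + qq (u l)) ^ (2 * m) := by
  have h1 : ∀ l, 1 ≤ 1 + qq (u l) := fun l => by have := qq_nonneg' (u l); linarith
  have h2 : dd u univ ≤ ∏ p ∈ (univ : Finset (Fin m)).offDiag,
      ((1 + qq (u p.1)) * (1 + qq (u p.2))) := by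
    unfold dd
    apply prod_le_prod (fun _ _ => norm_nonneg _)
    intro p _
    refine (norm_br_le _ _).trans ?_
    exact mul_le_mul (sqrt_le_one_add _ (qq_nonneg' _)) (sqrt_le_one_add _ (qq_nonneg' _))
      (Real.sqrt_nonneg _) (by linarith [h1 p.1])
  have h3 : ∏ p ∈ (univ : Finset (Fin m)).offDiag, ((1 + qq (u p.1)) * (1 + qq (u p.2))) ≤
      ∏ p ∈ (univ : Finset (Fin m)) ×ˢ (univ : Finset (Fin m)),
        ((1 + qq (u p.1)) * (1 + qq (u p.2))) := by
    have hsub : (univ : Finset (Fin m)).offDiag ⊆ (univ : Finset (Fin m)) ×ˢ univ := by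
      intro p hp
      rw [mem_offDiag] at hp
      rw [mem_product]
      exact ⟨hp.1, hp.2.1⟩
    rw [← prod_sdiff hsub]
    refine le_mul_of_one_le_left (prod_nonneg fun p _ => ?_) ?_
    · exact mul_nonneg (by linarith [h1 p.1]) (by linarith [h1 p.2])
    · have h5 : ∏ _p ∈ ((univ : Finset (Fin m)) ×ˢ univ) \ (univ : Finset (Fin m)).offDiag,
          (1 : ℝ) ≤ ∏ p ∈ ((univ : Finset (Fin m)) ×ˢ univ) \ (univ : Finset (Fin m)).offDiag,
            ((1 + qq (u p.1)) * (1 + qq (u p.2))) := by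
        refine prod_le_prod (fun _ _ => zero_le_one) fun p _ => ?_
        have a1 := h1 p.1
        have a2 := h1 p.2
        nlinarith
      rwa [prod_const_one] at h5
  refine h2.trans (h3.trans (le_of_eq ?_))
  rw [prod_product]
  simp only [prod_mul_distrib, prod_const, card_univ, Fintype.card_fin]
  rw [prod_pow, two_mul]
  simp only [pow_add, prod_mul_distrib, prod_pow]

theorem continuous_br {α : Type*} [TopologicalSpace α] {f g : α → ℂ × ℂ} (hf : Continuous f)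
    (hg : Continuous g) : Continuous fun a => br (f a) (g a) := by
  unfold br
  fun_prop

theorem continuous_dd {m : ℕ} : Continuous fun u : Fin m → ℂ × ℂ => dd u univ := by
  unfold dd
  exact continuous_finsetProd _ fun p _ =>
    (continuous_br (continuous_apply p.1) (continuous_apply p.2)).norm

/-- the dominating function -/
noncomputable def Gd {m : ℕ} (u : Fin m → ℂ × ℂ) : ℝ := dd u univ * ∏ i, (1 + qq (u i))

theorem integrable_Gd (m : ℕ) : Integrable (Gd (m := m)) (gamN (Fin m)) := by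
  have hc : Continuous (Gd (m := m)) := by
    unfold Gd
    refine continuous_dd.mul (continuous_finsetProd _ fun i _ => ?_)
    exact continuous_const.add (continuous_qq'.comp (continuous_apply i))
  refine integrable_of_le hc.measurable 1 (2 * m + 1) fun ξ => ?_
  have h0 : 0 ≤ ∏ i, (1 + qq (ξ i)) := prod_nonneg fun i _ => by
    have := qq_nonneg' (ξ i); linarith
  rw [one_mul, Gd, abs_of_nonneg (mul_nonneg (dd_nonneg' ξ) h0)]
  simp only [pow_add, pow_one, prod_mul_distrib]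
  exact mul_le_mul_of_nonneg_right (dd_le ξ) h0

theorem prod_sqrt_sq_le {m : ℕ} (u : Fin m → ℂ × ℂ) :
    (∏ i, Real.sqrt (qq (u i))) ^ 2 ≤ ∏ i, (1 + qq (u i)) := by
  rw [← prod_pow]
  apply prod_le_prod (fun _ _ => by positivity)
  intro i _
  rw [Real.sq_sqrt (qq_nonneg' _)]
  linarith

theorem prod_sqrt_le {m : ℕ} (u : Fin m → ℂ × ℂ) :
    (∏ i, Real.sqrt (qq (u i))) ≤ ∏ i, (1 + qq (u i)) :=
  prod_le_prod (fun _ _ => Real.sqrt_nonneg _) fun _ _ => sqrt_le_one_add _ (qq_nonneg' _)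

theorem integrable_qqm (m : ℕ) : Integrable (fun x => qq x ^ m) gam := by
  refine (integrable_qq m).mono' (continuous_qq'.pow m).aestronglyMeasurable ?_
  refine Filter.Eventually.of_forall fun x => ?_
  rw [Real.norm_eq_abs, abs_of_nonneg (pow_nonneg (qq_nonneg' x) _)]
  exact pow_le_pow_left₀ (qq_nonneg' x) (by linarith) m

theorem JJ_eq (m : ℕ) (x y : ℂ × ℂ) : JJ m x y =
    ∫ u : Fin m → ℂ × ℂ, dd u univ * ((∏ i, ‖br (u i) x‖) * ∏ i, ‖br (u i) y‖)
      ∂(gamN (Fin m)) := by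
  unfold JJ
  simp only [prod_mul_distrib]

theorem JJ_nonneg (m : ℕ) (x y : ℂ × ℂ) : 0 ≤ JJ m x y := by
  unfold JJ
  exact integral_nonneg fun u => mul_nonneg (dd_nonneg' u)
    (prod_nonneg fun i _ => mul_nonneg (norm_nonneg _) (norm_nonneg _))

theorem kernel_le {m : ℕ} (u : Fin m → ℂ × ℂ) (x y : ℂ × ℂ) :
    dd u univ * ((∏ i, ‖br (u i) x‖) * ∏ i, ‖br (u i) y‖) ≤ Gd u * (rr m x * rr m y) := by
  have h1 : (∏ i, ‖br (u i) x‖) * ∏ i, ‖br (u i) y‖ ≤
      (∏ i, (1 + qq (u i))) * (rr m x * rr m y) := by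
    calc (∏ i, ‖br (u i) x‖) * ∏ i, ‖br (u i) y‖
        ≤ ((∏ i, Real.sqrt (qq (u i))) * rr m x) * ((∏ i, Real.sqrt (qq (u i))) * rr m y) :=
          mul_le_mul (prod_br_le u x) (prod_br_le u y) (prod_nonneg fun _ _ => norm_nonneg _)
            (mul_nonneg (prod_nonneg fun _ _ => Real.sqrt_nonneg _) (rr_nonneg m x))
      _ = (∏ i, Real.sqrt (qq (u i))) ^ 2 * (rr m x * rr m y) := by ring
      _ ≤ _ := mul_le_mul_of_nonneg_right (prod_sqrt_sq_le u)
          (mul_nonneg (rr_nonneg m x) (rr_nonneg m y))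
  calc _ ≤ dd u univ * ((∏ i, (1 + qq (u i))) * (rr m x * rr m y)) :=
        mul_le_mul_of_nonneg_left h1 (dd_nonneg' u)
    _ = _ := by unfold Gd; ring

theorem kernel_nonneg {m : ℕ} (u : Fin m → ℂ × ℂ) (x y : ℂ × ℂ) :
    0 ≤ dd u univ * ((∏ i, ‖br (u i) x‖) * ∏ i, ‖br (u i) y‖) :=
  mul_nonneg (dd_nonneg' u) (mul_nonneg (prod_nonneg fun _ _ => norm_nonneg _)
    (prod_nonneg fun _ _ => norm_nonneg _))

theorem JJ_le (m : ℕ) (x y : ℂ × ℂ) :
    JJ m x y ≤ (∫ u, Gd u ∂(gamN (Fin m))) * (rr m x * rr m y) := by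
  rw [JJ_eq, ← integral_mul_const]
  exact integral_mono_of_nonneg (Filter.Eventually.of_forall fun u => kernel_nonneg u x y)
    ((integrable_Gd m).mul_const _) (Filter.Eventually.of_forall fun u => kernel_le u x y)

theorem continuous_prod_br {α : Type*} [TopologicalSpace α] {m : ℕ} {f : α → Fin m → ℂ × ℂ}
    {g : α → ℂ × ℂ} (hf : Continuous f) (hg : Continuous g) :
    Continuous fun a => ∏ i, ‖br (f a i) (g a)‖ :=
  continuous_finsetProd _ fun i _ => (continuous_br ((continuous_apply i).comp hf) hg).norm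

theorem measurable_JJ (m : ℕ) : Measurable fun p : (ℂ × ℂ) × (ℂ × ℂ) => JJ m p.1 p.2 := by
  have h : Continuous fun q : ((ℂ × ℂ) × (ℂ × ℂ)) × (Fin m → ℂ × ℂ) =>
      dd q.2 univ * ((∏ i, ‖br (q.2 i) q.1.1‖) * ∏ i, ‖br (q.2 i) q.1.2‖) := by
    refine (continuous_dd.comp continuous_snd).mul (Continuous.mul ?_ ?_)
    · exact continuous_prod_br continuous_snd (continuous_fst.comp continuous_fst)
    · exact continuous_prod_br continuous_snd (continuous_snd.comp continuous_fst)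
  have h2 := (h.stronglyMeasurable.integral_prod_right' (ν := gamN (Fin m))).measurable
  simp only [JJ_eq]
  exact h2

theorem om_mul_rr_le (m : ℕ) (x : ℂ × ℂ) : om m x * rr m x ≤ 1 := by
  unfold om rr
  exact inv_mul_le_one

theorem om_nonneg (m : ℕ) (x : ℂ × ℂ) : 0 ≤ om m x := inv_nonneg.mpr (rr_nonneg m x)

theorem integrable_V1 (m : ℕ) :
    Integrable (fun p : (ℂ × ℂ) × (ℂ × ℂ) => om m p.1 * om m p.2 * JJ m p.1 p.2 ^ 3)
      (gam.prod gam) := by
  set K := ∫ u, Gd u ∂(gamN (Fin m)) with hK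
  have hdom : Integrable (fun p : (ℂ × ℂ) × (ℂ × ℂ) => K ^ 3 * (qq p.1 ^ m * qq p.2 ^ m))
      (gam.prod gam) := ((integrable_qqm m).mul_prod (integrable_qqm m)).const_mul _
  refine hdom.mono' ?_ (Filter.Eventually.of_forall fun p => ?_)
  · exact ((((measurable_om m).comp measurable_fst).mul
      ((measurable_om m).comp measurable_snd)).mul ((measurable_JJ m).pow_const 3)).aestronglyMeasurable
  · have h0 := om_nonneg m p.1
    have h1 := om_nonneg m p.2
    have h2 := JJ_nonneg m p.1 p.2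
    rw [Real.norm_eq_abs, abs_of_nonneg (by positivity)]
    have h3 := JJ_le m p.1 p.2
    rw [← hK] at h3
    have h4 : JJ m p.1 p.2 ^ 3 ≤ (K * (rr m p.1 * rr m p.2)) ^ 3 := pow_le_pow_left₀ h2 h3 3
    have hK0 : 0 ≤ K := by
      rw [hK]
      refine integral_nonneg fun u => mul_nonneg (dd_nonneg' u) (prod_nonneg fun i _ => ?_)
      have := qq_nonneg' (u i)
      linarith
    have r1 := rr_nonneg m p.1
    have r2 := rr_nonneg m p.2
    calc om m p.1 * om m p.2 * JJ m p.1 p.2 ^ 3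
        ≤ om m p.1 * om m p.2 * (K * (rr m p.1 * rr m p.2)) ^ 3 :=
          mul_le_mul_of_nonneg_left h4 (mul_nonneg h0 h1)
      _ = K ^ 3 * ((om m p.1 * rr m p.1) * rr m p.1 ^ 2) * ((om m p.2 * rr m p.2) * rr m p.2 ^ 2) := by
          ring
      _ ≤ K ^ 3 * (1 * rr m p.1 ^ 2) * (1 * rr m p.2 ^ 2) := by
          have e1 := om_mul_rr_le m p.1
          have e2 := om_mul_rr_le m p.2
          have e3 : 0 ≤ om m p.2 * rr m p.2 := mul_nonneg h1 r2
          gcongr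
      _ = K ^ 3 * (qq p.1 ^ m * qq p.2 ^ m) := by rw [rr_sq, rr_sq]; ring

/-- the tangent inequality -/
theorem tangent_ineq (m : ℕ) {c : ℝ} (hc : 0 ≤ c) (x y : ℂ × ℂ) :
    3 * c ^ 2 * (JJ m x y * (rr m x * rr m y)) - 2 * c ^ 3 * (qq x ^ m * qq y ^ m) ≤
      om m x * om m y * JJ m x y ^ 3 := by
  have hJ := JJ_nonneg m x y
  rw [← rr_sq, ← rr_sq]
  rcases (rr_nonneg m x).eq_or_lt with hx | hx
  · have : om m x = 0 := by
      change (rr m x)⁻¹ = 0
      rw [← hx, inv_zero]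
    rw [this, ← hx]
    simp
  rcases (rr_nonneg m y).eq_or_lt with hy | hy
  · have : om m y = 0 := by
      change (rr m y)⁻¹ = 0
      rw [← hy, inv_zero]
    rw [this, ← hy]
    simp
  set a := JJ m x y / (rr m x * rr m y) with ha
  have ha0 : 0 ≤ a := div_nonneg hJ (by positivity)
  have hJa : JJ m x y = a * (rr m x * rr m y) := by
    rw [ha]; field_simp
  have e1 : om m x = (rr m x)⁻¹ := rfl
  have e2 : om m y = (rr m y)⁻¹ := rfl
  have key : 3 * c ^ 2 * a - 2 * c ^ 3 ≤ a ^ 3 := by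
    nlinarith [mul_nonneg (sq_nonneg (a - c)) (by positivity : 0 ≤ a + 2 * c)]
  have h1 : om m x * om m y * JJ m x y ^ 3 = a ^ 3 * (rr m x ^ 2 * rr m y ^ 2) := by
    rw [e1, e2, hJa]
    field_simp
  have h2 : 3 * c ^ 2 * (JJ m x y * (rr m x * rr m y)) - 2 * c ^ 3 * (rr m x ^ 2 * rr m y ^ 2) =
      (3 * c ^ 2 * a - 2 * c ^ 3) * (rr m x ^ 2 * rr m y ^ 2) := by
    rw [hJa]; ring
  rw [h1, h2]
  exact mul_le_mul_of_nonneg_right key (by positivity)

/-- `P(u) = ∫ ρ(x) ∏ ‖br (u i) x‖` -/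
noncomputable def Pu {m : ℕ} (u : Fin m → ℂ × ℂ) : ℝ :=
  ∫ x, (∏ i, ‖br (u i) x‖) * rr m x ∂gam

theorem integrable_triple (m : ℕ) :
    Integrable (fun q : ((ℂ × ℂ) × (ℂ × ℂ)) × (Fin m → ℂ × ℂ) =>
      dd q.2 univ * ((∏ i, ‖br (q.2 i) q.1.1‖) * ∏ i, ‖br (q.2 i) q.1.2‖) *
        (rr m q.1.1 * rr m q.1.2)) ((gam.prod gam).prod (gamN (Fin m))) := by
  have hdom : Integrable (fun q : ((ℂ × ℂ) × (ℂ × ℂ)) × (Fin m → ℂ × ℂ) =>
      (qq q.1.1 ^ m * qq q.1.2 ^ m) * Gd q.2) ((gam.prod gam).prod (gamN (Fin m))) :=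
    ((integrable_qqm m).mul_prod (integrable_qqm m)).mul_prod (integrable_Gd m)
  refine hdom.mono' ?_ (Filter.Eventually.of_forall fun q => ?_)
  · apply Continuous.aestronglyMeasurable
    refine Continuous.mul ((continuous_dd.comp continuous_snd).mul (Continuous.mul ?_ ?_))
      (Continuous.mul ?_ ?_)
    · exact continuous_prod_br continuous_snd (continuous_fst.comp continuous_fst)
    · exact continuous_prod_br continuous_snd (continuous_snd.comp continuous_fst)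
    · exact (continuous_rr m).comp (continuous_fst.comp continuous_fst)
    · exact (continuous_rr m).comp (continuous_snd.comp continuous_fst)
  · have r1 := rr_nonneg m q.1.1
    have r2 := rr_nonneg m q.1.2
    have hk := kernel_nonneg q.2 q.1.1 q.1.2
    rw [Real.norm_eq_abs, abs_of_nonneg (mul_nonneg hk (mul_nonneg r1 r2))]
    calc _ ≤ Gd q.2 * (rr m q.1.1 * rr m q.1.2) * (rr m q.1.1 * rr m q.1.2) :=
          mul_le_mul_of_nonneg_right (kernel_le _ _ _) (mul_nonneg r1 r2)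
      _ = (rr m q.1.1 ^ 2 * rr m q.1.2 ^ 2) * Gd q.2 := by ring
      _ = _ := by rw [rr_sq, rr_sq]

theorem integrable_double (m : ℕ) :
    Integrable (fun q : (ℂ × ℂ) × (Fin m → ℂ × ℂ) =>
      dd q.2 univ * ((∏ i, ‖br (q.2 i) q.1‖) * rr m q.1)) (gam.prod (gamN (Fin m))) := by
  have hdom : Integrable (fun q : (ℂ × ℂ) × (Fin m → ℂ × ℂ) => qq q.1 ^ m * Gd q.2)
      (gam.prod (gamN (Fin m))) := (integrable_qqm m).mul_prod (integrable_Gd m)
  refine hdom.mono' ?_ (Filter.Eventually.of_forall fun q => ?_)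
  · apply Continuous.aestronglyMeasurable
    refine Continuous.mul (continuous_dd.comp continuous_snd) (Continuous.mul ?_ ?_)
    · exact continuous_prod_br continuous_snd continuous_fst
    · exact (continuous_rr m).comp continuous_fst
  · have r1 := rr_nonneg m q.1
    have hd := dd_nonneg' q.2
    have hp : 0 ≤ ∏ i, ‖br (q.2 i) q.1‖ := prod_nonneg fun _ _ => norm_nonneg _
    rw [Real.norm_eq_abs, abs_of_nonneg (mul_nonneg hd (mul_nonneg hp r1))]
    calc _ ≤ dd q.2 univ * (((∏ i, (1 + qq (q.2 i))) * rr m q.1) * rr m q.1) := by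
          refine mul_le_mul_of_nonneg_left (mul_le_mul_of_nonneg_right
            ((prod_br_le _ _).trans ?_) r1) hd
          exact mul_le_mul_of_nonneg_right (prod_sqrt_le _) r1
      _ = rr m q.1 ^ 2 * Gd q.2 := by unfold Gd; ring
      _ = _ := by rw [rr_sq]

theorem S_eq (m : ℕ) :
    ∫ p : (ℂ × ℂ) × (ℂ × ℂ), JJ m p.1 p.2 * (rr m p.1 * rr m p.2) ∂(gam.prod gam) =
      ∫ u : Fin m → ℂ × ℂ, dd u univ * Pu u ^ 2 ∂(gamN (Fin m)) := by
  have h := integral_integral_swap (μ := gam.prod gam) (ν := gamN (Fin m))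
    (f := fun p u => dd u univ * ((∏ i, ‖br (u i) p.1‖) * ∏ i, ‖br (u i) p.2‖) *
        (rr m p.1 * rr m p.2)) (integrable_triple m)
  have e1 : (fun p : (ℂ × ℂ) × (ℂ × ℂ) => JJ m p.1 p.2 * (rr m p.1 * rr m p.2)) =
      fun p => ∫ u : Fin m → ℂ × ℂ, dd u univ * ((∏ i, ‖br (u i) p.1‖) * ∏ i, ‖br (u i) p.2‖) *
        (rr m p.1 * rr m p.2) ∂(gamN (Fin m)) := by
    funext p
    rw [JJ_eq, integral_mul_const]
  rw [e1, h]
  congr 1
  funext u
  have e2 : (fun p : (ℂ × ℂ) × (ℂ × ℂ) =>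
      dd u univ * ((∏ i, ‖br (u i) p.1‖) * ∏ i, ‖br (u i) p.2‖) * (rr m p.1 * rr m p.2)) =
      fun p => dd u univ * (((∏ i, ‖br (u i) p.1‖) * rr m p.1) *
        ((∏ i, ‖br (u i) p.2‖) * rr m p.2)) := by
    funext p; ring
  rw [e2, integral_const_mul, integral_prod_mul (fun x => (∏ i, ‖br (u i) x‖) * rr m x)
    (fun y => (∏ i, ‖br (u i) y‖) * rr m y), sq]
  rfl

theorem int_ddP (m : ℕ) :
    ∫ u : Fin m → ℂ × ℂ, dd u univ * Pu u ∂(gamN (Fin m)) = kap m * II 1 m := by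
  have h := integral_integral_swap (μ := gam) (ν := gamN (Fin m))
    (f := fun x u => dd u univ * ((∏ i, ‖br (u i) x‖) * rr m x)) (integrable_double m)
  have e1 : (fun u : Fin m → ℂ × ℂ => dd u univ * Pu u) =
      fun u => ∫ x, dd u univ * ((∏ i, ‖br (u i) x‖) * rr m x) ∂gam := by
    funext u
    rw [integral_const_mul]
    rfl
  rw [e1, ← h]
  have e2 : (fun x => ∫ u : Fin m → ℂ × ℂ, dd u univ * ((∏ i, ‖br (u i) x‖) * rr m x)
      ∂(gamN (Fin m))) = fun x => qq x ^ m * II 1 m := by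
    funext x
    have e3 : (fun u : Fin m → ℂ × ℂ => dd u univ * ((∏ i, ‖br (u i) x‖) * rr m x)) =
        fun u => (dd u univ * ∏ i, ‖br (u i) x‖) * rr m x := by
      funext u; ring
    rw [e3, integral_mul_const, FF_eq, ← rr_sq]
    change rr m x * II 1 m * rr m x = _
    ring
  rw [e2, integral_mul_const]
  rfl

theorem int_dd (m : ℕ) : ∫ u : Fin m → ℂ × ℂ, dd u univ ∂(gamN (Fin m)) = II 0 m := by
  unfold II
  simp

theorem integrable_dd (m : ℕ) : Integrable (fun u : Fin m → ℂ × ℂ => dd u univ) (gamN (Fin m)) := by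
  have := integrable_II 0 m
  simpa using this

theorem integrable_ddP (m : ℕ) :
    Integrable (fun u : Fin m → ℂ × ℂ => dd u univ * Pu u) (gamN (Fin m)) := by
  have h := (integrable_double m).integral_prod_right
  have e1 : (fun u : Fin m → ℂ × ℂ => dd u univ * Pu u) =
      fun u => ∫ x, dd u univ * ((∏ i, ‖br (u i) x‖) * rr m x) ∂gam := by
    funext u
    rw [integral_const_mul]
    rfl
  rw [e1]
  exact h

theorem integrable_ddP2 (m : ℕ) :
    Integrable (fun u : Fin m → ℂ × ℂ => dd u univ * Pu u ^ 2) (gamN (Fin m)) := by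
  have h := (integrable_triple m).integral_prod_right
  refine h.congr (Filter.Eventually.of_forall fun u => ?_)
  simp only
  have e2 : (fun p : (ℂ × ℂ) × (ℂ × ℂ) =>
      dd u univ * ((∏ i, ‖br (u i) p.1‖) * ∏ i, ‖br (u i) p.2‖) * (rr m p.1 * rr m p.2)) =
      fun p => dd u univ * (((∏ i, ‖br (u i) p.1‖) * rr m p.1) *
        ((∏ i, ‖br (u i) p.2‖) * rr m p.2)) := by
    funext p; ring
  rw [e2, integral_const_mul, integral_prod_mul (fun x => (∏ i, ‖br (u i) x‖) * rr m x)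
    (fun y => (∏ i, ‖br (u i) y‖) * rr m y), sq]
  rfl

theorem S_ge (m : ℕ) : kap m ^ 2 * (II 1 m ^ 2 / II 0 m) ≤
    ∫ p : (ℂ × ℂ) × (ℂ × ℂ), JJ m p.1 p.2 * (rr m p.1 * rr m p.2) ∂(gam.prod gam) := by
  rw [S_eq]
  have hpos := II_pos 0 m
  set t := kap m * II 1 m / II 0 m with ht
  have h1 : ∫ u : Fin m → ℂ × ℂ, (2 * t * (dd u univ * Pu u) - t ^ 2 * dd u univ) ∂(gamN (Fin m)) ≤
      ∫ u : Fin m → ℂ × ℂ, dd u univ * Pu u ^ 2 ∂(gamN (Fin m)) := by
    apply integral_mono (((integrable_ddP m).const_mul _).sub ((integrable_dd m).const_mul _))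
      (integrable_ddP2 m)
    intro u
    have h9 := dd_nonneg' u
    change 2 * t * (dd u univ * Pu u) - t ^ 2 * dd u univ ≤ dd u univ * Pu u ^ 2
    nlinarith [mul_nonneg h9 (sq_nonneg (Pu u - t))]
  refine le_trans (le_of_eq ?_) h1
  rw [integral_sub ((integrable_ddP m).const_mul _) ((integrable_dd m).const_mul _),
    integral_const_mul, integral_const_mul, int_ddP, int_dd, ht]
  field_simp
  ring

theorem integrable_JJrr (m : ℕ) :
    Integrable (fun p : (ℂ × ℂ) × (ℂ × ℂ) => JJ m p.1 p.2 * (rr m p.1 * rr m p.2))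
      (gam.prod gam) := by
  have h := (integrable_triple m).integral_prod_left
  have e1 : (fun p : (ℂ × ℂ) × (ℂ × ℂ) => JJ m p.1 p.2 * (rr m p.1 * rr m p.2)) =
      fun p => ∫ u : Fin m → ℂ × ℂ, dd u univ * ((∏ i, ‖br (u i) p.1‖) * ∏ i, ‖br (u i) p.2‖) *
        (rr m p.1 * rr m p.2) ∂(gamN (Fin m)) := by
    funext p
    rw [JJ_eq, integral_mul_const]
  rw [e1]
  exact h

theorem V1_ge (m : ℕ) : kap m ^ 2 * (II 1 m ^ 2 / II 0 m) ^ 3 ≤ V1 m := by
  have hpos := II_pos 0 m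
  set c := II 1 m ^ 2 / II 0 m with hc
  have hc0 : 0 ≤ c := by rw [hc]; positivity
  have hq : Integrable (fun p : (ℂ × ℂ) × (ℂ × ℂ) => qq p.1 ^ m * qq p.2 ^ m) (gam.prod gam) :=
    (integrable_qqm m).mul_prod (integrable_qqm m)
  have h1 : ∫ p : (ℂ × ℂ) × (ℂ × ℂ), (3 * c ^ 2 * (JJ m p.1 p.2 * (rr m p.1 * rr m p.2)) -
      2 * c ^ 3 * (qq p.1 ^ m * qq p.2 ^ m)) ∂(gam.prod gam) ≤ V1 m := by
    unfold V1
    apply integral_mono (((integrable_JJrr m).const_mul _).sub (hq.const_mul _)) (integrable_V1 m)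
    intro p
    exact tangent_ineq m hc0 p.1 p.2
  refine le_trans ?_ h1
  rw [integral_sub ((integrable_JJrr m).const_mul _) (hq.const_mul _), integral_const_mul,
    integral_const_mul, integral_prod_mul (fun x => qq x ^ m) (fun y => qq y ^ m)]
  have h2 := S_ge m
  rw [← hc] at h2
  have h3 : (∫ x, qq x ^ m ∂gam) = kap m := rfl
  rw [h3]
  have h4 : 3 * c ^ 2 * (kap m ^ 2 * c) ≤ 3 * c ^ 2 *
      ∫ p : (ℂ × ℂ) × (ℂ × ℂ), JJ m p.1 p.2 * (rr m p.1 * rr m p.2) ∂(gam.prod gam) :=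
    mul_le_mul_of_nonneg_left h2 (by positivity)
  nlinarith [h4]

end Pc0b458P
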