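import Pool.Agent.Lib.Pc0b458P.Pair

/-!
# Module Vand: evaluation of the Vandermonde test classes (about 2.2h)

`mon m ξ j` is the vector with entries `(ξ l).1^(m-j) * (ξ l).2^j`, `j = 0..m`. Write
`Θ = ∏ j : Fin (m+1), P.F (mon j) (conj mon j)`.

`vand_one`: by `PairMap.prod_equiv` (for `κ = U ⊕ Fin (m+1)`) the product is `|det|^2 • top`, where the matrix has the
rows `dl l` (`l ∈ U`) and `mon j`; expand: ordering the columns as `U`, `Uᶜ` it is block triangular with blocks `1` and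
the projective Vandermonde matrix of the points of `Uᶜ` (`Matrix.det_fromBlocks_zero₂₁`, `Matrix.det_reindex..`,
`Matrix.det_projVandermonde`; signs disappear in the absolute value), and `dd ξ Uᶜ = |Vandermonde|^2`.

`vand_two`: `PairMap.prod_zero`.

`vand_three`: let `f (p) = det (rows p, dl l (l ∈ U), mon j)`, so that
`P.F p q * ∏_U * Θ = f p * conj (f (conj q)) • top` (`prod_equiv`; the second matrix is the complex conjugate of the
first one with `p` replaced by `conj q`). `f` vanishes on `dl l`, `l ∈ U`, and on the `mon j`. Let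
`p_H (z) = ∏_{u ∈ H} br (ξ u) z`, a homogeneous polynomial of degree `m` in `z`, so the vector `(p_H (ξ l))_l` is a linear
combination of the `mon j` (induction on `H`, or: product of `m` linear forms `α z.2 - β z.1`) and `f` vanishes on it. Its
entries vanish for `l ∈ H`, so `p_H (ξ x) f (dl x) + p_H (ξ y) f (dl y) = 0`. Moreover
`|f (dl y)|^2 = dd ξ (insert x H) = dd ξ H * |p_H (ξ x)|^2` by `vand_one` for `insert y U`. Hence
`f (dl x) * conj (f (dl y)) * p_H (ξ x) = - |f (dl y)|^2 p_H (ξ y)`, and dividing by `p_H (ξ x) ≠ 0` gives the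
claim.
-/

open Finset ComplexConjugate

namespace Pc0b458P

section

variable {X : Type} [Fintype X] [DecidableEq X] {R : Type} [CommRing R] [Algebra ℂ R]

set_option linter.unusedSectionVars false

namespace VandAux

theorem cj_dl (x : X) : cj (dl x) = dl x := by
  funext l
  unfold cj dl
  by_cases h : l = x
  · subst h; simp
  · rw [Pi.single_eq_of_ne h, map_zero]

/-- the matrix with the rows `dl l`, `l ∈ U`, and `mon` -/
noncomputable def rows (m : ℕ) (ξ : X → ℂ × ℂ) (U : Finset X)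
    (ε : Fin (m + 1) ≃ {l // l ∉ U}) : Matrix X X ℂ :=
  Matrix.of fun l => if h : l ∈ U then dl l else mon m ξ (ε.symm ⟨l, h⟩)

theorem rows_mem {m : ℕ} {ξ : X → ℂ × ℂ} {U : Finset X} {ε : Fin (m + 1) ≃ {l // l ∉ U}}
    {l : X} (h : l ∈ U) : rows m ξ U ε l = dl l := dif_pos h

theorem rows_eps {m : ℕ} {ξ : X → ℂ × ℂ} {U : Finset X} {ε : Fin (m + 1) ≃ {l // l ∉ U}}
    (j : Fin (m + 1)) : rows m ξ U ε (ε j : X) = mon m ξ j := by
  have h : (if h : ((ε j : X)) ∈ U then dl (ε j : X) else mon m ξ (ε.symm ⟨(ε j : X), h⟩))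
      = mon m ξ j := by
    rw [dif_neg (ε j).2]
    congr 1
    rw [Equiv.symm_apply_eq]
  exact h

theorem exists_eps {m : ℕ} {U : Finset X} (hU : U.card + (m + 1) = Fintype.card X) :
    Nonempty (Fin (m + 1) ≃ {l // l ∉ U}) := by
  have h1 : Fintype.card {l // l ∉ U} = m + 1 := by
    rw [Fintype.card_subtype_compl, Fintype.card_coe]
    omega
  exact ⟨(Fintype.equivFinOfCardEq h1).symm⟩

theorem prod_split {m : ℕ} {U : Finset X} (ε : Fin (m + 1) ≃ {l // l ∉ U}) {S : Type}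
    [CommMonoid S] (F : X → S) : ∏ l, F l = (∏ l ∈ U, F l) * ∏ j : Fin (m + 1), F (ε j : X) := by
  rw [← Finset.prod_mul_prod_compl U F]
  congr 1
  rw [Finset.prod_subtype Uᶜ (p := fun l => l ∉ U) (by simp)]
  exact (Fintype.prod_equiv ε _ _ (fun j => rfl)).symm

/-- the product over ordered pairs as a product over increasing pairs -/
theorem prod_offDiag_fin (n : ℕ) (f : Fin n → Fin n → ℝ) (hf : ∀ i j, f i j = f j i) :
    ∏ p ∈ (univ : Finset (Fin n)).offDiag, f p.1 p.2 = (∏ i, ∏ j ∈ Ioi i, f i j) ^ 2 := by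
  have h1 : ∏ p ∈ (univ : Finset (Fin n)).offDiag, f p.1 p.2
      = ∏ i, ∏ j ∈ univ.filter (fun j => j ≠ i), f i j := by
    rw [Finset.prod_sigma']
    refine Finset.prod_bij' (fun p _ => ⟨p.1, p.2⟩) (fun p _ => (p.1, p.2)) ?_ ?_ ?_ ?_ ?_
    · rintro ⟨a, b⟩ h
      simp only [mem_offDiag, mem_univ, true_and, ne_eq] at h
      simp only [mem_sigma, mem_univ, mem_filter, true_and, ne_eq]
      exact fun h' => h h'.symm
    · rintro ⟨a, b⟩ h
      simp only [mem_sigma, mem_univ, mem_filter, true_and, ne_eq] at h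
      simp only [mem_offDiag, mem_univ, true_and, ne_eq]
      exact fun h' => h h'.symm
    · rintro ⟨a, b⟩ _; rfl
    · rintro ⟨a, b⟩ _; rfl
    · rintro ⟨a, b⟩ _; rfl
  have h2 : ∀ i : Fin n, ∏ j ∈ univ.filter (fun j => j ≠ i), f i j
      = (∏ j ∈ Ioi i, f i j) * ∏ j ∈ Iio i, f i j := by
    intro i
    rw [← Finset.prod_union]
    · apply Finset.prod_congr _ (fun _ _ => rfl)
      ext j
      simp only [mem_filter, mem_univ, true_and, mem_union, mem_Ioi, mem_Iio]
      constructor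
      · intro h
        rcases lt_or_gt_of_ne h with h | h
        · exact Or.inr h
        · exact Or.inl h
      · rintro (h | h)
        · exact ne_of_gt h
        · exact ne_of_lt h
    · rw [Finset.disjoint_left]
      intro j h h'
      rw [mem_Ioi] at h
      rw [mem_Iio] at h'
      exact lt_asymm h h'
  have h3 : ∏ i : Fin n, ∏ j ∈ Iio i, f i j = ∏ i : Fin n, ∏ j ∈ Ioi i, f i j := by
    rw [Finset.prod_comm' (s := univ) (t := fun i => Iio i) (t' := univ) (s' := fun j => Ioi j)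
      (by intro x y; simp)]
    refine Finset.prod_congr rfl (fun i _ => Finset.prod_congr rfl (fun j _ => hf j i))
  rw [h1, Finset.prod_congr rfl (fun i _ => h2 i), Finset.prod_mul_distrib, h3, sq]

theorem br_anti (p q : ℂ × ℂ) : br p q = -br q p := by unfold br; ring

theorem norm_br (p q : ℂ × ℂ) : ‖br p q‖ = ‖br q p‖ := by rw [br_anti, norm_neg]

theorem br_self (p : ℂ × ℂ) : br p p = 0 := by unfold br; ring

theorem dd_eps {m : ℕ} (ξ : X → ℂ × ℂ) (U : Finset X) (ε : Fin (m + 1) ≃ {l // l ∉ U}) :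
    dd ξ Uᶜ = (∏ i : Fin (m + 1), ∏ j ∈ Ioi i, ‖br (ξ (ε i)) (ξ (ε j))‖) ^ 2 := by
  rw [← prod_offDiag_fin (m + 1) (fun i j => ‖br (ξ (ε i)) (ξ (ε j))‖) (fun i j => norm_br _ _)]
  unfold dd
  symm
  refine Finset.prod_bij (fun p _ => ((ε p.1 : X), (ε p.2 : X))) ?_ ?_ ?_ ?_
  · rintro ⟨a, b⟩ h
    simp only [mem_offDiag, mem_univ, true_and, ne_eq] at h
    simp only [mem_offDiag, mem_compl, ne_eq]
    exact ⟨(ε a).2, (ε b).2, fun h' => h (ε.injective (Subtype.ext h'))⟩
  · rintro ⟨a, b⟩ _ ⟨a', b'⟩ _ h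
    simp only [Prod.mk.injEq] at h ⊢
    exact ⟨ε.injective (Subtype.ext h.1), ε.injective (Subtype.ext h.2)⟩
  · rintro ⟨a, b⟩ h
    simp only [mem_offDiag, mem_compl, ne_eq] at h
    refine ⟨(ε.symm ⟨a, h.1⟩, ε.symm ⟨b, h.2.1⟩), ?_, ?_⟩
    · simp only [mem_offDiag, mem_univ, true_and, ne_eq, EmbeddingLike.apply_eq_iff_eq,
        Subtype.mk.injEq]
      exact h.2.2
    · simp
  · rintro ⟨a, b⟩ _
    rfl

theorem det_rows {m : ℕ} (ξ : X → ℂ × ℂ) (U : Finset X) (ε : Fin (m + 1) ≃ {l // l ∉ U}) :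
    (rows m ξ U ε).det = ∏ i : Fin (m + 1), ∏ j ∈ Ioi i, br (ξ (ε i)) (ξ (ε j)) := by
  have h0 : ∀ i, i ∈ U → ∀ j, ¬ j ∈ U → rows m ξ U ε i j = 0 := by
    intro i hi j hj
    rw [rows_mem hi]
    unfold dl
    rw [Pi.single_eq_of_ne]
    rintro rfl
    exact hj hi
  rw [Matrix.twoBlockTriangular_det' (rows m ξ U ε) (fun l => l ∈ U) h0]
  have h1 : (Matrix.toSquareBlockProp (rows m ξ U ε) fun l => l ∈ U) = 1 := by
    ext ⟨i, hi⟩ ⟨j, hj⟩
    change rows m ξ U ε i j = _
    rw [rows_mem hi]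
    unfold dl
    by_cases h : i = j
    · subst h
      rw [Pi.single_eq_same, Matrix.one_apply_eq]
    · rw [Pi.single_eq_of_ne (Ne.symm h), Matrix.one_apply_ne (fun h' => h (congrArg Subtype.val h'))]
  have h1' : ∀ inst : Fintype {l // l ∈ U},
      @Matrix.det {l // l ∈ U} _ inst ℂ _ (1 : Matrix {l // l ∈ U} {l // l ∈ U} ℂ) = 1 := by
    intro inst
    exact Matrix.det_one
  rw [h1, h1', one_mul]
  have h2 : (Matrix.toSquareBlockProp (rows m ξ U ε) fun l => ¬ l ∈ U).submatrix ε ε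
      = (Matrix.projVandermonde (fun i => (ξ (ε i)).2) (fun i => (ξ (ε i)).1)).transpose := by
    ext i j
    change rows m ξ U ε (ε i) (ε j) = _
    rw [rows_eps]
    change (ξ (ε j)).1 ^ (m - i.1) * (ξ (ε j)).2 ^ i.1
      = (ξ (ε j)).2 ^ i.1 * (ξ (ε j)).1 ^ i.rev.1
    rw [mul_comm, Fin.val_rev]
    congr 2
    omega
  rw [← Matrix.det_submatrix_equiv_self ε, h2, Matrix.det_transpose, Matrix.det_projVandermonde]
  refine Finset.prod_congr rfl (fun i _ => Finset.prod_congr rfl (fun j _ => ?_))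
  unfold br
  ring

theorem norm_det_rows {m : ℕ} (ξ : X → ℂ × ℂ) (U : Finset X)
    (ε : Fin (m + 1) ≃ {l // l ∉ U}) :
    (rows m ξ U ε).det * conj (rows m ξ U ε).det = ((dd ξ Uᶜ : ℝ) : ℂ) := by
  have h1 : ‖∏ i : Fin (m + 1), ∏ j ∈ Ioi i, br (ξ (ε i)) (ξ (ε j))‖
      = ∏ i : Fin (m + 1), ∏ j ∈ Ioi i, ‖br (ξ (ε i)) (ξ (ε j))‖ := by
    rw [norm_prod]
    exact Finset.prod_congr rfl (fun i _ => norm_prod _ _)
  rw [Complex.mul_conj, Complex.normSq_eq_norm_sq, dd_eps ξ U ε, det_rows, h1]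

theorem det_cj (M : Matrix X X ℂ) : Matrix.det (Matrix.of fun l => cj (M l)) = conj M.det := by
  rw [← RingHom.coe_coe (starRingEnd ℂ), RingHom.map_det]
  rfl

theorem prod_rows (P : PairMap X R) {m : ℕ} (ξ : X → ℂ × ℂ) (U : Finset X)
    (ε : Fin (m + 1) ≃ {l // l ∉ U}) (M M' : Matrix X X ℂ)
    (hM : ∀ j, M (ε j : X) = mon m ξ j) (hM' : ∀ j, M' (ε j : X) = mon m ξ j) :
    (∏ l ∈ U, P.F (M l) (cj (M' l))) * Theta P m ξ = (M.det * conj M'.det) • P.top := by
  have h1 := P.prod_eq M (fun l => cj (M' l))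
  rw [prod_split ε] at h1
  have h2 : (∏ j : Fin (m + 1), P.F (M (ε j : X)) (cj (M' (ε j : X)))) = Theta P m ξ := by
    unfold Theta
    refine Finset.prod_congr rfl (fun j _ => ?_)
    rw [hM, hM']
  rw [h2] at h1
  rw [h1, det_cj]
  rfl

/-- products of linear forms are linear combinations of monomials -/
theorem prod_br (ξ : X → ℂ × ℂ) (H : Finset X) : ∃ c : ℕ → ℂ, ∀ z : ℂ × ℂ,
    ∏ u ∈ H, br (ξ u) z = ∑ j ∈ range (H.card + 1), c j * (z.1 ^ (H.card - j) * z.2 ^ j) := by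
  induction H using Finset.induction_on with
  | empty =>
    refine ⟨fun _ => 1, fun z => ?_⟩
    simp
  | insert u H hu ih =>
    obtain ⟨c, hc⟩ := ih
    set n := H.card with hn
    refine ⟨fun j => (ξ u).1 * (if j = 0 then 0 else c (j - 1)) -
      (ξ u).2 * (if j ≤ n then c j else 0), fun z => ?_⟩
    rw [Finset.prod_insert hu, hc z, Finset.card_insert_of_notMem hu, ← hn]
    have e1 : z.2 * ∑ j ∈ range (n + 1), c j * (z.1 ^ (n - j) * z.2 ^ j)
        = ∑ j ∈ range (n + 1 + 1), (if j = 0 then 0 else c (j - 1)) *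
          (z.1 ^ (n + 1 - j) * z.2 ^ j) := by
      rw [Finset.sum_range_succ' _ (n + 1), if_pos rfl, zero_mul, add_zero, Finset.mul_sum]
      refine Finset.sum_congr rfl (fun j _ => ?_)
      rw [if_neg (Nat.succ_ne_zero j), Nat.add_sub_cancel, Nat.add_sub_add_right, pow_succ]
      ring
    have e2 : z.1 * ∑ j ∈ range (n + 1), c j * (z.1 ^ (n - j) * z.2 ^ j)
        = ∑ j ∈ range (n + 1 + 1), (if j ≤ n then c j else 0) *
          (z.1 ^ (n + 1 - j) * z.2 ^ j) := by
      rw [Finset.sum_range_succ _ (n + 1), if_neg (by omega), zero_mul, add_zero, Finset.mul_sum]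
      refine Finset.sum_congr rfl (fun j hj => ?_)
      rw [mem_range] at hj
      rw [if_pos (by omega), show n + 1 - j = (n - j) + 1 by omega, pow_succ]
      ring
    have e3 : br (ξ u) z * ∑ j ∈ range (n + 1), c j * (z.1 ^ (n - j) * z.2 ^ j)
        = (ξ u).1 * (z.2 * ∑ j ∈ range (n + 1), c j * (z.1 ^ (n - j) * z.2 ^ j))
          - (ξ u).2 * (z.1 * ∑ j ∈ range (n + 1), c j * (z.1 ^ (n - j) * z.2 ^ j)) := by
      unfold br; ring
    rw [e3, e1, e2, Finset.mul_sum, Finset.mul_sum, ← Finset.sum_sub_distrib]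
    refine Finset.sum_congr rfl (fun j _ => ?_)
    ring

theorem dd_insert (ξ : X → ℂ × ℂ) (H : Finset X) (x : X) (hx : x ∉ H) :
    dd ξ (insert x H) = dd ξ H * ‖∏ u ∈ H, br (ξ u) (ξ x)‖ ^ 2 := by
  unfold dd
  rw [Finset.offDiag_insert hx, Finset.prod_union, Finset.prod_union, Finset.prod_product,
    Finset.prod_singleton, Finset.prod_product_right, Finset.prod_singleton, norm_prod]
  · have : ∏ u ∈ H, ‖br (ξ x) (ξ u)‖ = ∏ u ∈ H, ‖br (ξ u) (ξ x)‖ :=
      Finset.prod_congr rfl (fun u _ => norm_br _ _)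
    simp only [this]
    ring
  · rw [Finset.disjoint_left]
    rintro ⟨a, b⟩ h h'
    simp only [mem_offDiag, mem_product, mem_singleton] at h h'
    exact hx (h'.1 ▸ h.1)
  · rw [Finset.disjoint_left]
    rintro ⟨a, b⟩ h h'
    simp only [mem_union, mem_offDiag, mem_product, mem_singleton] at h h'
    rcases h with h | h
    · exact hx (h'.2 ▸ h.2.1)
    · exact hx (h.1 ▸ h'.1)

end VandAux

open VandAux

theorem vand_one (P : PairMap X R) (m : ℕ) (ξ : X → ℂ × ℂ) (U : Finset X)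
    (hU : U.card + (m + 1) = Fintype.card X) :
    (∏ l ∈ U, P.F (dl l) (dl l)) * Theta P m ξ = ((dd ξ Uᶜ : ℝ) : ℂ) • P.top := by
  obtain ⟨ε⟩ := exists_eps hU
  rw [← norm_det_rows ξ U ε, ← prod_rows P ξ U ε (rows m ξ U ε) (rows m ξ U ε)
    (fun j => rows_eps j) (fun j => rows_eps j)]
  congr 1
  refine Finset.prod_congr rfl (fun l hl => ?_)
  rw [rows_mem hl, cj_dl]

theorem vand_two (P : PairMap X R) (m : ℕ) (ξ : X → ℂ × ℂ) (U : Finset X)
    (hU : Fintype.card X < U.card + (m + 1)) :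
    (∏ l ∈ U, P.F (dl l) (dl l)) * Theta P m ξ = 0 := by
  have h1 := P.prod_zero (κ := {l // l ∈ U} ⊕ Fin (m + 1)) (by
      rw [Fintype.card_sum, Fintype.card_coe, Fintype.card_fin]
      exact hU)
    (Sum.elim (fun l => dl l.1) (mon m ξ)) (Sum.elim (fun l => dl l.1) (fun j => cj (mon m ξ j)))
  rw [Fintype.prod_sum_type] at h1
  rw [← h1]
  congr 1
  rw [← Finset.prod_coe_sort U]
  rfl

theorem vand_three (P : PairMap X R) (m : ℕ) (ξ : X → ℂ × ℂ)
    (hξ : ∀ i j, i ≠ j → br (ξ i) (ξ j) ≠ 0) (x y : X) (hxy : x ≠ y) (U H : Finset X)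
    (hH : ∀ l, l ∈ H ↔ l ∉ U ∧ l ≠ x ∧ l ≠ y) (hx : x ∉ U) (hy : y ∉ U) (hc : H.card = m) :
    P.F (dl x) (dl y) * (∏ l ∈ U, P.F (dl l) (dl l)) * Theta P m ξ =
      (-((dd ξ H : ℝ) : ℂ) * conj (∏ u ∈ H, br (ξ u) (ξ x)) * ∏ u ∈ H, br (ξ u) (ξ y)) •
        P.top := by
  have hxH : x ∉ H := fun h => ((hH x).1 h).2.1 rfl
  have hyH : y ∉ H := fun h => ((hH y).1 h).2.2 rfl
  have hcompl : (insert y U)ᶜ = insert x H := by
    ext l
    rw [mem_compl, mem_insert, mem_insert, hH]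
    constructor
    · intro h
      push Not at h
      by_cases hl : l = x
      · exact Or.inl hl
      · exact Or.inr ⟨h.2, hl, h.1⟩
    · rintro (rfl | h)
      · rintro (h | h)
        · exact hxy h
        · exact hx h
      · rintro (h' | h')
        · exact h.2.2 h'
        · exact h.1 h'
  have hcard : (insert y U).card + (m + 1) = Fintype.card X := by
    have h1 := Finset.card_add_card_compl (insert y U)
    rw [hcompl, Finset.card_insert_of_notMem hxH, hc] at h1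
    exact h1
  obtain ⟨ε⟩ := exists_eps hcard
  set M := rows m ξ (insert y U) ε with hM
  have hMy : M y = dl y := rows_mem (mem_insert_self y U)
  have hMl : ∀ l ∈ U, M l = dl l := fun l hl => rows_mem (mem_insert_of_mem hl)
  have hMe : ∀ j, M (ε j : X) = mon m ξ j := fun j => rows_eps j
  have hey : ∀ j, (ε j : X) ≠ y := by
    intro j h
    exact (ε j).2 (by rw [h]; exact mem_insert_self y U)
  -- the linear functional
  let f : (X → ℂ) →ₗ[ℂ] ℂ := (LinearMap.proj y).comp (Matrix.cramer M.transpose)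
  have hf : ∀ p, f p = (M.updateRow y p).det := fun p => Matrix.cramer_transpose_apply M p y
  have hfrow : ∀ i, i ≠ y → f (M i) = 0 := by
    intro i hi
    have h1 : Matrix.cramer M.transpose (M i) = Pi.single i M.det :=
      Matrix.cramer_transpose_row_self M i
    change Matrix.cramer M.transpose (M i) y = 0
    rw [h1, Pi.single_eq_of_ne (Ne.symm hi)]
  have hfy : f (dl y) = M.det := by
    rw [hf, ← hMy, Matrix.updateRow_eq_self]
  -- the product
  have hprod := prod_rows P ξ (insert y U) ε (M.updateRow y (dl x)) M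
    (fun j => by rw [Matrix.updateRow_ne (hey j)]; exact hMe j) hMe
  rw [Finset.prod_insert hy, Matrix.updateRow_self, hMy, cj_dl] at hprod
  have hprod' : (∏ l ∈ U, P.F ((M.updateRow y (dl x)) l) (cj (M l)))
      = ∏ l ∈ U, P.F (dl l) (dl l) := by
    refine Finset.prod_congr rfl (fun l hl => ?_)
    have hly : l ≠ y := by rintro rfl; exact hy hl
    rw [Matrix.updateRow_ne hly, hMl l hl, cj_dl]
  rw [hprod'] at hprod
  rw [hprod, ← hf]
  congr 1
  -- the relation
  obtain ⟨c, hcc⟩ := prod_br ξ H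
  rw [hc] at hcc
  let g : ℂ × ℂ → ℂ := fun z => ∏ u ∈ H, br (ξ u) z
  have hq1 : f (fun l => g (ξ l)) = 0 := by
    have h1 : (fun l => g (ξ l)) = ∑ j : Fin (m + 1), c j • mon m ξ j := by
      funext l
      rw [Finset.sum_apply]
      change g (ξ l) = ∑ j : Fin (m + 1), c j * ((ξ l).1 ^ (m - j.1) * (ξ l).2 ^ j.1)
      rw [Fin.sum_univ_eq_sum_range (fun j => c j * ((ξ l).1 ^ (m - j) * (ξ l).2 ^ j))]
      exact hcc (ξ l)
    rw [h1, map_sum]
    apply Finset.sum_eq_zero
    intro j _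
    rw [map_smul, ← hMe j, hfrow _ (hey j), smul_zero]
  have hq2 : f (fun l => g (ξ l)) = g (ξ x) * f (dl x) + g (ξ y) * f (dl y) := by
    have h1 : (fun l => g (ξ l)) = ∑ l, g (ξ l) • dl l := by
      funext l
      rw [Finset.sum_apply, Finset.sum_eq_single l]
      · simp [dl]
      · intro l' _ hl'
        simp [dl, Pi.single_eq_of_ne (Ne.symm hl')]
      · intro h; exact absurd (mem_univ l) h
    rw [h1, map_sum, ← Finset.add_sum_erase univ _ (mem_univ x),
      ← Finset.add_sum_erase _ _ (mem_erase.2 ⟨Ne.symm hxy, mem_univ y⟩), map_smul, map_smul,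
      smul_eq_mul, smul_eq_mul, ← add_assoc, Finset.sum_eq_zero, add_zero]
    intro l hl
    rw [mem_erase, mem_erase] at hl
    rw [map_smul, smul_eq_mul]
    by_cases hlU : l ∈ U
    · rw [← hMl l hlU, hfrow l hl.1, mul_zero]
    · have hlH : l ∈ H := (hH l).2 ⟨hlU, hl.2.1, hl.1⟩
      have : g (ξ l) = 0 := Finset.prod_eq_zero hlH (br_self _)
      rw [this, zero_mul]
  have hgx : g (ξ x) ≠ 0 := by
    apply Finset.prod_ne_zero_iff.2
    intro u hu
    apply hξ
    rintro rfl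
    exact hxH hu
  have hrel : g (ξ x) * f (dl x) = -(g (ξ y) * M.det) := by
    rw [hq1, hfy] at hq2
    exact eq_neg_of_add_eq_zero_left hq2.symm
  have hnorm : M.det * conj M.det = ((dd ξ H : ℝ) : ℂ) * (g (ξ x) * conj (g (ξ x))) := by
    rw [norm_det_rows, hcompl, dd_insert ξ H x hxH, Complex.mul_conj, Complex.normSq_eq_norm_sq]
    push_cast
    rfl
  change f (dl x) * conj M.det = -((dd ξ H : ℝ) : ℂ) * conj (g (ξ x)) * g (ξ y)
  apply mul_left_cancel₀ hgx
  calc g (ξ x) * (f (dl x) * conj M.det) = (g (ξ x) * f (dl x)) * conj M.det := by ring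
    _ = -(g (ξ y)) * (M.det * conj M.det) := by rw [hrel]; ring
    _ = g (ξ x) * (-((dd ξ H : ℝ) : ℂ) * conj (g (ξ x)) * g (ξ y)) := by rw [hnorm]; ring

end

end Pc0b458P
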