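import Pool.Agent.Lib.Pc0b458P.Basic

/-!
# Pair maps and test vectors: definitions
-/

open Finset ComplexConjugate

namespace Pc0b458P

/-- A bilinear map into a commutative algebra whose values behave like products of a vector of one space
and a vector of another space in an exterior algebra. -/
structure PairMap (X : Type) [Fintype X] (R : Type) [CommRing R] [Algebra ℂ R] where
  F : (X → ℂ) →ₗ[ℂ] (X → ℂ) →ₗ[ℂ] R
  left : ∀ u v v', F u v * F u v' = 0
  right : ∀ u u' v, F u v * F u' v = 0

section

variable {X : Type} [DecidableEq X]

/-- unit vectors -/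
noncomputable def dl (x : X) : X → ℂ := Pi.single x 1

end

section

variable {X : Type}

/-- the test vectors -/
noncomputable def mon (m : ℕ) (ξ : X → ℂ × ℂ) (j : Fin (m + 1)) : X → ℂ :=
  fun l => (ξ l).1 ^ (m - j.1) * (ξ l).2 ^ j.1

/-- the complex conjugate vector -/
noncomputable def cj (v : X → ℂ) : X → ℂ := fun l => conj (v l)

end

section

variable {X : Type} [Fintype X] {R : Type} [CommRing R] [Algebra ℂ R]

/-- the top element -/
noncomputable def PairMap.top [DecidableEq X] (P : PairMap X R) : R := ∏ x, P.F (dl x) (dl x)

/-- the product of the test classes -/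
noncomputable def Theta (P : PairMap X R) (m : ℕ) (ξ : X → ℂ × ℂ) : R :=
  ∏ j : Fin (m + 1), P.F (mon m ξ j) (cj (mon m ξ j))

end

end Pc0b458P
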