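import Pool.Agent.Lib.Pc0b458P.Fou

/-!
# Module Wt: the monomials of a given weight (about 2h)

`mo f = 0` unless the pairs `f j` are distinct (`ιMulti` is alternating: `AlternatingMap.map_eq_zero_of_eq`). For distinct
pairs the part of `f` over `s : Φ` is empty or has both signs (weight `0`), or is `true` (weight `1`) or `false` (weight `-1`).
Permuting the entries of `f` changes `mo f` by a sign. `supp η = {s | η s ≠ 0}`.
* `wt_four`: for `card (supp η) = 4` enumerate the support by `J` and put `b i = decide (η (J i) = 1)`; then a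
  monomial of weight `η` with four entries is `± m4 J b`, and one of weight `-η` is `± m4 J (not b)`.
* `wt_two`: for `card (supp η) = 2`, `supp η = {p, q}`: a monomial with four entries has the entries `(p, _)`, `(q, _)` and
  both entries over one further `s`; it is `± Ds s * ev ..`. A monomial with two entries is `± ev ..`.
* `wt_zero`: for `η = 0`: `± Ds s * Ds t`, `s ≠ t`.
* `wt_other`: otherwise there is no nonzero monomial with four entries.
-/

universe u

open Pc0b458 Finset ComplexConjugate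

namespace Pc0b458P

variable {Φ : Type} [Fintype Φ] [DecidableEq Φ]

/-- the product of two vectors -/
noncomputable def m2 (p q : Φ) (a b : Bool) : HH Φ Unit := (ev (ee p a ()) (ee q b ()) : HC Φ Unit)

namespace WtAux

omit [Fintype Φ] in
theorem mo_perm {k : ℕ} (f g : Fin k → Φ × Bool) (h : ∀ j, ∃ i, g i = f j) :
    ∃ c : ℂ, mo f = c • mo g := by
  classical
  choose σ hσ using h
  by_cases hinj : Function.Injective σ
  · have hb : Function.Bijective σ := Finite.injective_iff_bijective.1 hinj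
    refine ⟨((Equiv.Perm.sign (Equiv.ofBijective σ hb) : ℤ) : ℂ), ?_⟩
    have h1 : (fun j => ee (f j).1 (f j).2 () : Fin k → HV Φ Unit) =
        (fun i => ee (g i).1 (g i).2 ()) ∘ (Equiv.ofBijective σ hb) := by
      funext j
      simp only [Function.comp_apply, Equiv.ofBijective_apply, hσ]
    unfold mo
    rw [h1, AlternatingMap.map_perm, Units.smul_def, ← Int.cast_smul_eq_zsmul ℂ]
  · refine ⟨0, ?_⟩
    rw [zero_smul]
    unfold Function.Injective at hinj
    push Not at hinj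
    obtain ⟨i, j, hij, hne⟩ := hinj
    unfold mo
    apply AlternatingMap.map_eq_zero_of_eq _ _ _ hne
    simp only [← hσ, hij]

omit [Fintype Φ] in
theorem mo_not_inj {k : ℕ} (f : Fin k → Φ × Bool) (h : ¬ Function.Injective f) : mo f = 0 := by
  unfold Function.Injective at h
  push Not at h
  obtain ⟨i, j, hij, hne⟩ := h
  unfold mo
  apply AlternatingMap.map_eq_zero_of_eq _ _ _ hne
  simp only [hij]

omit [Fintype Φ] in
theorem mo_four (g : Fin 4 → Φ × Bool) : mo g = ExteriorAlgebra.ι ℂ (ee (g 0).1 (g 0).2 ()) *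
    ExteriorAlgebra.ι ℂ (ee (g 1).1 (g 1).2 ()) * (ExteriorAlgebra.ι ℂ (ee (g 2).1 (g 2).2 ()) *
    ExteriorAlgebra.ι ℂ (ee (g 3).1 (g 3).2 ())) := by
  unfold mo
  rw [ExteriorAlgebra.ιMulti_apply]
  simp only [List.ofFn_succ, List.ofFn_zero, List.prod_cons, List.prod_nil, mul_one, mul_assoc]
  rfl

omit [Fintype Φ] in
theorem mo_two (g : Fin 2 → Φ × Bool) : mo g = ExteriorAlgebra.ι ℂ (ee (g 0).1 (g 0).2 ()) *
    ExteriorAlgebra.ι ℂ (ee (g 1).1 (g 1).2 ()) := by
  unfold mo
  rw [ExteriorAlgebra.ιMulti_apply]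
  simp only [List.ofFn_succ, List.ofFn_zero, List.prod_cons, List.prod_nil, mul_one]
  rfl

/-- the number of entries equal to `(s, b)` -/
def T {k : ℕ} (f : Fin k → Φ × Bool) (s : Φ) (b : Bool) : ℕ :=
  (univ.filter fun j => f j = (s, b)).card

/-- the number of entries over `s` -/
def N {k : ℕ} (f : Fin k → Φ × Bool) (s : Φ) : ℕ := T f s true + T f s false

omit [Fintype Φ] in
theorem T_le {k : ℕ} {f : Fin k → Φ × Bool} (hf : Function.Injective f) (s : Φ) (b : Bool) :
    T f s b ≤ 1 := by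
  unfold T
  rw [Finset.card_le_one]
  intro i hi j hj
  rw [mem_filter] at hi hj
  exact hf (hi.2.trans hj.2.symm)

omit [Fintype Φ] in
theorem T_pos {k : ℕ} {f : Fin k → Φ × Bool} {s : Φ} {b : Bool} (j : Fin k) (h : f j = (s, b)) :
    0 < T f s b := by
  unfold T
  rw [Finset.card_pos]
  exact ⟨j, by rw [mem_filter]; exact ⟨mem_univ j, h⟩⟩

omit [Fintype Φ] in
theorem N_pos {k : ℕ} {f : Fin k → Φ × Bool} (j : Fin k) : 0 < N f (f j).1 := by
  unfold N
  rcases h : (f j).2 with _ | _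
  · have := T_pos (f := f) (s := (f j).1) (b := false) j (by rw [← h])
    omega
  · have := T_pos (f := f) (s := (f j).1) (b := true) j (by rw [← h])
    omega

theorem sum_N {k : ℕ} (f : Fin k → Φ × Bool) : ∑ s, N f s = k := by
  have h1 : (univ : Finset (Fin k)).card = ∑ s : Φ, (univ.filter fun j => (f j).1 = s).card :=
    Finset.card_eq_sum_card_fiberwise (fun j _ => mem_univ _)
  rw [Finset.card_univ, Fintype.card_fin] at h1
  refine Eq.trans ?_ h1.symm
  refine Finset.sum_congr rfl fun s _ => ?_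
  unfold N T
  rw [← Finset.card_union_of_disjoint]
  · congr 1
    ext j
    simp only [mem_union, mem_filter, mem_univ, true_and]
    constructor
    · rintro (h | h) <;> rw [h]
    · intro h
      rcases h2 : (f j).2 with _ | _
      · right
        exact Prod.ext h h2
      · left
        exact Prod.ext h h2
  · rw [Finset.disjoint_filter]
    intro j _ h1 h2
    rw [h1] at h2
    simp at h2

omit [Fintype Φ] in
theorem wt_eq {k : ℕ} (f : Fin k → Φ × Bool) (s : Φ) :
    wt f s = (T f s true : ZMod 3) - (T f s false : ZMod 3) := by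
  unfold wt T
  rw [Finset.sum_apply, Finset.card_filter, Finset.card_filter, Nat.cast_sum, Nat.cast_sum,
    ← Finset.sum_sub_distrib]
  refine Finset.sum_congr rfl fun j _ => ?_
  obtain ⟨t, b⟩ := f j
  by_cases h : t = s
  · subst h
    cases b <;> simp
  · rw [Pi.single_eq_of_ne (Ne.symm h)]
    simp [h]

omit [Fintype Φ] in
theorem cases {k : ℕ} {f : Fin k → Φ × Bool} (hf : Function.Injective f) (s : Φ) :
    (T f s true = 0 ∧ T f s false = 0 ∧ wt f s = 0 ∧ N f s = 0) ∨
    (T f s true = 1 ∧ T f s false = 0 ∧ wt f s = 1 ∧ N f s = 1) ∨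
    (T f s true = 0 ∧ T f s false = 1 ∧ wt f s = -1 ∧ N f s = 1) ∨
    (T f s true = 1 ∧ T f s false = 1 ∧ wt f s = 0 ∧ N f s = 2) := by
  have h1 := T_le hf s true
  have h2 := T_le hf s false
  have h3 := wt_eq f s
  have h4 : N f s = T f s true + T f s false := rfl
  have h5 : T f s true = 0 ∨ T f s true = 1 := by omega
  have h6 : T f s false = 0 ∨ T f s false = 1 := by omega
  rcases h5 with h5 | h5 <;> rcases h6 with h6 | h6 <;> rw [h5, h6] at h3 h4 <;>
    simp [h5, h6, h3, h4]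

omit [Fintype Φ] in
theorem N_ne {k : ℕ} {f : Fin k → Φ × Bool} (hf : Function.Injective f) (s : Φ)
    (h : wt f s ≠ 0) : N f s = 1 := by
  rcases cases hf s with h1 | h1 | h1 | h1
  · exact absurd h1.2.2.1 h
  · exact h1.2.2.2
  · exact h1.2.2.2
  · exact absurd h1.2.2.1 h

omit [Fintype Φ] in
theorem N_zero {k : ℕ} {f : Fin k → Φ × Bool} (hf : Function.Injective f) (s : Φ)
    (h : wt f s = 0) : N f s = 0 ∨ N f s = 2 := by
  have h01 : (1 : ZMod 3) ≠ 0 := by decide
  have h02 : (-1 : ZMod 3) ≠ 0 := by decide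
  rcases cases hf s with h1 | h1 | h1 | h1
  · exact Or.inl h1.2.2.2
  · exact absurd (h1.2.2.1.symm.trans h) h01
  · exact absurd (h1.2.2.1.symm.trans h) h02
  · exact Or.inr h1.2.2.2

omit [Fintype Φ] in
theorem entry {k : ℕ} {f : Fin k → Φ × Bool} (hf : Function.Injective f) (j : Fin k) (b : Bool)
    (h : wt f (f j).1 = if b then 1 else -1) : f j = ((f j).1, b) := by
  have h12 : (1 : ZMod 3) ≠ -1 := by decide
  have h01 : (1 : ZMod 3) ≠ 0 := by decide
  have h02 : (-1 : ZMod 3) ≠ 0 := by decide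
  have h3 : (f j).2 = b := by
    cases hb : (f j).2 <;> cases b
    · rfl
    · exfalso
      have h4 := T_pos (f := f) (s := (f j).1) (b := false) j (by rw [← hb])
      rw [if_pos rfl] at h
      rcases cases hf (f j).1 with h1 | h1 | h1 | h1
      · omega
      · omega
      · exact h12 (h.symm.trans h1.2.2.1)
      · exact h01 (h.symm.trans h1.2.2.1)
    · exfalso
      have h4 := T_pos (f := f) (s := (f j).1) (b := true) j (by rw [← hb])
      rw [if_neg Bool.false_ne_true] at h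
      rcases cases hf (f j).1 with h1 | h1 | h1 | h1
      · omega
      · exact h12 (h1.2.2.1.symm.trans h)
      · omega
      · exact h02 (h.symm.trans h1.2.2.1)
    · rfl
  exact Prod.ext rfl h3

omit [Fintype Φ] in
/-- extraction of one element -/
theorem pick (S : Finset Φ) (n : Φ → ℕ) (m : ℕ) (h : ∀ s ∈ S, n s = 0 ∨ n s = 2)
    (hs : ∑ s ∈ S, n s = m + 2) : ∃ s ∈ S, n s = 2 ∧ ∑ t ∈ S.erase s, n t = m := by
  have h1 : ∃ s ∈ S, n s ≠ 0 := by
    by_contra hcon
    push Not at hcon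
    rw [Finset.sum_eq_zero hcon] at hs
    omega
  obtain ⟨s, hsS, hn⟩ := h1
  have h2 : n s = 2 := (h s hsS).resolve_left hn
  refine ⟨s, hsS, h2, ?_⟩
  have h3 := Finset.add_sum_erase S n hsS
  omega

/-- the support -/
def supp (η : Φ → ZMod 3) : Finset Φ := univ.filter fun s => η s ≠ 0

theorem mem_supp (η : Φ → ZMod 3) (s : Φ) : s ∈ supp η ↔ η s ≠ 0 := by
  unfold supp
  rw [mem_filter]
  exact ⟨fun h => h.2, fun h => ⟨mem_univ s, h⟩⟩

theorem supp_neg (η : Φ → ZMod 3) : supp (-η) = supp η := by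
  ext s
  rw [mem_supp, mem_supp, Pi.neg_apply, neg_ne_zero]

theorem sum_compl {k : ℕ} {f : Fin k → Φ × Bool} (hf : Function.Injective f) :
    (supp (wt f)).card + ∑ s ∈ (supp (wt f))ᶜ, N f s = k := by
  have h1 := sum_N f
  rw [← Finset.sum_add_sum_compl (supp (wt f))] at h1
  have h2 : ∑ s ∈ supp (wt f), N f s = (supp (wt f)).card := by
    rw [Finset.card_eq_sum_ones]
    exact Finset.sum_congr rfl fun s hs => N_ne hf s ((mem_supp _ s).1 hs)
  omega

theorem compl_cases {k : ℕ} {f : Fin k → Φ × Bool} (hf : Function.Injective f) :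
    ∀ s ∈ (supp (wt f))ᶜ, N f s = 0 ∨ N f s = 2 := by
  intro s hs
  rw [mem_compl, mem_supp, not_not] at hs
  exact N_zero hf s hs

theorem sign_val {x : ZMod 3} (hx : x ≠ 0) : x = if decide (x = 1) then 1 else -1 := by
  revert x
  decide

theorem sign_neg (x : ZMod 3) (b : Bool) (h : x = if b then 1 else -1) :
    -x = if !b then 1 else -1 := by
  rw [h]
  cases b <;> simp

theorem four_aux (η : Φ → ZMod 3) (J : Fin 4 → Φ) (hJ : ∀ s, η s ≠ 0 → ∃ i, J i = s)
    (hc : (supp η).card = 4) (b : Fin 4 → Bool) (hb : ∀ i, η (J i) = if b i then 1 else -1)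
    (f : Fin 4 → Φ × Bool) (hf : wt f = η) : ∃ c : ℂ, mo f = c • (m4 J b () : HC Φ Unit) := by
  have hg : (m4 J b () : HC Φ Unit) = (mo fun i => (J i, b i) : HH Φ Unit) := by
    rw [mo_four]
    rfl
  rw [hg]
  by_cases hi : Function.Injective f
  swap
  · exact ⟨0, by rw [mo_not_inj f hi, zero_smul]⟩
  apply mo_perm
  intro j
  have h1 := sum_compl hi
  rw [hf, hc] at h1
  have h2 : ∑ s ∈ (supp η)ᶜ, N f s = 0 := by omega
  have h3 : (f j).1 ∈ supp η := by
    by_contra hcon
    have h4 := N_pos (f := f) j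
    rw [Finset.sum_eq_zero_iff] at h2
    have h5 := h2 (f j).1 (by rw [mem_compl]; exact hcon)
    omega
  obtain ⟨i, hi'⟩ := hJ (f j).1 ((mem_supp _ _).1 h3)
  refine ⟨i, ?_⟩
  have h6 := entry hi j (b i) (by rw [hf, ← hi', hb i])
  rw [h6, hi']

theorem span_single {k : ℕ} (η : Φ → ZMod 3) (v : HH Φ Unit)
    (h : ∀ f : Fin k → Φ × Bool, wt f = η → ∃ c : ℂ, mo f = c • v) :
    ∀ z ∈ Submodule.span ℂ {w | ∃ f : Fin k → Φ × Bool, wt f = η ∧ w = mo f},
      ∃ c : ℂ, z = c • v := by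
  intro z hz
  have h1 : Submodule.span ℂ {w | ∃ f : Fin k → Φ × Bool, wt f = η ∧ w = mo f} ≤
      Submodule.span ℂ {v} := by
    rw [Submodule.span_le]
    rintro w ⟨f, hf, rfl⟩
    obtain ⟨c, hc⟩ := h f hf
    rw [hc]
    exact Submodule.smul_mem _ _ (Submodule.mem_span_singleton_self v)
  obtain ⟨c, hc⟩ := Submodule.mem_span_singleton.1 (h1 hz)
  exact ⟨c, hc.symm⟩

/-- the sums of multiples of the elements `v s` -/
noncomputable def comb (S : Finset Φ) (v : Φ → HH Φ Unit) : (Φ → ℂ) →ₗ[ℂ] HH Φ Unit where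
  toFun c := ∑ s ∈ S, c s • v s
  map_add' a b := by
    simp only [Pi.add_apply, add_smul, Finset.sum_add_distrib]
  map_smul' a b := by
    simp only [Pi.smul_apply, smul_eq_mul, mul_smul, Finset.smul_sum, RingHom.id_apply]

theorem span_comb {k : ℕ} (η : Φ → ZMod 3) (S : Finset Φ) (v : Φ → HH Φ Unit)
    (h : ∀ f : Fin k → Φ × Bool, wt f = η → mo f = 0 ∨ ∃ s ∈ S, ∃ c : ℂ, mo f = c • v s) :
    ∀ z ∈ Submodule.span ℂ {w | ∃ f : Fin k → Φ × Bool, wt f = η ∧ w = mo f},
      ∃ c : Φ → ℂ, z = ∑ s ∈ S, c s • v s := by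
  intro z hz
  have h1 : Submodule.span ℂ {w | ∃ f : Fin k → Φ × Bool, wt f = η ∧ w = mo f} ≤
      LinearMap.range (comb S v) := by
    rw [Submodule.span_le]
    rintro w ⟨f, hf, rfl⟩
    rcases h f hf with h0 | ⟨s, hs, c, hc⟩
    · rw [h0]
      exact Submodule.zero_mem _
    · refine ⟨Pi.single s c, ?_⟩
      change ∑ t ∈ S, (Pi.single s c : Φ → ℂ) t • v t = mo f
      rw [Finset.sum_eq_single_of_mem s hs, Pi.single_eq_same, hc]
      intro t _ hts
      rw [Pi.single_eq_of_ne hts, zero_smul]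
  obtain ⟨c, hc⟩ := h1 hz
  exact ⟨c, hc.symm⟩

theorem two_aux (η : Φ → ZMod 3) (p q : Φ) (hpq : p ≠ q) (hs : supp η = {p, q}) (a b : Bool)
    (ha : η p = if a then 1 else -1) (hb : η q = if b then 1 else -1)
    (f : Fin 4 → Φ × Bool) (hf : wt f = η) :
    mo f = 0 ∨ ∃ s ∈ (univ.erase p).erase q, ∃ c : ℂ, mo f = c • (Ds s * m2 p q a b) := by
  by_cases hi : Function.Injective f
  swap
  · exact Or.inl (mo_not_inj f hi)
  right
  have h1 := sum_compl hi
  have h0 := compl_cases hi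
  rw [hf] at h1 h0
  have hc : (supp η).card = 2 := by rw [hs, Finset.card_pair hpq]
  obtain ⟨s, hsS, h2, h3⟩ := pick (supp η)ᶜ (N f) 0 h0 (by omega)
  rw [mem_compl, hs, mem_insert, mem_singleton, not_or] at hsS
  refine ⟨s, ?_, ?_⟩
  · rw [mem_erase, mem_erase]
    exact ⟨hsS.2, hsS.1, mem_univ s⟩
  have hg : (Ds s * m2 p q a b : HH Φ Unit) =
      mo (![(s, true), (s, false), (p, a), (q, b)] : Fin 4 → Φ × Bool) := by
    rw [mo_four]
    rfl
  rw [hg]
  apply mo_perm
  intro j
  by_cases hj : (f j).1 ∈ supp η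
  · rw [hs, mem_insert, mem_singleton] at hj
    rcases hj with hj | hj
    · refine ⟨2, ?_⟩
      have h6 := entry hi j a (by rw [hf, hj, ha])
      rw [h6, hj]
      rfl
    · refine ⟨3, ?_⟩
      have h6 := entry hi j b (by rw [hf, hj, hb])
      rw [h6, hj]
      rfl
  · have hjs : (f j).1 = s := by
      by_contra hcon
      have h4 := N_pos (f := f) j
      rw [Finset.sum_eq_zero_iff] at h3
      have h5 := h3 (f j).1 (by rw [mem_erase, mem_compl]; exact ⟨hcon, hj⟩)
      omega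
    rcases hb' : (f j).2 with _ | _
    · exact ⟨1, (Prod.ext hjs hb').symm⟩
    · exact ⟨0, (Prod.ext hjs hb').symm⟩

theorem two_aux' (η : Φ → ZMod 3) (p q : Φ) (hpq : p ≠ q) (hs : supp η = {p, q}) (a b : Bool)
    (ha : η p = if a then 1 else -1) (hb : η q = if b then 1 else -1)
    (f : Fin 2 → Φ × Bool) (hf : wt f = η) : ∃ c : ℂ, mo f = c • m2 p q a b := by
  by_cases hi : Function.Injective f
  swap
  · exact ⟨0, by rw [mo_not_inj f hi, zero_smul]⟩
  have h1 := sum_compl hi
  rw [hf] at h1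
  have hc : (supp η).card = 2 := by rw [hs, Finset.card_pair hpq]
  have h3 : ∑ s ∈ (supp η)ᶜ, N f s = 0 := by omega
  have hg : (m2 p q a b : HH Φ Unit) = mo (![(p, a), (q, b)] : Fin 2 → Φ × Bool) := by
    rw [mo_two]
    rfl
  rw [hg]
  apply mo_perm
  intro j
  have hj : (f j).1 ∈ supp η := by
    by_contra hcon
    have h4 := N_pos (f := f) j
    rw [Finset.sum_eq_zero_iff] at h3
    have h5 := h3 (f j).1 (by rw [mem_compl]; exact hcon)
    omega
  rw [hs, mem_insert, mem_singleton] at hj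
  rcases hj with hj | hj
  · refine ⟨0, ?_⟩
    have h6 := entry hi j a (by rw [hf, hj, ha])
    rw [h6, hj]
    rfl
  · refine ⟨1, ?_⟩
    have h6 := entry hi j b (by rw [hf, hj, hb])
    rw [h6, hj]
    rfl

theorem zero_aux (f : Fin 4 → Φ × Bool) (hf : wt f = 0) :
    mo f = 0 ∨ ∃ s t : Φ, s ≠ t ∧ ∃ c : ℂ, mo f = c • (Ds s * Ds t) := by
  by_cases hi : Function.Injective f
  swap
  · exact Or.inl (mo_not_inj f hi)
  right
  have h1 := sum_compl hi
  have h0 := compl_cases hi
  rw [hf] at h1 h0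
  have hs : supp (0 : Φ → ZMod 3) = ∅ := by
    ext s
    rw [mem_supp]
    simp
  rw [hs, Finset.card_empty, zero_add] at h1
  rw [hs] at h0
  obtain ⟨s, hsS, h2, h3⟩ := pick (∅ᶜ) (N f) 2 h0 h1
  obtain ⟨t, htS, h2', h3'⟩ := pick _ (N f) 0
    (fun u hu => h0 u (Finset.erase_subset _ _ hu)) h3
  rw [mem_erase] at htS
  refine ⟨s, t, htS.1.symm, ?_⟩
  have hg : (Ds s * Ds t : HH Φ Unit) =
      mo (![(s, true), (s, false), (t, true), (t, false)] : Fin 4 → Φ × Bool) := by
    rw [mo_four]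
    rfl
  rw [hg]
  apply mo_perm
  intro j
  have hjs : (f j).1 = s ∨ (f j).1 = t := by
    by_contra hcon
    rw [not_or] at hcon
    have h4 := N_pos (f := f) j
    rw [Finset.sum_eq_zero_iff] at h3'
    have h5 := h3' (f j).1 (by
      rw [mem_erase, mem_erase]
      exact ⟨hcon.2, hcon.1, by simp⟩)
    omega
  rcases hjs with hjs | hjs
  · rcases hb' : (f j).2 with _ | _
    · exact ⟨1, (Prod.ext hjs hb').symm⟩
    · exact ⟨0, (Prod.ext hjs hb').symm⟩
  · rcases hb' : (f j).2 with _ | _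
    · exact ⟨3, (Prod.ext hjs hb').symm⟩
    · exact ⟨2, (Prod.ext hjs hb').symm⟩

omit [Fintype Φ] in
theorem Ds_comm (s t : Φ) : (Ds s * Ds t : HH Φ Unit) = Ds t * Ds s := by
  have h := (ev (ee s true ()) (ee s false ()) : HC Φ Unit).2
  rw [Subalgebra.mem_center_iff] at h
  exact (h (Ds t)).symm

end WtAux

open WtAux

theorem wt_four (η : Φ → ZMod 3) (h : (univ.filter fun s => η s ≠ 0).card = 4) :
    ∃ (J : Fin 4 → Φ) (b : Fin 4 → Bool), Function.Injective J ∧
      (∀ z ∈ Submodule.span ℂ {w | ∃ f : Fin 4 → Φ × Bool, wt f = η ∧ w = mo f},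
        ∃ c : ℂ, z = c • (m4 J b () : HC Φ Unit)) ∧
      (∀ z ∈ Submodule.span ℂ {w | ∃ f : Fin 4 → Φ × Bool, wt f = -η ∧ w = mo f},
        ∃ c : ℂ, z = c • (m4 J (fun i => !(b i)) () : HC Φ Unit)) := by
  have h' : (supp η).card = 4 := h
  let e := (supp η).equivFinOfCardEq h'
  let J : Fin 4 → Φ := fun i => (e.symm i).1
  have hJ : ∀ s, η s ≠ 0 → ∃ i, J i = s := by
    intro s hs
    refine ⟨e ⟨s, (mem_supp η s).2 hs⟩, ?_⟩
    change (e.symm (e ⟨s, (mem_supp η s).2 hs⟩)).1 = s
    rw [Equiv.symm_apply_apply]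
  have hJ0 : ∀ i, η (J i) ≠ 0 := fun i => (mem_supp η _).1 (e.symm i).2
  let b : Fin 4 → Bool := fun i => decide (η (J i) = 1)
  have hb : ∀ i, η (J i) = if b i then 1 else -1 := fun i => sign_val (hJ0 i)
  refine ⟨J, b, ?_, ?_, ?_⟩
  · intro i j hij
    exact e.symm.injective (Subtype.ext hij)
  · exact span_single η _ (four_aux η J hJ h' b hb)
  · refine span_single (-η) _ (four_aux (-η) J ?_ ?_ _ ?_)
    · intro s hs
      exact hJ s (by rwa [Pi.neg_apply, neg_ne_zero] at hs)
    · rw [supp_neg, h']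
    · intro i
      rw [Pi.neg_apply]
      exact sign_neg _ _ (hb i)

theorem wt_two (η : Φ → ZMod 3) (h : (univ.filter fun s => η s ≠ 0).card = 2) :
    ∃ (p q : Φ) (a b : Bool), p ≠ q ∧
      (∀ z ∈ Submodule.span ℂ {w | ∃ f : Fin 4 → Φ × Bool, wt f = η ∧ w = mo f},
        ∃ c : Φ → ℂ, z = ∑ s ∈ (univ.erase p).erase q, c s • (Ds s * m2 p q a b)) ∧
      (∀ z ∈ Submodule.span ℂ {w | ∃ f : Fin 4 → Φ × Bool, wt f = -η ∧ w = mo f},
        ∃ c : Φ → ℂ, z = ∑ s ∈ (univ.erase p).erase q, c s • (Ds s * m2 p q (!a) (!b))) ∧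
      (∀ z ∈ Submodule.span ℂ {w | ∃ f : Fin 2 → Φ × Bool, wt f = η ∧ w = mo f},
        ∃ c : ℂ, z = c • m2 p q a b) ∧
      (∀ z ∈ Submodule.span ℂ {w | ∃ f : Fin 2 → Φ × Bool, wt f = -η ∧ w = mo f},
        ∃ c : ℂ, z = c • m2 p q (!a) (!b)) := by
  have h' : (supp η).card = 2 := h
  obtain ⟨p, q, hpq, hs⟩ := Finset.card_eq_two.1 h'
  have hp : η p ≠ 0 := (mem_supp η p).1 (by rw [hs]; simp)
  have hq : η q ≠ 0 := (mem_supp η q).1 (by rw [hs]; simp)
  have ha := sign_val hp
  have hb := sign_val hq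
  have hs' : supp (-η) = {p, q} := by rw [supp_neg, hs]
  have ha' : (-η) p = if !(decide (η p = 1)) then 1 else -1 := by
    rw [Pi.neg_apply]
    exact sign_neg _ _ ha
  have hb' : (-η) q = if !(decide (η q = 1)) then 1 else -1 := by
    rw [Pi.neg_apply]
    exact sign_neg _ _ hb
  refine ⟨p, q, decide (η p = 1), decide (η q = 1), hpq, ?_, ?_, ?_, ?_⟩
  · exact span_comb η _ _ (two_aux η p q hpq hs _ _ ha hb)
  · exact span_comb (-η) _ _ (two_aux (-η) p q hpq hs' _ _ ha' hb')
  · exact span_single η _ (two_aux' η p q hpq hs _ _ ha hb)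
  · exact span_single (-η) _ (two_aux' (-η) p q hpq hs' _ _ ha' hb')

theorem wt_zero :
    ∀ z ∈ Submodule.span ℂ {w | ∃ f : Fin 4 → Φ × Bool, wt f = 0 ∧ w = mo f},
      ∃ c : Φ → Φ → ℂ, (∀ s t, c s t = c t s) ∧
        z = ∑ s, ∑ t ∈ univ.erase s, c s t • (Ds s * Ds t) := by
  intro z hz
  induction hz using Submodule.span_induction with
  | mem w hw =>
    obtain ⟨f, hf, rfl⟩ := hw
    rcases zero_aux f hf with h0 | ⟨s, t, hst, c, hc⟩
    · refine ⟨fun _ _ => 0, fun _ _ => rfl, ?_⟩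
      rw [h0]
      simp
    · refine ⟨fun u v => (if u = s ∧ v = t then c / 2 else 0) + (if v = s ∧ u = t then c / 2 else 0),
        fun u v => add_comm _ _, ?_⟩
      have h1 : ∀ a b : Φ, a ≠ b → ∑ u, ∑ v ∈ univ.erase u,
          (if u = a ∧ v = b then c / 2 else 0 : ℂ) • (Ds u * Ds v : HH Φ Unit) =
          (c / 2) • (Ds a * Ds b) := by
        intro a b hab
        rw [Finset.sum_eq_single a, Finset.sum_eq_single b, if_pos ⟨rfl, rfl⟩]
        · intro v _ hv
          rw [if_neg (fun h => hv h.2), zero_smul]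
        · intro hb
          exact absurd (mem_erase.2 ⟨hab.symm, mem_univ b⟩) hb
        · intro u _ hu
          refine Finset.sum_eq_zero fun v _ => ?_
          rw [if_neg (fun h => hu h.1), zero_smul]
        · intro ha
          exact absurd (mem_univ a) ha
      have h3 := h1 t s hst.symm
      have h4 := h1 s t hst
      have h2 : ∀ u v : Φ, (if u = t ∧ v = s then c / 2 else 0 : ℂ) =
          if v = s ∧ u = t then c / 2 else 0 := by
        intro u v
        by_cases hu : u = t <;> by_cases hv : v = s <;> simp [hu, hv]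
      simp only [h2] at h3
      simp only [add_smul, Finset.sum_add_distrib]
      rw [h4, h3, Ds_comm t s, ← add_smul, add_halves, hc]
  | zero =>
    refine ⟨fun _ _ => 0, fun _ _ => rfl, ?_⟩
    simp
  | add x y _ _ hx hy =>
    obtain ⟨c, hc, hx⟩ := hx
    obtain ⟨d, hd, hy⟩ := hy
    refine ⟨fun s t => c s t + d s t, fun s t => by simp only [hc s t, hd s t], ?_⟩
    simp only [add_smul, Finset.sum_add_distrib]
    rw [← hx, ← hy]
  | smul a x _ hx =>
    obtain ⟨c, hc, hx⟩ := hx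
    refine ⟨fun s t => a * c s t, fun s t => by simp only [hc s t], ?_⟩
    simp only [mul_smul, ← Finset.smul_sum]
    rw [← hx]

theorem wt_other (η : Φ → ZMod 3) (h4 : (univ.filter fun s => η s ≠ 0).card ≠ 4)
    (h2 : (univ.filter fun s => η s ≠ 0).card ≠ 2) (h0 : η ≠ 0) :
    ∀ z ∈ Submodule.span ℂ {w | ∃ f : Fin 4 → Φ × Bool, wt f = η ∧ w = mo f}, z = 0 := by
  have h4' : (supp η).card ≠ 4 := h4
  have h2' : (supp η).card ≠ 2 := h2
  have h0' : (supp η).card ≠ 0 := by
    intro h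
    rw [Finset.card_eq_zero] at h
    apply h0
    funext s
    by_contra hs
    have := (mem_supp η s).2 hs
    rw [h] at this
    simp at this
  intro z hz
  have hle : Submodule.span ℂ {w | ∃ f : Fin 4 → Φ × Bool, wt f = η ∧ w = mo f} ≤ ⊥ := by
    rw [Submodule.span_le]
    rintro w ⟨f, hf, rfl⟩
    change mo f = 0
    by_cases hi : Function.Injective f
    swap
    · exact mo_not_inj f hi
    exfalso
    have h1 := sum_compl hi
    have hc := compl_cases hi
    rw [hf] at h1 hc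
    have hev : Even (∑ s ∈ (supp η)ᶜ, N f s) := by
      refine Finset.even_sum _ fun s hs => ?_
      rcases hc s hs with h | h <;> rw [h]
      · exact ⟨0, rfl⟩
      · exact ⟨1, rfl⟩
    obtain ⟨r, hr⟩ := hev
    omega
  exact (Submodule.mem_bot ℂ).1 (hle hz)

end Pc0b458P
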